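import Pool.Agent.Lib.MP_5eb18a_lc.Sound

/-!
Semantic reading of the algebraic statements.
-/

namespace Pool.Agent.Lib.MP_5eb18a_lc

universe u v v' v'' w

set_option linter.unusedSectionVars false

open Classical

variable {D : Type} [PartialOrder D] [Countable D] [WellFoundedGT D]

attribute [local irreducible] cset gr ap p1 p2 enc ckey compOp extOp codeF

structure Wd (D : Type) [PartialOrder D] where
  n : ℕ
  c : Ob D
  ρ : ℕ → Vl.{u} c

def WExt (w' w : Wd.{u} D) (f : Ar w'.c w.c) : Prop :=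
  ∃ k, w'.n = w.n + k ∧ dropE k w'.ρ = resE f w.ρ

abbrev Wd.ext (w : Wd.{u} D) {c' : Ob D} (f : Ar c' w.c) (a : Vl.{u} c') : Wd.{u} D :=
  ⟨w.n + 1, c', consV a (resE f w.ρ)⟩

abbrev Wd.res (w : Wd.{u} D) {c' : Ob D} (f : Ar c' w.c) : Wd.{u} D := ⟨w.n, c', resE f w.ρ⟩

theorem WExt.refl (w : Wd.{u} D) : WExt w w (Ar.id _) := ⟨0, rfl, rfl⟩
theorem wext_ext (w : Wd.{u} D) {c' : Ob D} (f : Ar c' w.c) (a) : WExt (w.ext f a) w f :=
  ⟨1, rfl, rfl⟩
theorem wext_res (w : Wd.{u} D) {c' : Ob D} (f : Ar c' w.c) : WExt (w.res f) w f := ⟨0, rfl, rfl⟩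

theorem WExt.trans {w'' w' w : Wd.{u} D} {g f} (h : WExt w'' w' g) (h' : WExt w' w f) :
    WExt w'' w (g.comp f) := by
  obtain ⟨k, h1, h2⟩ := h
  obtain ⟨k', h1', h2'⟩ := h'
  refine ⟨k' + k, by omega, ?_⟩
  funext n
  have := congrFun h2 (n + k')
  have h3 := congrArg (Val.res g) (congrFun h2' n)
  simp only [dropE, resE_apply] at this h3 ⊢
  rw [← Nat.add_assoc, this, h3]; rfl

variable (M : Mdl.{u} D)

noncomputable def ev (t : T) (w : Wd.{u} D) : Vl.{u} w.c := I M (t w.n) w.c w.ρ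

def Den (t : T) (w : Wd.{u} D) (v : Vl.{u} w.c) : Prop :=
  ∀ w' f, WExt w' w f → ev M t w' = v.res f

def Inh (t : T) (w : Wd.{u} D) : Prop := ∃ v, v ∈ El (ev M t w)

def Tv (t : T) (w : Wd.{u} D) : Prop :=
  TrivOn (ElF (I M (t w.n))) (yon (L := EnvP D) w.ρ).im

variable {M}

theorem Den.eval {t w v} (h : Den M t w v) : ev M t w = v := h w _ (WExt.refl w)

theorem Den.ext {t w v} (h : Den M t w v) {w' f} (hw : WExt w' w f) : Den M t w' (v.res f) :=
  fun _ _ h' => h _ _ (h'.trans hw)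

theorem Den.wk {t w v} (h : Den M t w v) {c'} (f : Ar c' w.c) (a) :
    Den M t (w.ext f a) (v.res f) := h.ext (wext_ext w f a)

theorem den_V (w : Wd.{u} D) {c'} (f : Ar c' w.c) (a) : Den M (V w.n) (w.ext f a) a := by
  rintro w' g ⟨k, h1, h2⟩
  have := congrFun h2 0
  simp only [dropE, zero_add] at this
  simp only [ev, V, I_var, h1]
  rw [show w.n + 1 + k - w.n - 1 = k by omega, this]; rfl

theorem Den.ap {s t w a b} (h : Den M s w a) (h' : Den M t w b) : Den M (Ap s t) w (appV a b) :=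
  fun w' f hw => by
    have := h w' f hw
    have := h' w' f hw
    simp only [ev] at *
    simp [Ap, *]

theorem Den.ap2 {s t r w a b d} (h : Den M s w a) (h' : Den M t w b) (h'' : Den M r w d) :
    Den M (Ap2 s t r) w (appV (appV a b) d) := (h.ap h').ap h''

noncomputable def arrH : Sec.{u} (V2.{u} D) :=
  codeF (piF (ElF Hom.fst) (ElF (Hom.snd.comp Hom.fst)))

def Fn {c : Ob D} (A B F : Vl.{u} c) : Prop := F ∈ El (arrH c (A, B))

theorem fn_iff {c : Ob D} {A B F : Vl.{u} c} :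
    Fn A B F ↔ (piF (ElF Hom.fst) (ElF (Hom.snd.comp Hom.fst))).mem c ((A, B), F) :=
  mem_codeF ((ElF_bd _).pi (ElF_bd _))

@[simp] theorem arrH_res {c c' : Ob D} (f : Ar c' c) (A B : Vl.{u} c) :
    Val.res f (arrH c (A, B)) = arrH c' (A.res f, B.res f) := arrH.res_app f (A, B)

theorem Fn.res {c c' : Ob D} {A B F : Vl.{u} c} (h : Fn A B F) (f : Ar c' c) :
    Fn (A.res f) (B.res f) (F.res f) := by
  have := El.res h f
  rwa [arrH_res] at this

theorem Fn.app {c : Ob D} {A B F a : Vl.{u} c} (h : Fn A B F) (ha : a ∈ El A) : appV F a ∈ El B :=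
  piF_app (fn_iff.1 h) ha

theorem Fn.app2 {c : Ob D} {A B C F a b : Vl.{u} c} (h : Fn A (arrH c (B, C)) F) (ha : a ∈ El A)
    (hb : b ∈ El B) : appV (appV F a) b ∈ El C := Fn.app (h.app ha) hb

theorem Den.arr {s t w a b} (h : Den M s w a) (h' : Den M t w b) :
    Den M (Arr' s t) w (arrH w.c (a, b)) := by
  intro w' f hw
  rw [arrH_res]
  refine codeF_congr fun c1 g v => piF_congr (fun c2 k v => ?_) (fun c2 k x v _ => ?_) _
  · have := h _ _ ((wext_res w' (k.comp g)).trans hw)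
    simp only [ev] at this
    simp [this]
  · have := h' _ _ ((wext_ext w' (k.comp g) x).trans hw)
    simp only [ev] at this
    simp [this]

theorem ev_res (t : T) (w : Wd.{u} D) {c'} (f : Ar c' w.c) :
    ev M t (w.res f) = (ev M t w).res f := (I_res M _ f _).symm

theorem Tv.inh {t w} (h : Tv M t w) : Inh M t w := TrivOn.inh h ⟨Ar.id _, rfl⟩

theorem Inh.res {t w} (h : Inh M t w) {c'} (f : Ar c' w.c) : Inh M t (w.res f) :=
  let ⟨v, hv⟩ := h; ⟨v.res f, by rw [ev_res]; exact El.res hv f⟩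

theorem Inh.pi {A B w} (h : Inh M (Pi' A B) w) {c'} (f : Ar c' w.c) {a}
    (ha : a ∈ El ((ev M A w).res f)) : Inh M (B (V w.n)) (w.ext f a) := by
  obtain ⟨v, hv⟩ := h.res f
  rw [← ev_res] at ha
  exact ⟨_, pi_app hv ha⟩

theorem tv_pi {A B w} (h : ∀ c' (f : Ar c' w.c) a, a ∈ El ((ev M A w).res f) →
    Tv M (B (V w.n)) (w.ext f a)) : Tv M (Pi' A B) w := by
  refine TrivOn.congr (triv_pi (ElF_bd _) ?_) fun c ρ v _ => mem_pi.symm
  rintro c ⟨_, a⟩ ⟨⟨f, rfl⟩, ha⟩ φ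
  exact ExtAt.pull (A := ElF (I M (B (V w.n) (w.n + 1)))) consH (l := (resE f w.ρ, a))
    (h c f a (by rw [← ev_res]; exact ha) c _ ⟨Ar.id _, rfl⟩ φ)

theorem inh_sg {A B w} : Inh M (Sg A B) w ↔
    ∃ a ∈ El (ev M A w), Inh M (B (V w.n)) (w.ext (Ar.id _) a) :=
  ⟨fun ⟨_, hv⟩ => ⟨_, (sigma_elim hv).2.1, _, (sigma_elim hv).2.2⟩,
    fun ⟨_, ha, _, hb⟩ => ⟨_, pair_mem.2 ⟨ha, hb⟩⟩⟩

theorem Inh.mere {A w} (h : Inh M (Mere A) w) : Inh M A w := by
  obtain ⟨v, hv⟩ := h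
  obtain ⟨a, ha, -⟩ := (mem_trunc.1 hv).1
  exact ⟨a, ha⟩

theorem tv_mere {A w} (h : Inh M A w) : Tv M (Mere A) w := by
  refine TrivOn.congr (triv_trunc ?_) fun c ρ v _ => mem_trunc.symm
  rintro c _ ⟨f, rfl⟩
  exact h.res f

def Fb {c : Ob D} (A : Vl.{u} c) : Prop := FibOn (elU D) (yon (L := VZ.{u} D) A).im
def St {c : Ob D} (A : Vl.{u} c) : Prop := ∃ w, (isSetF (elU D)).mem c (A, w)
def Con {c : Ob D} (A x y : Vl.{u} c) : Prop := Conn (elU D) c A x y

theorem Fb.res {c c' : Ob D} {A : Vl.{u} c} (h : Fb A) (f : Ar c' c) : Fb (A.res f) := by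
  rintro _ _ ⟨g, rfl⟩; exact h _ _ ⟨g.comp f, rfl⟩

theorem St.res {c c' : Ob D} {A : Vl.{u} c} (h : St A) (f : Ar c' c) : St (A.res f) :=
  let ⟨w, hw⟩ := h; ⟨w.res f, (isSetF (elU D)).cl' f hw⟩

theorem IsTy.fb {P Φ} {c : Ob D} {A : Vl.{u} c} (h : IsTy P Φ A) : Fb A := by
  rintro _ _ ⟨g, rfl⟩; exact (h _ g).2.1

theorem St.setOn {c : Ob D} {A : Vl.{u} c} (h : St A) :
    SetOn (elU D) (yon (L := VZ.{u} D) A).im :=
  setOn_of_isSet (by rintro _ _ ⟨g, rfl⟩; exact h.res g)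

theorem Con.symm {c : Ob D} {A x y : Vl.{u} c} (hA : Fb A) (h : Con A x y) : Con A y x :=
  Conn.symm hA ⟨Ar.id _, rfl⟩ h

theorem Con.trans {c : Ob D} {A x y z : Vl.{u} c} (hA : Fb A) (h : Con A x y) (h' : Con A y z) :
    Con A x z := Conn.trans hA ⟨Ar.id _, rfl⟩ h h'

theorem Con.ap {c : Ob D} {A B F x y : Vl.{u} c} (hF : Fn A B F) (h : Con A x y) :
    Con B (appV F x) (appV F y) :=
  Conn.map (L := V2 D) (X := ElF Hom.fst) (l := (A, F)) (Y := elU D) (l' := B)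
    (Conn.congr h fun _ _ _ h => h)
    (Hom.appV (Hom.snd.comp Hom.fst) Hom.snd) fun _ f _ hv => (hF.res f).app hv

theorem Con.apl {c : Ob D} {A B C F x x' y : Vl.{u} c} (hF : Fn A (arrH c (B, C)) F)
    (h : Con A x x') (hy : y ∈ El B) : Con C (appV (appV F x) y) (appV (appV F x') y) :=
  Conn.map (L := V3 D) (X := ElF (Hom.fst.comp Hom.fst)) (l := ((A, F), y)) (Y := elU D) (l' := C)
    (Conn.congr h fun _ _ _ h => h)
    (Hom.appV (Hom.appV (Hom.snd.comp (Hom.fst.comp Hom.fst)) Hom.snd) (Hom.snd.comp Hom.fst))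
    fun _ f _ hv => by
      have := hF.res f
      rw [arrH_res] at this
      exact this.app2 hv (El.res hy f)

theorem inh_eq {A x y w} : Inh M (Eq' A x y) w ↔ Con (ev M A w) (ev M x w) (ev M y w) :=
  exists_congr fun _ => mem_idH

theorem tv_eq {A x y w} (hF : Fb (ev M A w)) (hS : St (ev M A w))
    (h : Con (ev M A w) (ev M x w) (ev M y w)) : Tv M (Eq' A x y) w := by
  have e : ∀ c ρ, (yon (L := EnvP D) w.ρ).im.mem c ρ →
      (yon (L := VZ.{u} D) (ev M A w)).im.mem c (I M (A w.n) c ρ) := by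
    rintro c _ ⟨f, rfl⟩; exact ⟨f, I_res M _ f _⟩
  refine TrivOn.congr (triv_path_of_set (X := ElF (I M (A w.n))) (a := I M (x w.n))
    (b := I M (y w.n)) (hF.pull _ e) (hS.setOn.pull _ e) ?_)
    fun c ρ v _ => pathU_ElF.trans mem_idH.symm
  rintro c _ ⟨f, rfl⟩
  obtain ⟨p, hp⟩ := Conn.res h f
  refine ⟨p, pathU_ElF.2 ?_⟩
  simp only [yon_app, ← I_res]
  exact hp

theorem inh_isSet {A w} : Inh M (IsSet' A) w ↔ St (ev M A w) :=
  exists_congr fun _ => mem_isSet (fun c' f v => by simp [← I_res, ev]) _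

theorem inh_and {A B w} {S S' : Prop} (h : Inh M A w ↔ S)
    (h' : S → ∀ a, Inh M B (w.ext (Ar.id _) a) ↔ S') : Inh M (And' A B) w ↔ S ∧ S' := by
  rw [And', inh_sg]
  exact ⟨fun ⟨a, ha, hb⟩ => ⟨h.1 ⟨a, ha⟩, (h' (h.1 ⟨a, ha⟩) a).1 hb⟩,
    fun ⟨h1, h2⟩ => let ⟨a, ha⟩ := h.2 h1; ⟨a, ha, (h' h1 a).2 h2⟩⟩

theorem inh_law1 {X G : T} {s t : T → T} {w x g} (hX : Den M X w x) (hG : Den M G w g)
    (hF : Fb g) (hS : St g) {sv tv : ∀ c', Ar c' w.c → Vl.{u} c' → Vl.{u} c'}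
    (hs : ∀ w' f a av, WExt w' w f → Den M a w' av → Den M (s a) w' (sv _ f av))
    (ht : ∀ w' f a av, WExt w' w f → Den M a w' av → Den M (t a) w' (tv _ f av)) :
    Inh M (Pi' X fun a => Eq' G (s a) (t a)) w ↔
      ∀ c' f a, a ∈ El (x.res f) → Con (g.res f) (sv c' f a) (tv c' f a) := by
  constructor
  · intro h c' f a ha
    have := inh_eq.1 (h.pi f (by rw [hX.eval]; exact ha))
    rwa [(hG.wk f a).eval, (hs _ f _ a (wext_ext _ _ _) (den_V _ _ _)).eval,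
      (ht _ f _ a (wext_ext _ _ _) (den_V _ _ _)).eval] at this
  · intro h
    refine Tv.inh (tv_pi fun c' f a ha => ?_)
    refine tv_eq ?_ ?_ ?_
    · rw [(hG.wk f a).eval]; exact hF.res f
    · rw [(hG.wk f a).eval]; exact hS.res f
    · rw [(hG.wk f a).eval, (hs _ f _ a (wext_ext _ _ _) (den_V _ _ _)).eval,
        (ht _ f _ a (wext_ext _ _ _) (den_V _ _ _)).eval]
      exact h c' f a (by rwa [hX.eval] at ha)

theorem inh_law2 {X Y G : T} {s t : T → T → T} {w x y g} (hX : Den M X w x) (hY : Den M Y w y)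
    (hG : Den M G w g) (hF : Fb g) (hS : St g)
    {sv tv : ∀ c', Ar c' w.c → Vl.{u} c' → Vl.{u} c' → Vl.{u} c'}
    (hs : ∀ w' f a av b bv, WExt w' w f → Den M a w' av → Den M b w' bv →
      Den M (s a b) w' (sv _ f av bv))
    (ht : ∀ w' f a av b bv, WExt w' w f → Den M a w' av → Den M b w' bv →
      Den M (t a b) w' (tv _ f av bv)) :
    Inh M (Pi' X fun a => Pi' Y fun b => Eq' G (s a b) (t a b)) w ↔
      ∀ c' f a b, a ∈ El (x.res f) → b ∈ El (y.res f) →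
        Con (g.res f) (sv c' f a b) (tv c' f a b) := by
  have hw : ∀ c1 (f : Ar c1 w.c) a c2 (k : Ar c2 c1) b,
      WExt ((w.ext f a).ext k b) w (k.comp f) := fun _ _ _ _ _ _ =>
    (wext_ext _ _ _).trans (wext_ext _ _ _)
  constructor
  · intro h c' f a b ha hb
    have := inh_eq.1 ((h.pi f (by rw [hX.eval]; exact ha)).pi (Ar.id _) (a := b)
      (by rw [(hY.wk f a).eval]; exact hb))
    rwa [(hG.ext (hw _ f a _ _ b)).eval,
      (hs _ _ _ _ _ _ (hw _ f a _ _ b) ((den_V _ _ _).wk _ _) (den_V _ _ _)).eval,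
      (ht _ _ _ _ _ _ (hw _ f a _ _ b) ((den_V _ _ _).wk _ _) (den_V _ _ _)).eval] at this
  · intro h
    refine Tv.inh (tv_pi fun c' f a ha => ?_)
    refine tv_pi fun c2 k b hb => ?_
    refine tv_eq ?_ ?_ ?_
    · rw [(hG.ext (hw _ f a _ k b)).eval]; exact hF.res _
    · rw [(hG.ext (hw _ f a _ k b)).eval]; exact hS.res _
    · rw [(hG.ext (hw _ f a _ k b)).eval,
        (hs _ _ _ _ _ _ (hw _ f a _ k b) ((den_V _ _ _).wk _ _) (den_V _ _ _)).eval,
        (ht _ _ _ _ _ _ (hw _ f a _ k b) ((den_V _ _ _).wk _ _) (den_V _ _ _)).eval]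
      rw [hX.eval] at ha
      rw [(hY.wk f a).eval] at hb
      exact h c2 _ _ _ (El.res ha k) hb

theorem inh_law3 {X Y Z G : T} {s t : T → T → T → T} {w x y z g} (hX : Den M X w x)
    (hY : Den M Y w y) (hZ : Den M Z w z) (hG : Den M G w g) (hF : Fb g) (hS : St g)
    {sv tv : ∀ c', Ar c' w.c → Vl.{u} c' → Vl.{u} c' → Vl.{u} c' → Vl.{u} c'}
    (hs : ∀ w' f a av b bv d dv, WExt w' w f → Den M a w' av → Den M b w' bv → Den M d w' dv →
      Den M (s a b d) w' (sv _ f av bv dv))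
    (ht : ∀ w' f a av b bv d dv, WExt w' w f → Den M a w' av → Den M b w' bv → Den M d w' dv →
      Den M (t a b d) w' (tv _ f av bv dv)) :
    Inh M (Pi' X fun a => Pi' Y fun b => Pi' Z fun d => Eq' G (s a b d) (t a b d)) w ↔
      ∀ c' f a b d, a ∈ El (x.res f) → b ∈ El (y.res f) → d ∈ El (z.res f) →
        Con (g.res f) (sv c' f a b d) (tv c' f a b d) := by
  have hw2 : ∀ c1 (f : Ar c1 w.c) a c2 (k : Ar c2 c1) b,
      WExt ((w.ext f a).ext k b) w (k.comp f) := fun _ _ _ _ _ _ =>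
    (wext_ext _ _ _).trans (wext_ext _ _ _)
  have hw : ∀ c1 (f : Ar c1 w.c) a c2 (k : Ar c2 c1) b c3 (j : Ar c3 c2) d,
      WExt (((w.ext f a).ext k b).ext j d) w (j.comp (k.comp f)) := fun _ _ _ _ _ _ _ _ _ =>
    (wext_ext _ _ _).trans (hw2 _ _ _ _ _ _)
  constructor
  · intro h c' f a b d ha hb hd
    have := inh_eq.1 (((h.pi f (by rw [hX.eval]; exact ha)).pi (Ar.id _) (a := b)
      (by rw [(hY.wk f a).eval]; exact hb)).pi (Ar.id _) (a := d)
      (by rw [(hZ.ext (hw2 _ f a _ _ b)).eval]; exact hd))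
    rwa [(hG.ext (hw _ f a _ _ b _ _ d)).eval,
      (hs _ _ _ _ _ _ _ _ (hw _ f a _ _ b _ _ d) (((den_V _ _ _).wk _ _).wk _ _)
        ((den_V _ _ _).wk _ _) (den_V _ _ _)).eval,
      (ht _ _ _ _ _ _ _ _ (hw _ f a _ _ b _ _ d) (((den_V _ _ _).wk _ _).wk _ _)
        ((den_V _ _ _).wk _ _) (den_V _ _ _)).eval] at this
  · intro h
    refine Tv.inh (tv_pi fun c' f a ha => ?_)
    refine tv_pi fun c2 k b hb => ?_
    refine tv_pi fun c3 j d hd => ?_
    refine tv_eq ?_ ?_ ?_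
    · rw [(hG.ext (hw _ f a _ k b _ j d)).eval]; exact hF.res _
    · rw [(hG.ext (hw _ f a _ k b _ j d)).eval]; exact hS.res _
    · rw [(hG.ext (hw _ f a _ k b _ j d)).eval,
        (hs _ _ _ _ _ _ _ _ (hw _ f a _ k b _ j d) (((den_V _ _ _).wk _ _).wk _ _)
          ((den_V _ _ _).wk _ _) (den_V _ _ _)).eval,
        (ht _ _ _ _ _ _ _ _ (hw _ f a _ k b _ j d) (((den_V _ _ _).wk _ _).wk _ _)
          ((den_V _ _ _).wk _ _) (den_V _ _ _)).eval]
      rw [hX.eval] at ha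
      rw [(hY.wk f a).eval] at hb
      rw [(hZ.ext (hw2 _ f a _ k b)).eval] at hd
      exact h c3 _ _ _ _ (El.res (El.res ha k) j) (El.res hb j) hd

/-! ### structures of values -/

def AbV {c : Ob D} (G z add neg : Vl.{u} c) : Prop :=
  St G ∧
  (∀ c' (f : Ar c' c) x y w, x ∈ El (G.res f) → y ∈ El (G.res f) → w ∈ El (G.res f) →
    Con (G.res f) (appV (appV (add.res f) (appV (appV (add.res f) x) y)) w)
      (appV (appV (add.res f) x) (appV (appV (add.res f) y) w))) ∧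
  (∀ c' (f : Ar c' c) x y, x ∈ El (G.res f) → y ∈ El (G.res f) →
    Con (G.res f) (appV (appV (add.res f) x) y) (appV (appV (add.res f) y) x)) ∧
  (∀ c' (f : Ar c' c) x, x ∈ El (G.res f) →
    Con (G.res f) (appV (appV (add.res f) (z.res f)) x) x) ∧
  ∀ c' (f : Ar c' c) x, x ∈ El (G.res f) →
    Con (G.res f) (appV (appV (add.res f) (appV (neg.res f) x)) x) (z.res f)

theorem inh_ab {G Z A N : T} {w g z a n} (hG : Den M G w g) (hZ : Den M Z w z) (hA : Den M A w a)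
    (hN : Den M N w n) (hF : Fb g) : Inh M (AbLaws G Z A N) w ↔ AbV g z a n := by
  refine inh_and (by rw [inh_isSet, hG.eval]) fun hS j1 => ?_
  have hG := hG.wk (Ar.id _) j1
  have hZ := hZ.wk (Ar.id _) j1
  have hA := hA.wk (Ar.id _) j1
  have hN := hN.wk (Ar.id _) j1
  refine inh_and (inh_law3 hG hG hG hG hF hS
    (fun w' f _ _ _ _ _ _ hw a b d => (hA.ext hw).ap2 ((hA.ext hw).ap2 a b) d)
    fun w' f _ _ _ _ _ _ hw a b d => (hA.ext hw).ap2 a ((hA.ext hw).ap2 b d)) fun _ j2 => ?_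
  have hG := hG.wk (Ar.id _) j2
  have hZ := hZ.wk (Ar.id _) j2
  have hA := hA.wk (Ar.id _) j2
  have hN := hN.wk (Ar.id _) j2
  refine inh_and (inh_law2 hG hG hG hF hS (fun w' f _ _ _ _ hw a b => (hA.ext hw).ap2 a b)
    fun w' f _ _ _ _ hw a b => (hA.ext hw).ap2 b a) fun _ j3 => ?_
  have hG := hG.wk (Ar.id _) j3
  have hZ := hZ.wk (Ar.id _) j3
  have hA := hA.wk (Ar.id _) j3
  have hN := hN.wk (Ar.id _) j3
  refine inh_and (inh_law1 hG hG hF hS (fun w' f _ _ hw a => (hA.ext hw).ap2 (hZ.ext hw) a)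
    fun w' f _ _ hw a => a) fun _ j4 => ?_
  have hG := hG.wk (Ar.id _) j4
  have hZ := hZ.wk (Ar.id _) j4
  have hA := hA.wk (Ar.id _) j4
  have hN := hN.wk (Ar.id _) j4
  exact inh_law1 hG hG hF hS (fun w' f _ _ hw a => (hA.ext hw).ap2 ((hN.ext hw).ap a) a)
    fun w' f _ _ hw a => hZ.ext hw

structure RV (c : Ob D) where
  (car zero one add mul neg : Vl.{u} c)

structure MV (c : Ob D) where
  (car zero add neg smul : Vl.{u} c)

def RV.res {c c' : Ob D} (r : RV.{u} c) (f : Ar c' c) : RV.{u} c' :=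
  ⟨r.car.res f, r.zero.res f, r.one.res f, r.add.res f, r.mul.res f, r.neg.res f⟩

def MV.res {c c' : Ob D} (r : MV.{u} c) (f : Ar c' c) : MV.{u} c' :=
  ⟨r.car.res f, r.zero.res f, r.add.res f, r.neg.res f, r.smul.res f⟩

structure DenR (M : Mdl.{u} D) (R : RingT) (w : Wd.{u} D) (r : RV.{u} w.c) : Prop where
  car : Den M R.car w r.car
  zero : Den M R.zero w r.zero
  one : Den M R.one w r.one
  add : Den M R.add w r.add
  mul : Den M R.mul w r.mul
  neg : Den M R.neg w r.neg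

structure DenM (M : Mdl.{u} D) (R : ModT) (w : Wd.{u} D) (r : MV.{u} w.c) : Prop where
  car : Den M R.car w r.car
  zero : Den M R.zero w r.zero
  add : Den M R.add w r.add
  neg : Den M R.neg w r.neg
  smul : Den M R.smul w r.smul

theorem DenR.ext {R w r} (h : DenR M R w r) {w' f} (hw : WExt w' w f) : DenR M R w' (r.res f) :=
  ⟨h.car.ext hw, h.zero.ext hw, h.one.ext hw, h.add.ext hw, h.mul.ext hw, h.neg.ext hw⟩

theorem DenM.ext {R w r} (h : DenM M R w r) {w' f} (hw : WExt w' w f) : DenM M R w' (r.res f) :=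
  ⟨h.car.ext hw, h.zero.ext hw, h.add.ext hw, h.neg.ext hw, h.smul.ext hw⟩

theorem DenR.wk {R w r} (h : DenR M R w r) (a) : DenR M R (w.ext (Ar.id _) a) r :=
  h.ext (wext_ext w _ a)

theorem DenM.wk {R w r} (h : DenM M R w r) (a) : DenM M R (w.ext (Ar.id _) a) r :=
  h.ext (wext_ext w _ a)

def RingV {c : Ob D} (r : RV.{u} c) : Prop :=
  AbV r.car r.zero r.add r.neg ∧
  (∀ c' (f : Ar c' c) x y w, x ∈ El (r.car.res f) → y ∈ El (r.car.res f) → w ∈ El (r.car.res f) →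
    Con (r.car.res f) (appV (appV (r.mul.res f) (appV (appV (r.mul.res f) x) y)) w)
      (appV (appV (r.mul.res f) x) (appV (appV (r.mul.res f) y) w))) ∧
  (∀ c' (f : Ar c' c) x, x ∈ El (r.car.res f) →
    Con (r.car.res f) (appV (appV (r.mul.res f) (r.one.res f)) x) x) ∧
  (∀ c' (f : Ar c' c) x, x ∈ El (r.car.res f) →
    Con (r.car.res f) (appV (appV (r.mul.res f) x) (r.one.res f)) x) ∧
  (∀ c' (f : Ar c' c) x y w, x ∈ El (r.car.res f) → y ∈ El (r.car.res f) → w ∈ El (r.car.res f) →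
    Con (r.car.res f) (appV (appV (r.mul.res f) x) (appV (appV (r.add.res f) y) w))
      (appV (appV (r.add.res f) (appV (appV (r.mul.res f) x) y)) (appV (appV (r.mul.res f) x) w))) ∧
  ∀ c' (f : Ar c' c) x y w, x ∈ El (r.car.res f) → y ∈ El (r.car.res f) → w ∈ El (r.car.res f) →
    Con (r.car.res f) (appV (appV (r.mul.res f) (appV (appV (r.add.res f) x) y)) w)
      (appV (appV (r.add.res f) (appV (appV (r.mul.res f) x) w)) (appV (appV (r.mul.res f) y) w))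

theorem inh_ring {R w r} (h : DenR M R w r) (hF : Fb r.car) : Inh M (RingLaws R) w ↔ RingV r := by
  refine inh_and (inh_ab h.car h.zero h.add h.neg hF) fun hS j1 => ?_
  have h := h.wk j1
  refine inh_and (inh_law3 h.car h.car h.car h.car hF hS.1
    (fun w' f _ _ _ _ _ _ hw a b d => (h.mul.ext hw).ap2 ((h.mul.ext hw).ap2 a b) d)
    fun w' f _ _ _ _ _ _ hw a b d => (h.mul.ext hw).ap2 a ((h.mul.ext hw).ap2 b d)) fun _ j2 => ?_
  have h := h.wk j2
  refine inh_and (inh_law1 h.car h.car hF hS.1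
    (fun w' f _ _ hw a => (h.mul.ext hw).ap2 (h.one.ext hw) a) fun w' f _ _ hw a => a)
    fun _ j3 => ?_
  have h := h.wk j3
  refine inh_and (inh_law1 h.car h.car hF hS.1
    (fun w' f _ _ hw a => (h.mul.ext hw).ap2 a (h.one.ext hw)) fun w' f _ _ hw a => a)
    fun _ j4 => ?_
  have h := h.wk j4
  refine inh_and (inh_law3 h.car h.car h.car h.car hF hS.1
    (fun w' f _ _ _ _ _ _ hw a b d => (h.mul.ext hw).ap2 a ((h.add.ext hw).ap2 b d))
    fun w' f _ _ _ _ _ _ hw a b d => (h.add.ext hw).ap2 ((h.mul.ext hw).ap2 a b)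
      ((h.mul.ext hw).ap2 a d)) fun _ j5 => ?_
  have h := h.wk j5
  exact inh_law3 h.car h.car h.car h.car hF hS.1
    (fun w' f _ _ _ _ _ _ hw a b d => (h.mul.ext hw).ap2 ((h.add.ext hw).ap2 a b) d)
    fun w' f _ _ _ _ _ _ hw a b d => (h.add.ext hw).ap2 ((h.mul.ext hw).ap2 a d)
      ((h.mul.ext hw).ap2 b d)

def ModV {c : Ob D} (r : RV.{u} c) (m : MV.{u} c) : Prop :=
  AbV m.car m.zero m.add m.neg ∧
  (∀ c' (f : Ar c' c) x y w, x ∈ El (r.car.res f) → y ∈ El (m.car.res f) → w ∈ El (m.car.res f) →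
    Con (m.car.res f) (appV (appV (m.smul.res f) x) (appV (appV (m.add.res f) y) w))
      (appV (appV (m.add.res f) (appV (appV (m.smul.res f) x) y)) (appV (appV (m.smul.res f) x) w))) ∧
  (∀ c' (f : Ar c' c) x y w, x ∈ El (r.car.res f) → y ∈ El (r.car.res f) → w ∈ El (m.car.res f) →
    Con (m.car.res f) (appV (appV (m.smul.res f) (appV (appV (r.add.res f) x) y)) w)
      (appV (appV (m.add.res f) (appV (appV (m.smul.res f) x) w)) (appV (appV (m.smul.res f) y) w))) ∧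
  (∀ c' (f : Ar c' c) x y w, x ∈ El (r.car.res f) → y ∈ El (r.car.res f) → w ∈ El (m.car.res f) →
    Con (m.car.res f) (appV (appV (m.smul.res f) (appV (appV (r.mul.res f) x) y)) w)
      (appV (appV (m.smul.res f) x) (appV (appV (m.smul.res f) y) w))) ∧
  ∀ c' (f : Ar c' c) x, x ∈ El (m.car.res f) →
    Con (m.car.res f) (appV (appV (m.smul.res f) (r.one.res f)) x) x

theorem inh_mod {R A w r m} (hr : DenR M R w r) (h : DenM M A w m) (hF : Fb m.car) :
    Inh M (ModLaws R A) w ↔ ModV r m := by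
  refine inh_and (inh_ab h.car h.zero h.add h.neg hF) fun hS j1 => ?_
  have h := h.wk j1
  have hr := hr.wk j1
  refine inh_and (inh_law3 hr.car h.car h.car h.car hF hS.1
    (fun w' f _ _ _ _ _ _ hw a b d => (h.smul.ext hw).ap2 a ((h.add.ext hw).ap2 b d))
    fun w' f _ _ _ _ _ _ hw a b d => (h.add.ext hw).ap2 ((h.smul.ext hw).ap2 a b)
      ((h.smul.ext hw).ap2 a d)) fun _ j2 => ?_
  have h := h.wk j2
  have hr := hr.wk j2
  refine inh_and (inh_law3 hr.car hr.car h.car h.car hF hS.1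
    (fun w' f _ _ _ _ _ _ hw a b d => (h.smul.ext hw).ap2 ((hr.add.ext hw).ap2 a b) d)
    fun w' f _ _ _ _ _ _ hw a b d => (h.add.ext hw).ap2 ((h.smul.ext hw).ap2 a d)
      ((h.smul.ext hw).ap2 b d)) fun _ j3 => ?_
  have h := h.wk j3
  have hr := hr.wk j3
  refine inh_and (inh_law3 hr.car hr.car h.car h.car hF hS.1
    (fun w' f _ _ _ _ _ _ hw a b d => (h.smul.ext hw).ap2 ((hr.mul.ext hw).ap2 a b) d)
    fun w' f _ _ _ _ _ _ hw a b d => (h.smul.ext hw).ap2 a ((h.smul.ext hw).ap2 b d))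
    fun _ j4 => ?_
  have h := h.wk j4
  have hr := hr.wk j4
  exact inh_law1 h.car h.car hF hS.1 (fun w' f _ _ hw a => (h.smul.ext hw).ap2 (hr.one.ext hw) a)
    fun w' f _ _ hw a => a

def LinV {c : Ob D} (r : RV.{u} c) (a b : MV.{u} c) (F : Vl.{u} c) : Prop :=
  (∀ c' (f : Ar c' c) x y, x ∈ El (a.car.res f) → y ∈ El (a.car.res f) →
    Con (b.car.res f) (appV (F.res f) (appV (appV (a.add.res f) x) y))
      (appV (appV (b.add.res f) (appV (F.res f) x)) (appV (F.res f) y))) ∧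
  ∀ c' (f : Ar c' c) x y, x ∈ El (r.car.res f) → y ∈ El (a.car.res f) →
    Con (b.car.res f) (appV (F.res f) (appV (appV (a.smul.res f) x) y))
      (appV (appV (b.smul.res f) x) (appV (F.res f) y))

theorem inh_lin {R A B F w r a b φ} (hr : DenR M R w r) (ha : DenM M A w a) (hb : DenM M B w b)
    (h : Den M F w φ) (hF : Fb b.car) (hS : St b.car) :
    Inh M (IsLin R A B F) w ↔ LinV r a b φ := by
  refine inh_and (inh_law2 ha.car ha.car hb.car hF hS
    (fun w' f _ _ _ _ hw x y => (h.ext hw).ap ((ha.add.ext hw).ap2 x y))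
    fun w' f _ _ _ _ hw x y => (hb.add.ext hw).ap2 ((h.ext hw).ap x) ((h.ext hw).ap y))
    fun _ j => ?_
  have h := h.wk (Ar.id _) j
  have hr := hr.wk j
  have ha := ha.wk j
  have hb := hb.wk j
  exact inh_law2 hr.car ha.car hb.car hF hS
    (fun w' f _ _ _ _ hw x y => (h.ext hw).ap ((ha.smul.ext hw).ap2 x y))
    fun w' f _ _ _ _ hw x y => (hb.smul.ext hw).ap2 x ((h.ext hw).ap y)

end Pool.Agent.Lib.MP_5eb18a_lc
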