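import Pool.Agent.Lib.MP_5eb18a_lc.Alg

/-!
Quantifiers over rings, modules and linear maps; components; discrete modules.
-/

namespace Pool.Agent.Lib.MP_5eb18a_lc

universe u v v' v'' w

set_option linter.unusedSectionVars false

open Classical

variable {D : Type} [PartialOrder D] [Countable D] [WellFoundedGT D]

attribute [local irreducible] cset gr ap p1 p2 enc ckey compOp extOp codeF

variable {M : Mdl.{u} D}

structure TyR (P : ZF.{u} → Prop) (Φ : Cls D) {c : Ob D} (r : RV.{u} c) : Prop where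
  ty : IsTy P Φ r.car
  zero : r.zero ∈ El r.car
  one : r.one ∈ El r.car
  add : Fn r.car (arrH c (r.car, r.car)) r.add
  mul : Fn r.car (arrH c (r.car, r.car)) r.mul
  neg : Fn r.car r.car r.neg
  laws : RingV r

structure TyM (P : ZF.{u} → Prop) (Φ : Cls D) {c : Ob D} (r : RV.{u} c) (m : MV.{u} c) : Prop where
  ty : IsTy P Φ m.car
  zero : m.zero ∈ El m.car
  add : Fn m.car (arrH c (m.car, m.car)) m.add
  neg : Fn m.car m.car m.neg
  smul : Fn r.car (arrH c (m.car, m.car)) m.smul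
  laws : ModV r m

theorem Fn.res2 {c c' : Ob D} {A B C F : Vl.{u} c} (h : Fn A (arrH c (B, C)) F) (f : Ar c' c) :
    Fn (A.res f) (arrH c' (B.res f, C.res f)) (F.res f) := by
  have := h.res f
  rwa [arrH_res] at this

theorem AbV.res {c c' : Ob D} {G z a n : Vl.{u} c} (h : AbV G z a n) (f : Ar c' c) :
    AbV (G.res f) (z.res f) (a.res f) (n.res f) :=
  ⟨h.1.res f, fun _ g => h.2.1 _ (g.comp f), fun _ g => h.2.2.1 _ (g.comp f),
    fun _ g => h.2.2.2.1 _ (g.comp f), fun _ g => h.2.2.2.2 _ (g.comp f)⟩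

theorem TyM.res {P Φ} {c c' : Ob D} {r : RV.{u} c} {m : MV.{u} c} (h : TyM P Φ r m) (f : Ar c' c) :
    TyM P Φ (r.res f) (m.res f) :=
  ⟨h.ty.res f, El.res h.zero f, h.add.res2 f, h.neg.res f, h.smul.res2 f, h.laws.1.res f,
    fun _ g => h.laws.2.1 _ (g.comp f), fun _ g => h.laws.2.2.1 _ (g.comp f),
    fun _ g => h.laws.2.2.2.1 _ (g.comp f), fun _ g => h.laws.2.2.2.2 _ (g.comp f)⟩

theorem LinV.res {c c' : Ob D} {r : RV.{u} c} {a b : MV.{u} c} {F} (h : LinV r a b F)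
    (f : Ar c' c) : LinV (r.res f) (a.res f) (b.res f) (F.res f) :=
  ⟨fun _ g => h.1 _ (g.comp f), fun _ g => h.2 _ (g.comp f)⟩

theorem Inh.arr {A B w} (h : Inh M (Arr' A B) w) (h' : Inh M A w) :
    ∃ a, Inh M B (w.ext (Ar.id _) a) :=
  let ⟨a, ha⟩ := h'; ⟨a, h.pi (Ar.id _) ha⟩

theorem tv_arr {A B w} (h : ∀ c' (f : Ar c' w.c) a, Inh M A (w.res f) → Tv M B (w.ext f a)) :
    Tv M (Arr' A B) w := tv_pi fun c' f a ha => h c' f a ⟨a, by rwa [ev_res]⟩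

theorem Inh.pi' {A B w x} (h : Inh M (Pi' A B) w) (hA : Den M A w x) {a} (ha : a ∈ El x) :
    Inh M (B (V w.n)) (w.ext (Ar.id _) a) := h.pi (Ar.id _) (by rwa [hA.eval])

theorem tv_pi' {A B w x} (hA : Den M A w x) (h : ∀ c' (f : Ar c' w.c) a, a ∈ El (x.res f) →
    Tv M (B (V w.n)) (w.ext f a)) : Tv M (Pi' A B) w :=
  tv_pi fun c' f a ha => h c' f a (by rwa [hA.eval] at ha)

theorem mem_U {i : ℕ} (hb : SB PT {z | M.P i z}) {w : Wd.{u} D} {c'} {f : Ar c' w.c} {a} :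
    a ∈ El ((ev M (U i) w).res f) ↔ IsTy (M.P i) (M.Φ i) a := by
  rw [← ev_res]; exact mem_univ hb

theorem Inh.allRing {i k w} (hb : SB PT {z | M.P i z}) (h : Inh M (AllRing i k) w) {r : RV.{u} w.c}
    (hr : TyR (M.P i) (M.Φ i) r) : ∃ n ρ R, WExt ⟨n, w.c, ρ⟩ w (Ar.id _) ∧
      DenR M R ⟨n, w.c, ρ⟩ r ∧ Inh M (k R) ⟨n, w.c, ρ⟩ := by
  have h1 := h.pi (Ar.id _) ((mem_U hb).2 hr.ty)
  have d1 := den_V (M := M) w (Ar.id _) r.car
  have h2 := h1.pi' d1 hr.zero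
  have d1 := d1.wk (Ar.id _) r.zero
  have d2 := den_V (M := M) (w.ext (Ar.id _) r.car) (Ar.id _) r.zero
  have h3 := h2.pi' d1 hr.one
  have d3 := den_V (M := M) ((w.ext (Ar.id _) r.car).ext (Ar.id _) r.zero) (Ar.id _) r.one
  have d1 := d1.wk (Ar.id _) r.one
  have d2 := d2.wk (Ar.id _) r.one
  have h4 := h3.pi' (d1.arr (d1.arr d1)) hr.add
  have d4 := den_V (M := M) (((w.ext (Ar.id _) r.car).ext (Ar.id _) r.zero).ext (Ar.id _) r.one)
    (Ar.id _) r.add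
  have d1 := d1.wk (Ar.id _) r.add
  have d2 := d2.wk (Ar.id _) r.add
  have d3 := d3.wk (Ar.id _) r.add
  have h5 := h4.pi' (d1.arr (d1.arr d1)) hr.mul
  have d5 := den_V (M := M) ((((w.ext (Ar.id _) r.car).ext (Ar.id _) r.zero).ext (Ar.id _)
    r.one).ext (Ar.id _) r.add) (Ar.id _) r.mul
  have d1 := d1.wk (Ar.id _) r.mul
  have d2 := d2.wk (Ar.id _) r.mul
  have d3 := d3.wk (Ar.id _) r.mul
  have d4 := d4.wk (Ar.id _) r.mul
  have h6 := h5.pi' (d1.arr d1) hr.neg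
  have d6 := den_V (M := M) (((((w.ext (Ar.id _) r.car).ext (Ar.id _) r.zero).ext (Ar.id _)
    r.one).ext (Ar.id _) r.add).ext (Ar.id _) r.mul) (Ar.id _) r.neg
  have d1 := d1.wk (Ar.id _) r.neg
  have d2 := d2.wk (Ar.id _) r.neg
  have d3 := d3.wk (Ar.id _) r.neg
  have d4 := d4.wk (Ar.id _) r.neg
  have d5 := d5.wk (Ar.id _) r.neg
  have d := DenR.mk (R := ⟨_, _, _, _, _, _⟩) (r := ⟨_, _, _, _, _, _⟩) d1 d2 d3 d4 d5 d6
  obtain ⟨a, h7⟩ := h6.arr ((inh_ring d hr.ty.fb).2 hr.laws)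
  exact ⟨_, _, _, ⟨7, rfl, rfl⟩, d.wk a, h7⟩

theorem Inh.allMod {i R k w} (hb : SB PT {z | M.P i z}) (h : Inh M (AllMod i R k) w)
    {r : RV.{u} w.c} (hr : DenR M R w r) {m : MV.{u} w.c} (hm : TyM (M.P i) (M.Φ i) r m) :
    ∃ n ρ A, WExt ⟨n, w.c, ρ⟩ w (Ar.id _) ∧ DenM M A ⟨n, w.c, ρ⟩ m ∧ Inh M (k A) ⟨n, w.c, ρ⟩ := by
  have h1 := h.pi (Ar.id _) ((mem_U hb).2 hm.ty)
  have d1 := den_V (M := M) w (Ar.id _) m.car
  have h2 := h1.pi' d1 hm.zero
  have d1 := d1.wk (Ar.id _) m.zero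
  have d2 := den_V (M := M) (w.ext (Ar.id _) m.car) (Ar.id _) m.zero
  have h3 := h2.pi' (d1.arr (d1.arr d1)) hm.add
  have d3 := den_V (M := M) ((w.ext (Ar.id _) m.car).ext (Ar.id _) m.zero) (Ar.id _) m.add
  have d1 := d1.wk (Ar.id _) m.add
  have d2 := d2.wk (Ar.id _) m.add
  have h4 := h3.pi' (d1.arr d1) hm.neg
  have d4 := den_V (M := M) (((w.ext (Ar.id _) m.car).ext (Ar.id _) m.zero).ext (Ar.id _) m.add)
    (Ar.id _) m.neg
  have d1 := d1.wk (Ar.id _) m.neg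
  have d2 := d2.wk (Ar.id _) m.neg
  have d3 := d3.wk (Ar.id _) m.neg
  have hr := (((hr.wk m.car).wk m.zero).wk m.add).wk m.neg
  have h5 := h4.pi' (hr.car.arr (d1.arr d1)) hm.smul
  have d5 := den_V (M := M) ((((w.ext (Ar.id _) m.car).ext (Ar.id _) m.zero).ext (Ar.id _)
    m.add).ext (Ar.id _) m.neg) (Ar.id _) m.smul
  have d1 := d1.wk (Ar.id _) m.smul
  have d2 := d2.wk (Ar.id _) m.smul
  have d3 := d3.wk (Ar.id _) m.smul
  have d4 := d4.wk (Ar.id _) m.smul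
  have d := DenM.mk (R := ⟨_, _, _, _, _⟩) (r := ⟨_, _, _, _, _⟩) d1 d2 d3 d4 d5
  obtain ⟨a, h7⟩ := h5.arr ((inh_mod (hr.wk _) d hm.ty.fb).2 hm.laws)
  exact ⟨_, _, _, ⟨6, rfl, rfl⟩, d.wk a, h7⟩

theorem tv_allMod {i R k w} (hb : SB PT {z | M.P i z}) {r : RV.{u} w.c} (hr : DenR M R w r)
    (h : ∀ w' f A m, WExt w' w f → DenM M A w' m → TyM (M.P i) (M.Φ i) (r.res f) m →
      Tv M (k A) w') : Tv M (AllMod i R k) w := by
  refine tv_pi fun c1 f1 car h1 => ?_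
  have h1 := (mem_U hb).1 h1
  have d1 := den_V (M := M) w f1 car
  have e1 := wext_ext w f1 car
  refine tv_pi' d1 fun c2 f2 z h2 => ?_
  have d2 := den_V (M := M) (w.ext f1 car) f2 z
  have d1 := d1.wk f2 z
  have e1 := (wext_ext (w.ext f1 car) f2 z).trans e1
  refine tv_pi' (d1.arr (d1.arr d1)) fun c3 f3 ad h3 => ?_
  have d3 := den_V (M := M) ((w.ext f1 car).ext f2 z) f3 ad
  have d1 := d1.wk f3 ad
  have d2 := d2.wk f3 ad
  have e1 := (wext_ext ((w.ext f1 car).ext f2 z) f3 ad).trans e1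
  refine tv_pi' (d1.arr d1) fun c4 f4 ng h4 => ?_
  have d4 := den_V (M := M) (((w.ext f1 car).ext f2 z).ext f3 ad) f4 ng
  have d1 := d1.wk f4 ng
  have d2 := d2.wk f4 ng
  have d3 := d3.wk f4 ng
  have e1 := (wext_ext (((w.ext f1 car).ext f2 z).ext f3 ad) f4 ng).trans e1
  refine tv_pi' ((hr.ext e1).car.arr (d1.arr d1)) fun c5 f5 sm h5 => ?_
  have d5 := den_V (M := M) ((((w.ext f1 car).ext f2 z).ext f3 ad).ext f4 ng) f5 sm
  have e1 := (wext_ext ((((w.ext f1 car).ext f2 z).ext f3 ad).ext f4 ng) f5 sm).trans e1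
  have d : DenM M ⟨_, _, _, _, _⟩ _ ⟨_, _, _, _, _⟩ :=
    ⟨d1.wk f5 sm, d2.wk f5 sm, d3.wk f5 sm, d4.wk f5 sm, d5⟩
  refine tv_arr fun c6 f6 j h6 => ?_
  have h1 := (((h1.res f2).res f3).res f4).res f5
  refine h _ _ _ _ ((wext_ext _ f6 j).trans e1) (d.ext (wext_ext _ f6 j)) ⟨h1.res f6,
    El.res (El.res (El.res (El.res h2 f3) f4) f5) f6, ?_, ?_, ?_,
    (inh_mod (hr.ext ((wext_res _ f6).trans e1)) (d.ext (wext_res _ f6)) (h1.res f6).fb).1 h6⟩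
  · rw [arrH_res, arrH_res] at h3
    exact ((Fn.res2 h3 f4).res2 f5).res2 f6
  · rw [arrH_res] at h4
    exact (Fn.res h4 f5).res f6
  · rw [arrH_res, arrH_res] at h5
    exact Fn.res2 h5 f6

theorem Inh.allLin {R A B k w r a b F} (h : Inh M (AllLin R A B k) w) (hr : DenR M R w r)
    (ha : DenM M A w a) (hb : DenM M B w b) (hF : Fb b.car) (hS : St b.car)
    (h1 : Fn a.car b.car F) (h2 : LinV r a b F) :
    ∃ n ρ φ, WExt ⟨n, w.c, ρ⟩ w (Ar.id _) ∧ Den M φ ⟨n, w.c, ρ⟩ F ∧ Inh M (k φ) ⟨n, w.c, ρ⟩ := by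
  have h3 := h.pi' (ha.car.arr hb.car) h1
  have d := den_V (M := M) w (Ar.id _) F
  obtain ⟨j, h4⟩ := h3.arr ((inh_lin (hr.wk F) (ha.wk F) (hb.wk F) d hF hS).2 h2)
  exact ⟨_, _, _, ⟨2, rfl, rfl⟩, d.wk (Ar.id _) j, h4⟩

theorem tv_allLin {R A B k w r a b} (hr : DenR M R w r) (ha : DenM M A w a) (hb : DenM M B w b)
    (hF : Fb b.car) (hS : St b.car)
    (h : ∀ w' f φ F, WExt w' w f → Den M φ w' F → Fn (a.car.res f) (b.car.res f) F →
      LinV (r.res f) (a.res f) (b.res f) F → Tv M (k φ) w') : Tv M (AllLin R A B k) w := by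
  refine tv_pi' (ha.car.arr hb.car) fun c1 f1 F h1 => ?_
  rw [arrH_res] at h1
  have d := den_V (M := M) w f1 F
  refine tv_arr fun c2 f2 j h2 => ?_
  have e := (wext_res _ f2).trans (wext_ext w f1 F)
  exact h _ _ _ _ ((wext_ext _ f2 j).trans (wext_ext w f1 F)) (d.wk f2 j) (Fn.res h1 f2)
    ((inh_lin (hr.ext e) (ha.ext e) (hb.ext e) (d.ext (wext_res _ f2)) (hF.res _) (hS.res _)).1 h2)

theorem Inh.exLin {R A B k w a b} (h : Inh M (ExLin R A B k) w) (ha : DenM M A w a)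
    (hb : DenM M B w b) : ∃ F, Fn a.car b.car F ∧
      ∃ n ρ φ, WExt ⟨n, w.c, ρ⟩ w (Ar.id _) ∧ Den M φ ⟨n, w.c, ρ⟩ F ∧ Inh M (k φ) ⟨n, w.c, ρ⟩ := by
  obtain ⟨F, h1, h2⟩ := inh_sg.1 h.mere
  rw [(ha.car.arr hb.car).eval] at h1
  obtain ⟨j, -, h3⟩ := inh_sg.1 h2
  exact ⟨F, h1, _, _, _, ⟨2, rfl, rfl⟩, (den_V w (Ar.id _) F).wk (Ar.id _) j, h3⟩

theorem tv_exLin {R A B k w r a b F} (hr : DenR M R w r) (ha : DenM M A w a) (hb : DenM M B w b)
    (hF : Fb b.car) (hS : St b.car) (h1 : Fn a.car b.car F) (h2 : LinV r a b F)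
    (h : ∀ n ρ φ, WExt ⟨n, w.c, ρ⟩ w (Ar.id _) → Den M φ ⟨n, w.c, ρ⟩ F → Inh M (k φ) ⟨n, w.c, ρ⟩) :
    Tv M (ExLin R A B k) w := by
  refine tv_mere (inh_sg.2 ⟨F, by rw [(ha.car.arr hb.car).eval]; exact h1, ?_⟩)
  have d := den_V (M := M) w (Ar.id _) F
  obtain ⟨j, hj⟩ := (inh_lin (hr.wk F) (ha.wk F) (hb.wk F) d hF hS).2 h2
  exact inh_sg.2 ⟨j, hj, h _ _ _ ⟨2, rfl, rfl⟩ (d.wk (Ar.id _) j)⟩

theorem inh_surj {A B E w a b e} (ha : Den M A w a) (hb : Den M B w b) (he : Den M E w e) :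
    Inh M (Surj A B E) w ↔ ∀ c' (f : Ar c' w.c) y, y ∈ El (b.res f) →
      ∃ x ∈ El (a.res f), Con (b.res f) (appV (e.res f) x) y := by
  have key : ∀ c' (f : Ar c' w.c) y, Inh M (Sg A fun a => Eq' B (Ap E a) (V w.n)) (w.ext f y) ↔
      ∃ x ∈ El (a.res f), Con (b.res f) (appV (e.res f) x) y := by
    intro c' f y
    rw [inh_sg, (ha.wk f y).eval]
    refine exists_congr fun x => and_congr_right fun _ => ?_
    rw [inh_eq, ((hb.wk f y).wk _ x).eval, (((he.wk f y).wk _ x).ap (den_V _ _ _)).eval,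
      ((den_V _ _ _).wk _ _).eval]
    rfl
  constructor
  · intro h c' f y hy
    exact (key c' f y).1 (h.pi f (by rwa [hb.eval])).mere
  · intro h
    refine Tv.inh (tv_pi' hb fun c' f y hy => ?_)
    exact tv_mere ((key c' f y).2 (h c' f y hy))

theorem inh_inj {A B E w a b e} (ha : Den M A w a) (hb : Den M B w b) (he : Den M E w e)
    (hF : Fb a) (hS : St a) :
    Inh M (Inj A B E) w ↔ ∀ c' (f : Ar c' w.c) x y, x ∈ El (a.res f) → y ∈ El (a.res f) →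
      Con (b.res f) (appV (e.res f) x) (appV (e.res f) y) → Con (a.res f) x y := by
  constructor
  · intro h c' f x y hx hy hc
    have h1 := (h.pi f (by rwa [ha.eval])).pi' (ha.wk f x) hy
    obtain ⟨j, h2⟩ := h1.arr (inh_eq.2 (by
      rw [((hb.wk f x).wk _ y).eval, (((he.wk f x).wk _ y).ap ((den_V _ _ _).wk _ _)).eval,
        (((he.wk f x).wk _ y).ap (den_V _ _ _)).eval]
      exact hc))
    have := inh_eq.1 h2
    rwa [(((ha.wk f x).wk _ y).wk _ j).eval, (((den_V _ _ _).wk _ _).wk _ _).eval,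
      ((den_V _ _ _).wk _ _).eval] at this
  · intro h
    refine Tv.inh (tv_pi' ha fun c1 f x hx => ?_)
    refine tv_pi' (ha.wk f x) fun c2 g y hy => ?_
    refine tv_arr fun c3 k j hj => ?_
    have h2 := inh_eq.1 hj
    rw [ev_res, ev_res, ev_res, ((hb.wk f x).wk _ y).eval,
      (((he.wk f x).wk _ y).ap ((den_V _ _ _).wk _ _)).eval,
      (((he.wk f x).wk _ y).ap (den_V _ _ _)).eval] at h2
    refine tv_eq ?_ ?_ ?_
    · rw [(((ha.wk f x).wk _ y).wk _ j).eval]; exact hF.res (k.comp (g.comp f))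
    · rw [(((ha.wk f x).wk _ y).wk _ j).eval]; exact hS.res (k.comp (g.comp f))
    · rw [(((ha.wk f x).wk _ y).wk _ j).eval, (((den_V _ _ _).wk _ _).wk _ _).eval,
        ((den_V _ _ _).wk _ _).eval]
      exact h c3 (k.comp (g.comp f)) _ _ (El.res (El.res hx g) k) (El.res hy k) h2

/-! ### discrete types -/

section disc
variable {X Y Z : Type} [Countable X] [Countable Y] [Countable Z]

noncomputable def kv (c : Ob D) (x : X) : Vl.{u} c := cstV c (ckey X x)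

@[simp] theorem kv_res {c c' : Ob D} (f : Ar c' c) (x : X) : (kv.{u} c x).res f = kv c' x := rfl

theorem kv_inj {c : Ob D} {x y : X} (h : kv.{u} c x = kv c y) : x = y := ckey_inj X (cstV_inj h)

def dF (L : Psh.{v} D) (S : D →o Set X) : Fm.{u} L :=
  discF L (fun y => ckey X '' S y) fun _ _ h => Set.image_mono (S.mono h)

theorem dF_mem {L : Psh.{v} D} {S : D →o Set X} {c} {l : L.obj c} {v} :
    (dF L S).mem c (l, v) ↔ ∃ x ∈ S c.x, v = kv c x :=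
  ⟨fun ⟨_, ⟨x, hx, h⟩, h'⟩ => ⟨x, hx, h'.trans (h ▸ rfl)⟩, fun ⟨x, hx, h⟩ => ⟨_, ⟨x, hx, rfl⟩, h⟩⟩

theorem dF_bd (L : Psh.{v} D) (S : D →o Set X) : (dF.{u} L S).Bd :=
  sm_disc gu_top (fun _ => gu_top.SB_ckey _ _) _

noncomputable def dV (S : D →o Set X) (c : Ob D) : Vl.{u} c := codeF (dF (One.{u} D) S) c PUnit.unit

@[simp] theorem dV_res (S : D →o Set X) {c c' : Ob D} (f : Ar c' c) :
    (dV.{u} S c).res f = dV S c' := Hom.res_app _ f _

theorem mem_dV {S : D →o Set X} {c : Ob D} {v : Vl.{u} c} :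
    v ∈ El (dV S c) ↔ ∃ x ∈ S c.x, v = kv c x := (mem_codeF (dF_bd _ _)).trans dF_mem

theorem kv_mem {S : D →o Set X} {c : Ob D} {x} (h : x ∈ S c.x) : kv.{u} c x ∈ El (dV S c) :=
  mem_dV.2 ⟨x, h, rfl⟩

theorem isTy_dV {P : ZF.{u} → Prop} (hP : GU P) {Φ : Cls D} (hΦ : Clo.{u} Φ) {S : D →o Set X}
    (h : ∀ c c0 (m : Ar c0 c), (yon (L := yo c) m).im ∈ Φ c → S c0.x ⊆ S c.x) (c : Ob D) :
    IsTy P Φ (dV S c) := by
  refine isTy_codeF hP (dF_bd _ _) (Q := Sub.top _) ⟨sm_disc hP (fun _ => hP.SB_ckey _ _) _,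
    fib_disc _ _ _, good_cov hΦ ?_ ?_⟩ trivial
  · intro c l c0 m s0 _ _ hm hs
    obtain ⟨x, hx, rfl⟩ := dF_mem.1 hs
    exact ⟨kv c x, dF_mem.2 ⟨x, h c c0 m hm hx, rfl⟩, rfl⟩
  · intro c l c0 m s s' _ _ _ hs hs' e
    obtain ⟨x, -, rfl⟩ := dF_mem.1 hs
    obtain ⟨y, -, rfl⟩ := dF_mem.1 hs'
    rw [kv_inj e]

theorem disc_path {S : D →o Set X} {c : Ob D} {a b p : Vl.{u} c} (h : PathV (dV S c) a b p) :
    a = b ∧ p = rfV a := by
  have h1 : ∀ c' (f : Ar c' c) r, atV (p.res f) r ∈ El (dV S c') := fun c' f r => by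
    simpa using h.2.1 c' f r
  have := cyl_reflect (eqS (Hom.atV ((yon (L := VZ.{u} D) p).comp Hom.fst) Hom.snd)
    ((yon (L := VZ.{u} D) a).comp Hom.fst)) (Sub.top _) false
    (fun c' f _ => congrArg (Val.res f) h.2.2.1) fun c' z e _ h' => by
      obtain ⟨x, -, hx⟩ := mem_dV.1 (h1 c' z.1 z.2)
      obtain ⟨y, -, hy⟩ := mem_dV.1 (h1 c' z.1 (Iv.pt c' false))
      have e1 : a.res z.1 = kv c' y := (congrArg (Val.res z.1) h.2.2.1).symm.trans hy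
      have e2 : Val.res (vtxE c' e) (atV (p.res z.1) z.2) = Val.res (vtxE c' e) (a.res z.1) := h'
      rw [hx, e1] at e2
      show atV (p.res z.1) z.2 = a.res z.1
      rw [hx, e1, kv_inj e2]
  refine ⟨(this c (Ar.id c, Iv.pt c true) trivial).symm.trans h.2.2.2,
    h.1.ext (plam_isPath _ _) fun c' f r => ?_⟩
  rw [rfV_res, at_rfV]
  exact this c' (f, r) trivial

theorem con_disc {S : D →o Set X} {c : Ob D} {a b : Vl.{u} c} (h : Con (dV S c) a b) : a = b :=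
  let ⟨_, hp⟩ := h; (disc_path hp).1

theorem st_dV (S : D →o Set X) (c : Ob D) : St (dV.{u} S c) := by
  let T : Sec.{u} (One.{u} D) := codeF (dF (One.{u} D) S)
  have h : TrivOn (isSetF (ElF T)) (Sub.top _) := by
    refine triv_pi (ElF_bd _) (triv_pi ((ElF_bd _).pull _) (triv_isProp (ElF_bd _).pathU
      (triv_pathU (P := (((Sub.top _).ext' (ElF T)).ext' ((ElF T).pull Hom.fst)).and
        (eqS (Hom.snd.comp Hom.fst) Hom.snd)) ?_ |>.mono ?_)))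
    · rintro c ⟨⟨l, a⟩, b⟩ ⟨⟨⟨-, ha⟩, -⟩, hb⟩ φ s hs
      obtain rfl : a = b := hb
      refine ⟨(Hom.reflV (Hom.id _)).comp (yon (L := VZ.{u} D) a), fun c' f h h' => ?_,
        fun c' f _ => rfV_mem ((ElF T).cl' f ha)⟩
      exact (disc_path (S := S) (pathU_ElF.1 (hs c' f h h'))).2.symm
    · rintro c ⟨⟨⟨⟨l, a⟩, b⟩, p⟩, q⟩ ⟨⟨h1, h2⟩, h3⟩
      exact ⟨⟨⟨h1, (disc_path (S := S) (pathU_ElF.1 h2)).1⟩, h2⟩, h3⟩
  obtain ⟨w, hw⟩ := h.inh (c := c) (l := PUnit.unit) trivial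
  refine ⟨w, (isSetF_congr (fun c' f v => ?_) _).1 hw⟩
  show v ∈ El (dV S c') ↔ v ∈ El ((dV S c).res f)
  rw [dV_res]

variable [Nonempty X] [Nonempty Y]

noncomputable def dec (X : Type) [Countable X] [Nonempty X] {c : Ob D} (v : Vl.{u} c) : X :=
  Function.invFun (ckey X) (Val.hd v)

@[simp] theorem dec_kv {c : Ob D} (x : X) : dec X (kv.{u} c x) = x :=
  Function.leftInverse_invFun (ckey_inj X) x

noncomputable def dfun (S : D →o Set X) (φ : D → X → Y) (c : Ob D) : Vl.{u} c :=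
  lamH (dF (One.{u} D) S) (ofHead fun c p => ckey Y (φ c.x (dec X p.2))) c PUnit.unit

@[simp] theorem dfun_res (S : D →o Set X) (φ : D → X → Y) {c c' : Ob D} (f : Ar c' c) :
    (dfun.{u} S φ c).res f = dfun S φ c' := Hom.res_app _ f _

theorem app_dfun {S : D →o Set X} {φ : D → X → Y}
    (hφ : ∀ y y' x, y ≤ y' → x ∈ S y → φ y' x = φ y x) {c : Ob D} {x} (hx : x ∈ S c.x) :
    appV (dfun.{u} S φ c) (kv c x) = kv c (φ c.x x) := by
  rw [dfun, app_lamH (dF_bd _ _) (dF_mem.2 ⟨x, hx, rfl⟩)]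
  apply ofHead_eq
  intro c' g
  simp only [kv_res, dec_kv, hφ _ _ x g.le hx]
  rfl

theorem fn_dfun {S : D →o Set X} {S' : D →o Set Y} {φ : D → X → Y}
    (hφ : ∀ y y' x, y ≤ y' → x ∈ S y → φ y' x = φ y x) (h : ∀ y x, x ∈ S y → φ y x ∈ S' y)
    (c : Ob D) : Fn (dV.{u} S c) (dV S' c) (dfun S φ c) := by
  have := lamH_mem (dF_bd (One.{u} D) S) (B := dF _ S') (c := c) (l := PUnit.unit)
    (b := ofHead fun c p => ckey Y (φ c.x (dec X p.2))) fun c' f a ha => by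
      obtain ⟨x, hx, rfl⟩ := dF_mem.1 ha
      have := app_dfun.{u} hφ hx
      exact dF_mem.2 ⟨_, h _ x hx, (app_lamH (dF_bd (One.{u} D) S) ha).symm.trans this⟩
  refine fn_iff.2 ((piF_congr (fun c' f v => ?_) (fun c' f a b _ => ?_) _).1 this)
  · refine dF_mem.trans ?_
    simp [mem_dV]
  · refine dF_mem.trans ?_
    simp [mem_dV]

noncomputable def dfun2 (S : D →o Set X) (S' : D →o Set Y) (φ : X → Y → Z) (c : Ob D) :
    Vl.{u} c :=
  lamH (dF (One.{u} D) S) (lamH (dF _ S') (ofHead fun _ p => ckey Z (φ (dec X p.1.2) (dec Y p.2)))) c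
    PUnit.unit

@[simp] theorem dfun2_res (S : D →o Set X) (S' : D →o Set Y) (φ : X → Y → Z) {c c' : Ob D}
    (f : Ar c' c) : (dfun2.{u} S S' φ c).res f = dfun2 S S' φ c' := Hom.res_app _ f _

theorem app_dfun2 {S : D →o Set X} {S' : D →o Set Y} {φ : X → Y → Z} {c : Ob D} {x y}
    (hx : x ∈ S c.x) (hy : y ∈ S' c.x) :
    appV (appV (dfun2.{u} S S' φ c) (kv c x)) (kv c y) = kv c (φ x y) := by
  rw [dfun2, app_lamH (dF_bd _ _) (dF_mem.2 ⟨x, hx, rfl⟩),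
    app_lamH (dF_bd _ _) (dF_mem.2 ⟨y, hy, rfl⟩)]
  apply ofHead_eq
  intro c' g
  simp only [kv_res, dec_kv]
  rfl

theorem fn_dfun2 {S : D →o Set X} {S' : D →o Set Y} {S'' : D →o Set Z} {φ : X → Y → Z}
    (h : ∀ d x y, x ∈ S d → y ∈ S' d → φ x y ∈ S'' d) (c : Ob D) :
    Fn (dV.{u} S c) (arrH c (dV S' c, dV S'' c)) (dfun2 S S' φ c) := by
  have := lamH_mem (dF_bd (One.{u} D) S) (B := piF (dF _ S') (dF _ S'')) (c := c) (l := PUnit.unit)
    (b := lamH (dF _ S') (ofHead fun _ p => ckey Z (φ (dec X p.1.2) (dec Y p.2))))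
    fun c' f a ha => lamH_mem (dF_bd _ _) fun c'' g b hb => by
      obtain ⟨x, hx, rfl⟩ := dF_mem.1 ha
      obtain ⟨y, hy, rfl⟩ := dF_mem.1 hb
      refine dF_mem.2 ⟨_, h _ x y (S.mono g.le hx) hy, ?_⟩
      apply ofHead_eq
      intro c3 k
      simp only [kv_res, dec_kv]
      rfl
  refine fn_iff.2 ((piF_congr (fun c' f v => ?_) (fun c' f a b _ => ?_) _).1 this)
  · refine dF_mem.trans ?_
    simp [mem_dV]
  · show _ ↔ b ∈ El (Val.res f (arrH c (dV S' c, dV S'' c)))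
    rw [arrH_res, dV_res, dV_res]
    refine Iff.trans ?_ fn_iff.symm
    refine piF_congr (fun c' f v => ?_) (fun c' f a b _ => ?_) _
    · refine dF_mem.trans ?_
      simp [mem_dV]
    · refine dF_mem.trans ?_
      simp [mem_dV]

end disc

end Pool.Agent.Lib.MP_5eb18a_lc
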