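import Pool.Agent.Lib.MP_5eb18a_lc.Alg2

/-!
Discrete modules over the field with two elements; value-level projectivity and injectivity.
-/

namespace Pool.Agent.Lib.MP_5eb18a_lc

universe u v v' v'' w

set_option linter.unusedSectionVars false

open Classical

variable {D : Type} [PartialOrder D] [Countable D] [WellFoundedGT D]

attribute [local irreducible] cset gr ap p1 p2 enc ckey compOp extOp codeF

variable {M : Mdl.{u} D}

abbrev F2 := ZMod 2

def cU (D : Type) [PartialOrder D] (X : Type) : D →o Set X := ⟨fun _ => Set.univ, monotone_const⟩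

theorem cU_mem {X : Type} (d : D) (x : X) : x ∈ cU D X d := trivial

theorem con_kv {X : Type} [Countable X] {S : D →o Set X} {c : Ob D} {x y : X} (hx : x ∈ S c.x)
    (h : x = y) : Con (dV.{u} S c) (kv c x) (kv c y) := h ▸ Conn.refl (kv_mem hx)

noncomputable def rF (c : Ob D) : RV.{u} c :=
  ⟨dV (cU D F2) c, kv c (0 : F2), kv c (1 : F2), dfun2 (cU D F2) (cU D F2) (· + ·) c,
    dfun2 (cU D F2) (cU D F2) (· * ·) c, dfun (cU D F2) (fun _ x => -x) c⟩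

@[simp] theorem rF_res {c c' : Ob D} (f : Ar c' c) : (rF.{u} c).res f = rF c' := by
  simp [rF, RV.res]

section dm
variable {X Y : Type} [Countable X] [Countable Y] [AddCommGroup X] [Module F2 X] [AddCommGroup Y]
  [Module F2 Y]

noncomputable def dM (S : D →o Set X) (c : Ob D) : MV.{u} c :=
  ⟨dV S c, kv c (0 : X), dfun2 S S (· + ·) c, dfun S (fun _ x => -x) c,
    dfun2 (cU D F2) S (· • ·) c⟩

@[simp] theorem dM_res (S : D →o Set X) {c c' : Ob D} (f : Ar c' c) :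
    (dM.{u} S c).res f = dM S c' := by
  simp [dM, MV.res]

structure SubM (S : D →o Set X) : Prop where
  zero : ∀ d, 0 ∈ S d
  add : ∀ d x y, x ∈ S d → y ∈ S d → x + y ∈ S d
  neg : ∀ d x, x ∈ S d → -x ∈ S d
  smul : ∀ d (r : F2) x, x ∈ S d → r • x ∈ S d

theorem subM_univ : SubM (cU D X) :=
  ⟨fun _ => trivial, fun _ _ _ _ _ => trivial, fun _ _ _ => trivial, fun _ _ _ _ => trivial⟩

theorem ab_disc {S : D →o Set X} (h : SubM S) (c : Ob D) :
    AbV (dV.{u} S c) (kv c (0 : X)) (dfun2 S S (· + ·) c) (dfun S (fun _ x => -x) c) := by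
  refine ⟨st_dV _ _, fun c' f x y z hx hy hz => ?_, fun c' f x y hx hy => ?_, fun c' f x hx => ?_,
    fun c' f x hx => ?_⟩
  · simp only [dV_res, dfun2_res] at *
    replace hx := mem_dV.1 hx
    obtain ⟨x, hx, rfl⟩ := hx
    replace hy := mem_dV.1 hy
    obtain ⟨y, hy, rfl⟩ := hy
    replace hz := mem_dV.1 hz
    obtain ⟨z, hz, rfl⟩ := hz
    rw [app_dfun2 hx hy, app_dfun2 hy hz, app_dfun2 (h.add _ _ _ hx hy) hz,
      app_dfun2 hx (h.add _ _ _ hy hz)]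
    exact con_kv (h.add _ _ _ (h.add _ _ _ hx hy) hz) (add_assoc _ _ _)
  · simp only [dV_res, dfun2_res] at *
    replace hx := mem_dV.1 hx
    obtain ⟨x, hx, rfl⟩ := hx
    replace hy := mem_dV.1 hy
    obtain ⟨y, hy, rfl⟩ := hy
    rw [app_dfun2 hx hy, app_dfun2 hy hx]
    exact con_kv (h.add _ _ _ hx hy) (add_comm _ _)
  · simp only [dV_res, dfun2_res, kv_res] at *
    replace hx := mem_dV.1 hx
    obtain ⟨x, hx, rfl⟩ := hx
    rw [app_dfun2 (h.zero _) hx]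
    exact con_kv (h.add _ _ _ (h.zero _) hx) (zero_add _)
  · simp only [dV_res, dfun2_res, kv_res, dfun_res] at *
    replace hx := mem_dV.1 hx
    obtain ⟨x, hx, rfl⟩ := hx
    rw [app_dfun (fun _ _ _ _ _ => rfl) hx, app_dfun2 (h.neg _ _ hx) hx]
    exact con_kv (h.add _ _ _ (h.neg _ _ hx) hx) (neg_add_cancel _)

theorem tyM_dM {P : ZF.{u} → Prop} {Φ : Cls D} {S : D →o Set X} (h : SubM S) {c : Ob D}
    (hT : IsTy P Φ (dV S c)) : TyM P Φ (rF c) (dM S c) := by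
  refine ⟨hT, kv_mem (h.zero _), fn_dfun2 h.add c, fn_dfun (fun _ _ _ _ _ => rfl) h.neg c,
    fn_dfun2 (fun d r x _ hx => h.smul d r x hx) c, ab_disc h c, fun c' f x y z hx hy hz => ?_,
    fun c' f x y z hx hy hz => ?_, fun c' f x y z hx hy hz => ?_, fun c' f x hx => ?_⟩
  · simp only [rF, dM, dV_res, dfun2_res] at *
    replace hx := mem_dV.1 hx
    obtain ⟨x, hx, rfl⟩ := hx
    replace hy := mem_dV.1 hy
    obtain ⟨y, hy, rfl⟩ := hy
    replace hz := mem_dV.1 hz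
    obtain ⟨z, hz, rfl⟩ := hz
    rw [app_dfun2 hy hz, app_dfun2 hx hy, app_dfun2 hx hz, app_dfun2 hx (h.add _ _ _ hy hz),
      app_dfun2 (h.smul _ _ _ hy) (h.smul _ _ _ hz)]
    exact con_kv (h.smul _ _ _ (h.add _ _ _ hy hz)) (smul_add _ _ _)
  · simp only [rF, dM, dV_res, dfun2_res] at *
    replace hx := mem_dV.1 hx
    obtain ⟨x, hx, rfl⟩ := hx
    replace hy := mem_dV.1 hy
    obtain ⟨y, hy, rfl⟩ := hy
    replace hz := mem_dV.1 hz
    obtain ⟨z, hz, rfl⟩ := hz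
    rw [app_dfun2 hx hy, app_dfun2 hy hz, app_dfun2 hx hz, app_dfun2 (cU_mem _ _) hz,
      app_dfun2 (h.smul _ _ _ hz) (h.smul _ _ _ hz)]
    exact con_kv (h.smul _ _ _ hz) (add_smul _ _ _)
  · simp only [rF, dM, dV_res, dfun2_res] at *
    replace hx := mem_dV.1 hx
    obtain ⟨x, hx, rfl⟩ := hx
    replace hy := mem_dV.1 hy
    obtain ⟨y, hy, rfl⟩ := hy
    replace hz := mem_dV.1 hz
    obtain ⟨z, hz, rfl⟩ := hz
    rw [app_dfun2 hx hy, app_dfun2 hy hz, app_dfun2 (cU_mem _ _) hz,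
      app_dfun2 hx (h.smul _ _ _ hz)]
    exact con_kv (h.smul _ _ _ hz) (mul_smul _ _ _)
  · simp only [rF, dM, dV_res, dfun2_res, kv_res] at *
    replace hx := mem_dV.1 hx
    obtain ⟨x, hx, rfl⟩ := hx
    rw [app_dfun2 (cU_mem _ _) hx]
    exact con_kv (h.smul _ _ _ hx) (one_smul _ _)

theorem lin_dfun {S : D →o Set X} {S' : D →o Set Y} (h : SubM S) (h' : SubM S') {φ : D → X → Y}
    (hφ : ∀ y y' x, y ≤ y' → x ∈ S y → φ y' x = φ y x) (h1 : ∀ y x, x ∈ S y → φ y x ∈ S' y)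
    (h2 : ∀ d x y, φ d (x + y) = φ d x + φ d y) (h3 : ∀ d (r : F2) x, φ d (r • x) = r • φ d x)
    (c : Ob D) : LinV (rF.{u} c) (dM S c) (dM S' c) (dfun S φ c) := by
  refine ⟨fun c' f x y hx hy => ?_, fun c' f x y hx hy => ?_⟩
  · simp only [rF, dM, dV_res, dfun2_res, dfun_res] at *
    replace hx := mem_dV.1 hx
    obtain ⟨x, hx, rfl⟩ := hx
    replace hy := mem_dV.1 hy
    obtain ⟨y, hy, rfl⟩ := hy
    rw [app_dfun2 hx hy, app_dfun hφ hx, app_dfun hφ hy, app_dfun hφ (h.add _ _ _ hx hy),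
      app_dfun2 (h1 _ _ hx) (h1 _ _ hy)]
    exact con_kv (h1 _ _ (h.add _ _ _ hx hy)) (h2 _ _ _)
  · simp only [rF, dM, dV_res, dfun2_res, dfun_res] at *
    replace hx := mem_dV.1 hx
    obtain ⟨x, hx, rfl⟩ := hx
    replace hy := mem_dV.1 hy
    obtain ⟨y, hy, rfl⟩ := hy
    rw [app_dfun2 hx hy, app_dfun hφ hy, app_dfun hφ (h.smul _ _ _ hy),
      app_dfun2 hx (h1 _ _ hy)]
    exact con_kv (h1 _ _ (h.smul _ _ _ hy)) (h3 _ _ _)

end dm

theorem tyR_rF {P : ZF.{u} → Prop} (hP : GU P) {Φ : Cls D} (hΦ : Clo.{u} Φ) (c : Ob D) :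
    TyR P Φ (rF c) := by
  refine ⟨isTy_dV hP hΦ (S := cU D F2) (fun _ _ _ _ _ _ => trivial) c, kv_mem (cU_mem _ _), kv_mem (cU_mem _ _),
    fn_dfun2 (fun _ _ _ _ _ => cU_mem _ _) c, fn_dfun2 (fun _ _ _ _ _ => cU_mem _ _) c,
    fn_dfun (φ := fun _ x => -x) (fun _ _ _ _ _ => rfl) (fun _ _ _ => cU_mem _ _) c,
    ab_disc subM_univ c,
    fun c' f x y z hx hy hz => ?_, fun c' f x hx => ?_, fun c' f x hx => ?_,
    fun c' f x y z hx hy hz => ?_, fun c' f x y z hx hy hz => ?_⟩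
  all_goals simp only [rF, dV_res, dfun2_res, kv_res] at *
  all_goals obtain ⟨x, -, rfl⟩ := mem_dV.1 hx
  all_goals try obtain ⟨y, -, rfl⟩ := mem_dV.1 hy
  all_goals try obtain ⟨z, -, rfl⟩ := mem_dV.1 hz
  all_goals simp only [app_dfun2 (cU_mem _ _) (cU_mem _ _)]
  all_goals exact con_kv (cU_mem _ _) (by ring)

/-! ### computations in modules over the field with two elements -/

section modc
variable {P : ZF.{u} → Prop} {Φ : Cls D} {c : Ob D} {m : MV.{u} c} (h : TyM P Φ (rF c) m)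
include h

theorem TyM.tr {x y z} (h1 : Con m.car x y) (h2 : Con m.car y z) : Con m.car x z :=
  h1.trans h.ty.fb h2

theorem TyM.sy {x y} (h1 : Con m.car x y) : Con m.car y x := h1.symm h.ty.fb

theorem TyM.add_mem {x y} (hx : x ∈ El m.car) (hy : y ∈ El m.car) :
    appV (appV m.add x) y ∈ El m.car := h.add.app2 hx hy

theorem TyM.smul_mem (r : F2) {y} (hy : y ∈ El m.car) :
    appV (appV m.smul (kv c r)) y ∈ El m.car := h.smul.app2 (kv_mem (cU_mem _ _)) hy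

theorem TyM.add_congr {x x' y y'} (h1 : Con m.car x x') (h2 : Con m.car y y') :
    Con m.car (appV (appV m.add x) y) (appV (appV m.add x') y') :=
  h.tr (Con.apl h.add h1 (Conn.left h2)) (Con.ap (h.add.app (Conn.right h1)) h2)

theorem TyM.assoc {x y z} (hx : x ∈ El m.car) (hy : y ∈ El m.car) (hz : z ∈ El m.car) :
    Con m.car (appV (appV m.add (appV (appV m.add x) y)) z)
      (appV (appV m.add x) (appV (appV m.add y) z)) := h.laws.1.2.1 c (Ar.id c) x y z hx hy hz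

theorem TyM.comm {x y} (hx : x ∈ El m.car) (hy : y ∈ El m.car) :
    Con m.car (appV (appV m.add x) y) (appV (appV m.add y) x) :=
  h.laws.1.2.2.1 c (Ar.id c) x y hx hy

theorem TyM.zero_add {x} (hx : x ∈ El m.car) : Con m.car (appV (appV m.add m.zero) x) x :=
  h.laws.1.2.2.2.1 c (Ar.id c) x hx

theorem TyM.add_zero {x} (hx : x ∈ El m.car) : Con m.car (appV (appV m.add x) m.zero) x :=
  h.tr (h.comm hx h.zero) (h.zero_add hx)

theorem TyM.one_smul {x} (hx : x ∈ El m.car) :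
    Con m.car (appV (appV m.smul (kv c (1 : F2))) x) x := h.laws.2.2.2.2 c (Ar.id c) x hx

theorem TyM.add_smul (r s : F2) {x} (hx : x ∈ El m.car) :
    Con m.car (appV (appV m.smul (kv c (r + s))) x)
      (appV (appV m.add (appV (appV m.smul (kv c r)) x)) (appV (appV m.smul (kv c s)) x)) := by
  have := h.laws.2.2.1 c (Ar.id c) (kv c r) (kv c s) x (kv_mem (cU_mem _ _)) (kv_mem (cU_mem _ _)) hx
  simp only [Val.res_id, rF] at this
  rwa [app_dfun2 (cU_mem _ _) (cU_mem _ _)] at this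

theorem TyM.zero_smul {x} (hx : x ∈ El m.car) :
    Con m.car (appV (appV m.smul (kv c (0 : F2))) x) m.zero := by
  have h0 := h.smul_mem 0 hx
  have h1 := h.add_smul 0 0 hx
  rw [_root_.add_zero] at h1
  generalize appV (appV m.smul (kv c (0 : F2))) x = y at h0 h1
  have hn := h.neg.app h0
  have h2 : Con m.car (appV (appV m.add (appV m.neg y)) y) m.zero :=
    h.laws.1.2.2.2.2 c (Ar.id c) y h0
  exact h.tr (h.sy (h.zero_add h0)) <| h.tr (h.add_congr (h.sy h2) (Conn.refl h0)) <|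
    h.tr (h.assoc hn h0 h0) <| h.tr (h.add_congr (Conn.refl hn) (h.sy h1)) h2

theorem TyM.add_self {x} (hx : x ∈ El m.car) : Con m.car (appV (appV m.add x) x) m.zero := by
  have h1 := h.add_smul 1 1 hx
  rw [show (1 + 1 : F2) = 0 from rfl] at h1
  exact h.tr (h.add_congr (h.sy (h.one_smul hx)) (h.sy (h.one_smul hx))) <|
    h.tr (h.sy h1) (h.zero_smul hx)

theorem TyM.lin_zero {P' Φ'} {b : MV.{u} c} (hb : TyM P' Φ' (rF c) b) {F} (hF : Fn m.car b.car F)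
    (hl : LinV (rF c) m b F) : Con b.car (appV F m.zero) b.zero :=
  hb.tr (Con.ap hF (h.sy (h.zero_smul h.zero))) <|
    hb.tr (hl.2 c (Ar.id c) _ _ (kv_mem (cU_mem _ _)) h.zero) (hb.zero_smul (hF.app h.zero))

end modc

theorem TyM.resF {P : ZF.{u} → Prop} {Φ : Cls D} {c c' : Ob D} {m : MV.{u} c}
    (h : TyM P Φ (rF c) m) (f : Ar c' c) : TyM P Φ (rF c') (m.res f) := by
  have := h.res f
  rwa [rF_res] at this

theorem fn_lam {c : Ob D} {X Y : Vl.{u} c} (b : Sec.{u} ((yo c).prod (VZ.{u} D)))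
    (h : ∀ c' (k : Ar c' c) x, x ∈ El (X.res k) → b c' (k, x) ∈ El (Y.res k)) :
    ∃ F, Fn X Y F ∧ ∀ c' (k : Ar c' c) x, x ∈ El (X.res k) → appV (F.res k) x = b c' (k, x) := by
  refine ⟨lamH (ElF (yon (L := VZ.{u} D) X)) b c (Ar.id c), ?_, fun c' k x hx => ?_⟩
  · have := lamH_mem (ElF_bd (yon (L := VZ.{u} D) X))
      (B := ElF ((yon (L := VZ.{u} D) Y).comp Hom.fst)) (b := b) (c := c) (l := Ar.id c)
      fun c' f a ha => h c' f a ha
    exact fn_iff.2 ((piF_congr (fun c' f v => Iff.rfl) (fun c' f a b _ => Iff.rfl) _).1 this)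
  · rw [Hom.res_app]
    exact app_lamH (ElF_bd _) hx

theorem el_lift {P : ZF.{u} → Prop} {Φ : Cls D} {c c0 : Ob D} {X : Vl.{u} c} (hX : IsTy P Φ X)
    (m : Ar c0 c) (inj : ∀ c' (f g : Ar c' c0), f.comp m = g.comp m → f = g)
    (hm : (yon (L := yo c) m).im ∈ Φ c) {y} (hy : y ∈ El (X.res m)) :
    ∃ x ∈ El X, Val.res m x = y :=
  ext_arrow (A := elU D) (l := X) m inj ((hX c (Ar.id c)).2.2 _ hm) hy

theorem con_reflect {P : ZF.{u} → Prop} {Φ : Cls D} (hΦ : Clo.{u} Φ) {c c0 : Ob D} {X : Vl.{u} c}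
    (hX : IsTy P Φ X) (m : Ar c0 c) (inj : ∀ c' (f g : Ar c' c0), f.comp m = g.comp m → f = g)
    (hm : (yon (L := yo c) m).im ∈ Φ c) {x y} (hx : x ∈ El X) (hy : y ∈ El X)
    (h : Con (X.res m) (x.res m) (y.res m)) : Con X x y := by
  have hg : GoodOn Φ (elU.{u} D) (yon (L := VZ.{u} D) X).im := by
    rintro _ _ ⟨g, rfl⟩; exact (hX _ g).2.2
  have hp : GoodOn Φ (pathU (elU.{u} D))
      (((yon (L := VZ.{u} D) X).im.ext' (elU D)).ext' ((elU D).pull Hom.fst)) :=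
    hΦ.path (hg.pull _ fun _ _ h => h.1.1) (fun _ _ h => h.1.2) fun _ _ h => h.2
  obtain ⟨p, h⟩ := h
  obtain ⟨q, hq, -⟩ := ext_arrow m inj (hp c ((X, x), y) ⟨⟨⟨Ar.id c, rfl⟩, hx⟩, hy⟩ _ hm) h
  exact ⟨q, hq⟩

/-! ### projectivity and injectivity -/

def SurjV {c : Ob D} (a b e : Vl.{u} c) : Prop := ∀ c' (f : Ar c' c) y, y ∈ El (b.res f) →
  ∃ x ∈ El (a.res f), Con (b.res f) (appV (e.res f) x) y

def InjV {c : Ob D} (a b e : Vl.{u} c) : Prop := ∀ c' (f : Ar c' c) x y, x ∈ El (a.res f) →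
  y ∈ El (a.res f) → Con (b.res f) (appV (e.res f) x) (appV (e.res f) y) → Con (a.res f) x y

/-- the triangle `e ∘ g = f` on `x`, with values in `y` -/
def TriV {c : Ob D} (x y e g f : Vl.{u} c) : Prop := ∀ c' (k : Ar c' c) a, a ∈ El (x.res k) →
  Con (y.res k) (appV (e.res k) (appV (g.res k) a)) (appV (f.res k) a)

theorem inh_tri {X Y E G F : T} {w x y e g f} (hX : Den M X w x) (hY : Den M Y w y)
    (hE : Den M E w e) (hG : Den M G w g) (hF : Den M F w f) (h1 : Fb y) (h2 : St y) :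
    Inh M (Pi' X fun a => Eq' Y (Ap E (Ap G a)) (Ap F a)) w ↔ TriV x y e g f :=
  inh_law1 hX hY h1 h2 (fun _ _ _ _ hw a => (hE.ext hw).ap ((hG.ext hw).ap a))
    fun _ _ _ _ hw a => (hF.ext hw).ap a

theorem tv_proj {j R A w r m} (hb : SB PT {z | M.P j z}) (hr : DenR M R w r) (hA : DenM M A w m)
    (h : ∀ c' (k : Ar c' w.c) a b e f, TyM (M.P j) (M.Φ j) (r.res k) a →
      TyM (M.P j) (M.Φ j) (r.res k) b → Fn a.car b.car e → LinV (r.res k) a b e →
      SurjV a.car b.car e → Fn (m.res k).car b.car f → LinV (r.res k) (m.res k) b f →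
      ∃ g, Fn (m.res k).car a.car g ∧ LinV (r.res k) (m.res k) a g ∧
        TriV (m.res k).car b.car e g f) : Tv M (IsProj j R A) w := by
  refine tv_allMod hb hr fun w1 k1 A1 a e1 dA ta => ?_
  refine tv_allMod hb (hr.ext e1) fun w2 k2 B1 b e2 dB tb => ?_
  have dA := dA.ext e2
  have ta := ta.res k2
  have e2 := e2.trans e1
  refine tv_allLin (hr.ext e2) dA dB tb.ty.fb tb.laws.1.1 fun w3 k3 E e e3 dE he hl => ?_
  refine tv_arr fun c4 k4 j4 hs => ?_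
  have e4 := wext_ext w3 k4 j4
  have hs : SurjV _ _ _ := (inh_surj ((dA.ext e3).car.ext (wext_res _ k4))
    ((dB.ext e3).car.ext (wext_res _ k4)) (dE.ext (wext_res _ k4))).1 hs
  have dE := dE.ext e4
  have e4 := e4.trans e3
  have dA := dA.ext e4
  have dB := dB.ext e4
  have ta := ta.res (k4.comp k3)
  have tb := tb.res (k4.comp k3)
  have e4 := e4.trans e2
  refine tv_allLin (hr.ext e4) (hA.ext e4) dB tb.ty.fb tb.laws.1.1 fun w5 k5 F f e5 dF hf hl' => ?_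
  obtain ⟨g, h1, h2, h3⟩ := h _ (k5.comp ((k4.comp k3).comp (k2.comp k1))) _ _ _ f (ta.res k5)
    (tb.res k5) ((he.res k4).res k5) ((hl.res k4).res k5) (fun _ q => hs _ (q.comp k5)) hf hl'
  refine tv_exLin (hr.ext (e5.trans e4)) (hA.ext (e5.trans e4)) (dA.ext e5) (ta.res k5).ty.fb
    (ta.res k5).laws.1.1 h1 h2 fun n ρ G e6 dG => ?_
  exact (inh_tri ((hA.ext (e5.trans e4)).car.ext e6) ((dB.ext e5).car.ext e6) ((dE.ext e5).ext e6)
    dG (dF.ext e6) (tb.res k5).ty.fb (tb.res k5).laws.1.1).2 h3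

theorem Inh.proj {j R A w r m} (hb : SB PT {z | M.P j z}) (h : Inh M (IsProj j R A) w)
    (hr : DenR M R w r) (hA : DenM M A w m) {a b e f} (ta : TyM (M.P j) (M.Φ j) r a)
    (tb : TyM (M.P j) (M.Φ j) r b) (he : Fn a.car b.car e) (hl : LinV r a b e)
    (hs : SurjV a.car b.car e) (hf : Fn m.car b.car f) (hl' : LinV r m b f) :
    ∃ g, Fn m.car a.car g ∧ TriV m.car b.car e g f := by
  obtain ⟨n1, ρ1, A1, e1, dA, h⟩ := h.allMod hb hr ta
  obtain ⟨n2, ρ2, B1, e2, dB, h⟩ := h.allMod hb (hr.ext e1) tb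
  have dA := dA.ext e2
  have e2 := e2.trans e1
  obtain ⟨n3, ρ3, E, e3, dE, h⟩ := h.allLin (hr.ext e2) dA dB tb.ty.fb tb.laws.1.1 he hl
  obtain ⟨j4, h⟩ := h.arr ((inh_surj (dA.ext e3).car (dB.ext e3).car dE).2 hs)
  have e4 := wext_ext ⟨n3, w.c, ρ3⟩ (Ar.id _) j4
  have dE := dE.ext e4
  have e4 := e4.trans e3
  have dA := dA.ext e4
  have dB := dB.ext e4
  have e4 := e4.trans e2
  obtain ⟨n5, ρ5, F, e5, dF, h⟩ := h.allLin (hr.ext e4) (hA.ext e4) dB tb.ty.fb tb.laws.1.1 hf hl'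
  obtain ⟨g, h1, n6, ρ6, G, e6, dG, h⟩ := h.exLin (hA.ext (e5.trans e4)) (dA.ext e5)
  exact ⟨g, h1, (inh_tri ((hA.ext (e5.trans e4)).car.ext e6) ((dB.ext e5).car.ext e6)
    ((dE.ext e5).ext e6) dG (dF.ext e6) tb.ty.fb tb.laws.1.1).1 h⟩

theorem tv_inj {j R A w r m} (hb : SB PT {z | M.P j z}) (hr : DenR M R w r) (hA : DenM M A w m)
    (m1 : Fb m.car) (m2 : St m.car)
    (h : ∀ c' (k : Ar c' w.c) a b e f, TyM (M.P j) (M.Φ j) (r.res k) a →
      TyM (M.P j) (M.Φ j) (r.res k) b → Fn a.car b.car e → LinV (r.res k) a b e →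
      InjV a.car b.car e → Fn a.car (m.res k).car f → LinV (r.res k) a (m.res k) f →
      ∃ g, Fn b.car (m.res k).car g ∧ LinV (r.res k) b (m.res k) g ∧
        TriV a.car (m.res k).car g e f) : Tv M (IsInj j R A) w := by
  refine tv_allMod hb hr fun w1 k1 A1 a e1 dA ta => ?_
  refine tv_allMod hb (hr.ext e1) fun w2 k2 B1 b e2 dB tb => ?_
  have dA := dA.ext e2
  have ta := ta.res k2
  have e2 := e2.trans e1
  refine tv_allLin (hr.ext e2) dA dB tb.ty.fb tb.laws.1.1 fun w3 k3 E e e3 dE he hl => ?_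
  refine tv_arr fun c4 k4 j4 hs => ?_
  have e4 := wext_ext w3 k4 j4
  have hs : InjV _ _ _ := (inh_inj ((dA.ext e3).car.ext (wext_res _ k4))
    ((dB.ext e3).car.ext (wext_res _ k4)) (dE.ext (wext_res _ k4))
    (ta.res (k4.comp k3)).ty.fb (ta.res (k4.comp k3)).laws.1.1).1 hs
  have dE := dE.ext e4
  have e4 := e4.trans e3
  have dA := dA.ext e4
  have dB := dB.ext e4
  have ta := ta.res (k4.comp k3)
  have tb := tb.res (k4.comp k3)
  have e4 := e4.trans e2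
  refine tv_allLin (hr.ext e4) dA (hA.ext e4) (m1.res _) (m2.res _)
    fun w5 k5 F f e5 dF hf hl' => ?_
  obtain ⟨g, h1, h2, h3⟩ := h _ (k5.comp ((k4.comp k3).comp (k2.comp k1))) _ _ _ f (ta.res k5)
    (tb.res k5) ((he.res k4).res k5) ((hl.res k4).res k5) (fun _ q => hs _ (q.comp k5)) hf hl'
  refine tv_exLin (hr.ext (e5.trans e4)) (dB.ext e5) (hA.ext (e5.trans e4)) (m1.res _)
    (m2.res _) h1 h2 fun n ρ G e6 dG => ?_
  exact (inh_tri ((dA.ext e5).car.ext e6) ((hA.ext (e5.trans e4)).car.ext e6) dG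
    ((dE.ext e5).ext e6) (dF.ext e6) (m1.res _) (m2.res _)).2 h3

theorem Inh.inj {j R A w r m} (hb : SB PT {z | M.P j z}) (h : Inh M (IsInj j R A) w)
    (hr : DenR M R w r) (hA : DenM M A w m) (m1 : Fb m.car) (m2 : St m.car) {a b e f}
    (ta : TyM (M.P j) (M.Φ j) r a) (tb : TyM (M.P j) (M.Φ j) r b) (he : Fn a.car b.car e)
    (hl : LinV r a b e) (hs : InjV a.car b.car e) (hf : Fn a.car m.car f) (hl' : LinV r a m f) :
    ∃ g, Fn b.car m.car g ∧ TriV a.car m.car g e f := by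
  obtain ⟨n1, ρ1, A1, e1, dA, h⟩ := h.allMod hb hr ta
  obtain ⟨n2, ρ2, B1, e2, dB, h⟩ := h.allMod hb (hr.ext e1) tb
  have dA := dA.ext e2
  have e2 := e2.trans e1
  obtain ⟨n3, ρ3, E, e3, dE, h⟩ := h.allLin (hr.ext e2) dA dB tb.ty.fb tb.laws.1.1 he hl
  obtain ⟨j4, h⟩ := h.arr ((inh_inj (dA.ext e3).car (dB.ext e3).car dE ta.ty.fb ta.laws.1.1).2 hs)
  have e4 := wext_ext ⟨n3, w.c, ρ3⟩ (Ar.id _) j4
  have dE := dE.ext e4
  have e4 := e4.trans e3
  have dA := dA.ext e4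
  have dB := dB.ext e4
  have e4 := e4.trans e2
  obtain ⟨n5, ρ5, F, e5, dF, h⟩ := h.allLin (hr.ext e4) dA (hA.ext e4) m1 m2 hf hl'
  obtain ⟨g, h1, n6, ρ6, G, e6, dG, h⟩ := h.exLin (dB.ext e5) (hA.ext (e5.trans e4))
  exact ⟨g, h1, (inh_tri ((dA.ext e5).car.ext e6) ((hA.ext (e5.trans e4)).car.ext e6) dG
    ((dE.ext e5).ext e6) (dF.ext e6) m1 m2).1 h⟩

theorem Inh.iff {A B : T} {w : Wd.{u} D} (h : Inh M (Iff' A B) w) (h' : Inh M A w) :
    ∃ a, Inh M B (w.ext (Ar.id _) a) := by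
  obtain ⟨a, ha, -⟩ := (inh_sg (A := Arr' A B) (B := fun _ => Arr' B A)).1 h
  exact Inh.arr ⟨a, ha⟩ h'

/-- reading the main statements -/
theorem Inh.main {i : ℕ} {S S' : RingT → ModT → T} {w : Wd.{u} D} (hb : SB PT {z | M.P i z})
    (h : Inh M (AllRing i fun R => AllMod i R fun A => Iff' (S R A) (S' R A)) w) {r m}
    (hr : TyR (M.P i) (M.Φ i) r) (hm : TyM (M.P i) (M.Φ i) r m)
    (hS : ∀ n ρ R A, DenR M R ⟨n, w.c, ρ⟩ r → DenM M A ⟨n, w.c, ρ⟩ m → Tv M (S R A) ⟨n, w.c, ρ⟩) :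
    ∃ n ρ R A, DenR M R ⟨n, w.c, ρ⟩ r ∧ DenM M A ⟨n, w.c, ρ⟩ m ∧ Inh M (S' R A) ⟨n, w.c, ρ⟩ := by
  obtain ⟨n1, ρ1, R, e1, dR, h⟩ := h.allRing hb hr
  obtain ⟨n2, ρ2, A, e2, dA, h⟩ := h.allMod hb dR hm
  have dR' : DenR M R ⟨n2, w.c, ρ2⟩ r := dR.ext e2
  obtain ⟨j, h⟩ := Inh.iff h (hS _ _ _ _ dR' dA).inh
  exact ⟨n2 + 1, consV j ρ2, R, A, dR'.wk j, dA.wk j, h⟩

end Pool.Agent.Lib.MP_5eb18a_lc
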