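import Pool.Agent.Lib.MP_5eb18a_lc.Theory

/-!
A verified type inference for a fragment of the theory, used to check that the statements about
modules are well-formed types.
-/

namespace Pool.Agent.Lib.MP_5eb18a_lc

open Tm

noncomputable section

def lvl : Option Tm → Option ℕ
  | some (univ i) => some i
  | _ => none

def asPi : Option Tm → Option (Tm × Tm)
  | some (pi A B) => some (A, B)
  | _ => none

theorem lvl_eq {o : Option Tm} {i} (h : lvl o = some i) : o = some (univ i) := by
  unfold lvl at h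
  split at h
  · cases h; rfl
  · cases h

theorem asPi_eq {o : Option Tm} {p} (h : asPi o = some p) : o = some (pi p.1 p.2) := by
  unfold asPi at h
  split at h
  · cases h; rfl
  · cases h

def infer (n : ℕ) : List Tm → Tm → Option Tm
  | Γ, var k => (Γ[k]?).map (lift (k + 1))
  | _, univ i => if i + 1 < n then some (univ (i + 1)) else none
  | Γ, pi A B => (lvl (infer n Γ A)).bind fun i => (lvl (infer n (A :: Γ) B)).bind fun j =>
      if max i j < n then some (univ (max i j)) else none
  | Γ, sigma A B => (lvl (infer n Γ A)).bind fun i => (lvl (infer n (A :: Γ) B)).bind fun j =>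
      if max i j < n then some (univ (max i j)) else none
  | Γ, app f a => (asPi (infer n Γ f)).bind fun p =>
      if infer n Γ a = some p.1 then some (inst p.2 a) else
        (lvl (infer n Γ a)).bind fun i => (lvl (some p.1)).bind fun j =>
          if i ≤ j ∧ j < n then some (inst p.2 a) else none
  | Γ, lam A b => (lvl (infer n Γ A)).bind fun _ => (infer n (A :: Γ) b).map (pi A)
  | Γ, Tm.id A a b => (lvl (infer n Γ A)).bind fun i =>
      if infer n Γ a = some A ∧ infer n Γ b = some A then some (univ i) else none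
  | Γ, trunc A => (lvl (infer n Γ A)).map univ
  | _, _ => none

theorem Der.cumul_le {N : ℕ∞} {Γ A B} {i k : ℕ} (h : Der N Γ A B (.univ i)) (hik : i ≤ k)
    (hk : (k : ℕ∞) < N) : Der N Γ A B (.univ k) := by
  induction hik with
  | refl => exact h
  | step _ ih => exact .cumul hk (ih (lt_trans (by exact_mod_cast Nat.lt_succ_self _) hk))

theorem infer_sound {n : ℕ} {N : ℕ∞} (hN : (n : ℕ∞) ≤ N) (t : Tm) :
    ∀ Γ T, infer n Γ t = some T → Der N Γ t t T := by
  have hl : ∀ {k : ℕ}, k < n → (k : ℕ∞) < N := fun h => lt_of_lt_of_le (by exact_mod_cast h) hN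
  induction t with
  | var k =>
    intro Γ T h
    obtain ⟨A, h1, rfl⟩ := Option.map_eq_some_iff.1 h
    exact .var h1
  | univ i =>
    intro Γ T h
    simp only [infer] at h
    split_ifs at h with h1
    cases h
    exact .univ (hl h1)
  | pi A B ihA ihB =>
    intro Γ T h
    simp only [infer, Option.bind_eq_some_iff] at h
    obtain ⟨i, h1, j, h2, h⟩ := h
    split_ifs at h with h3
    cases h
    exact .pi ((ihA _ _ (lvl_eq h1)).cumul_le (le_max_left _ _) (hl h3))
      ((ihB _ _ (lvl_eq h2)).cumul_le (le_max_right _ _) (hl h3))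
  | sigma A B ihA ihB =>
    intro Γ T h
    simp only [infer, Option.bind_eq_some_iff] at h
    obtain ⟨i, h1, j, h2, h⟩ := h
    split_ifs at h with h3
    cases h
    exact .sigma ((ihA _ _ (lvl_eq h1)).cumul_le (le_max_left _ _) (hl h3))
      ((ihB _ _ (lvl_eq h2)).cumul_le (le_max_right _ _) (hl h3))
  | app f a ihf iha =>
    intro Γ T h
    simp only [infer, Option.bind_eq_some_iff] at h
    obtain ⟨p, h1, h⟩ := h
    split_ifs at h with h3
    · cases h
      exact .app (ihf _ _ (asPi_eq h1)) (iha _ _ h3)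
    · simp only [Option.bind_eq_some_iff] at h
      obtain ⟨i, h2, j, h4, h⟩ := h
      split_ifs at h with h5
      cases h
      refine .app (ihf _ _ (asPi_eq h1)) ?_
      rw [Option.some.inj (lvl_eq h4)]
      exact (iha _ _ (lvl_eq h2)).cumul_le h5.1 (hl h5.2)
  | lam A b ihA ihb =>
    intro Γ T h
    simp only [infer, Option.bind_eq_some_iff, Option.map_eq_some_iff] at h
    obtain ⟨i, h1, B, h2, rfl⟩ := h
    exact .lam (ihA _ _ (lvl_eq h1)) (ihb _ _ h2)
  | id A a b ihA iha ihb =>
    intro Γ T h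
    simp only [infer, Option.bind_eq_some_iff] at h
    obtain ⟨i, h1, h⟩ := h
    split_ifs at h with h3
    cases h
    exact .id (ihA _ _ (lvl_eq h1)) (iha _ _ h3.1) (ihb _ _ h3.2)
  | trunc A ihA =>
    intro Γ T h
    obtain ⟨i, h1, rfl⟩ := Option.map_eq_some_iff.1 h
    exact .trunc (ihA _ _ (lvl_eq h1))
  | _ => intro Γ T h; cases h

theorem q1_wf {N : ℕ∞} (h : 3 ≤ N) : Der N [] (Q1 0 0 1) (Q1 0 0 1) (univ 2) :=
  infer_sound (n := 3) h _ _ _ (by decide +kernel)

theorem q2_wf {N : ℕ∞} (h : 3 ≤ N) : Der N [] (Q2 0 0 1) (Q2 0 0 1) (univ 2) :=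
  infer_sound (n := 3) h _ _ _ (by decide +kernel)

def Lam' (A : T) (b : T → T) : T := fun n => .lam (A n) (b (V n) (n + 1))

def LamRing (i : ℕ) (k : RingT → T) : T :=
  Lam' (U i) fun car => Lam' car fun zero => Lam' car fun one =>
  Lam' (Arr' car (Arr' car car)) fun add => Lam' (Arr' car (Arr' car car)) fun mul =>
  Lam' (Arr' car car) fun neg =>
  Lam' (RingLaws ⟨car, zero, one, add, mul, neg⟩) fun _ => k ⟨car, zero, one, add, mul, neg⟩

def LamMod (i : ℕ) (R : RingT) (k : ModT → T → T) : T :=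
  Lam' (U i) fun car => Lam' car fun zero => Lam' (Arr' car (Arr' car car)) fun add =>
  Lam' (Arr' car car) fun neg => Lam' (Arr' R.car (Arr' car car)) fun smul =>
  Lam' (ModLaws R ⟨car, zero, add, neg, smul⟩) (k ⟨car, zero, add, neg, smul⟩)

def ApMod (h : T) (A : ModT) (l : T) : T :=
  Ap (Ap (Ap (Ap (Ap (Ap h A.car) A.zero) A.add) A.neg) A.smul) l

def easyTm (S : ℕ → RingT → ModT → T) : Tm :=
  LamRing 0 (fun R => LamMod 0 R fun M _ => Lam' (S 1 R M) fun h =>
    LamMod 0 R fun A la => LamMod 0 R fun B lb => ApMod (ApMod h A la) B lb) 0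

theorem q1_easy {N : ℕ∞} (h : 3 ≤ N) : ∃ t, Der N [] t t
    (AllRing 0 (fun R => AllMod 0 R fun M => Arr' (IsProj 1 R M) (IsProj 0 R M)) 0) :=
  ⟨easyTm IsProj, infer_sound (n := 3) h _ _ _ (by decide +kernel)⟩

theorem q2_easy {N : ℕ∞} (h : 3 ≤ N) : ∃ t, Der N [] t t
    (AllRing 0 (fun R => AllMod 0 R fun M => Arr' (IsInj 1 R M) (IsInj 0 R M)) 0) :=
  ⟨easyTm IsInj, infer_sound (n := 3) h _ _ _ (by decide +kernel)⟩

theorem ua_wf {N : ℕ∞} (h : 2 ≤ N) : Der N [] (uaTy 0) (uaTy 0) (univ 1) :=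
  infer_sound (n := 2) h _ _ _ (by decide +kernel)

end

end Pool.Agent.Lib.MP_5eb18a_lc
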