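import Pool.Agent.Lib.MP_5eb18a_lc.Univ

/-!
Connectedness, propositions and sets.
-/

namespace Pool.Agent.Lib.MP_5eb18a_lc

universe u v v' v'' w

set_option linter.unusedSectionVars false

open Classical

variable {D : Type} [PartialOrder D] [Countable D] [WellFoundedGT D]
variable {L : Psh.{v} D} {L' : Psh.{v'} D} {L'' : Psh.{v''} D}

theorem ext_arrow {A : Fm.{u} L} {c c0 : Ob D} {l : L.obj c} (m : Ar c0 c)
    (inj : ∀ c' (f g : Ar c' c0), f.comp m = g.comp m → f = g)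
    (h : ExtAt A c l (yon (L := yo c) m).im) {a : Vl.{u} c0} (ha : A c0 (L.map m l, a)) :
    ∃ b, A c (l, b) ∧ b.res m = a := by
  obtain ⟨s, -, hs⟩ := attach (Sub.bot _) (yon (L := yo c) m) (Hom.cst _ ∅)
    (yon (L := VZ.{u} D) a) (fun _ _ h => h.elim) fun c' f g hfg _ => inj c' f g hfg
  obtain ⟨t, h1, h2⟩ := h s (by
    rintro c' _ ⟨f, rfl⟩ _
    rw [hs]
    simpa using A.cl' f ha)
  refine ⟨t c (Ar.id c), by simpa using h2 c (Ar.id c) trivial, ?_⟩
  rw [t.res_app]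
  exact (h1 c0 m ⟨Ar.id c0, rfl⟩ trivial).trans (hs c0 (Ar.id c0))

def vtxE (c : Ob D) (e : Bool) : Ar ⟨0, c.x⟩ c := vtx c (if e then Fin.last _ else 0)

theorem ar0_eq {c : Ob D} {x : D} (f g : Ar c ⟨0, x⟩) : f = g := by
  ext i; rw [Subsingleton.elim (α := Fin 1) (f.f i) (g.f i)]

theorem anod_vtx (c : Ob D) (e : Bool) : Anod (yon (L := yo c) (vtxE c e)).im := by
  have key : ∀ c' (f : Ar c' c), (yon (L := yo c) (vtxE c e)).im.mem c' f ↔
      ∀ i, (f.f i).val = if e then c.n else 0 := by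
    intro c' f
    constructor
    · rintro ⟨g, rfl⟩ i
      cases e <;> rfl
    · intro h
      refine ⟨⟨fun _ => 0, monotone_const, f.le⟩, ?_⟩
      ext i
      rw [h i]
      cases e <;> rfl
  refine ⟨e, ctr e (if e then Fin.last _ else 0), ctr_id _ _, fun c' f r h => (key _ _).2 fun i => ?_⟩
  rw [ctr_val]
  have := (f.f i).2
  rcases h with h | h
  · have := (key _ _).1 h i
    cases e <;> cases r.r i <;> simp [this]
  · subst h
    cases e <;> simp [Iv.pt]; omega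

theorem ext_vertex {A : Fm.{u} L} {c : Ob D} {l : L.obj c} (h : FibAt A c l) (e : Bool)
    {a : Vl.{u} ⟨0, c.x⟩} (ha : A _ (L.map (vtxE c e) l, a)) :
    ∃ b, A c (l, b) ∧ b.res (vtxE c e) = a :=
  ext_arrow _ (fun _ _ _ _ => ar0_eq _ _) (h _ (anod_vtx c e)) ha

def iota (x : D) : Iv (⟨1, x⟩ : Ob D) :=
  ⟨fun i : Fin 2 => decide (i = 1), (by decide : Monotone fun i : Fin 2 => decide (i = 1))⟩

theorem iota_res (x : D) (e : Bool) : (iota x).res (vtxE ⟨1, x⟩ e) = Iv.pt _ e := by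
  ext i; cases e <;> rfl

def deg (x : D) : Ar (⟨1, x⟩ : Ob D) ⟨0, x⟩ := ⟨fun _ => 0, monotone_const, le_rfl⟩

theorem cyl_reflect (S : Sub (L.prod (II D))) (K : Sub L) (e : Bool)
    (h0 : ∀ c l, K c l → S c (l, Iv.pt c e))
    (hr : ∀ c p e', K c p.1 → S _ ((L.prod (II D)).map (vtxE c e') p) → S c p) :
    ∀ c p, K c p.1 → S c p := by
  rintro c ⟨l, r⟩ h
  refine hr c _ false h ?_
  have h1 := K.cl (vtxE c false) h
  have h2 := hr ⟨1, c.x⟩ (L.map (deg c.x) (L.map (vtxE c false) l), iota c.x) e (K.cl _ h1) (by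
    dsimp only
    rw [iota_res]
    exact h0 _ _ (K.cl _ (K.cl _ h1)))
  have h3 := S.cl (vtxE ⟨1, c.x⟩ ((r.res (vtxE c false)).r 0)) h2
  dsimp only at h3 ⊢
  rw [iota_res, ← Iv.eq_pt, L.map_comp, ar0_eq (Ar.comp _ _) (Ar.id _), L.map_id] at h3
  exact h3

/-- the family of all paths -/
def pathU (X : Fm.{u} L) : Fm.{u} ((L.prod (VZ.{u} D)).prod (VZ.{u} D)) :=
  pathF (X.pull (Hom.fst.comp Hom.fst)) (Hom.snd.comp Hom.fst) Hom.snd

theorem pathU_iff {X : Fm.{u} L} {c} {l : L.obj c} {a b p} :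
    (pathU X).mem c (((l, a), b), p) ↔ IsPath p ∧
      (∀ c' (f : Ar c' c) r, X c' (L.map f l, atV (p.res f) r)) ∧
      atV p (Iv.pt c false) = a ∧ atV p (Iv.pt c true) = b := Iff.rfl

theorem pathF_iff_U {X : Fm.{u} L} {a b : Sec.{u} L} {c} {l : L.obj c} {p} :
    (pathF X a b).mem c (l, p) ↔ (pathU X).mem c (((l, a c l), b c l), p) := Iff.rfl

theorem fib_pathU {X : Fm.{u} L} {P : Sub L} (h : FibOn X P) :
    FibOn (pathU X) ((P.ext' X).ext' (X.pull Hom.fst)) :=
  fib_path (h.pull _ fun _ _ h => h.1.1) (fun _ _ h => h.1.2) fun _ _ h => h.2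

theorem Fam.Bd.pathU {X : Fm.{u} L} (h : X.Bd) : (pathU X).Bd := (h.pull _).path _ _

def Conn (X : Fm.{u} L) (c : Ob D) (l : L.obj c) (a b : Vl.{u} c) : Prop :=
  ∃ p, (pathU X).mem c (((l, a), b), p)

theorem Conn.out {X : Fm.{u} L} {c} {l : L.obj c} {a b} (h : Conn X c l a b) : ∃ p, IsPath p ∧
    (∀ c' (f : Ar c' c) r, X c' (L.map f l, atV (p.res f) r)) ∧
    atV p (Iv.pt c false) = a ∧ atV p (Iv.pt c true) = b := h

theorem Conn.res {X : Fm.{u} L} {c c'} {l : L.obj c} {a b} (h : Conn X c l a b) (f : Ar c' c) :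
    Conn X c' (L.map f l) (a.res f) (b.res f) :=
  let ⟨p, hp⟩ := h; ⟨p.res f, (pathU X).cl' f hp⟩

theorem Conn.left {X : Fm.{u} L} {c} {l : L.obj c} {a b} (h : Conn X c l a b) : X c (l, a) := by
  obtain ⟨p, -, h1, h2, -⟩ := h.out
  simpa [← h2] using h1 c (Ar.id c) (Iv.pt c false)

theorem Conn.right {X : Fm.{u} L} {c} {l : L.obj c} {a b} (h : Conn X c l a b) : X c (l, b) := by
  obtain ⟨p, -, h1, -, h2⟩ := h.out
  simpa [← h2] using h1 c (Ar.id c) (Iv.pt c true)

theorem conn_of_line {X : Fm.{u} L} {c} {l : L.obj c} (t : Sec.{u} ((yo c).prod (II D)))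
    (h : ∀ c' (f : Ar c' c) r, X c' (L.map f l, t c' (f, r))) :
    Conn X c l (t c (Ar.id c, Iv.pt c false)) (t c (Ar.id c, Iv.pt c true)) :=
  ⟨plam t c (Ar.id c), plam_isPath _ _, fun c' f r => by
    dsimp only
    rw [(plam t).res_app, at_plam]; exact h c' f r, at_plam _ _ _, at_plam _ _ _⟩

theorem Conn.refl {X : Fm.{u} L} {c} {l : L.obj c} {a} (h : X c (l, a)) : Conn X c l a a :=
  conn_of_line ((yon (L := VZ.{u} D) a).comp Hom.fst) fun _ f _ => X.cl' f h

theorem Conn.congr {X : Fm.{u} L} {X' : Fm.{u} L'} {c} {l : L.obj c} {l' : L'.obj c} {a b}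
    (h : Conn X c l a b)
    (he : ∀ c' (f : Ar c' c) v, X c' (L.map f l, v) → X' c' (L'.map f l', v)) :
    Conn X' c l' a b :=
  let ⟨p, h1, h2, h3⟩ := h; ⟨p, h1, fun c' f r => he c' f _ (h2 c' f r), h3⟩

/-- natural maps preserve connectedness -/
theorem Conn.map {X : Fm.{u} L} {Y : Fm.{u} L'} {c} {l : L.obj c} {l' : L'.obj c} {a b}
    (h : Conn X c l a b) (F : Sec.{u} (L.prod (VZ.{u} D)))
    (hF : ∀ c' (f : Ar c' c) v, X c' (L.map f l, v) → Y c' (L'.map f l', F c' (L.map f l, v))) :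
    Conn Y c l' (F c (l, a)) (F c (l, b)) := by
  obtain ⟨p, -, h1, h2, h3⟩ := h.out
  have := conn_of_line (X := Y) (l := l') (F.comp (((yon l).comp Hom.fst).mk2
    (Hom.atV ((yon (L := VZ.{u} D) p).comp Hom.fst) Hom.snd))) fun c' f r => hF c' f _ (h1 c' f r)
  simp only [Hom.comp_app, Hom.mk2_app, Hom.fst_app, yon_app, L.map_id, Hom.atV_app, Hom.snd_app,
    Val.res_id] at this
  rwa [show atV p _ = a from h2, show atV p _ = b from h3] at this

theorem square {X : Fm.{u} ((L.prod (II D)).prod (II D))} (hX : FibOn X (Sub.top _))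
    (z0 z1 : Sec.{u} (L.prod (II D))) (zb : Sec.{u} (L.prod (II D)))
    (h0 : ∀ c l i, X c (((l, Iv.pt c false), i), z0 c (l, i)))
    (h1 : ∀ c l i, X c (((l, Iv.pt c true), i), z1 c (l, i)))
    (hb : ∀ c l j, X c (((l, j), Iv.pt c false), zb c (l, j)))
    (e0 : ∀ c l, z0 c (l, Iv.pt c false) = zb c (l, Iv.pt c false))
    (e1 : ∀ c l, z1 c (l, Iv.pt c false) = zb c (l, Iv.pt c true)) :
    ∃ t : Sec.{u} (L.prod (II D)), (∀ c l j, X c (((l, j), Iv.pt c true), t c (l, j))) ∧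
      (∀ c l, t c (l, Iv.pt c false) = z0 c (l, Iv.pt c true)) ∧
      ∀ c l, t c (l, Iv.pt c true) = z1 c (l, Iv.pt c true) := by
  let E : Sec.{u} ((L.prod (II D)).prod (II D)) := edge (Hom.snd.comp Hom.fst)
    (z0.comp (cylH Hom.fst)) (z1.comp (cylH Hom.fst)) (zb.comp Hom.fst)
  obtain ⟨t, ht, ht'⟩ := comp (hX.mono (P' := cyl (Sub.top _)) fun _ _ _ => trivial)
    ((atE Hom.snd false).or (atE Hom.snd true)) false E (by
      rintro c ⟨⟨l, j⟩, i⟩ ((h | h) | h) _
      · obtain rfl : j = _ := h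
        rw [show E c _ = _ from edge_zero rfl]; exact h0 c l i
      · obtain rfl : j = _ := h
        rw [show E c _ = _ from edge_one rfl]; exact h1 c l i
      · obtain rfl : i = _ := h
        rw [show E c _ = _ from edge_eq (fun c' g hg => ?_) fun c' g hg => ?_]
        · exact hb c l j
        · have hg' : j.res g = _ := hg
          simp [hg', e0]
        · have hg' : j.res g = _ := hg
          simp [hg', e1])
  refine ⟨t, fun c l j => ht' c _ trivial, fun c l => ?_, fun c l => ?_⟩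
  · rw [ht c (l, Iv.pt c false) (Or.inl rfl) trivial]; exact edge_zero rfl
  · rw [ht c (l, Iv.pt c true) (Or.inr rfl) trivial]; exact edge_one rfl

theorem Conn.eucl {X : Fm.{u} L} {P : Sub L} (hX : FibOn X P) {c} {l : L.obj c} (hl : P c l)
    {a b b'} (h : Conn X c l a b) (h' : Conn X c l a b') : Conn X c l b b' := by
  have ha := h.left
  obtain ⟨p, -, h1, h2, h3⟩ := h.out
  obtain ⟨q, -, h1', h2', h3'⟩ := h'.out
  obtain ⟨t, t1, t2, t3⟩ := square (hX.pull ((yon l).comp (Hom.fst.comp Hom.fst))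
    (P' := Sub.top _) fun c' p _ => P.cl _ hl)
    (Hom.atV ((yon (L := VZ.{u} D) p).comp Hom.fst) Hom.snd)
    (Hom.atV ((yon (L := VZ.{u} D) q).comp Hom.fst) Hom.snd) ((yon (L := VZ.{u} D) a).comp Hom.fst)
    (fun c' f i => h1 c' f i) (fun c' f i => h1' c' f i) (fun c' f _ => X.cl' f ha)
    (fun c' f => congrArg (Val.res f) h2) fun c' f => congrArg (Val.res f) h2'
  have := conn_of_line (X := X) (l := l) t fun c' f r => t1 c' f r
  rw [t2, t3] at this
  exact (show _ = b from h3) ▸ (show _ = b' from h3') ▸ this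

theorem Conn.symm {X : Fm.{u} L} {P : Sub L} (hX : FibOn X P) {c} {l : L.obj c} (hl : P c l)
    {a b} (h : Conn X c l a b) : Conn X c l b a := h.eucl hX hl (Conn.refl h.left)

theorem Conn.trans {X : Fm.{u} L} {P : Sub L} (hX : FibOn X P) {c} {l : L.obj c} (hl : P c l)
    {a b b'} (h : Conn X c l a b) (h' : Conn X c l b b') : Conn X c l a b' :=
  (h.symm hX hl).eucl hX hl h'

theorem conn_of_vertex {X : Fm.{u} L} {P : Sub L} (hX : FibOn X P) {c} {l : L.obj c} (hl : P c l)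
    {a b} (ha : X c (l, a)) (hb : X c (l, b)) (e : Bool)
    (h : Conn X _ (L.map (vtxE c e) l) (a.res (vtxE c e)) (b.res (vtxE c e))) : Conn X c l a b := by
  obtain ⟨p, hp⟩ := h
  obtain ⟨q, hq, -⟩ := ext_vertex (fib_pathU hX c ((l, a), b) ⟨⟨hl, ha⟩, hb⟩) e hp
  exact ⟨q, hq⟩

/-- transport along a path -/
theorem transport {X : Fm.{u} L} {C : Fm.{u} (L.prod (VZ.{u} D))} {P : Sub L}
    (hC : FibOn C (P.ext' X)) {c} {l : L.obj c} (hl : P c l) {a b x} (h : Conn X c l a b)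
    (hx : C c ((l, a), x)) :
    ∃ y, C c ((l, b), y) ∧ Conn (sigF X C) c l (pairV a x) (pairV b y) := by
  obtain ⟨p, -, h1, h2, h3⟩ := h.out
  let π : Sec.{u} ((yo c).prod (II D)) := Hom.atV ((yon (L := VZ.{u} D) p).comp Hom.fst) Hom.snd
  obtain ⟨t, ht, ht'⟩ := fill (hC.pull (((yon l).comp Hom.fst).mk2 π) (P' := cyl (Sub.top _))
    fun c' q _ => ⟨P.cl _ hl, h1 c' q.1 q.2⟩) (Sub.bot _) false
    ((yon (L := VZ.{u} D) x).comp Hom.fst) (by
      rintro c' ⟨f, r⟩ (h | h) _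
      · exact h.elim
      · obtain rfl : r = _ := h
        have := C.cl' f hx
        rw [← show _ = a from h2] at this
        exact this)
  have e0 : π c (Ar.id c, Iv.pt c false) = a := h2
  have e1 : π c (Ar.id c, Iv.pt c true) = b := h3
  refine ⟨t c (Ar.id c, Iv.pt c true), ?_, ?_⟩
  · have := ht' c (Ar.id c, Iv.pt c true) trivial
    simpa [e1] using this
  · have := conn_of_line (X := sigF X C) (l := l) (π.pairV t)
      fun c' f r => sigF_pair.2 ⟨h1 c' f r, ht' c' (f, r) trivial⟩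
    rw [Hom.pairV_app, Hom.pairV_app, e0, e1,
      ht c (Ar.id c, Iv.pt c false) (Or.inr rfl) trivial] at this
    exact this

/-- a path in the total space over a null-homotopic loop gives a path in the fibre -/
theorem conn_fibre {X : Fm.{u} L} {C : Fm.{u} (L.prod (VZ.{u} D))} {P : Sub L}
    (hC : FibOn C (P.ext' X)) {c} {l : L.obj c} (hl : P c l) {a x y}
    (hX : ∀ p q, (pathU X).mem c (((l, a), a), p) → (pathU X).mem c (((l, a), a), q) →
      Conn (pathU X) c ((l, a), a) p q)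
    (h : Conn (sigF X C) c l (pairV a x) (pairV a y)) : Conn C c (l, a) x y := by
  have ha := sigF_pair.1 h.left
  have hb := sigF_pair.1 h.right
  obtain ⟨ξ, -, h1, h2, h3⟩ := h.out
  let Ξ : Sec.{u} ((yo c).prod (II D)) := Hom.atV ((yon (L := VZ.{u} D) ξ).comp Hom.fst) Hom.snd
  have e0 : ∀ c' f, Ξ c' (f, Iv.pt c' false) = pairV (a.res f) (x.res f) :=
    fun c' f => congrArg (Val.res f) h2
  have e1 : ∀ c' f, Ξ c' (f, Iv.pt c' true) = pairV (a.res f) (y.res f) :=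
    fun c' f => congrArg (Val.res f) h3
  have hΞ := fun c' f r => (sigF_iff (l := L.map f l) (v := Ξ c' (f, r))).1 (h1 c' f r)
  obtain ⟨H, -, H1, H2, H3⟩ := Conn.out <| hX (plam Ξ.fstV c (Ar.id c))
    ((yon (L := VZ.{u} D) a).reflV c (Ar.id c))
    ⟨plam_isPath _ _, fun c' f r => by
      dsimp only
      rw [(plam Ξ.fstV).res_app, at_plam]; exact (hΞ c' f r).2.1, by simp [e0], by simp [e1]⟩
    ⟨plam_isPath _ _, fun c' f r => by
      dsimp only
      rw [Hom.res_app, at_reflV]; exact X.cl' f ha.1, by simp, by simp⟩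
  let G : Sec.{u} (((yo c).prod (II D)).prod (II D)) :=
    Hom.atV (Hom.atV ((yon (L := VZ.{u} D) H).comp (Hom.fst.comp Hom.fst)) Hom.snd)
      (Hom.snd.comp Hom.fst)
  have G0 : ∀ c' f j, G c' ((f, j), Iv.pt c' false) = fstV (Ξ c' (f, j)) := fun c' f j => by
    have := congrArg (Val.res f) (show atV H _ = _ from H2)
    rw [atV_res, (plam Ξ.fstV).res_app] at this
    simp only [G, Hom.atV_app, Hom.comp_app, Hom.fst_app, Hom.snd_app, yon_app]
    rw [show atV (H.res f) (Iv.pt c' false) = _ from this, at_plam]; rfl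
  have G1 : ∀ c' f j, G c' ((f, j), Iv.pt c' true) = a.res f := fun c' f j => by
    have := congrArg (Val.res f) (show atV H _ = _ from H3)
    rw [atV_res, Hom.res_app] at this
    simp only [G, Hom.atV_app, Hom.comp_app, Hom.fst_app, Hom.snd_app, yon_app]
    rw [show atV (H.res f) (Iv.pt c' true) = _ from this, at_reflV]; rfl
  obtain ⟨t, t1, t2, t3⟩ := square (hC.pull (((yon l).comp (Hom.fst.comp Hom.fst)).mk2 G)
    (P' := Sub.top _) fun c' p _ => ⟨P.cl _ hl, by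
      simpa [G] using (H1 c' p.1.1 p.2).2.1 c' (Ar.id c') p.1.2⟩)
    ((yon (L := VZ.{u} D) x).comp Hom.fst) ((yon (L := VZ.{u} D) y).comp Hom.fst) Ξ.sndV
    (fun c' f i => by
      have : C c' ((L.map f l, a.res f), x.res f) := C.cl' f ha.2
      rw [← show _ = a.res f from (H1 c' f i).2.2.1] at this
      exact this)
    (fun c' f i => by
      have : C c' ((L.map f l, a.res f), y.res f) := C.cl' f hb.2
      rw [← show _ = a.res f from (H1 c' f i).2.2.2] at this
      exact this)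
    (fun c' f j => by
      simp only [Fam.pull_mem, Hom.mk2_app, G0]
      exact (hΞ c' f j).2.2)
    (fun c' f => by simp [e0]) fun c' f => by simp [e1]
  have := conn_of_line (X := C) (l := (l, a)) t fun c' f r => by
    have := t1 c' f r
    simp only [Fam.pull_mem, Hom.mk2_app, G1] at this
    exact this
  rw [t2, t3] at this
  exact this

/-! ### propositions and sets -/

def PropOn (X : Fm.{u} L) (P : Sub L) : Prop :=
  ∀ c l, P c l → ∀ (φ : Sub (yo c)) (a b : Sec.{u} (yo c)),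
    (∀ c' f, φ c' f → X c' (L.map f l, a c' f)) → (∀ c' f, φ c' f → X c' (L.map f l, b c' f)) →
    ∃ p : Sec.{u} (yo c), ∀ c' f, φ c' f →
      (pathU X).mem c' (((L.map f l, a c' f), b c' f), p c' f)

theorem PropOn.pull {X : Fm.{u} L} {P : Sub L} (h : PropOn X P) (β : Hom L' L) {P' : Sub L'}
    (hP : ∀ c l, P' c l → P c (β c l)) : PropOn (X.pull β) P' := by
  intro c l hl φ a b ha hb
  obtain ⟨p, hp⟩ := h c _ (hP c l hl) φ a b (fun c' f h => by simpa [β.nat] using ha c' f h)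
    fun c' f h => by simpa [β.nat] using hb c' f h
  refine ⟨p, fun c' f h => ?_⟩
  obtain ⟨h1, h2, h3⟩ := hp c' f h
  refine ⟨h1, fun c'' g r => ?_, h3⟩
  simpa [β.nat] using h2 c'' g r

theorem PropOn.conn {X : Fm.{u} L} {P : Sub L} (h : PropOn X P) {c} {l : L.obj c} (hl : P c l)
    {a b} (ha : X c (l, a)) (hb : X c (l, b)) : Conn X c l a b := by
  obtain ⟨p, hp⟩ := h c l hl (Sub.top _) (yon (L := VZ.{u} D) a) (yon (L := VZ.{u} D) b)
    (fun c' f _ => X.cl' f ha) fun c' f _ => X.cl' f hb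
  exact ⟨_, by simpa using hp c (Ar.id c) trivial⟩

theorem triv_of_prop {X : Fm.{u} L} {P : Sub L} (hX : FibOn X P) (hp : PropOn X P)
    (h : ∀ c l, P c l → ∃ x, X c (l, x)) : TrivOn X P := by
  intro c l hl φ s hs
  obtain ⟨x, hx⟩ := h c l hl
  obtain ⟨p, hp⟩ := hp c l hl φ (yon (L := VZ.{u} D) x) s (fun c' f _ => X.cl' f hx)
    fun c' f h => hs c' f h trivial
  obtain ⟨t, h1, h2⟩ := ext_of_paths (hX.pull (yon l) (P' := Sub.top _) fun c' f _ => P.cl f hl) φ
    (yon (L := VZ.{u} D) x) s p (fun c' f => X.cl' f hx) fun c' f h => by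
      obtain ⟨h1, h2, h3⟩ := hp c' f h
      refine ⟨h1, fun c'' g r => ?_, h3⟩
      simpa using h2 c'' g r
  exact ⟨t, fun c' f h _ => h1 c' f h, fun c' f _ => h2 c' f⟩

theorem TrivOn.inh {X : Fm.{u} L} {P : Sub L} (h : TrivOn X P) {c} {l : L.obj c} (hl : P c l) :
    ∃ x, X c (l, x) := by
  obtain ⟨t, -, h2⟩ := h c l hl (Sub.bot _) (Hom.cst _ ∅) fun _ _ h => h.elim
  exact ⟨_, by simpa using h2 c (Ar.id c) trivial⟩

noncomputable def isPropF (X : Fm.{u} L) : Fm.{u} L := piF X (piF (X.pull Hom.fst) (pathU X))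

noncomputable def isSetF (X : Fm.{u} L) : Fm.{u} L :=
  piF X (piF (X.pull Hom.fst) (isPropF (pathU X)))

theorem propOn_of_isProp {X : Fm.{u} L} {P : Sub L}
    (h : ∀ c l, P c l → ∃ w, (isPropF X).mem c (l, w)) : PropOn X P := by
  intro c l hl φ a b ha hb
  obtain ⟨w, hw⟩ := h c l hl
  exact ⟨((yon (L := VZ.{u} D) w).appV a).appV b, fun c' f h =>
    piF_app (piF_app ((isPropF X).cl' f hw) (ha c' f h)) (hb c' f h)⟩

def SetOn (X : Fm.{u} L) (P : Sub L) : Prop :=
  PropOn (pathU X) ((P.ext' X).ext' (X.pull Hom.fst))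

theorem pathU_pull (X : Fm.{u} L) (β : Hom L' L) : pathU (X.pull β) =
    (pathU X).pull (((β.comp (Hom.fst.comp Hom.fst)).mk2 (Hom.snd.comp Hom.fst)).mk2 Hom.snd) := by
  rw [pathU, pathU, pathF_pull]; rfl

theorem SetOn.pull {X : Fm.{u} L} {P : Sub L} (h : SetOn X P) (β : Hom L' L) {P' : Sub L'}
    (hP : ∀ c l, P' c l → P c (β c l)) : SetOn (X.pull β) P' := by
  rw [SetOn, pathU_pull]
  exact PropOn.pull h _ fun c p h => ⟨⟨hP c _ h.1.1, h.1.2⟩, h.2⟩

theorem setOn_of_isSet {X : Fm.{u} L} {P : Sub L}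
    (h : ∀ c l, P c l → ∃ w, (isSetF X).mem c (l, w)) : SetOn X P := by
  refine propOn_of_isProp ?_
  rintro c ⟨⟨l, a⟩, b⟩ ⟨⟨hl, ha⟩, hb⟩
  obtain ⟨w, hw⟩ := h c l hl
  exact ⟨_, piF_app (piF_app hw ha) hb⟩

theorem triv_path_of_set {X : Fm.{u} L} {P : Sub L} (hX : FibOn X P) (hs : SetOn X P)
    {a b : Sec.{u} L} (h : ∀ c l, P c l → Conn X c l (a c l) (b c l)) :
    TrivOn (pathF X a b) P :=
  triv_of_prop (fib_path hX (fun c l hl => (h c l hl).left) fun c l hl => (h c l hl).right)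
    (PropOn.pull hs (((Hom.id L).mk2 a).mk2 b)
      fun c l hl => ⟨⟨hl, (h c l hl).left⟩, (h c l hl).right⟩) h

theorem triv_isProp {X : Fm.{u} L} (hb : X.Bd) {P : Sub L}
    (h : TrivOn (pathU X) ((P.ext' X).ext' (X.pull Hom.fst))) : TrivOn (isPropF X) P :=
  triv_pi hb (triv_pi (hb.pull _) h)

theorem triv_pathU {X : Fm.{u} L} {P : Sub L} (h : TrivOn X P) :
    TrivOn (pathU X) ((P.ext' X).ext' (X.pull Hom.fst)) :=
  triv_path (h.pull _ fun _ _ h => h.1.1) (fun _ _ h => h.1.2) fun _ _ h => h.2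

/-- a subfamily closed under reflection from vertices -/
theorem fib_sub {X S : Fm.{u} L} {P : Sub L} (hX : FibOn X P)
    (hS : ∀ c l v e, P c l → X c (l, v) → S _ (L.map (vtxE c e) l, v.res (vtxE c e)) → S c (l, v)) :
    FibOn (X.and S) P := by
  refine fibOn_of_comp fun L0 β K e hβ s hs => ?_
  obtain ⟨t, h1, h2⟩ := fill (hX.pull β (P' := cyl (Sub.top _)) fun c l _ => hβ c l) K e s
    fun c p h h' => (hs c p h h').1
  have := cyl_reflect (S.comap (β.mk2 t)) (Sub.top _) e (fun c l _ => by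
    have := (hs c (l, Iv.pt c e) (Or.inr rfl) trivial).2
    rw [← h1 c (l, Iv.pt c e) (Or.inr rfl) trivial] at this
    exact this) fun c p e' _ h => hS c _ _ e' (hβ c p) (h2 c p trivial) (by
      rw [Sub.comap_mem, (β.mk2 t).nat] at h
      exact h)
  exact ⟨t.comp (atPt _ (!e)), fun c l h _ => h1 c (l, Iv.pt c (!e)) (Or.inl h) trivial,
    fun c l _ => ⟨h2 c _ trivial, this c (l, Iv.pt c (!e)) trivial⟩⟩

theorem triv_sub {X S : Fm.{u} L} {P : Sub L} (hX : FibOn X P) (hs : SetOn X P)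
    (hS : ∀ c l v e, P c l → X c (l, v) → S _ (L.map (vtxE c e) l, v.res (vtxE c e)) → S c (l, v))
    (h1 : ∀ c l, P c l → ∃ x, X c (l, x) ∧ S c (l, x))
    (h2 : ∀ c l x y, P c l → X c (l, x) → X c (l, y) → S c (l, x) → S c (l, y) → Conn X c l x y) :
    TrivOn (X.and S) P := by
  refine triv_of_prop (fib_sub hX hS) ?_ h1
  intro c l hl φ a b ha hb
  obtain ⟨p, -, hp⟩ := (triv_path_of_set (hX.pull (yon l) (P' := φ) fun c' f _ => P.cl f hl)
    (hs.pull (yon l) fun c' f _ => P.cl f hl) (a := a) (b := b)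
    fun c' f h => (h2 c' _ _ _ (P.cl f hl) (ha c' f h).1 (hb c' f h).1 (ha c' f h).2
      (hb c' f h).2).congr fun c'' g v hv => by simpa using hv).ext (Sub.bot _) a
    fun _ _ h => h.elim
  have := cyl_reflect (S.comap (((yon l).comp Hom.fst).mk2 (Hom.atV (p.comp Hom.fst) Hom.snd))) φ
    false (fun c' f h => by
      have := (ha c' f h).2
      rw [← (hp c' f h).2.2.1] at this
      exact this) fun c' q e' h h' => hS c' _ _ e' (P.cl _ hl) (pathF_at (hp c' _ h) _) (by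
      rw [Sub.comap_mem, Hom.nat] at h'
      exact h')
  refine ⟨p, fun c' f h => ⟨(hp c' f h).1, fun c'' g r => ⟨?_, ?_⟩, (hp c' f h).2.2⟩⟩
  · simpa using (hp c' f h).2.1 c'' g r
  · have := this c'' (g.comp f, r) (φ.cl g h)
    simpa [p.res_app] using this

end Pool.Agent.Lib.MP_5eb18a_lc
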