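import Pool.Agent.Lib.MP_5eb18a_lc.Site

/-!
Fibrant families: local definition, the prism decomposition, global filling and composition.
-/

namespace Pool.Agent.Lib.MP_5eb18a_lc

universe u v v' v'' w

set_option linter.unusedSectionVars false

open Classical

variable {D : Type} [PartialOrder D]
variable {L : Psh.{v} D} {L' : Psh.{v'} D} {L'' : Psh.{v''} D} {W : Type w}

/-- sieves that are retracts of open boxes -/
def Anod {c : Ob D} (φ : Sub (yo c)) : Prop :=
  ∃ (e : Bool) (h : Hom ((yo c).prod (II D)) (yo c)),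
    (∀ c' f, h c' (f, Iv.pt c' (!e)) = f) ∧
      ∀ c' f r, (φ c' f ∨ r = Iv.pt c' e) → φ c' (h c' (f, r))

def ExtAt (A : Fam W L) (c : Ob D) (l : L.obj c) (φ : Sub (yo c)) : Prop :=
  Ext (A.pull (yon l)) φ (Sub.top _)

def FibAt (A : Fam W L) (c : Ob D) (l : L.obj c) : Prop := ∀ φ, Anod φ → ExtAt A c l φ

def FibOn (A : Fam W L) (P : Sub L) : Prop := ∀ c l, P c l → FibAt A c l

def box (K : Sub L) (e : Bool) : Sub (L.prod (II D)) :=
  ⟨fun c p => K c p.1 ∨ p.2 = Iv.pt c e, fun f _ h => h.imp (K.cl f) (fun h => by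
    show Iv.res f _ = _; rw [h]; rfl)⟩

def cyl (K : Sub L) : Sub (L.prod (II D)) := ⟨fun c p => K c p.1, fun f _ h => K.cl f h⟩

@[simp] theorem box_mem (K : Sub L) (e : Bool) (c) (p : (L.prod (II D)).obj c) :
    (box K e).mem c p ↔ K c p.1 ∨ p.2 = Iv.pt c e := Iff.rfl
@[simp] theorem cyl_mem (K : Sub L) (c) (p : (L.prod (II D)).obj c) :
    (cyl K).mem c p ↔ K c p.1 := Iff.rfl

theorem ExtAt.congr {A : Fam W L} {A' : Fam W L'} {c} {l : L.obj c} {l' : L'.obj c}
    {φ : Sub (yo c)} (h : ∀ c' (f : Ar c' c) v, A c' (L.map f l, v) ↔ A' c' (L'.map f l', v))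
    (hA : ExtAt A c l φ) : ExtAt A' c l' φ := by
  have : A.pull (yon l) = A'.pull (yon l') := by
    ext c' p; exact h c' p.1 p.2
  unfold ExtAt at *
  rwa [← this]

theorem FibAt.congr {A : Fam W L} {A' : Fam W L'} {c} {l : L.obj c} {l' : L'.obj c}
    (h : ∀ c' (f : Ar c' c) v, A c' (L.map f l, v) ↔ A' c' (L'.map f l', v))
    (hA : FibAt A c l) : FibAt A' c l' := fun φ hφ => (hA φ hφ).congr h

theorem ExtAt.pull {A : Fam W L} (β : Hom L' L) {c} {l : L'.obj c} {φ : Sub (yo c)}
    (h : ExtAt A c (β c l) φ) : ExtAt (A.pull β) c l φ :=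
  h.congr fun c' f v => by simp [β.nat]

theorem ExtAt.of_pull {A : Fam W L} (β : Hom L' L) {c} {l : L'.obj c} {φ : Sub (yo c)}
    (h : ExtAt (A.pull β) c l φ) : ExtAt A c (β c l) φ :=
  h.congr fun c' f v => by simp [β.nat]

theorem FibAt.pull {A : Fam W L} (β : Hom L' L) {c} {l : L'.obj c}
    (h : FibAt A c (β c l)) : FibAt (A.pull β) c l := fun φ hφ => (h φ hφ).pull β

theorem FibOn.pull {A : Fam W L} {P : Sub L} (h : FibOn A P) (β : Hom L' L) {P' : Sub L'}
    (hP : ∀ c l, P' c l → P c (β c l)) : FibOn (A.pull β) P' :=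
  fun c l hl => (h c _ (hP c l hl)).pull β

theorem FibOn.congr {A A' : Fam W L} {P : Sub L} (h : FibOn A P)
    (he : ∀ c l v, P c l → (A c (l, v) ↔ A' c (l, v))) : FibOn A' P :=
  fun c l hl => (h c l hl).congr fun c' f v => he c' _ v (P.cl f hl)

theorem FibOn.mono {A : Fam W L} {P P' : Sub L} (h : FibOn A P) (hP : ∀ c l, P' c l → P c l) :
    FibOn A P' := fun c l hl => h c l (hP c l hl)

theorem Ext.trans {A : Fam W L} {B0 B1 B2 : Sub L} (h1 : Ext A B0 B1) (h2 : Ext A B1 B2)
    (h01 : ∀ c l, B0 c l → B1 c l) (h12 : ∀ c l, B1 c l → B2 c l) : Ext A B0 B2 := by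
  intro s hs
  obtain ⟨t, ht, ht'⟩ := h1 s fun c l h h' => hs c l h (h12 c l h')
  obtain ⟨t2, ht2, ht2'⟩ := h2 t fun c l h _ => ht' c l h
  exact ⟨t2, fun c l h h' => (ht2 c l (h01 c l h) h').trans (ht c l h (h01 c l h)), ht2'⟩

theorem ext_attach {A : Fam W L} {B : Sub L} {c} (x : L.obj c)
    (inj : ∀ c' (f g : Ar c' c), L.map f x = L.map g x → f = g)
    (h : ExtAt A c x (B.comap (yon x))) : Ext A B (B.or (yon x).im) := by
  intro s hs
  obtain ⟨t, ht, ht'⟩ := h (s.comp (yon x)) fun c' f hf _ => hs _ _ hf (Or.inl hf)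
  obtain ⟨t2, h1, h2⟩ := attach B (yon x) s t (fun c' f hf => ht c' f hf trivial)
    (fun c' f g hfg _ => inj c' f g hfg)
  refine ⟨t2, fun c l hl _ => h1 c l hl, ?_⟩
  rintro c' l (hl | ⟨f, rfl⟩)
  · rw [h1 _ _ hl]; exact hs _ _ hl (Or.inl hl)
  · rw [h2]; exact ht' c' f trivial

section prism

variable (n : ℕ) (x : D)

/-- the `j`-th top simplex of the prism -/
def prs (j : ℕ) (hj : j ≤ n) : ((yo (⟨n, x⟩ : Ob D)).prod (II D)).obj ⟨n + 1, x⟩ :=
  (⟨fun i => ⟨if i.val ≤ j then i.val else i.val - 1, by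
      have := i.2; dsimp only at this ⊢; split_ifs <;> omega⟩,
    fun i i' h => by
      have h' : i.val ≤ i'.val := h
      show (if i.val ≤ j then i.val else i.val - 1) ≤ (if i'.val ≤ j then i'.val else i'.val - 1)
      split_ifs <;> omega, le_rfl⟩,
   ⟨fun i => decide (j < i.val), fun i i' h => by
      have h' : i.val ≤ i'.val := h
      show decide (j < i.val) ≤ decide (j < i'.val)
      by_cases h1 : j < i.val
      · have : j < i'.val := by omega
        simp [h1, this]
      · simp [h1]⟩)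

def inS (j : ℕ) : Sub ((yo (⟨n, x⟩ : Ob D)).prod (II D)) :=
  ⟨fun _ p => ∀ i, (p.2.r i = false → (p.1.f i).val ≤ j) ∧ (p.2.r i = true → j ≤ (p.1.f i).val),
    fun f _ h i => h (f.f i)⟩

theorem prs_inj (j : ℕ) (hj : j ≤ n) (c' : Ob D) (f g : Ar c' ⟨n + 1, x⟩)
    (h : ((yo (⟨n, x⟩ : Ob D)).prod (II D)).map f (prs n x j hj) =
      ((yo (⟨n, x⟩ : Ob D)).prod (II D)).map g (prs n x j hj)) : f = g := by
  ext i
  have h1 := congrArg Fin.val (congrFun (congrArg Ar.f (congrArg Prod.fst h)) i)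
  have h2 := congrFun (congrArg Iv.r (congrArg Prod.snd h)) i
  simp only [prs, Ar.comp, Iv.res, decide_eq_decide] at h1 h2
  split_ifs at h1 <;> omega

theorem inS_iff (j : ℕ) (hj : j ≤ n) (c' : Ob D) (p) :
    (inS n x j).mem c' p ↔ (yon (prs n x j hj)).im.mem c' p := by
  constructor
  · intro h
    refine ⟨⟨fun i => ⟨if p.2.r i then (p.1.f i).val + 1 else (p.1.f i).val, by
      have := (p.1.f i).2; dsimp only at this ⊢; split_ifs <;> omega⟩, fun i i' hi => ?_, p.1.le⟩, ?_⟩
    · have h1 : (p.1.f i).val ≤ (p.1.f i').val := p.1.mono hi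
      have h2 := p.2.mono hi
      show (if p.2.r i then (p.1.f i).val + 1 else (p.1.f i).val) ≤
        (if p.2.r i' then (p.1.f i').val + 1 else (p.1.f i').val)
      revert h2
      cases p.2.r i <;> cases p.2.r i' <;> simp <;> omega
    · apply Prod.ext
      · ext i
        have := h i
        simp only [yon, prs, Ar.comp]
        revert this
        cases p.2.r i <;> simp <;> intros <;> omega
      · ext i
        have := h i
        simp only [yon, prs, Iv.res]
        by_cases hr : p.2.r i = true <;> simp [hr] at this ⊢ <;> omega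
  · rintro ⟨f, rfl⟩ i
    simp only [yon, prs, Ar.comp, Iv.res, decide_eq_false_iff_not, decide_eq_true_eq]
    split_ifs <;> omega

def prB (e : Bool) (k : ℕ) : Sub ((yo (⟨n, x⟩ : Ob D)).prod (II D)) :=
  ⟨fun c p => (box (bd _) e).mem c p ∨
      ∃ j ≤ n, (if e then j < k else n + 1 ≤ j + k) ∧ (inS n x j).mem c p,
    fun f _ h => h.imp ((box (bd _) e).cl f) fun ⟨j, h1, h2, h3⟩ => ⟨j, h1, h2, (inS n x j).cl f h3⟩⟩

theorem inS_cover (c' : Ob D) (p) : ∃ j ≤ n, (inS n x j).mem c' p := by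
  by_cases h : ∃ i, p.2.r i = true
  · obtain ⟨i0, hi0, hmin⟩ := (wellFounded_lt (α := Fin (c'.n + 1))).has_min
      {i | p.2.r i = true} h
    refine ⟨(p.1.f i0).val, Nat.lt_succ_iff.1 (p.1.f i0).2, fun i => ⟨fun hi => ?_, fun hi => ?_⟩⟩
    · apply p.1.mono
      by_contra hn
      have := p.2.mono (not_le.1 hn).le
      have h0 : p.2.r i0 = true := hi0
      rw [hi, h0] at this
      exact absurd this (by decide)
    · exact p.1.mono (not_lt.1 (hmin i hi))
  · exact ⟨n, le_rfl, fun i => ⟨fun _ => Nat.lt_succ_iff.1 (p.1.f i).2, fun hi => absurd ⟨i, hi⟩ h⟩⟩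

/-- contraction of the top simplex towards the vertex `k` -/
def ctr {c : Ob D} (e : Bool) (k : Fin (c.n + 1)) : Hom ((yo c).prod (II D)) (yo c) :=
  ⟨fun _ p => ⟨fun i => if p.2.r i = e then (if e then max (p.1.f i) k else min (p.1.f i) k)
      else p.1.f i, fun i i' hi => by
      have h1 := p.1.mono hi
      have h2 := p.2.mono hi
      show (if p.2.r i = e then (if e then max (p.1.f i) k else min (p.1.f i) k) else p.1.f i) ≤
        (if p.2.r i' = e then (if e then max (p.1.f i') k else min (p.1.f i') k) else p.1.f i')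
      revert h2
      cases e <;> cases p.2.r i <;> cases p.2.r i' <;> simp [h1] <;> omega, p.1.le⟩,
    fun _ _ => rfl⟩

theorem ctr_id {c : Ob D} (e : Bool) (k : Fin (c.n + 1)) (c') (f : Ar c' c) :
    (ctr e k).app c' (f, Iv.pt c' (!e)) = f := by
  ext i; cases e <;> simp [ctr, Iv.pt]

theorem ctr_val {c : Ob D} (e : Bool) (k : Fin (c.n + 1)) (c') (f : Ar c' c) (r : Iv c') (i) :
    (((ctr e k).app c' (f, r)).f i).val = if r.r i = e then
      (if e then max (f.f i).val k.val else min (f.f i).val k.val) else (f.f i).val := by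
  simp only [ctr]
  split_ifs <;> simp [Fin.coe_max, Fin.coe_min]

theorem not_surj_iff {a b : ℕ} (f : Fin a → Fin b) :
    ¬ Function.Surjective f ↔ ∃ v < b, ∀ i, (f i).val ≠ v := by
  simp only [Function.Surjective, not_forall, not_exists]
  constructor
  · rintro ⟨v, hv⟩; exact ⟨v.val, v.2, fun i h => hv i (Fin.ext h)⟩
  · rintro ⟨v, hv, h⟩; exact ⟨⟨v, hv⟩, fun i hi => h i (congrArg Fin.val hi)⟩

theorem prB_comap_iff (e : Bool) (k j : ℕ) (hj : j ≤ n) (hk : if e then j = k else j + k = n)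
    (c' : Ob D) (f : Ar c' ⟨n + 1, x⟩) :
    ((prB n x e k).comap (yon (prs n x j hj))).mem c' f ↔
      c'.x ≠ x ∨ (∀ i, (f.f i).val ≠ if e then j else j + 1) ∨
        ∃ v ≤ n, v ≠ j ∧ ∀ i, (f.f i).val ≠ if v < j then v else v + 1 := by
  simp only [prB, Sub.comap, box, bd, yon, prs, Ar.comp, inS, Iv.res, not_surj_iff, Iv.ext_iff,
    Iv.pt, funext_iff, decide_eq_false_iff_not, decide_eq_true_eq]
  constructor
  · rintro (((h | ⟨v, hv, h⟩) | h) | ⟨j', hj', h1, h2⟩)
    · exact Or.inl h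
    · by_cases hvj : v = j
      · right; left; intro i hi
        apply h i
        cases e <;> simp at hi hk ⊢ <;> split_ifs <;> omega
      · right; right
        refine ⟨v, by omega, hvj, fun i hi => h i ?_⟩
        split_ifs at hi ⊢ <;> omega
    · right; left; intro i hi
      have := h i
      cases e <;> simp at hi hk this <;> omega
    · right; left; intro i hi
      have := h2 i
      cases e <;> simp at hi hk this h1 <;> rw [hi] at this <;> simp at this <;> omega
  · rintro (h | h | ⟨v, hv, hvj, h⟩)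
    · exact Or.inl (Or.inl (Or.inl h))
    · cases e
      · simp only [Bool.false_eq_true, if_false] at h hk ⊢
        by_cases hjn : j = n
        · left; right; intro i
          have := h i
          have := (f.f i).2
          simp; dsimp only at this; omega
        · right
          refine ⟨j + 1, by omega, by omega, fun i => ?_⟩
          have := h i
          split_ifs <;> omega
      · simp only [if_true] at h hk ⊢
        by_cases hj0 : j = 0
        · left; right; intro i
          have := h i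
          simp; omega
        · right
          refine ⟨j - 1, by omega, by omega, fun i => ?_⟩
          have := h i
          split_ifs <;> omega
    · left; left; right
      refine ⟨v, by omega, fun i hi => h i ?_⟩
      split_ifs at hi ⊢ <;> omega

theorem prB_anod (e : Bool) (k j : ℕ) (hj : j ≤ n) (hk : if e then j = k else j + k = n) :
    Anod ((prB n x e k).comap (yon (prs n x j hj))) := by
  refine ⟨e, ctr e ⟨if e then j + 1 else j, by dsimp only; split_ifs <;> omega⟩, ctr_id _ _, ?_⟩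
  intro c' f r h
  rw [prB_comap_iff n x e k j hj hk] at h ⊢
  rcases h with (h | h | ⟨v, hv, hvj, h⟩) | h
  · exact Or.inl h
  · right; left; intro i
    have := h i
    rw [ctr_val]
    cases e <;> simp at this ⊢ <;> split_ifs <;> omega
  · right; right
    refine ⟨v, hv, hvj, fun i => ?_⟩
    have := h i
    rw [ctr_val]
    by_cases hvl : v < j <;> cases e <;> simp [hvl] at this ⊢ <;> split_ifs <;> omega
  · right; left; intro i
    subst h
    rw [ctr_val]
    cases e <;> simp [Iv.pt] <;> omega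

theorem prism (A : Fam W ((yo (⟨n, x⟩ : Ob D)).prod (II D))) (hA : ∀ c p, FibAt A c p) (e : Bool) :
    Ext A (box (bd _) e) (Sub.top _) := by
  have key : ∀ k ≤ n + 1, Ext A (box (bd _) e) (prB n x e k) := by
    intro k hk
    induction k with
    | zero =>
      intro s hs
      refine ⟨s, fun _ _ _ _ => rfl, fun c l hl => ?_⟩
      rcases hl with hl | ⟨j, h1, h2, -⟩
      · exact hs c l hl (Or.inl hl)
      · cases e <;> simp at h2; omega
    | succ k ih =>
      have hj : (if e then k else n - k) ≤ n := by split_ifs <;> omega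
      have hk' : if e then (if e then k else n - k) = k else (if e then k else n - k) + k = n := by
        cases e <;> simp; omega
      have h2 := ext_attach (B := prB n x e k) (prs n x _ hj) (prs_inj n x _ hj)
        (hA _ _ _ (prB_anod n x e k _ hj hk'))
      have he : (prB n x e k).or (yon (prs n x _ hj)).im = prB n x e (k + 1) := by
        ext c p
        rw [Sub.or_mem, ← inS_iff]
        constructor
        · rintro ((h | ⟨j, h1, h2, h3⟩) | h)
          · exact Or.inl h
          · refine Or.inr ⟨j, h1, ?_, h3⟩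
            cases e <;> simp at h2 ⊢ <;> omega
          · refine Or.inr ⟨_, hj, ?_, h⟩
            cases e <;> simp; omega
        · rintro (h | ⟨j, h1, h2, h3⟩)
          · exact Or.inl (Or.inl h)
          · by_cases hjj : j = if e then k else n - k
            · exact Or.inr (hjj ▸ h3)
            · refine Or.inl (Or.inr ⟨j, h1, ?_, h3⟩)
              cases e <;> simp at h2 hjj ⊢ <;> omega
      rw [he] at h2
      refine (ih (by omega)).trans h2 (fun c l h => Or.inl h) ?_
      rw [← he]; exact fun c l h => Or.inl h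
  have he : prB n x e (n + 1) = Sub.top _ := by
    ext c p
    refine ⟨fun _ => trivial, fun _ => ?_⟩
    obtain ⟨j, h1, h2⟩ := inS_cover n x c p
    refine Or.inr ⟨j, h1, ?_, h2⟩
    cases e <;> simp; omega
  exact he ▸ key _ le_rfl

end prism

/-- cell-by-cell filling of open boxes -/
theorem cellsBox [WellFoundedGT D] (A : Fam W (L.prod (II D))) (K K' : Sub L) (e : Bool)
    (s : Hom (L.prod (II D)) (VV D W))
    (hs : ∀ c p, (box K e).mem c p → K' c p.1 → A c (p, s c p))
    (H : ∀ c l, K' c l → ¬ K c l → ∀ t : Hom ((yo c).prod (II D)) (VV D W),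
      (∀ c' p, (box (bd c) e).mem c' p → A c' ((L.map p.1 l, p.2), t c' p)) →
      (∀ c' f, t c' (f, Iv.pt c' e) = s c' (L.map f l, Iv.pt c' e)) →
      ∃ t' : Hom ((yo c).prod (II D)) (VV D W),
        (∀ c' p, (box (bd c) e).mem c' p → t' c' p = t c' p) ∧
        ∀ c' p, A c' ((L.map p.1 l, p.2), t' c' p)) :
    ∃ t : Hom (L.prod (II D)) (VV D W),
      (∀ c p, (box K e).mem c p → K' c p.1 → t c p = s c p) ∧
      ∀ c p, K' c p.1 → A c (p, t c p) := by
  let full : Sub (L.prod (II D)) → Sub L := fun Q =>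
    ⟨fun c l => ∀ c' (f : Ar c' c) r, Q c' (L.map f l, r), fun g _ h c' f r => by
      rw [L.map_comp]; exact h _ _ _⟩
  have := zorn0 A ((box K e).and (cyl K')) (cyl K') s
    (fun Q => ∀ c p, Q c p → K' c p.1 ∧ ((full Q).mem c p.1 ∨ p.2 = Iv.pt c e))
    (fun c l h => hs c l h.1 h.2) ?_ ?_ ?_
  · obtain ⟨t, h1, h2⟩ := this
    exact ⟨t, fun c l h h' => h1 c l ⟨h, h'⟩, h2⟩
  · rintro c p ⟨h | h, h'⟩
    · exact ⟨h', Or.inl fun c' f r => ⟨Or.inl (K.cl f h), K'.cl f h'⟩⟩
    · exact ⟨h', Or.inr h⟩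
  · rintro S - hS c p ⟨Q, hQ, h⟩
    exact ⟨(hS Q hQ c p h).1, (hS Q hQ c p h).2.imp (fun h c' f r => ⟨Q, hQ, h c' f r⟩) id⟩
  intro Q t hR hQ ht hA hex
  obtain ⟨c, l, hK', hn, hb⟩ := exists_min_cell (full Q) K' (by
    obtain ⟨c, p, h1, h2⟩ := hex
    exact ⟨c, p.1, h1, fun h => h2 (by simpa using h c (Ar.id c) p.2)⟩)
  let m : Hom ((yo c).prod (II D)) (L.prod (II D)) := ((yon l).comp Hom.fst).mk2 Hom.snd
  have hm : ∀ c' p, Q c' (m c' p) ↔ (box (bd c) e).mem c' p := by
    intro c' p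
    constructor
    · intro h
      rcases (hR _ _ h).2 with h | h
      · left; by_contra hh; exact hn (mem_of_not_bd (full Q) p.1 hh h)
      · exact Or.inr h
    · rintro (h | h)
      · have := hb _ _ h c' (Ar.id c') p.2
        rw [L.map_id] at this
        exact this
      · exact hQ _ _ ⟨Or.inr h, K'.cl p.1 hK'⟩
  obtain ⟨t', h1, h2⟩ := H c l hK'
    (fun h => hn fun c' f r => hQ _ _ ⟨Or.inl (K.cl f h), K'.cl f hK'⟩) (t.comp m)
    (fun c' p hp => hA _ _ ((hm c' p).2 hp))
    (fun c' f => ht _ _ ⟨Or.inr rfl, K'.cl f hK'⟩)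
  obtain ⟨t'', h3, h4⟩ := attach Q m t t' (fun c' p hp => h1 c' p ((hm c' p).1 hp))
    (fun c' p q hpq hp => by
      have e1 : L.map p.1 l = L.map q.1 l := congrArg Prod.fst hpq
      have e2 : p.2 = q.2 := congrArg (fun z : (L.prod (II D)).obj c' => z.2) hpq
      exact Prod.ext (ez_inj (full Q) hn hb p.1 q.1
        (fun hh => hp ((hm c' p).2 (Or.inl hh))) e1) e2)
  refine ⟨Q.or m.im, t'', ?_, fun _ _ h => Or.inl h, h3, ?_, ?_⟩
  · rintro c' p (h | ⟨q, rfl⟩)
    · exact ⟨(hR _ _ h).1, (hR _ _ h).2.imp (fun h c'' f r => Or.inl (h c'' f r)) id⟩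
    · refine ⟨K'.cl q.1 hK', Or.inl fun c'' f r => Or.inr ⟨(f.comp q.1, r), ?_⟩⟩
      simp [m]
  · rintro c' l' (h | ⟨q, rfl⟩)
    · rw [h3 _ _ h]; exact hA _ _ h
    · rw [h4]; exact h2 _ _
  · by_contra hc
    apply hn
    intro c' f r
    by_contra hq
    exact hc ⟨c', _, Or.inr ⟨(f, r), rfl⟩, hq⟩

theorem fill [WellFoundedGT D] {A : Fam W (L.prod (II D))} {K' : Sub L} (hA : FibOn A (cyl K'))
    (K : Sub L) (e : Bool) : Ext A (box K e) (cyl K') := by
  intro s hs
  refine cellsBox A K K' e s hs ?_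
  rintro ⟨n, x⟩ l hl - t ht -
  let m : Hom ((yo (⟨n, x⟩ : Ob D)).prod (II D)) (L.prod (II D)) :=
    ((yon l).comp Hom.fst).mk2 Hom.snd
  obtain ⟨t', h1, h2⟩ := prism n x (A.pull m)
    (fun c p => (hA c (m c p) (K'.cl p.1 hl)).pull m) e t (fun c p hp _ => ht c p hp)
  exact ⟨t', fun c p hp => h1 c p hp trivial, fun c p => h2 c p trivial⟩

def atPt (L : Psh.{v} D) (e : Bool) : Hom L (L.prod (II D)) := (Hom.id L).mk2 (Hom.ptI L e)

@[simp] theorem atPt_app (e : Bool) (c) (l : L.obj c) : (atPt L e).app c l = (l, Iv.pt c e) := rfl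

/-- composition problems -/
def Comp (A : Fam W (L.prod (II D))) (K K' : Sub L) (e : Bool) : Prop :=
  ∀ s : Hom (L.prod (II D)) (VV D W), (∀ c p, (box K e).mem c p → K' c p.1 → A c (p, s c p)) →
    ∃ t : Hom L (VV D W), (∀ c l, K c l → K' c l → t c l = s c (l, Iv.pt c (!e))) ∧
      ∀ c l, K' c l → A c ((l, Iv.pt c (!e)), t c l)

theorem comp [WellFoundedGT D] {A : Fam W (L.prod (II D))} {K' : Sub L} (hA : FibOn A (cyl K'))
    (K : Sub L) (e : Bool) : Comp A K K' e := by
  intro s hs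
  obtain ⟨t, h1, h2⟩ := fill hA K e s hs
  exact ⟨t.comp (atPt L (!e)), fun c l h h' => h1 c _ (Or.inl h) h', fun c l h => h2 c _ h⟩

/-- filling from composition, by a connection -/
theorem fill_of_comp {A : Fam W (L.prod (II D))} {K K' : Sub L} {e : Bool}
    (h : Comp (A.pull ((Hom.fst.comp Hom.fst).mk2 (Hom.conn e (Hom.snd.comp Hom.fst) Hom.snd)))
      (box K e) (cyl K') e) : Ext A (box K e) (cyl K') := by
  intro s hs
  obtain ⟨t, h1, h2⟩ := h
    (s.comp ((Hom.fst.comp Hom.fst).mk2 (Hom.conn e (Hom.snd.comp Hom.fst) Hom.snd))) (by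
      rintro c ⟨⟨l, r⟩, r'⟩ h h'
      refine hs c _ ?_ h'
      rcases h with (h | h) | h
      · exact Or.inl h
      · right; dsimp only at h; simp [h]
      · right; dsimp only at h; simp [h])
  refine ⟨t, fun c p h h' => ?_, fun c p h => ?_⟩
  · rw [h1 c p h h']; simp
  · simpa using h2 c p h

theorem fibAt_of_fill {A : Fam W L} {c} {l : L.obj c}
    (h : ∀ (e : Bool) (φ : Sub (yo c)) (γ : Hom ((yo c).prod (II D)) (yo c)),
      Ext (A.pull ((yon l).comp γ)) (box φ e) (Sub.top _)) : FibAt A c l := by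
  rintro φ ⟨e, γ, h1, h2⟩ s hs
  obtain ⟨t, h3, h4⟩ := h e φ γ (s.comp γ) (fun c' p hp _ => hs c' _ (h2 c' p.1 p.2 hp) trivial)
  refine ⟨t.comp (atPt _ (!e)), fun c' f hf _ => ?_, fun c' f _ => ?_⟩
  · have := h3 c' (f, Iv.pt c' (!e)) (Or.inl hf) trivial
    simpa [h1] using this
  · have := h4 c' (f, Iv.pt c' (!e)) trivial
    simpa [h1] using this

theorem fibOn_of_comp {A : Fam W L} {P : Sub L}
    (h : ∀ (L0 : Psh.{0} D) (β : Hom (L0.prod (II D)) L) (K : Sub L0) (e : Bool),
      (∀ c p, P c (β c p)) → Comp (A.pull β) K (Sub.top _) e) : FibOn A P := by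
  intro c l hl
  apply fibAt_of_fill
  intro e φ γ
  exact fill_of_comp (K' := Sub.top _) (h ((yo c).prod (II D))
    (((yon l).comp γ).comp
      ((Hom.fst.comp Hom.fst).mk2 (Hom.conn e (Hom.snd.comp Hom.fst) Hom.snd)))
    (box φ e) e fun c' p => P.cl _ hl)

/-- trivially fibrant families -/
def TrivOn (A : Fam W L) (P : Sub L) : Prop := ∀ c l, P c l → ∀ φ, ExtAt A c l φ

theorem TrivOn.ext [WellFoundedGT D] {A : Fam W L} {P : Sub L} (h : TrivOn A P) (K : Sub L) :
    Ext A K P := by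
  intro s hs
  refine cells A K P s hs fun c l hl _ t ht _ => ?_
  obtain ⟨t', h1, h2⟩ := h c l hl (bd c) t fun c' f hf _ => ht c' f hf
  exact ⟨t', fun c' f hf => h1 c' f hf trivial, fun c' f => h2 c' f trivial⟩

theorem TrivOn.pull {A : Fam W L} {P : Sub L} (h : TrivOn A P) (β : Hom L' L) {P' : Sub L'}
    (hP : ∀ c l, P' c l → P c (β c l)) : TrivOn (A.pull β) P' :=
  fun c l hl φ => (h c _ (hP c l hl) φ).pull β

theorem TrivOn.congr {A A' : Fam W L} {P : Sub L} (h : TrivOn A P)
    (he : ∀ c l v, P c l → (A c (l, v) ↔ A' c (l, v))) : TrivOn A' P :=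
  fun c l hl φ => (h c l hl φ).congr fun c' f v => he c' _ v (P.cl f hl)

theorem TrivOn.fib {A : Fam W L} {P : Sub L} (h : TrivOn A P) : FibOn A P :=
  fun c l hl φ _ => h c l hl φ

theorem trivOn_of_ext {A : Fam W L} {P : Sub L}
    (h : ∀ (L0 : Psh.{0} D) (β : Hom L0 L) (K : Sub L0),
      (∀ c p, P c (β c p)) → Ext (A.pull β) K (Sub.top _)) : TrivOn A P :=
  fun c l hl φ => h (yo c) (yon l) φ fun _ f => P.cl f hl

end Pool.Agent.Lib.MP_5eb18a_lc
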