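import Pool.Agent.Lib.MP_5eb18a_lc.Inj
import Pool.Agent.Lib.MP_5eb18a_lc.Check

namespace Pool.Agent.Lib.MP_5eb18a_lc

universe u

theorem inacc_four {n : ℕ} (h : Inacc.{u} n) : Inacc.{u + 4} (n + 4 : ℕ) :=
  inacc_succ (inacc_succ (inacc_succ (inacc_succ h)))

theorem inacc_sixteen {n : ℕ} (h : Inacc.{u} n) : Inacc.{u + 16} (n + 16 : ℕ) :=
  inacc_four (inacc_four (inacc_four (inacc_four h)))

theorem inacc_32 : Inacc.{32} (32 : ℕ) := inacc_sixteen (inacc_sixteen inacc_zero.{0})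

theorem q1_final (N : ℕ∞) (hN : N ≤ 32 ∨ Inacc.{u} N) : ¬ ∃ t, Der N [] t t (Q1 0 0 1) := by
  by_cases h : N ≤ 32
  · exact q1_not_der h (by decide) inacc_32
  · exact q1_not_der le_rfl (le_trans (by decide) (not_le.1 h).le) (hN.resolve_left h)

theorem q2_final (N : ℕ∞) (hN : N ≤ 32 ∨ Inacc.{u} N) : ¬ ∃ t, Der N [] t t (Q2 0 0 1) := by
  by_cases h : N ≤ 32
  · exact q2_not_der h (by decide) inacc_32
  · exact q2_not_der le_rfl (le_trans (by decide) (not_le.1 h).le) (hN.resolve_left h)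

end Pool.Agent.Lib.MP_5eb18a_lc
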