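import Pool.Agent.Lib.MP_5eb18a_lc.ZF

/-!
Type formers on families: sums, products, paths, discrete families, coproducts.
-/

namespace Pool.Agent.Lib.MP_5eb18a_lc

universe u v v' v'' w

set_option linter.unusedSectionVars false

open Classical

variable {D : Type} [PartialOrder D] [Countable D]
variable {L : Psh.{v} D} {L' : Psh.{v'} D} {L'' : Psh.{v''} D}

abbrev VZ (D : Type) [PartialOrder D] : Psh.{u + 1} D := VV D ZF.{u}
abbrev Vl {D : Type} [PartialOrder D] (c : Ob D) := Val ZF.{u} c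
abbrev Fm {D : Type} [PartialOrder D] (L : Psh.{v} D) := Fam ZF.{u} L
abbrev Sec {D : Type} [PartialOrder D] (L : Psh.{v} D) := Hom L (VZ.{u} D)

section ops
variable {c c' : Ob D}

def pairV (a b : Vl.{u} c) : Vl.{u} c := fun c' g => ZFSet.pair (a c' g) (b c' g)
noncomputable def fstV (v : Vl.{u} c) : Vl.{u} c := fun c' g => p1 (v c' g)
noncomputable def sndV (v : Vl.{u} c) : Vl.{u} c := fun c' g => p2 (v c' g)
noncomputable def appV (F a : Vl.{u} c) : Vl.{u} c := fun c' g => ap (F c' g) (enc (a.res g))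
noncomputable def atV (p : Vl.{u} c) (r : Iv c) : Vl.{u} c :=
  fun c' g => ap (p c' g) (ckey (Iv c') (r.res g))
def cstV (c : Ob D) (z : ZF.{u}) : Vl.{u} c := fun _ _ => z

@[simp] theorem pairV_res (f : Ar c' c) (a b : Vl.{u} c) :
    (pairV a b).res f = pairV (a.res f) (b.res f) := rfl
@[simp] theorem fstV_res (f : Ar c' c) (a : Vl.{u} c) : (fstV a).res f = fstV (a.res f) := rfl
@[simp] theorem sndV_res (f : Ar c' c) (a : Vl.{u} c) : (sndV a).res f = sndV (a.res f) := rfl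
@[simp] theorem appV_res (f : Ar c' c) (a b : Vl.{u} c) :
    (appV a b).res f = appV (a.res f) (b.res f) := rfl
@[simp] theorem atV_res (f : Ar c' c) (a : Vl.{u} c) (r : Iv c) :
    (atV a r).res f = atV (a.res f) (r.res f) := rfl
@[simp] theorem cstV_res (f : Ar c' c) (z : ZF.{u}) : (cstV c z).res f = cstV c' z := rfl
@[simp] theorem cstV_hd (z : ZF.{u}) : Val.hd (cstV c z) = z := rfl
@[simp] theorem fstV_pairV (a b : Vl.{u} c) : fstV (pairV a b) = a := by
  funext c' g; simp [fstV, pairV]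
@[simp] theorem sndV_pairV (a b : Vl.{u} c) : sndV (pairV a b) = b := by
  funext c' g; simp [sndV, pairV]
theorem pairV_inj {a b a' b' : Vl.{u} c} (h : pairV a b = pairV a' b') : a = a' ∧ b = b' :=
  ⟨by simpa using congrArg fstV h, by simpa using congrArg sndV h⟩
theorem cstV_inj {z z' : ZF.{u}} (h : cstV c z = cstV c z') : z = z' := congrArg Val.hd h
@[simp] theorem cstV_eq_iff {z z' : ZF.{u}} : cstV c z = cstV c z' ↔ z = z' :=
  ⟨cstV_inj, fun h => h ▸ rfl⟩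

end ops

def Hom.pairV (s t : Sec.{u} L) : Sec.{u} L :=
  ⟨fun c l => Pool.Agent.Lib.MP_5eb18a_lc.pairV (s c l) (t c l), fun f l => by
    rw [s.nat, t.nat]; rfl⟩
noncomputable def Hom.fstV (s : Sec.{u} L) : Sec.{u} L :=
  ⟨fun c l => Pool.Agent.Lib.MP_5eb18a_lc.fstV (s c l), fun f l => by rw [s.nat]; rfl⟩
noncomputable def Hom.sndV (s : Sec.{u} L) : Sec.{u} L :=
  ⟨fun c l => Pool.Agent.Lib.MP_5eb18a_lc.sndV (s c l), fun f l => by rw [s.nat]; rfl⟩
noncomputable def Hom.appV (s t : Sec.{u} L) : Sec.{u} L :=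
  ⟨fun c l => Pool.Agent.Lib.MP_5eb18a_lc.appV (s c l) (t c l), fun f l => by
    rw [s.nat, t.nat]; rfl⟩
noncomputable def Hom.atV (s : Sec.{u} L) (r : Hom L (II D)) : Sec.{u} L :=
  ⟨fun c l => Pool.Agent.Lib.MP_5eb18a_lc.atV (s c l) (r c l), fun f l => by
    rw [s.nat, r.nat]; rfl⟩
def Hom.cst (L : Psh.{v} D) (z : ZF.{u}) : Sec.{u} L := ⟨fun c _ => cstV c z, fun _ _ => rfl⟩

@[simp] theorem Hom.pairV_app (s t : Sec.{u} L) (c l) :
    (s.pairV t).app c l = Pool.Agent.Lib.MP_5eb18a_lc.pairV (s c l) (t c l) := rfl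
@[simp] theorem Hom.fstV_app (s : Sec.{u} L) (c l) :
    s.fstV.app c l = Pool.Agent.Lib.MP_5eb18a_lc.fstV (s c l) := rfl
@[simp] theorem Hom.sndV_app (s : Sec.{u} L) (c l) :
    s.sndV.app c l = Pool.Agent.Lib.MP_5eb18a_lc.sndV (s c l) := rfl
@[simp] theorem Hom.appV_app (s t : Sec.{u} L) (c l) :
    (s.appV t).app c l = Pool.Agent.Lib.MP_5eb18a_lc.appV (s c l) (t c l) := rfl
@[simp] theorem Hom.atV_app (s : Sec.{u} L) (r : Hom L (II D)) (c l) :
    (s.atV r).app c l = Pool.Agent.Lib.MP_5eb18a_lc.atV (s c l) (r c l) := rfl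
@[simp] theorem Hom.cst_app (z : ZF.{u}) (c) (l : L.obj c) : (Hom.cst L z).app c l = cstV c z := rfl

def Fam.fib (A : Fm.{u} L) (c : Ob D) (l : L.obj c) : Set (Vl.{u} c) := {v | A c (l, v)}

@[simp] theorem Fam.mem_fib (A : Fm.{u} L) (c) (l : L.obj c) (v) : v ∈ A.fib c l ↔ A c (l, v) :=
  Iff.rfl

/-- fibres are small on `Q` -/
def SmOn (P : ZF.{u} → Prop) (A : Fm.{u} L) (Q : Sub L) : Prop :=
  ∀ c l, Q c l → SB P (enc '' A.fib c l)

/-- all fibres are sets -/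
def Fam.Bd (A : Fm.{u} L) : Prop := SmOn PT A (Sub.top L)

theorem Fam.Bd.pull {A : Fm.{u} L} (h : A.Bd) (β : Hom L' L) : (A.pull β).Bd :=
  fun c l _ => h c (β c l) trivial

theorem SmOn.pull {P : ZF.{u} → Prop} {A : Fm.{u} L} {Q : Sub L} (h : SmOn P A Q) (β : Hom L' L)
    {Q' : Sub L'} (hQ : ∀ c l, Q' c l → Q c (β c l)) : SmOn P (A.pull β) Q' :=
  fun c l hl => h c (β c l) (hQ c l hl)

def Sub.ext' (P : Sub L) (A : Fm.{u} L) : Sub (L.prod (VZ.{u} D)) :=
  ⟨fun c p => P c p.1 ∧ A c p, fun f _ h => ⟨P.cl f h.1, A.cl f h.2⟩⟩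

@[simp] theorem Sub.ext'_mem (P : Sub L) (A : Fm.{u} L) (c) (p : (L.prod (VZ.{u} D)).obj c) :
    (P.ext' A).mem c p ↔ P c p.1 ∧ A c p := Iff.rfl

/-! ### codes -/

def El {c : Ob D} (T : Vl.{u} c) : Set (Vl.{u} c) := {a | ∀ c' f, enc (a.res f) ∈ T c' f}

theorem El.res {c c' : Ob D} {T a : Vl.{u} c} (h : a ∈ El T) (f : Ar c' c) :
    a.res f ∈ El (T.res f) := fun _ g => h _ (g.comp f)

def ElF (T : Sec.{u} L) : Fm.{u} L :=
  ⟨fun c p => p.2 ∈ El (T c p.1), fun f p h => by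
    show p.2.res f ∈ El (T _ (L.map f p.1))
    rw [T.nat]; exact El.res h f⟩

@[simp] theorem ElF_mem (T : Sec.{u} L) (c) (p : (L.prod (VZ.{u} D)).obj c) :
    (ElF T).mem c p ↔ p.2 ∈ El (T c p.1) := Iff.rfl

theorem ElF_pull (T : Sec.{u} L) (β : Hom L' L) : (ElF T).pull β = ElF (T.comp β) := rfl

theorem SB_El {P : ZF.{u} → Prop} {c : Ob D} {T : Vl.{u} c} (h : P (Val.hd T)) :
    SB P (enc '' El T) := ⟨_, h, by rintro _ ⟨a, ha, rfl⟩; exact ha c (Ar.id c)⟩

theorem ElF_bd (T : Sec.{u} L) : (ElF T).Bd := fun c l _ => SB_El (T := T c l) trivial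

noncomputable def codeF (A : Fm.{u} L) : Sec.{u} L := ofHead fun c l => cset (enc '' A.fib c l)

theorem mem_codeF {A : Fm.{u} L} (h : A.Bd) {c} {l : L.obj c} {v : Vl.{u} c} :
    v ∈ El (codeF A c l) ↔ A c (l, v) := by
  constructor
  · intro hv
    have := hv c (Ar.id c)
    rw [codeF, ofHead_apply, L.map_id] at this
    obtain ⟨v', hv', he⟩ := mem_of_mem_cset this
    rwa [← show v' = v from enc_inj he]
  · intro hv c' f
    rw [codeF, ofHead_apply, mem_cset (h _ _ trivial)]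
    exact ⟨_, A.cl' f hv, rfl⟩

theorem ElF_codeF {A : Fm.{u} L} (h : A.Bd) : ElF (codeF A) = A := by
  ext c p; exact mem_codeF h

theorem codeF_congr {A : Fm.{u} L} {A' : Fm.{u} L'} {c} {l : L.obj c} {l' : L'.obj c}
    (h : ∀ c' (f : Ar c' c) v, A c' (L.map f l, v) ↔ A' c' (L'.map f l', v)) :
    codeF A c l = codeF A' c l' := by
  funext c' f
  simp only [codeF, ofHead_apply]
  congr 2
  ext v; exact h c' f v

theorem codeF_small {P : ZF.{u} → Prop} (hP : GU P) {A : Fm.{u} L} {Q : Sub L} (h : SmOn P A Q)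
    {c} {l : L.obj c} (hl : Q c l) (c') (f : Ar c' c) : P (codeF A c l c' f) :=
  hP.cset (h _ _ (Q.cl f hl))

/-! ### dependent sums -/

def sigF (A : Fm.{u} L) (B : Fm.{u} (L.prod (VZ.{u} D))) : Fm.{u} L :=
  ⟨fun c p => ∃ a b, p.2 = pairV a b ∧ A c (p.1, a) ∧ B c ((p.1, a), b),
    fun f p ⟨a, b, h1, h2, h3⟩ => ⟨a.res f, b.res f, by
      show p.2.res f = _
      rw [h1]; rfl, A.cl' f h2, B.cl' f h3⟩⟩

theorem sigF_pair {A : Fm.{u} L} {B : Fm.{u} (L.prod (VZ.{u} D))} {c} {l : L.obj c} {a b} :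
    (sigF A B).mem c (l, pairV a b) ↔ A c (l, a) ∧ B c ((l, a), b) := by
  constructor
  · rintro ⟨a', b', h1, h2, h3⟩
    obtain ⟨rfl, rfl⟩ := pairV_inj h1
    exact ⟨h2, h3⟩
  · exact fun h => ⟨a, b, rfl, h.1, h.2⟩

theorem sigF_iff {A : Fm.{u} L} {B : Fm.{u} (L.prod (VZ.{u} D))} {c} {l : L.obj c} {v} :
    (sigF A B).mem c (l, v) ↔
      v = pairV (fstV v) (sndV v) ∧ A c (l, fstV v) ∧ B c ((l, fstV v), sndV v) := by
  constructor
  · rintro ⟨a', b', h1, h2, h3⟩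
    dsimp only at h1
    subst h1
    simpa using ⟨h2, h3⟩
  · exact fun h => ⟨_, _, h.1, h.2.1, h.2.2⟩

theorem sm_sig {P : ZF.{u} → Prop} (hP : GU P) {A : Fm.{u} L} {B : Fm.{u} (L.prod (VZ.{u} D))}
    {Q : Sub L} (hA : SmOn P A Q) (hB : SmOn P B (Q.ext' A)) : SmOn P (sigF A B) Q := by
  intro c l hl
  refine hP.SB_enc ((hP.SB_pairs (hP.SB_heads (hA c l hl)) (hP.SB_iUnion enc_inj.injOn (hA c l hl)
    (fun a => heads (B.fib c (l, a))) fun a ha => hP.SB_heads (hB c _ ⟨hl, ha⟩))).mono ?_)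
  rintro _ ⟨v, ⟨a, b, h1, h2, h3⟩, c', g, rfl⟩
  dsimp only at h1
  subst h1
  exact ⟨_, ⟨a, h2, c', g, rfl⟩, _, ⟨a, h2, b, h3, c', g, rfl⟩, rfl⟩

theorem Fam.Bd.sig {A : Fm.{u} L} {B : Fm.{u} (L.prod (VZ.{u} D))} (hA : A.Bd) (hB : B.Bd) :
    (sigF A B).Bd := sm_sig gu_top hA fun c l _ => hB c l trivial

theorem fib_sig [WellFoundedGT D] {A : Fm.{u} L} {B : Fm.{u} (L.prod (VZ.{u} D))} {P : Sub L}
    (hA : FibOn A P) (hB : FibOn B (P.ext' A)) : FibOn (sigF A B) P := by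
  refine fibOn_of_comp fun L0 β K e hβ s hs => ?_
  obtain ⟨a, ha, ha'⟩ := fill (hA.pull β (P' := cyl (Sub.top _)) fun c l _ => hβ c l) K e s.fstV
    fun c p h h' => (sigF_iff.1 (hs c p h h')).2.1
  obtain ⟨b, hb, hb'⟩ := comp (hB.pull (β.mk2 a) (P' := cyl (Sub.top _))
    fun c l _ => ⟨hβ c l, ha' c l trivial⟩) K e s.sndV fun c p h h' => by
      have := (sigF_iff.1 (hs c p h h')).2.2
      simpa [ha c p h h'] using this
  refine ⟨(a.comp (atPt _ (!e))).pairV b, fun c l h _ => ?_, fun c l _ => ?_⟩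
  · have h1 := (sigF_iff.1 (hs c (l, Iv.pt c (!e)) (Or.inl h) trivial)).1
    simp only [Hom.pairV_app, Hom.comp_app, atPt_app, hb c l h trivial,
      ha c (l, Iv.pt c (!e)) (Or.inl h) trivial, Hom.fstV_app, Hom.sndV_app]
    exact h1.symm
  · exact sigF_pair.2 ⟨ha' c _ trivial, hb' c l trivial⟩

theorem extAt_sig {A : Fm.{u} L} {B : Fm.{u} (L.prod (VZ.{u} D))} {c} {l : L.obj c}
    {φ : Sub (yo c)} (hA : ExtAt A c l φ) (hB : ∀ a, A c (l, a) → ExtAt B c (l, a) φ) :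
    ExtAt (sigF A B) c l φ := by
  intro s hs
  obtain ⟨a, ha, ha'⟩ := hA s.fstV fun c p h h' => (sigF_iff.1 (hs c p h h')).2.1
  have e1 : ∀ c' (f : Ar c' c), (a c (Ar.id c)).res f = a c' f := fun c' f => a.res_app f _
  obtain ⟨b, hb, hb'⟩ := hB (a c (Ar.id c)) (by simpa using ha' c (Ar.id c) trivial) s.sndV
    fun c' p h h' => by
      have := (sigF_iff.1 (hs c' p h h')).2.2
      simpa [e1, ha c' p h h'] using this
  refine ⟨a.pairV b, fun c' f h _ => ?_, fun c' f _ => ?_⟩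
  · have h1 := (sigF_iff.1 (hs c' f h trivial)).1
    simp only [Hom.pairV_app, hb c' f h trivial, ha c' f h trivial, Hom.fstV_app, Hom.sndV_app]
    exact h1.symm
  · exact sigF_pair.2 ⟨ha' c' _ trivial, by simpa [e1] using hb' c' f trivial⟩

theorem triv_sig {A : Fm.{u} L} {B : Fm.{u} (L.prod (VZ.{u} D))} {P : Sub L}
    (hA : TrivOn A P) (hB : TrivOn B (P.ext' A)) : TrivOn (sigF A B) P :=
  fun c l hl φ => extAt_sig (hA c l hl φ) fun _ ha => hB c _ ⟨hl, ha⟩ φ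

/-! ### dependent products -/

def piF (A : Fm.{u} L) (B : Fm.{u} (L.prod (VZ.{u} D))) : Fm.{u} L :=
  ⟨fun c p => ∀ c' (f : Ar c' c), IsGr (A.fib c' (L.map f p.1)) enc (p.2 c' f) ∧
      ∀ a, A c' (L.map f p.1, a) → B c' ((L.map f p.1, a), appV (p.2.res f) a),
    fun f p h c' g => by
      have := h c' (g.comp f)
      rw [← L.map_comp] at this
      exact this⟩

theorem piF_app {A : Fm.{u} L} {B : Fm.{u} (L.prod (VZ.{u} D))} {c} {l : L.obj c} {F a}
    (h : (piF A B).mem c (l, F)) (ha : A c (l, a)) : B c ((l, a), appV F a) := by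
  have := (h c (Ar.id c)).2 a (by simpa using ha)
  simpa using this

noncomputable def lamH (A : Fm.{u} L) (b : Sec.{u} (L.prod (VZ.{u} D))) : Sec.{u} L :=
  ofHead fun c l => gr (A.fib c l) enc fun a => Val.hd (b c (l, a))

theorem app_lamH {A : Fm.{u} L} (hA : A.Bd) {b : Sec.{u} (L.prod (VZ.{u} D))} {c} {l : L.obj c}
    {a} (ha : A c (l, a)) : appV (lamH A b c l) a = b c (l, a) := by
  funext c' g
  simp only [appV, lamH, ofHead_apply]
  rw [ap_gr enc_inj.injOn (hA _ _ trivial) (A.cl' g ha), b.apply_eq_hd]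

theorem lamH_mem {A : Fm.{u} L} (hA : A.Bd) {B : Fm.{u} (L.prod (VZ.{u} D))}
    {b : Sec.{u} (L.prod (VZ.{u} D))} {c} {l : L.obj c}
    (h : ∀ c' (f : Ar c' c) a, A c' (L.map f l, a) → B c' ((L.map f l, a), b c' (L.map f l, a))) :
    (piF A B).mem c (l, lamH A b c l) := by
  intro c' f
  refine ⟨⟨_, rfl⟩, fun a ha => ?_⟩
  dsimp only
  rw [(lamH A b).res_app, app_lamH hA ha]
  exact h c' f a ha

theorem lamH_eq {A : Fm.{u} L} (hA : A.Bd) {b : Sec.{u} (L.prod (VZ.{u} D))} {c} {l : L.obj c}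
    {F : Vl.{u} c} (hF : ∀ c' (f : Ar c' c), IsGr (A.fib c' (L.map f l)) enc (F c' f))
    (h : ∀ c' (f : Ar c' c) a, A c' (L.map f l, a) → b c' (L.map f l, a) = appV (F.res f) a) :
    lamH A b c l = F := by
  funext c' f
  rw [(hF c' f).eq enc_inj.injOn (hA _ _ trivial)]
  simp only [lamH, ofHead_apply]
  refine gr_congr rfl fun a ha => ?_
  rw [h c' f a ha]; rfl

theorem lamH_congr {A : Fm.{u} L} {A' : Fm.{u} L'} {b : Sec.{u} (L.prod (VZ.{u} D))}
    {b' : Sec.{u} (L'.prod (VZ.{u} D))} {c} {l : L.obj c} {l' : L'.obj c}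
    (hA : ∀ c' (f : Ar c' c) v, A c' (L.map f l, v) ↔ A' c' (L'.map f l', v))
    (h : ∀ c' (f : Ar c' c) a, A c' (L.map f l, a) → b c' (L.map f l, a) = b' c' (L'.map f l', a)) :
    lamH A b c l = lamH A' b' c l' := by
  funext c' f
  simp only [lamH, ofHead_apply]
  refine gr_congr (by ext v; exact hA c' f v) fun a ha => ?_
  rw [h c' f a ha]

theorem sm_pi {P : ZF.{u} → Prop} (hP : GU P) {A : Fm.{u} L} {B : Fm.{u} (L.prod (VZ.{u} D))}
    {Q : Sub L} (hA : SmOn P A Q) (hB : SmOn P B (Q.ext' A)) : SmOn P (piF A B) Q := by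
  intro c l hl
  refine hP.SB_enc ((hP.SB_ciUnion (ι := Arr c) _ fun g =>
    hP.SB_grs (hA _ _ (Q.cl g.2 hl)) (hP.SB_iUnion enc_inj.injOn (hA _ _ (Q.cl g.2 hl))
    (fun a => heads (B.fib g.1 (L.map g.2 l, a)))
      fun a ha => hP.SB_heads (hB _ _ ⟨Q.cl g.2 hl, ha⟩))).mono ?_)
  rintro _ ⟨F, hF, c', g, rfl⟩
  refine ⟨⟨c', g⟩, _, fun a ha => ?_, (hF c' g).1.eq enc_inj.injOn (hA _ _ (Q.cl g hl)).top⟩
  exact ⟨a, ha, _, (hF c' g).2 a ha, c', Ar.id c', rfl⟩

theorem Fam.Bd.pi {A : Fm.{u} L} {B : Fm.{u} (L.prod (VZ.{u} D))} (hA : A.Bd) (hB : B.Bd) :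
    (piF A B).Bd := sm_pi gu_top hA fun c l _ => hB c l trivial

theorem lamH_small {P : ZF.{u} → Prop} (hP : GU P) {A : Fm.{u} L} {Q : Sub L} (hA : SmOn P A Q)
    {b : Sec.{u} (L.prod (VZ.{u} D))}
    (hb : ∀ c l a, Q c l → A c (l, a) → P (Val.hd (b c (l, a))))
    {c} {l : L.obj c} (hl : Q c l) (c') (f : Ar c' c) : P (lamH A b c l c' f) :=
  hP.gr enc_inj.injOn (hA _ _ (Q.cl f hl)) fun a ha => hb _ _ a (Q.cl f hl) ha

theorem fib_pi [WellFoundedGT D] {A : Fm.{u} L} (hb : A.Bd) {B : Fm.{u} (L.prod (VZ.{u} D))}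
    {P : Sub L} (hA : FibOn A P) (hB : FibOn B (P.ext' A)) : FibOn (piF A B) P := by
  refine fibOn_of_comp fun L0 β K e hβ s hs => ?_
  let A1 : Fm.{u} L0 := A.pull (β.comp (atPt _ (!e)))
  let γ : Hom ((L0.prod (VZ.{u} D)).prod (II D)) (L0.prod (II D)) :=
    (Hom.fst.comp Hom.fst).mk2 Hom.snd
  obtain ⟨a, ha, ha'⟩ := fill (hA.pull (β.comp γ) (P' := cyl A1) fun c l _ => hβ c _)
    (Sub.bot _) (!e) (Hom.snd.comp Hom.fst) (by
      rintro c ⟨⟨l, a⟩, r⟩ (h | h) h'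
      · exact h.elim
      · dsimp only at h; subst h; exact h')
  obtain ⟨b, hb1, hb'⟩ := comp (hB.pull ((β.comp γ).mk2 a) (P' := cyl A1)
    fun c l h => ⟨hβ c _, ha' c l h⟩) (K.comap Hom.fst) e ((s.comp γ).appV a) fun c p h h' =>
      piF_app (hs c (γ c p) h trivial) (ha' c p h')
  refine ⟨lamH A1 b, fun c l h _ => ?_, fun c l _ => ?_⟩
  · have h1 := hs c (l, Iv.pt c (!e)) (Or.inl h) trivial
    refine lamH_eq (hb.pull _) (fun c' f => ?_) fun c' f v hv => ?_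
    · have := (h1 c' f).1
      dsimp only at this
      rw [← β.nat] at this
      exact this
    · rw [hb1 c' (L0.map f l, v) (K.cl f h) hv, s.res_app]
      simp only [Hom.appV_app]
      rw [ha c' ((L0.map f l, v), Iv.pt c' (!e)) (Or.inr rfl) hv]; rfl
  · have := lamH_mem (hb.pull (β.comp (atPt _ (!e))))
      (B := B.pull (((β.comp (atPt _ (!e))).comp Hom.fst).mk2 Hom.snd)) (b := b) (c := c) (l := l)
      fun c' f v hv => by
        have := hb' c' (L0.map f l, v) hv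
        simp only [Fam.pull_mem, Hom.mk2_app] at this
        rw [ha c' ((L0.map f l, v), Iv.pt c' (!e)) (Or.inr rfl) hv] at this
        exact this
    intro c' f
    have := this c' f
    dsimp only
    rw [← β.nat]
    exact this

theorem piF_pull (A : Fm.{u} L) (B : Fm.{u} (L.prod (VZ.{u} D))) (β : Hom L' L) :
    (piF A B).pull β = piF (A.pull β) (B.pull ((β.comp Hom.fst).mk2 Hom.snd)) := by
  ext c p
  simp only [Fam.pull_mem, piF, ← β.nat]
  rfl

theorem sigF_pull (A : Fm.{u} L) (B : Fm.{u} (L.prod (VZ.{u} D))) (β : Hom L' L) :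
    (sigF A B).pull β = sigF (A.pull β) (B.pull ((β.comp Hom.fst).mk2 Hom.snd)) := rfl

/-- extension for products reduces to extension over the total space of the domain -/
theorem ext_pi {A : Fm.{u} L} (hb : A.Bd) {B : Fm.{u} (L.prod (VZ.{u} D))} {K K' : Sub L}
    (s : Sec.{u} L) (hs : ∀ c l, K c l → K' c l → (piF A B).mem c (l, s c l))
    (h : ∃ t : Sec.{u} (L.prod (VZ.{u} D)),
      (∀ c p, K c p.1 → (K'.ext' A).mem c p → t c p = appV (s c p.1) p.2) ∧
      ∀ c p, (K'.ext' A).mem c p → B c (p, t c p)) :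
    ∃ t : Sec.{u} L, (∀ c l, K c l → K' c l → t c l = s c l) ∧
      ∀ c l, K' c l → (piF A B).mem c (l, t c l) := by
  obtain ⟨t, h1, h2⟩ := h
  refine ⟨lamH A t, fun c l h h' => ?_, fun c l h => ?_⟩
  · refine lamH_eq hb (fun c' f => (hs c l h h' c' f).1) fun c' f v hv => ?_
    rw [h1 c' _ (K.cl f h) ⟨K'.cl f h', hv⟩, s.res_app]
  · exact lamH_mem hb fun c' f v hv => h2 c' _ ⟨K'.cl f h, hv⟩

theorem triv_pi [WellFoundedGT D] {A : Fm.{u} L} (hb : A.Bd) {B : Fm.{u} (L.prod (VZ.{u} D))}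
    {P : Sub L} (hB : TrivOn B (P.ext' A)) : TrivOn (piF A B) P := by
  refine trivOn_of_ext fun L0 β K hβ s hs => ?_
  rw [piF_pull] at hs ⊢
  refine ext_pi (hb.pull β) s hs ?_
  exact (hB.pull ((β.comp Hom.fst).mk2 Hom.snd) (P' := (Sub.top _).ext' (A.pull β))
    fun c p h => ⟨hβ c _, h.2⟩).ext (K.comap Hom.fst) ((s.comp Hom.fst).appV Hom.snd)
    fun c p h h' => piF_app (hs c p.1 h trivial) h'.2

/-! ### paths -/

def IsPath {c : Ob D} (p : Vl.{u} c) : Prop := ∀ c' (f : Ar c' c), IsGr Set.univ (ckey (Iv c')) (p c' f)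

def pathF (A : Fm.{u} L) (a b : Sec.{u} L) : Fm.{u} L :=
  ⟨fun c p => IsPath p.2 ∧ (∀ c' (f : Ar c' c) r, A c' (L.map f p.1, atV (p.2.res f) r)) ∧
      atV p.2 (Iv.pt c false) = a c p.1 ∧ atV p.2 (Iv.pt c true) = b c p.1,
    fun {c' c} f p ⟨h1, h2, h3, h4⟩ => ⟨fun c'' g => h1 c'' (g.comp f), fun c'' g r => by
      have := h2 c'' (g.comp f) r
      rw [← L.map_comp] at this
      exact this, by
        show atV (p.2.res f) _ = a c' (L.map f p.1)
        rw [← a.res_app, ← h3]; rfl, by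
        show atV (p.2.res f) _ = b c' (L.map f p.1)
        rw [← b.res_app, ← h4]; rfl⟩⟩

theorem pathF_at {A : Fm.{u} L} {a b : Sec.{u} L} {c} {l : L.obj c} {p}
    (h : (pathF A a b).mem c (l, p)) (r) : A c (l, atV p r) := by
  simpa using h.2.1 c (Ar.id c) r

noncomputable def plam (b : Sec.{u} (L.prod (II D))) : Sec.{u} L :=
  ofHead fun c l => gr Set.univ (ckey (Iv c)) fun r => Val.hd (b c (l, r))

@[simp] theorem at_plam (b : Sec.{u} (L.prod (II D))) {c} (l : L.obj c) (r) :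
    atV (plam b c l) r = b c (l, r) := by
  funext c' g
  simp only [atV, plam, ofHead_apply]
  rw [ap_gr (ckey_inj _).injOn (gu_top.SB_ckey _ _) (Set.mem_univ _), b.apply_eq_hd]

theorem plam_isPath (b : Sec.{u} (L.prod (II D))) {c} (l : L.obj c) : IsPath (plam b c l) :=
  fun _ _ => ⟨_, rfl⟩

theorem IsPath.ext {c : Ob D} {p q : Vl.{u} c} (hp : IsPath p) (hq : IsPath q)
    (h : ∀ c' (f : Ar c' c) r, atV (p.res f) r = atV (q.res f) r) : p = q := by
  funext c' f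
  rw [(hp c' f).eq (ckey_inj _).injOn (gu_top.SB_ckey _ _),
    (hq c' f).eq (ckey_inj _).injOn (gu_top.SB_ckey _ _)]
  exact gr_congr rfl fun r _ => congrArg Val.hd (h c' f r)

theorem plam_eq {b : Sec.{u} (L.prod (II D))} {c} {l : L.obj c} {p : Vl.{u} c} (hp : IsPath p)
    (h : ∀ c' (f : Ar c' c) r, b c' (L.map f l, r) = atV (p.res f) r) : plam b c l = p :=
  (plam_isPath b l).ext hp fun c' f r => by rw [(plam b).res_app, at_plam, h]

theorem plam_mem {A : Fm.{u} L} {a b : Sec.{u} L} {t : Sec.{u} (L.prod (II D))} {c} {l : L.obj c}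
    (h : ∀ c' (f : Ar c' c) r, A c' (L.map f l, t c' (L.map f l, r)))
    (h0 : t c (l, Iv.pt c false) = a c l) (h1 : t c (l, Iv.pt c true) = b c l) :
    (pathF A a b).mem c (l, plam t c l) :=
  ⟨plam_isPath _ _, fun c' f r => by
    dsimp only
    rw [(plam t).res_app, at_plam]; exact h c' f r, by simpa using h0, by simpa using h1⟩

/-- constant paths -/
noncomputable def Hom.reflV (a : Sec.{u} L) : Sec.{u} L := plam (a.comp Hom.fst)

@[simp] theorem at_reflV (a : Sec.{u} L) {c} (l : L.obj c) (r) : atV (a.reflV c l) r = a c l :=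
  at_plam _ _ _

theorem reflV_congr {a : Sec.{u} L} {a' : Sec.{u} L'} {c} {l : L.obj c} {l' : L'.obj c}
    (h : a c l = a' c l') : a.reflV c l = a'.reflV c l' :=
  plam_eq (plam_isPath _ _) fun c' f r => by
    rw [a'.reflV.res_app, at_reflV, ← a'.res_app, ← h, a.res_app]; rfl

theorem reflV_mem {A : Fm.{u} L} {a b t : Sec.{u} L} {c} {l : L.obj c} (h : A c (l, t c l))
    (ha : t c l = a c l) (hb : t c l = b c l) : (pathF A a b).mem c (l, t.reflV c l) :=
  plam_mem (fun c' f r => by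
    have := A.cl' f h
    rw [t.res_app] at this
    exact this) ha hb

theorem sm_path {P : ZF.{u} → Prop} (hP : GU P) {A : Fm.{u} L} {a b : Sec.{u} L}
    {Q : Sub L} (hA : SmOn P A Q) : SmOn P (pathF A a b) Q := by
  intro c l hl
  refine hP.SB_enc ((hP.SB_ciUnion (ι := Arr c) _ fun g =>
    hP.SB_grs (hP.SB_ckey (Iv g.1) Set.univ) (hP.SB_heads (hA _ _ (Q.cl g.2 hl)))).mono ?_)
  rintro _ ⟨F, hF, c', g, rfl⟩
  refine ⟨⟨c', g⟩, _, fun r _ => ?_, (hF.1 c' g).eq (ckey_inj _).injOn (gu_top.SB_ckey _ _)⟩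
  exact ⟨_, hF.2.1 c' g r, c', Ar.id c', rfl⟩

theorem Fam.Bd.path {A : Fm.{u} L} (hA : A.Bd) (a b : Sec.{u} L) : (pathF A a b).Bd :=
  sm_path gu_top hA

def atE (j : Hom L (II D)) (e : Bool) : Sub L :=
  ⟨fun c l => j c l = Iv.pt c e, fun f l h => by rw [j.nat, h]; rfl⟩

@[simp] theorem atE_mem (j : Hom L (II D)) (e : Bool) (c) (l : L.obj c) :
    (atE j e).mem c l ↔ j c l = Iv.pt c e := Iff.rfl

/-- prescribe the two ends -/
noncomputable def edge (j : Hom L (II D)) (a b t : Sec.{u} L) : Sec.{u} L :=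
  Hom.ite (atE j false) a (Hom.ite (atE j true) b t)

theorem edge_zero {j : Hom L (II D)} {a b t : Sec.{u} L} {c} {l : L.obj c}
    (h : j c l = Iv.pt c false) : edge j a b t c l = a c l := Hom.ite_pos h

theorem edge_one {j : Hom L (II D)} {a b t : Sec.{u} L} {c} {l : L.obj c}
    (h : j c l = Iv.pt c true) : edge j a b t c l = b c l := by
  rw [edge, Hom.ite_eq, Hom.ite_pos (K := atE j true) h]
  intro c' g hg
  have := (atE j true).cl g h
  simp only [atE_mem] at this hg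
  rw [this] at hg
  simp at hg

theorem edge_eq {j : Hom L (II D)} {a b t : Sec.{u} L} {c} {l : L.obj c}
    (h0 : ∀ c' (g : Ar c' c), j c' (L.map g l) = Iv.pt c' false →
      a c' (L.map g l) = t c' (L.map g l))
    (h1 : ∀ c' (g : Ar c' c), j c' (L.map g l) = Iv.pt c' true →
      b c' (L.map g l) = t c' (L.map g l)) : edge j a b t c l = t c l := by
  have : ∀ c' (g : Ar c' c), (Hom.ite (atE j true) b t) c' (L.map g l) = t c' (L.map g l) :=
    fun c' g => Hom.ite_eq fun c'' g' h => by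
      rw [L.map_comp] at h ⊢; exact h1 _ _ h
  rw [edge, Hom.ite_eq, ← L.map_id c l, this]
  intro c' g hg
  rw [this, h0 c' g hg]

theorem pathF_pull (A : Fm.{u} L) (a b : Sec.{u} L) (β : Hom L' L) :
    (pathF A a b).pull β = pathF (A.pull β) (a.comp β) (b.comp β) := by
  ext c p
  simp only [Fam.pull_mem, pathF, ← β.nat]
  rfl

/-- the sides of a cylinder -/
def sides (K : Sub L) : Sub (L.prod (II D)) :=
  (cyl K).or ((atE Hom.snd false).or (atE Hom.snd true))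

theorem edge_path {A : Fm.{u} L} {a b s : Sec.{u} L} {K : Sub L}
    (hs : ∀ c l, K c l → (pathF A a b).mem c (l, s c l)) {c} {p : (L.prod (II D)).obj c}
    (h : K c p.1) : edge Hom.snd (a.comp Hom.fst) (b.comp Hom.fst)
      ((s.comp Hom.fst).atV Hom.snd) c p = atV (s c p.1) p.2 := by
  rw [edge_eq]; rfl
  · intro c' g hg
    have := (hs c' _ (K.cl g h)).2.2.1
    simp only [Hom.snd_app] at hg
    simp only [Hom.comp_app, Hom.fst_app, Hom.atV_app, Hom.snd_app, hg]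
    exact this.symm
  · intro c' g hg
    have := (hs c' _ (K.cl g h)).2.2.2
    simp only [Hom.snd_app] at hg
    simp only [Hom.comp_app, Hom.fst_app, Hom.atV_app, Hom.snd_app, hg]
    exact this.symm

theorem edge_mem {A : Fm.{u} L} {a b s : Sec.{u} L} {K K' : Sub L}
    (hs : ∀ c l, K c l → K' c l → (pathF A a b).mem c (l, s c l))
    (ha : ∀ c l, K' c l → A c (l, a c l)) (hb : ∀ c l, K' c l → A c (l, b c l)) {c}
    {p : (L.prod (II D)).obj c} (h : (sides K).mem c p) (h' : K' c p.1) :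
    A c (p.1, edge Hom.snd (a.comp Hom.fst) (b.comp Hom.fst)
      ((s.comp Hom.fst).atV Hom.snd) c p) := by
  rcases h with h | h | h
  · rw [edge_path (K := K.and K') (fun c l h => hs c l h.1 h.2) ⟨h, h'⟩]
    exact pathF_at (hs c _ h h') _
  · rw [edge_zero h]; exact ha c _ h'
  · rw [edge_one h]; exact hb c _ h'

/-- extension for paths reduces to extension over the cylinder -/
theorem ext_path {A : Fm.{u} L} {a b : Sec.{u} L} {K K' : Sub L}
    (ha : ∀ c l, K' c l → A c (l, a c l)) (hb : ∀ c l, K' c l → A c (l, b c l))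
    (h : Ext (A.pull Hom.fst) (sides K) (cyl K')) : Ext (pathF A a b) K K' := by
  intro s hs
  obtain ⟨t, h1, h2⟩ := h (edge Hom.snd (a.comp Hom.fst) (b.comp Hom.fst)
      ((s.comp Hom.fst).atV Hom.snd)) fun c p h h' => edge_mem hs ha hb h h'
  refine ⟨plam t, fun c l h h' => ?_, fun c l h => ?_⟩
  · refine plam_eq (hs c l h h').1 fun c' f r => ?_
    rw [h1 c' (L.map f l, r) (Or.inl (K.cl f h)) (K'.cl f h'),
      edge_path (K := K.and K') (fun c l h => hs c l h.1 h.2) ⟨K.cl f h, K'.cl f h'⟩, s.res_app]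
  · refine plam_mem (fun c' f r => h2 c' (_, r) (K'.cl f h)) ?_ ?_
    · rw [h1 c (l, Iv.pt c false) (Or.inr (Or.inl rfl)) h, edge_zero rfl]; rfl
    · rw [h1 c (l, Iv.pt c true) (Or.inr (Or.inr rfl)) h, edge_one rfl]; rfl

theorem triv_path [WellFoundedGT D] {A : Fm.{u} L} {a b : Sec.{u} L} {P : Sub L}
    (hA : TrivOn A P) (ha : ∀ c l, P c l → A c (l, a c l)) (hb : ∀ c l, P c l → A c (l, b c l)) :
    TrivOn (pathF A a b) P := by
  refine trivOn_of_ext fun L0 β K hβ => ?_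
  rw [pathF_pull]
  exact ext_path (fun c l _ => ha c _ (hβ c l)) (fun c l _ => hb c _ (hβ c l))
    ((hA.pull (β.comp Hom.fst) (P' := cyl (Sub.top _)) fun c l _ => hβ c _).ext _)

theorem fib_path [WellFoundedGT D] {A : Fm.{u} L} {a b : Sec.{u} L} {P : Sub L}
    (hA : FibOn A P) (ha : ∀ c l, P c l → A c (l, a c l)) (hb : ∀ c l, P c l → A c (l, b c l)) :
    FibOn (pathF A a b) P := by
  refine fibOn_of_comp fun L0 β K e hβ s hs => ?_
  rw [pathF_pull] at hs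
  let γ : Hom ((L0.prod (II D)).prod (II D)) ((L0.prod (II D)).prod (II D)) :=
    ((Hom.fst.comp Hom.fst).mk2 Hom.snd).mk2 (Hom.snd.comp Hom.fst)
  let E := edge Hom.snd ((a.comp β).comp Hom.fst) ((b.comp β).comp Hom.fst)
      ((s.comp Hom.fst).atV Hom.snd)
  obtain ⟨t, h1, h2⟩ := comp (hA.pull ((β.comp Hom.fst).comp γ) (P' := cyl (Sub.top _))
    fun c l _ => hβ c _) (sides K) e (E.comp γ) (by
      rintro c ⟨⟨l, j⟩, i⟩ h _
      refine edge_mem (A := A.pull β) (K := box K e) (K' := Sub.top _) hs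
        (fun c l _ => ha c _ (hβ c l)) (fun c l _ => hb c _ (hβ c l)) (p := ((l, i), j)) ?_ trivial
      rcases h with (h | h) | h
      · exact Or.inl (Or.inl h)
      · exact Or.inr h
      · exact Or.inl (Or.inr h))
  refine ⟨plam t, fun c l h _ => ?_, fun c l _ => ?_⟩
  · refine plam_eq (hs c _ (Or.inl h) trivial).1 fun c' f r => ?_
    rw [h1 c' (L0.map f l, r) (Or.inl (K.cl f h)) trivial, s.res_app]
    exact edge_path (K := box K e) (fun c l h => hs c l h trivial)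
      (p := ((L0.map f l, Iv.pt c' (!e)), r)) (Or.inl (K.cl f h))
  · have := plam_mem (A := A.pull (β.comp (atPt _ (!e)))) (a := a.comp (β.comp (atPt _ (!e))))
      (b := b.comp (β.comp (atPt _ (!e)))) (t := t) (c := c) (l := l)
      (fun c' f r => h2 c' (_, r) trivial)
      (by rw [h1 c (l, Iv.pt c false) (Or.inr (Or.inl rfl)) trivial]; exact edge_zero rfl)
      (by rw [h1 c (l, Iv.pt c true) (Or.inr (Or.inr rfl)) trivial]; exact edge_one rfl)
    rw [← pathF_pull] at this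
    exact this

/-! ### discrete families and coproducts -/

def vtx (c : Ob D) (i : Fin (c.n + 1)) : Ar ⟨0, c.x⟩ c := ⟨fun _ => i, monotone_const, le_rfl⟩

theorem Iv.eq_pt {x : D} (r : Iv (⟨0, x⟩ : Ob D)) : r = Iv.pt _ (r.r 0) := by
  ext i; rw [Subsingleton.elim (α := Fin 1) i 0]; rfl

theorem conn_tag {X : Type w} (K : Sub L) (T : ∀ c, L.obj c → Iv c → X)
    (hT : ∀ c' c (f : Ar c' c) l r, K c l → T c' (L.map f l) (r.res f) = T c l r)
    {c} {l : L.obj c} (hl : K c l) (r r' : Iv c) : T c l r = T c l r' := by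
  have key : ∀ e, T _ (L.map (vtx c 0) l) (Iv.pt _ e) =
      T ⟨1, c.x⟩ (L.map (⟨fun _ => 0, monotone_const, le_rfl⟩ : Ar ⟨1, c.x⟩ c) l)
        ⟨fun i : Fin 2 => decide (i = 1),
          (by decide : Monotone fun i : Fin 2 => decide (i = 1))⟩ := by
    intro e
    rw [← hT ⟨0, c.x⟩ ⟨1, c.x⟩ (vtx ⟨1, c.x⟩ (if e then 1 else 0)) _ _ (K.cl _ hl), L.map_comp]
    congr 1
    ext i
    cases e <;> simp [Iv.res, vtx, Iv.pt]
  rw [← hT _ _ (vtx c 0) l r hl, ← hT _ _ (vtx c 0) l r' hl, Iv.eq_pt (r.res _),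
    Iv.eq_pt (r'.res _), key, key]

def discF (L : Psh.{v} D) (S : D → Set ZF.{u}) (hS : Monotone S) : Fm.{u} L :=
  ⟨fun c p => ∃ z ∈ S c.x, p.2 = cstV c z, fun f p ⟨z, hz, h⟩ => ⟨z, hS f.le hz, by
    show p.2.res f = _
    rw [h]; rfl⟩⟩

theorem sm_disc {P : ZF.{u} → Prop} (hP : GU P) {S : D → Set ZF.{u}} {hS : Monotone S}
    (h : ∀ x, SB P (S x)) (Q : Sub L) : SmOn P (discF L S hS) Q := by
  intro c l _
  refine hP.SB_enc ((h c.x).mono ?_)
  rintro _ ⟨v, ⟨z, hz, h⟩, c', g, rfl⟩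
  dsimp only at h
  subst h
  exact hz

theorem fib_disc (S : D → Set ZF.{u}) (hS : Monotone S) (P : Sub L) : FibOn (discF L S hS) P := by
  refine fibOn_of_comp fun L0 β K e _ s hs => ?_
  refine ⟨s.comp (atPt _ e), fun c l h _ => ?_, fun c l _ => hs c (l, Iv.pt c e) (Or.inr rfl) trivial⟩
  have := conn_tag K (fun c l r => Val.hd (s c (l, r))) (fun c' c f l r h => by
    obtain ⟨z, -, hz⟩ := hs c (l, r) (Or.inl h) trivial
    dsimp only at hz ⊢
    rw [hz]
    exact congrArg Val.hd ((s.res_app f (l, r)).symm.trans (by rw [hz]))) h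
      (Iv.pt c e) (Iv.pt c (!e))
  obtain ⟨z, -, hz⟩ := hs c (l, Iv.pt c e) (Or.inl h) trivial
  obtain ⟨z', -, hz'⟩ := hs c (l, Iv.pt c (!e)) (Or.inl h) trivial
  dsimp only at hz hz' this
  rw [hz, hz'] at this
  simp only [Hom.comp_app, atPt_app, hz, hz']
  exact congrArg _ this

def sumF (A B : Fm.{u} L) : Fm.{u} L :=
  ⟨fun c p => (∃ a, p.2 = pairV (cstV c (num 0)) a ∧ A c (p.1, a)) ∨
      (∃ b, p.2 = pairV (cstV c (num 1)) b ∧ B c (p.1, b)),
    fun f p h => h.imp (fun ⟨a, h1, h2⟩ => ⟨a.res f, by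
      show p.2.res f = _
      rw [h1]; rfl, A.cl' f h2⟩) fun ⟨a, h1, h2⟩ => ⟨a.res f, by
      show p.2.res f = _
      rw [h1]; rfl, B.cl' f h2⟩⟩

theorem sm_sum {P : ZF.{u} → Prop} (hP : GU P) {A B : Fm.{u} L}
    {Q : Sub L} (hA : SmOn P A Q) (hB : SmOn P B Q) : SmOn P (sumF A B) Q := by
  intro c l hl
  refine hP.SB_enc ((hP.SB_pairs hP.SB_nat (hP.SB_union (hP.SB_heads (hA c l hl))
    (hP.SB_heads (hB c l hl)))).mono ?_)
  rintro _ ⟨v, ⟨a, h1, h2⟩ | ⟨a, h1, h2⟩, c', g, rfl⟩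
  · dsimp only at h1
    subst h1
    exact ⟨_, ⟨0, rfl⟩, _, Or.inl ⟨a, h2, c', g, rfl⟩, rfl⟩
  · dsimp only at h1
    subst h1
    exact ⟨_, ⟨1, rfl⟩, _, Or.inr ⟨a, h2, c', g, rfl⟩, rfl⟩

theorem Fam.Bd.sum {A B : Fm.{u} L} (hA : A.Bd) (hB : B.Bd) : (sumF A B).Bd := sm_sum gu_top hA hB

theorem sumF_inl {A B : Fm.{u} L} {c} {l : L.obj c} {v} (h : (sumF A B).mem c (l, v))
    (h0 : fstV v = cstV c (num 0)) : v = pairV (cstV c (num 0)) (sndV v) ∧ A c (l, sndV v) := by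
  rcases h with ⟨a, h1, h2⟩ | ⟨a, h1, h2⟩ <;> dsimp only at h1 <;> subst h1
  · simpa using h2
  · simp at h0

theorem sumF_inr {A B : Fm.{u} L} {c} {l : L.obj c} {v} (h : (sumF A B).mem c (l, v))
    (h0 : fstV v = cstV c (num 1)) : v = pairV (cstV c (num 1)) (sndV v) ∧ B c (l, sndV v) := by
  rcases h with ⟨a, h1, h2⟩ | ⟨a, h1, h2⟩ <;> dsimp only at h1 <;> subst h1
  · simp at h0
  · simpa using h2

theorem sumF_tag {A B : Fm.{u} L} {c} {l : L.obj c} {v} (h : (sumF A B).mem c (l, v)) :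
    fstV v = cstV c (num 0) ∨ fstV v = cstV c (num 1) := by
  rcases h with ⟨a, h1, h2⟩ | ⟨a, h1, h2⟩ <;> dsimp only at h1 <;> subst h1 <;> simp

theorem sumF_tag' {A B : Fm.{u} L} {c} {l : L.obj c} {v} (h : (sumF A B).mem c (l, v)) :
    fstV v = cstV c (Val.hd (fstV v)) := by
  rcases sumF_tag h with h | h <;> rw [h] <;> rfl

def eqS (s t : Sec.{u} L) : Sub L :=
  ⟨fun c l => s c l = t c l, fun f l h => by rw [s.nat, t.nat, h]⟩

theorem fib_sum [WellFoundedGT D] {A B : Fm.{u} L} {P : Sub L}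
    (hA : FibOn A P) (hB : FibOn B P) : FibOn (sumF A B) P := by
  refine fibOn_of_comp fun L0 β K e hβ s hs => ?_
  have tag : ∀ c p, (box K e).mem c p → fstV (s c p) = fstV (s c (p.1, Iv.pt c e)) := by
    rintro c ⟨l, r⟩ (h | h)
    · have := conn_tag K (fun c l r => Val.hd (fstV (s c (l, r)))) (fun c' c f l r h => by
        have h1 := sumF_tag' (hs c (l, r) (Or.inl h) trivial)
        dsimp only at h1 ⊢
        have h2 := s.res_app f (l, r)
        dsimp only at h2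
        rw [← h2, ← fstV_res, h1]; rfl) h r (Iv.pt c e)
      dsimp only at this
      rw [sumF_tag' (hs c (l, r) (Or.inl h) trivial),
        sumF_tag' (hs c (l, Iv.pt c e) (Or.inl h) trivial), this]
    · dsimp only at h; rw [h]
  let Kl := eqS (s.comp (atPt _ e)).fstV (Hom.cst L0 (num 0))
  let Kr := eqS (s.comp (atPt _ e)).fstV (Hom.cst L0 (num 1))
  obtain ⟨a, ha, ha'⟩ := comp (hA.pull β (P' := cyl Kl) fun c l _ => hβ c l) K e s.sndV
    fun c p h h' => (sumF_inl (hs c p h trivial) ((tag c p h).trans h')).2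
  obtain ⟨b, hb, hb'⟩ := comp (hB.pull β (P' := cyl Kr) fun c l _ => hβ c l) K e s.sndV
    fun c p h h' => (sumF_inr (hs c p h trivial) ((tag c p h).trans h')).2
  have hr : ∀ c l, Kr c l → Hom.ite Kl ((Hom.cst L0 (num 0)).pairV a)
      ((Hom.cst L0 (num 1)).pairV b) c l = pairV (cstV c (num 1)) (b c l) := by
    intro c l h
    rw [Hom.ite_eq]; rfl
    intro c' g hg
    have h1 : _ = _ := Kr.cl g h
    have h2 : _ = _ := hg
    rw [h1] at h2
    simp at h2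
  refine ⟨Hom.ite Kl ((Hom.cst L0 (num 0)).pairV a) ((Hom.cst L0 (num 1)).pairV b),
    fun c l h _ => ?_, fun c l _ => ?_⟩
  · have h1 := hs c (l, Iv.pt c (!e)) (Or.inl h) trivial
    have h2 := tag c (l, Iv.pt c (!e)) (Or.inl h)
    rcases sumF_tag (hs c (l, Iv.pt c e) (Or.inr rfl) trivial) with h0 | h0
    · rw [Hom.ite_pos (K := Kl) h0]
      refine Eq.trans ?_ (sumF_inl h1 (h2.trans h0)).1.symm
      simp [ha c l h h0]
    · rw [hr c l h0]
      refine Eq.trans ?_ (sumF_inr h1 (h2.trans h0)).1.symm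
      simp [hb c l h h0]
  · rcases sumF_tag (hs c (l, Iv.pt c e) (Or.inr rfl) trivial) with h0 | h0
    · rw [Hom.ite_pos (K := Kl) h0]
      exact Or.inl ⟨_, rfl, ha' c l h0⟩
    · rw [hr c l h0]
      exact Or.inr ⟨_, rfl, hb' c l h0⟩

end Pool.Agent.Lib.MP_5eb18a_lc
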