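import Pool.Agent.Lib.MP_5eb18a_lc.WTy

/-!
Uniform choices, fibres, contractibility, gluing.
-/

namespace Pool.Agent.Lib.MP_5eb18a_lc

universe u v v' v'' w

set_option linter.unusedSectionVars false

open Classical

variable {D : Type} [PartialOrder D] [Countable D] [WellFoundedGT D]
variable {L : Psh.{v} D} {L' : Psh.{v'} D} {L'' : Psh.{v''} D}

/-! ### uniform choices -/

theorem comp_univ (A : Fm.{u} (L.prod (II D))) (K : Sub L) (e : Bool)
    (s : Sec.{u} (L.prod (II D))) : ∃ t : Sec.{u} L, ∀ Q : Sub L, FibOn A (cyl Q) →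
      (∀ c p, (box K e).mem c p → Q c p.1 → A c (p, s c p)) →
      (∀ c l, K c l → Q c l → t c l = s c (l, Iv.pt c (!e))) ∧
        ∀ c l, Q c l → A c ((l, Iv.pt c (!e)), t c l) := by
  obtain ⟨t, h1, h2⟩ := comp (A := A) (K' := Sub.sUnion {Q | FibOn A (cyl Q) ∧
    ∀ c p, (box K e).mem c p → Q c p.1 → A c (p, s c p)})
    (fun c p ⟨_, hQ, h⟩ => hQ.1 c p h) K e s fun c p h ⟨_, hQ, h'⟩ => hQ.2 c p h h'
  exact ⟨t, fun Q h3 h4 => ⟨fun c l h h' => h1 c l h ⟨Q, ⟨h3, h4⟩, h'⟩,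
    fun c l h' => h2 c l ⟨Q, ⟨h3, h4⟩, h'⟩⟩⟩

theorem ext_univ (A : Fm.{u} L) (K : Sub L) (s : Sec.{u} L) :
    ∃ t : Sec.{u} L, ∀ Q : Sub L, TrivOn A Q → (∀ c l, K c l → Q c l → A c (l, s c l)) →
      (∀ c l, K c l → Q c l → t c l = s c l) ∧ ∀ c l, Q c l → A c (l, t c l) := by
  obtain ⟨t, h1, h2⟩ := TrivOn.ext (A := A) (P := Sub.sUnion {Q | TrivOn A Q ∧
    ∀ c l, K c l → Q c l → A c (l, s c l)})
    (fun c p ⟨_, hQ, h⟩ => hQ.1 c p h) K s fun c p h ⟨_, hQ, h'⟩ => hQ.2 c p h h'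
  exact ⟨t, fun Q h3 h4 => ⟨fun c l h h' => h1 c l h ⟨Q, ⟨h3, h4⟩, h'⟩,
    fun c l h' => h2 c l ⟨Q, ⟨h3, h4⟩, h'⟩⟩⟩

/-! ### basic lemmas -/

theorem TrivOn.mono {A : Fm.{u} L} {P P' : Sub L} (h : TrivOn A P) (hP : ∀ c l, P' c l → P c l) :
    TrivOn A P' := fun c l hl => h c l (hP c l hl)

theorem pathF_congr {A : Fm.{u} L} {A' : Fm.{u} L'} {a b : Sec.{u} L} {a' b' : Sec.{u} L'} {c}
    {l : L.obj c} {l' : L'.obj c}
    (hA : ∀ c' (f : Ar c' c) v, A c' (L.map f l, v) ↔ A' c' (L'.map f l', v))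
    (ha : a c l = a' c l') (hb : b c l = b' c l') (w) :
    (pathF A a b).mem c (l, w) ↔ (pathF A' a' b').mem c (l', w) := by
  simp only [pathF, hA, ha, hb]

/-- a system given on a cylinder and on one end -/
theorem box_ite {A : Fm.{u} (L.prod (II D))} {K K' : Sub L} {e : Bool}
    {s : Sec.{u} (L.prod (II D))} {t : Sec.{u} L}
    (hs : ∀ c p, K c p.1 → K' c p.1 → A c (p, s c p))
    (ht : ∀ c l, K' c l → A c ((l, Iv.pt c e), t c l))
    (h : ∀ c l, K c l → K' c l → s c (l, Iv.pt c e) = t c l) :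
    ∃ z : Sec.{u} (L.prod (II D)), (∀ c p, K c p.1 → z c p = s c p) ∧
      (∀ c l, K' c l → z c (l, Iv.pt c e) = t c l) ∧
      ∀ c p, (box K e).mem c p → K' c p.1 → A c (p, z c p) := by
  have h2 : ∀ c l, K' c l →
      Hom.ite (cyl K) s (t.comp Hom.fst) c (l, Iv.pt c e) = t c l := fun c l hl =>
    Hom.ite_eq fun c' g hg => h c' _ hg (K'.cl g hl)
  refine ⟨Hom.ite (cyl K) s (t.comp Hom.fst), fun c p hp => Hom.ite_pos hp, h2, ?_⟩
  rintro c ⟨l, r⟩ (hp | hp) hp'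
  · rw [Hom.ite_pos (K := cyl K) hp]; exact hs c _ hp hp'
  · dsimp only at hp; subst hp
    rw [h2 c l hp']; exact ht c l hp'

def cylH (β : Hom L' L) : Hom (L'.prod (II D)) (L.prod (II D)) := (β.comp Hom.fst).mk2 Hom.snd

@[simp] theorem cylH_app (β : Hom L' L) (c) (p : (L'.prod (II D)).obj c) :
    (cylH β).app c p = (β c p.1, p.2) := rfl

theorem triv_transfer {A : Fm.{u} (L.prod (II D))} {P : Sub L} (hA : FibOn A (cyl P)) (e : Bool)
    (h : TrivOn (A.pull (atPt L (!e))) P) : TrivOn (A.pull (atPt L e)) P := by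
  refine trivOn_of_ext fun L0 β K hβ s hs => ?_
  obtain ⟨s1, h1, h1'⟩ := fill (hA.pull (cylH β) (P' := cyl K) fun c l _ => hβ c _) (Sub.bot _) e
    (s.comp Hom.fst) (by
      rintro c ⟨l, r⟩ (h | h) h'
      · exact h.elim
      · dsimp only at h; subst h; exact hs c l h' trivial)
  obtain ⟨t1, h2, h2'⟩ := (h.pull β (P' := Sub.top _) fun c l _ => hβ c l).ext K
    (s1.comp (atPt _ (!e))) fun c l h _ => h1' c (l, Iv.pt c (!e)) h
  obtain ⟨z, z1, -, z3⟩ := box_ite (A := A.pull (cylH β)) (K := K) (K' := Sub.top _) (e := !e)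
    (s := s1) (t := t1) (fun c p h _ => h1' c p h) h2' fun c l h _ => (h2 c l h trivial).symm
  obtain ⟨t, h3, h3'⟩ := comp (hA.pull (cylH β) (P' := cyl (Sub.top _)) fun c l _ => hβ c _) K (!e)
    z z3
  refine ⟨t, fun c l h _ => ?_, fun c l _ => ?_⟩
  · rw [h3 c l h trivial, z1 c _ h, Bool.not_not, h1 c (l, Iv.pt c e) (Or.inr rfl) h]; rfl
  · have := h3' c l trivial
    rw [Bool.not_not] at this
    exact this

/-- homotopy fibres -/
def fibF (T B : Fm.{u} L) (τ : Sec.{u} (L.prod (VZ.{u} D))) : Fm.{u} (L.prod (VZ.{u} D)) :=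
  sigF (T.pull Hom.fst) (pathF (B.pull (Hom.fst.comp Hom.fst))
    (τ.comp ((Hom.fst.comp Hom.fst).mk2 Hom.snd)) (Hom.snd.comp Hom.fst))

theorem fibF_iff {T B : Fm.{u} L} {τ : Sec.{u} (L.prod (VZ.{u} D))} {c} {l : L.obj c} {b w} :
    (fibF T B τ).mem c ((l, b), w) ↔ w = pairV (fstV w) (sndV w) ∧ T c (l, fstV w) ∧
      IsPath (sndV w) ∧ (∀ c' (f : Ar c' c) r, B c' (L.map f l, atV ((sndV w).res f) r)) ∧
      atV (sndV w) (Iv.pt c false) = τ c (l, fstV w) ∧ atV (sndV w) (Iv.pt c true) = b :=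
  sigF_iff

theorem fibF_pair {T B : Fm.{u} L} {τ : Sec.{u} (L.prod (VZ.{u} D))} {c} {l : L.obj c} {b x p} :
    (fibF T B τ).mem c ((l, b), pairV x p) ↔ T c (l, x) ∧
      IsPath p ∧ (∀ c' (f : Ar c' c) r, B c' (L.map f l, atV (p.res f) r)) ∧
      atV p (Iv.pt c false) = τ c (l, x) ∧ atV p (Iv.pt c true) = b :=
  sigF_pair

theorem fib_fibF {T B : Fm.{u} L} {τ : Sec.{u} (L.prod (VZ.{u} D))} {P : Sub L}
    (hT : FibOn T P) (hB : FibOn B P) (hτ : ∀ c l x, P c l → T c (l, x) → B c (l, τ c (l, x))) :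
    FibOn (fibF T B τ) (P.ext' B) :=
  fib_sig (hT.pull _ fun _ _ h => h.1) (fib_path (hB.pull _ fun _ _ h => h.1.1)
    (fun c _ h => hτ c _ _ h.1.1 h.2) fun _ _ h => h.1.2)

theorem Fam.Bd.fibF {T B : Fm.{u} L} (hT : T.Bd) (hB : B.Bd) (τ : Sec.{u} (L.prod (VZ.{u} D))) :
    (fibF T B τ).Bd := (hT.pull _).sig ((hB.pull _).path _ _)

theorem fibF_congr {T B : Fm.{u} L} {τ : Sec.{u} (L.prod (VZ.{u} D))} {T' B' : Fm.{u} L'}
    {τ' : Sec.{u} (L'.prod (VZ.{u} D))} {c} {l : L.obj c} {l' : L'.obj c}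
    (hT : ∀ v, T c (l, v) ↔ T' c (l', v))
    (hB : ∀ c' (f : Ar c' c) v, B c' (L.map f l, v) ↔ B' c' (L'.map f l', v))
    (hτ : ∀ x, T c (l, x) → τ c (l, x) = τ' c (l', x)) (b w) :
    (fibF T B τ).mem c ((l, b), w) ↔ (fibF T' B' τ').mem c ((l', b), w) :=
  by
  rw [fibF_iff, fibF_iff]
  refine and_congr_right fun _ => ⟨fun h => ?_, fun h => ?_⟩
  · simpa only [← hT, ← hB, ← hτ _ h.1] using h
  · simpa only [hT, hB, hτ _ ((hT _).2 h.1)] using h

/-- filling towards the left end of prescribed paths -/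
theorem fill_path {B : Fm.{u} L} (hB : FibOn B (Sub.top _)) (K : Sub L) (p b : Sec.{u} L)
    (hb : ∀ c l, B c (l, b c l)) (hp1 : ∀ c l, K c l → IsPath (p c l))
    (hp2 : ∀ c l r, K c l → B c (l, atV (p c l) r))
    (hp3 : ∀ c l, K c l → atV (p c l) (Iv.pt c true) = b c l) :
    ∃ q : Sec.{u} L, (∀ c l, K c l → q c l = p c l) ∧ (∀ c l, IsPath (q c l)) ∧
      (∀ c l r, B c (l, atV (q c l) r)) ∧ ∀ c l, atV (q c l) (Iv.pt c true) = b c l := by
  obtain ⟨z, z1, z2, z3⟩ := box_ite (A := B.pull Hom.fst) (K := K) (K' := Sub.top _) (e := true)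
    (s := (p.comp Hom.fst).atV Hom.snd) (t := b) (fun c p h _ => hp2 c _ _ h) (fun c l _ => hb c l)
    fun c l h _ => hp3 c l h
  obtain ⟨y, h1, h2⟩ := fill (hB.pull Hom.fst (P' := cyl (Sub.top _)) fun _ _ _ => trivial) K true
    z z3
  refine ⟨plam y, fun c l h => plam_eq (hp1 c l h) fun c' f r => ?_, fun c l => plam_isPath _ _,
    fun c l r => ?_, fun c l => ?_⟩
  · rw [h1 c' (L.map f l, r) (Or.inl (K.cl f h)) trivial, z1 c' (L.map f l, r) (K.cl f h),
      p.res_app]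
    rfl
  · rw [at_plam]; exact h2 c (l, r) trivial
  · rw [at_plam, h1 c (l, Iv.pt c true) (Or.inr rfl) trivial, z2 c l trivial]

theorem triv_singl {T : Fm.{u} L} {P : Sub L} (hT : FibOn T P) :
    TrivOn (fibF T T Hom.snd) (P.ext' T) := by
  refine trivOn_of_ext fun L0 β K hβ s hs => ?_
  have hs' := fun c l h => (fibF_iff (l := (β c l).1) (b := (β c l).2) (w := s c l)).1
    (hs c l h trivial)
  obtain ⟨q, h1, h2, h3, h4⟩ := fill_path (hT.pull (Hom.fst.comp β) (P' := Sub.top _)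
    fun c l _ => (hβ c l).1) K s.sndV (Hom.snd.comp β) (fun c l => (hβ c l).2)
    (fun c l h => (hs' c l h).2.2.1)
    (fun c l r h => by simpa using (hs' c l h).2.2.2.1 c (Ar.id c) r)
    fun c l h => (hs' c l h).2.2.2.2.2
  refine ⟨(q.atV (Hom.ptI _ false)).pairV q, fun c l h _ => ?_, fun c l _ => ?_⟩
  · rw [(hs' c l h).1]
    simp only [Hom.pairV_app, Hom.atV_app, h1 c l h, Hom.sndV_app, Hom.ptI_app]
    rw [(hs' c l h).2.2.2.2.1]; rfl
  · refine fibF_pair.2 ⟨h3 c l _, h2 c l, fun c' f r => ?_, rfl, h4 c l⟩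
    rw [q.res_app]
    have := h3 c' (L0.map f l) r
    simp only [Fam.pull_mem, Hom.comp_app, Hom.fst_app, β.nat] at this
    exact this

/-- transport along a line of types has trivial fibres -/
theorem line_equiv {S : Fm.{u} (L.prod (II D))} {K : Sub L} (hS : FibOn S (cyl K)) (e : Bool) :
    ∃ τ : Sec.{u} (L.prod (VZ.{u} D)),
      (∀ c l x, K c l → S c ((l, Iv.pt c (!e)), x) → S c ((l, Iv.pt c e), τ c (l, x))) ∧
      TrivOn (fibF (S.pull (atPt L (!e))) (S.pull (atPt L e)) τ) (K.ext' (S.pull (atPt L e))) := by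
  have key : ∀ e : Bool, ∃ x : Sec.{u} ((L.prod (VZ.{u} D)).prod (II D)),
      (∀ c l v, K c l → S c ((l, Iv.pt c e), v) → x c ((l, v), Iv.pt c e) = v) ∧
      ∀ c l v r, K c l → S c ((l, Iv.pt c e), v) → S c ((l, r), x c ((l, v), r)) := by
    intro e
    obtain ⟨x, h1, h2⟩ := fill (hS.pull (cylH Hom.fst) (P' := cyl (K.ext' (S.pull (atPt L e))))
      fun c l h => h.1) (Sub.bot _) e (Hom.snd.comp Hom.fst) (by
        rintro c ⟨⟨l, a⟩, r⟩ (h | h) h'
        · exact h.elim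
        · dsimp only at h; subst h; exact h'.2)
    exact ⟨x, fun c l v h h' => h1 c ((l, v), Iv.pt c e) (Or.inr rfl) ⟨h, h'⟩,
      fun c l v r h h' => h2 c ((l, v), r) ⟨h, h'⟩⟩
  obtain ⟨x, hx, hx'⟩ := key (!e)
  obtain ⟨b, hb, hb'⟩ := key e
  refine ⟨x.comp (atPt _ e), fun c l v h h' => hx' c l v _ h h', ?_⟩
  let T : Fm.{u} (L.prod (II D)) := S.pull ((atPt L (!e)).comp Hom.fst)
  let X : Sec.{u} ((L.prod (II D)).prod (VZ.{u} D)) :=
    x.comp (((Hom.fst.comp Hom.fst).mk2 Hom.snd).mk2 (Hom.snd.comp Hom.fst))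
  have hF := (fib_fibF (T := T) (B := S) (τ := X) (P := cyl K)
    (hS.pull _ fun c l h => h) hS fun c l v h h' => hx' c l.1 v l.2 h h').pull
    ((cylH Hom.fst).mk2 b) (P' := cyl (K.ext' (S.pull (atPt L e))))
    fun c p h => ⟨h.1, hb' c _ _ _ h.1 h.2⟩
  have h1 := (triv_singl (hS.pull (atPt L (!e)) (P' := K) fun c l h => h)).pull
    (Hom.fst.mk2 (b.comp (atPt _ (!e)))) (P' := K.ext' (S.pull (atPt L e)))
    fun c p h => ⟨h.1, hb' c _ _ _ h.1 h.2⟩
  refine (triv_transfer hF e (h1.congr fun c l v h => ?_)).congr fun c l v h => ?_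
  · exact fibF_congr (T := S.pull (atPt L (!e))) (B := S.pull (atPt L (!e))) (τ := Hom.snd)
      (T' := T) (B' := S) (τ' := X) (l := l.1) (l' := (l.1, Iv.pt c (!e))) (fun _ => Iff.rfl)
      (fun _ _ _ => Iff.rfl) (fun y hy => (hx c _ y h.1 hy).symm) _ _
  · obtain ⟨l, w⟩ := l
    have := hb c l w h.1 h.2
    simp only [Fam.pull_mem, atPt_app, Hom.mk2_app, cylH_app, Hom.fst_app, this]
    exact fibF_congr (fun _ => Iff.rfl) (fun _ _ _ => Iff.rfl) (fun y hy => rfl) _ _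

theorem extAt_of_fibF {G B : Fm.{u} L} {τ : Sec.{u} (L.prod (VZ.{u} D))} {c} {l : L.obj c}
    {φ : Sub (yo c)} (hB : ExtAt B c l φ)
    (hτ : ∀ c' (f : Ar c' c) x, G c' (L.map f l, x) → B c' (L.map f l, τ c' (L.map f l, x)))
    (hF : ∀ b, B c (l, b) → ExtAt (fibF G B τ) c (l, b) φ) : ExtAt G c l φ := by
  intro s hs
  obtain ⟨b, hb, hb'⟩ := hB (τ.comp ((yon l).mk2 s)) fun c' f h h' => hτ c' f _ (hs c' f h h')
  have e1 : ∀ c' (f : Ar c' c), (b c (Ar.id c)).res f = b c' f := fun c' f => b.res_app f _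
  obtain ⟨t, ht, ht'⟩ := hF (b c (Ar.id c)) (by simpa using hb' c (Ar.id c) trivial)
    (s.pairV b.reflV) fun c' f h h' => by
      refine fibF_pair.2 ⟨hs c' f h h', plam_isPath _ _, fun c'' g r => ?_, ?_, ?_⟩
      · rw [b.reflV.res_app, at_reflV]
        have := hb' c'' (g.comp f) trivial
        simpa using this
      · rw [at_reflV, hb c' f h h']; rfl
      · rw [at_reflV]; exact (e1 c' f).symm
  refine ⟨t.fstV, fun c' f h h' => ?_, fun c' f _ => (fibF_iff.1 (ht' c' f trivial)).2.1⟩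
  simp [ht c' f h h']

/-! ### contractibility -/

def isContrF (X : Fm.{u} L) : Fm.{u} L :=
  sigF X (piF (X.pull Hom.fst) (pathF (X.pull (Hom.fst.comp Hom.fst)) (Hom.snd.comp Hom.fst) Hom.snd))

theorem triv_isContr {X : Fm.{u} L} (hb : X.Bd) {P : Sub L} (h : TrivOn X P) :
    TrivOn (isContrF X) P :=
  triv_sig h (triv_pi (hb.pull _) (triv_path (h.pull _ fun _ _ h => h.1.1)
    (fun _ _ h => h.1.2) fun _ _ h => h.2))

theorem fib_isContr {X : Fm.{u} L} (hb : X.Bd) {P : Sub L} (h : FibOn X P) :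
    FibOn (isContrF X) P :=
  fib_sig h (fib_pi (hb.pull _) (h.pull _ fun _ _ h => h.1) (fib_path (h.pull _ fun _ _ h => h.1.1)
    (fun _ _ h => h.1.2) fun _ _ h => h.2))

theorem Fam.Bd.isContr {X : Fm.{u} L} (hb : X.Bd) : (isContrF X).Bd :=
  hb.sig ((hb.pull _).pi ((hb.pull _).path _ _))

/-- a fibrant family with a section to which every partial section is connected is trivial -/
theorem ext_of_paths {X : Fm.{u} L} (hX : FibOn X (Sub.top _)) (K : Sub L) (x s p : Sec.{u} L)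
    (hx : ∀ c l, X c (l, x c l)) (hp : ∀ c l, K c l → (pathF X x s).mem c (l, p c l)) :
    ∃ t : Sec.{u} L, (∀ c l, K c l → t c l = s c l) ∧ ∀ c l, X c (l, t c l) := by
  obtain ⟨z, z1, -, z3⟩ := box_ite (A := X.pull Hom.fst) (K := K) (K' := Sub.top _) (e := false)
    (s := (p.comp Hom.fst).atV Hom.snd) (t := x) (fun c p h _ => pathF_at (hp c _ h) _)
    (fun c l _ => hx c l) fun c l h _ => (hp c l h).2.2.1
  obtain ⟨t, h1, h2⟩ := comp (hX.pull Hom.fst (P' := cyl (Sub.top _)) fun _ _ _ => trivial) K false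
    z z3
  refine ⟨t, fun c l h => ?_, fun c l => h2 c l trivial⟩
  rw [h1 c l h trivial, z1 c _ h]
  exact (hp c l h).2.2.2

theorem triv_of_contr {X : Fm.{u} L} {P : Sub L} (hX : FibOn X P)
    (h : ∀ c l, P c l → ∃ w, (isContrF X).mem c (l, w)) : TrivOn X P := by
  intro c l hl φ s hs
  obtain ⟨w, hw⟩ := h c l hl
  obtain ⟨t, h1, h2⟩ := ext_of_paths (hX.pull (yon l) (P' := Sub.top _) fun c' f _ => P.cl f hl) φ
    (Hom.fstV (yon (L := VZ.{u} D) w)) s ((Hom.sndV (yon (L := VZ.{u} D) w)).appV s)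
    (fun c' f => (sigF_iff.1 ((isContrF X).cl' f hw)).2.1) fun c' f h => by
      have := piF_app (sigF_iff.1 ((isContrF X).cl' f hw)).2.2 (hs c' f h trivial)
      refine (pathF_congr (fun c'' g v => ?_) ?_ ?_ _).1 this
      · simp
      · rfl
      · rfl
  exact ⟨t, fun c' f h _ => h1 c' f h, fun c' f _ => h2 c' f⟩

/-! ### gluing -/

noncomputable def unglue (K : Sub L) (τ : Sec.{u} (L.prod (VZ.{u} D))) :
    Sec.{u} (L.prod (VZ.{u} D)) := Hom.ite (K.comap Hom.fst) τ Hom.snd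

theorem unglue_pos {K : Sub L} {τ : Sec.{u} (L.prod (VZ.{u} D))} {c} {l : L.obj c} (h : K c l)
    (v) : unglue K τ c (l, v) = τ c (l, v) := Hom.ite_pos (K := K.comap Hom.fst) (l := (l, v)) h

theorem unglue_neg {K : Sub L} {τ : Sec.{u} (L.prod (VZ.{u} D))} {c} {l : L.obj c} (h : ¬ K c l)
    (v) : Val.hd (unglue K τ c (l, v)) = Val.hd v :=
  Hom.ite_hd_neg (K := K.comap Hom.fst) (l := (l, v)) h

def glueF (K : Sub L) (T B : Fm.{u} L) (τ : Sec.{u} (L.prod (VZ.{u} D))) : Fm.{u} L :=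
  ⟨fun c p => B c (p.1, unglue K τ c p) ∧
      ∀ c' (f : Ar c' c), K c' (L.map f p.1) → T c' (L.map f p.1, p.2.res f),
    fun f p h => ⟨by rw [(unglue K τ).nat]; exact B.cl' f h.1, fun c' g hg => by
      dsimp only at hg ⊢
      rw [L.map_comp] at hg ⊢
      exact h.2 c' _ hg⟩⟩

theorem glueF_pos {K : Sub L} {T B : Fm.{u} L} {τ : Sec.{u} (L.prod (VZ.{u} D))}
    (hτ : ∀ c l x, K c l → T c (l, x) → B c (l, τ c (l, x))) {c} {l : L.obj c} (h : K c l) (v) :
    (glueF K T B τ).mem c (l, v) ↔ T c (l, v) := by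
  constructor
  · intro hv
    simpa using hv.2 c (Ar.id c) (by simpa using h)
  · intro hv
    refine ⟨?_, fun c' f _ => T.cl' f hv⟩
    rw [unglue_pos h]
    exact hτ c l v h hv

theorem sm_glue {P : ZF.{u} → Prop} (hP : GU P) {K : Sub L} {T B : Fm.{u} L}
    {τ : Sec.{u} (L.prod (VZ.{u} D))} (hT : SmOn P T K) (hB : SmOn P B (Sub.top _)) :
    SmOn P (glueF K T B τ) (Sub.top _) := by
  intro c l _
  refine hP.SB_enc ((hP.SB_union (hP.SB_heads (hB c l trivial)) (hP.SB_ciUnion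
    (ι := {g : Arr c // K g.1 (L.map g.2 l)}) _ fun g => hP.SB_heads (hT _ _ g.2))).mono ?_)
  rintro _ ⟨v, hv, c', f, rfl⟩
  by_cases h : K c' (L.map f l)
  · exact Or.inr ⟨⟨⟨c', f⟩, h⟩, _, hv.2 c' f h, c', Ar.id c', rfl⟩
  · refine Or.inl ⟨_, hv.1, c', f, ?_⟩
    rw [(unglue K τ).apply_eq_hd]
    exact (unglue_neg h (v.res f)).symm

theorem triv_unglue {K : Sub L} {T B : Fm.{u} L} {τ : Sec.{u} (L.prod (VZ.{u} D))}
    (hB : FibOn B (Sub.top _)) (hτ : ∀ c l x, K c l → T c (l, x) → B c (l, τ c (l, x)))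
    (hF : TrivOn (fibF T B τ) (K.ext' B)) :
    TrivOn (fibF (glueF K T B τ) B (unglue K τ)) ((Sub.top _).ext' B) := by
  refine trivOn_of_ext fun L0 β K1 hβ s hs => ?_
  have hs' := fun c l h => (fibF_iff (l := (β c l).1) (b := (β c l).2) (w := s c l)).1
    (hs c l h trivial)
  let K0 : Sub L0 := K.comap (Hom.fst.comp β)
  obtain ⟨t, ht, ht'⟩ := (hF.pull β (P' := K0) fun c l h => ⟨h, (hβ c l).2⟩).ext K1 s
    fun c l h h' => (fibF_congr (glueF_pos hτ h') (fun _ _ _ => Iff.rfl)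
      (fun x _ => unglue_pos (K := K) h' x) _ _).1 (hs c l h trivial)
  have ht2 := fun c l h => (fibF_iff (l := (β c l).1) (b := (β c l).2) (w := t c l)).1 (ht' c l h)
  have e1 : ∀ c l, K1 c l → Hom.ite K0 t s c l = s c l := fun c l h =>
    Hom.ite_eq fun c' g hg => ht c' _ (K1.cl g h) hg
  obtain ⟨q, h1, h2, h3, h4⟩ := fill_path (hB.pull (Hom.fst.comp β) (P' := Sub.top _)
    fun c l _ => trivial) (K0.or K1) (Hom.ite K0 t s).sndV (Hom.snd.comp β) (fun c l => (hβ c l).2)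
    (by
      rintro c l (h | h)
      · rw [Hom.sndV_app, Hom.ite_pos h]; exact (ht2 c l h).2.2.1
      · rw [Hom.sndV_app, e1 c l h]; exact (hs' c l h).2.2.1)
    (by
      rintro c l r (h | h)
      · rw [Hom.sndV_app, Hom.ite_pos h]; simpa using (ht2 c l h).2.2.2.1 c (Ar.id c) r
      · rw [Hom.sndV_app, e1 c l h]; simpa using (hs' c l h).2.2.2.1 c (Ar.id c) r)
    (by
      rintro c l (h | h)
      · rw [Hom.sndV_app, Hom.ite_pos h]; exact (ht2 c l h).2.2.2.2.2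
      · rw [Hom.sndV_app, e1 c l h]; exact (hs' c l h).2.2.2.2.2)
  let g : Sec.{u} L0 := Hom.ite K0 t.fstV (q.atV (Hom.ptI _ false))
  have hg : ∀ c l, unglue K τ c ((β c l).1, g c l) = atV (q c l) (Iv.pt c false) := by
    intro c l
    apply Val.ext'
    intro c' f
    have e2 : (L.prod (VZ.{u} D)).map f ((β c l).1, g c l) =
        ((β c' (L0.map f l)).1, g c' (L0.map f l)) := by
      rw [β.nat, g.nat]
    rw [(unglue K τ).res_app, e2, atV_res, q.res_app]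
    by_cases h : K0 c' (L0.map f l)
    · rw [unglue_pos (K := K) (l := (β c' (L0.map f l)).1) h, show g c' (L0.map f l) = _ from Hom.ite_pos h, h1 c' _ (Or.inl h),
        Hom.sndV_app, Hom.ite_pos h, Iv.res_pt, (ht2 c' _ h).2.2.2.2.1]
      rfl
    · rw [unglue_neg (K := K) (l := (β c' (L0.map f l)).1) h]
      exact Hom.ite_hd_neg (K := K0) h
  refine ⟨g.pairV q, fun c l h _ => ?_, fun c l _ => ?_⟩
  · rw [(hs' c l h).1, Hom.pairV_app, h1 c l (Or.inr h), Hom.sndV_app, e1 c l h]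
    congr 1
    apply ofHead_eq
    intro c' f
    have h0 := K1.cl f h
    rw [fstV_res, s.res_app]
    split_ifs with h'
    · rw [Hom.fstV_app, ht c' _ h0 h']
    · rw [Hom.atV_app, h1 c' _ (Or.inr h0), Hom.sndV_app, e1 c' _ h0, Hom.ptI_app,
        (hs' c' _ h0).2.2.2.2.1]
      exact unglue_neg (K := K) h' _
  · refine fibF_pair.2 ⟨⟨?_, fun c' f h => ?_⟩, h2 c l, fun c' f r => ?_, (hg c l).symm, h4 c l⟩
    · show B c (_, unglue K τ c ((β c l).1, g c l))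
      rw [hg]; exact h3 c l _
    · have h' : K0 c' (L0.map f l) := by
        show K c' (β c' (L0.map f l)).1
        rw [β.nat]; exact h
      have := (ht2 c' _ h').2.1
      rw [β.nat] at this
      dsimp only
      rw [g.res_app, show g c' (L0.map f l) = _ from Hom.ite_pos h']
      exact this
    · rw [q.res_app]
      have := h3 c' (L0.map f l) r
      simp only [Fam.pull_mem, Hom.comp_app, Hom.fst_app, β.nat] at this
      exact this

theorem extAt_glue {K : Sub L} {T B : Fm.{u} L} {τ : Sec.{u} (L.prod (VZ.{u} D))}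
    (hB : FibOn B (Sub.top _)) (hτ : ∀ c l x, K c l → T c (l, x) → B c (l, τ c (l, x)))
    (hF : TrivOn (fibF T B τ) (K.ext' B)) {c} {l : L.obj c} {φ : Sub (yo c)}
    (h : ExtAt B c l φ) : ExtAt (glueF K T B τ) c l φ :=
  extAt_of_fibF h (fun _ _ _ h => h.1) fun _ hb => triv_unglue hB hτ hF c _ ⟨trivial, hb⟩ φ

theorem ElF_realign {K : Sub L} {T : Sec.{u} L} {G : Fm.{u} L} (hG : G.Bd)
    (h : ∀ c l v, K c l → (G c (l, v) ↔ v ∈ El (T c l))) : ElF (Hom.ite K T (codeF G)) = G := by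
  ext c ⟨l, v⟩
  rw [ElF_mem]
  constructor
  · intro hv
    by_cases hl : K c l
    · rw [Hom.ite_pos hl] at hv; exact (h c l v hl).2 hv
    · have := hv c (Ar.id c)
      rw [show Hom.ite K T (codeF G) c l c (Ar.id c) = _ from Hom.ite_hd_neg hl, codeF,
        ofHead_hd] at this
      obtain ⟨v', hv', he⟩ := mem_of_mem_cset this
      rwa [← show v' = v from enc_inj he]
  · intro hv c' f
    have hv' := G.cl' f hv
    rw [Hom.apply_eq_hd]
    by_cases hl : K c' (L.map f l)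
    · rw [Hom.ite_pos hl]; exact (h c' _ _ hl).1 hv' c' (Ar.id c')
    · rw [Hom.ite_hd_neg hl]; exact (mem_codeF hG).2 hv' c' (Ar.id c')

end Pool.Agent.Lib.MP_5eb18a_lc
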