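import Pool.Agent.Lib.MP_5eb18a_lc.Conn

/-!
Path induction, propositional truncation and set quotients.
-/

namespace Pool.Agent.Lib.MP_5eb18a_lc

universe u v v' v'' w

set_option linter.unusedSectionVars false

open Classical

variable {D : Type} [PartialOrder D] [Countable D] [WellFoundedGT D]
variable {L : Psh.{v} D} {L' : Psh.{v'} D} {L'' : Psh.{v''} D}

def Sub.image (β : Hom L' L) (Q : Sub L') : Sub L :=
  ⟨fun c l => ∃ y, Q c y ∧ β c y = l, fun f _ ⟨y, h, h'⟩ => ⟨L'.map f y, Q.cl f h, by rw [β.nat, h']⟩⟩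

noncomputable def compOp (A : Fm.{u} (L.prod (II D))) (K : Sub L) (e : Bool)
    (s : Sec.{u} (L.prod (II D))) : Sec.{u} L := (comp_univ A K e s).choose

theorem compOp_spec {A : Fm.{u} (L.prod (II D))} {K : Sub L} {e : Bool}
    {s : Sec.{u} (L.prod (II D))} (β : Hom L' L) {Q : Sub L'}
    (h1 : FibOn (A.pull (cylH β)) (cyl Q))
    (h2 : ∀ c l r, K c (β c l) ∨ r = Iv.pt c e → Q c l → A c ((β c l, r), s c (β c l, r)))
    {c} {l : L'.obj c} (hl : Q c l) :
    (K c (β c l) → compOp A K e s c (β c l) = s c (β c l, Iv.pt c (!e))) ∧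
      A c ((β c l, Iv.pt c (!e)), compOp A K e s c (β c l)) := by
  have := (comp_univ A K e s).choose_spec (Q.image β)
    (by
      rintro c ⟨_, r⟩ ⟨y, hy, rfl⟩ φ hφ
      exact (h1 c (y, r) hy φ hφ).of_pull (cylH β))
    (by
      rintro c ⟨_, r⟩ h ⟨y, hy, rfl⟩
      exact h2 c y r h hy)
  exact ⟨fun h => this.1 c _ h ⟨l, hl, rfl⟩, this.2 c _ ⟨l, hl, rfl⟩⟩

noncomputable def extOp (A : Fm.{u} L) (K : Sub L) (s : Sec.{u} L) : Sec.{u} L :=
  (ext_univ A K s).choose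

theorem extOp_spec {A : Fm.{u} L} {K : Sub L} {s : Sec.{u} L} (β : Hom L' L) {Q : Sub L'}
    (h1 : TrivOn (A.pull β) Q) (h2 : ∀ c l, K c (β c l) → Q c l → A c (β c l, s c (β c l)))
    {c} {l : L'.obj c} (hl : Q c l) :
    (K c (β c l) → extOp A K s c (β c l) = s c (β c l)) ∧ A c (β c l, extOp A K s c (β c l)) := by
  have := (ext_univ A K s).choose_spec (Q.image β)
    (by
      rintro c _ ⟨y, hy, rfl⟩ φ
      exact (h1 c y hy φ).of_pull β)
    (by
      rintro c _ h ⟨y, hy, rfl⟩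
      exact h2 c y h hy)
  exact ⟨fun h => this.1 c _ h ⟨l, hl, rfl⟩, this.2 c _ ⟨l, hl, rfl⟩⟩

/-- a uniform choice of an element of every trivial type -/
noncomputable def pickH : Sec.{u} (VZ.{u} D) := extOp (elU D) (Sub.bot _) (Hom.cst _ ∅)

theorem pick_mem {T : Sec.{u} L} {Q : Sub L} (h : TrivOn (ElF T) Q) {c} {l : L.obj c}
    (hl : Q c l) : pickH c (T c l) ∈ El (T c l) :=
  (extOp_spec (A := elU D) (K := Sub.bot _) (s := Hom.cst _ ∅) T h (fun _ _ h => h.elim) hl).2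

/-! ### path induction -/

noncomputable def rfV {c : Ob D} (a : Vl.{u} c) : Vl.{u} c := (Hom.id (VZ.{u} D)).reflV c a

theorem reflV_eq (a : Sec.{u} L) {c} (l : L.obj c) : a.reflV c l = rfV (a c l) := reflV_congr rfl

@[simp] theorem rfV_res {c c' : Ob D} (f : Ar c' c) (a : Vl.{u} c) :
    (rfV a).res f = rfV (a.res f) := Hom.res_app (Hom.id (VZ.{u} D)).reflV f a

@[simp] theorem at_rfV {c : Ob D} (a : Vl.{u} c) (r) : atV (rfV a) r = a := at_reflV _ _ _

theorem rfV_mem {X : Fm.{u} L} {c} {l : L.obj c} {a} (h : X c (l, a)) :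
    (pathU X).mem c (((l, a), a), rfV a) :=
  ⟨plam_isPath _ _, fun c' f r => by simpa using X.cl' f h, at_rfV _ _, at_rfV _ _⟩

/-- initial segments of a path -/
noncomputable def segH : Sec.{u} ((VZ.{u} D).prod (II D)) :=
  plam (Hom.atV (Hom.fst.comp Hom.fst) (Hom.conn false (Hom.snd.comp Hom.fst) Hom.snd))

theorem at_segH {c : Ob D} (p : Vl.{u} c) (r s) :
    atV (segH c (p, r)) s = atV p (Iv.conn false r s) := at_plam _ _ _

theorem segH_one {c : Ob D} {p : Vl.{u} c} (h : IsPath p) : segH c (p, Iv.pt c true) = p :=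
  plam_eq h fun c' f r => by simp

theorem segH_zero {c : Ob D} (p : Vl.{u} c) :
    segH c (p, Iv.pt c false) = rfV (atV p (Iv.pt c false)) :=
  plam_eq (plam_isPath _ _) fun c' f r => by simp

theorem segH_rfV {c : Ob D} (a : Vl.{u} c) (r) : segH c (rfV a, r) = rfV a :=
  plam_eq (plam_isPath _ _) fun c' f r => by simp

theorem segH_mem {X : Fm.{u} L} {c} {l : L.obj c} {a b p} (h : (pathU X).mem c (((l, a), b), p))
    (r) : (pathU X).mem c (((l, a), atV p r), segH c (p, r)) := by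
  refine ⟨plam_isPath _ _, fun c' f s => ?_, ?_, ?_⟩
  · dsimp only
    rw [segH.res_app, at_segH]
    exact h.2.1 c' f _
  · rw [at_segH, Iv.conn_pt_right]; exact h.2.2.1
  · rw [at_segH, Iv.conn_false_true_right]; rfl

abbrev V2 (D : Type) [PartialOrder D] := (VZ.{u} D).prod (VZ.{u} D)
abbrev V3 (D : Type) [PartialOrder D] := (V2.{u} D).prod (VZ.{u} D)
abbrev V4 (D : Type) [PartialOrder D] := (V3.{u} D).prod (VZ.{u} D)
abbrev V5 (D : Type) [PartialOrder D] := (V4.{u} D).prod (VZ.{u} D)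

noncomputable def jT : Sec.{u} ((V4.{u} D).prod (II D)) :=
  ⟨fun c x => appV (appV (appV x.1.1.1.1 x.1.1.2) (atV x.1.2 x.2)) (segH c (x.1.2, x.2)),
    fun f x => by simp [segH.res_app]⟩

noncomputable def jH : Sec.{u} (V4.{u} D) :=
  compOp (ElF jT) (eqS Hom.snd (Hom.snd.comp Hom.fst).reflV) false
    ⟨fun _ x => appV x.1.1.1.2 x.1.1.2, fun _ _ => rfl⟩

theorem jH_spec {A : Fm.{u} L} {C d a b p : Sec.{u} L} {Q : Sub L}
    (hp : ∀ c l, Q c l → (pathU A).mem c (((l, a c l), b c l), p c l))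
    (hC : ∀ c l x y q, Q c l → (pathU A).mem c (((l, x), y), q) →
      FibAt (elU D) c (appV (appV (appV (C c l) x) y) q))
    (hd : ∀ c l, Q c l → appV (d c l) (a c l) ∈
      El (appV (appV (appV (C c l) (a c l)) (a c l)) (rfV (a c l)))) {c} {l : L.obj c}
    (hl : Q c l) :
    (p c l = rfV (a c l) → jH c (((C c l, d c l), a c l), p c l) = appV (d c l) (a c l)) ∧
      jH c (((C c l, d c l), a c l), p c l) ∈
        El (appV (appV (appV (C c l) (a c l)) (b c l)) (p c l)) := by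
  have := compOp_spec (A := ElF jT) (K := eqS Hom.snd (Hom.snd.comp Hom.fst).reflV) (e := false)
    (s := ⟨fun _ x => appV x.1.1.1.2 x.1.1.2, fun _ _ => rfl⟩) (((C.mk2 d).mk2 a).mk2 p) (Q := Q)
    (fun c x h => FibAt.pull (A := elU D) (jT.comp (cylH (((C.mk2 d).mk2 a).mk2 p)))
      (hC c x.1 _ _ _ h (segH_mem (hp c _ h) x.2)))
    (by
      rintro c l r (h | rfl) hl
      · have h' : p c l = rfV (a c l) := h.trans (reflV_eq _ _)
        simp only [ElF_mem, jT, Hom.mk2_app, h', at_rfV]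
        rw [segH_rfV]
        exact hd c l hl
      · simp only [ElF_mem, jT, Hom.mk2_app]
        rw [segH_zero, show atV (p c l) _ = a c l from (hp c l hl).2.2.1]
        exact hd c l hl) hl
  refine ⟨fun h => this.1 (h.trans (reflV_eq (Hom.snd.comp Hom.fst)
    ((((Hom.mk2 C d).mk2 a).mk2 p).app c l)).symm), ?_⟩
  have h2 := this.2
  simp only [ElF_mem, jT, Hom.mk2_app, Bool.not_false] at h2
  rw [segH_one (hp c l hl).1, show atV (p c l) _ = b c l from (hp c l hl).2.2.2] at h2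
  exact h2

/-! ### cones -/

def singV {c : Ob D} (a : Vl.{u} c) : Vl.{u} c := fun c' g => {a c' g}
def unsV {c : Ob D} (a : Vl.{u} c) : Vl.{u} c := fun c' g => ZFSet.sUnion (a c' g)

@[simp] theorem singV_res {c c' : Ob D} (f : Ar c' c) (a : Vl.{u} c) :
    (singV a).res f = singV (a.res f) := rfl
@[simp] theorem unsV_res {c c' : Ob D} (f : Ar c' c) (a : Vl.{u} c) :
    (unsV a).res f = unsV (a.res f) := rfl
@[simp] theorem unsV_singV {c : Ob D} (a : Vl.{u} c) : unsV (singV a) = a := by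
  funext c' g; simp [unsV, singV]

def imF (A : Fm.{u} L) (q : Sec.{u} (L.prod (VZ.{u} D))) : Fm.{u} L :=
  ⟨fun c p => ∃ b, A c (p.1, b) ∧ p.2 = q c (p.1, b), fun f p ⟨b, h1, h2⟩ =>
    ⟨b.res f, A.cl' f h1, by
      show p.2.res f = _
      rw [h2, q.res_app]⟩⟩

def coneF (A : Fm.{u} L) (q : Sec.{u} (L.prod (VZ.{u} D))) : Fm.{u} L :=
  ⟨fun c p => (imF A q).mem c (p.1, sndV p.2) ∧ ∀ c' (f : Ar c' c),
      p.2 c' f = ZFSet.pair ∅ (p2 (p.2 c' f)) ∨
        ∃ a, A c' (L.map f p.1, a) ∧ p.2.res f = pairV (singV a) (q c' (L.map f p.1, a)),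
    fun f p h => ⟨(imF A q).cl' f h.1, fun c' g => by
      have := h.2 c' (g.comp f)
      rw [← L.map_comp] at this
      exact this⟩⟩

theorem con_mem {A : Fm.{u} L} {q : Sec.{u} (L.prod (VZ.{u} D))} {c} {l : L.obj c} {a}
    (h : A c (l, a)) : (coneF A q).mem c (l, pairV (singV a) (q c (l, a))) :=
  ⟨⟨a, h, by simp⟩, fun c' f => Or.inr ⟨a.res f, A.cl' f h, by simp [q.res_app]⟩⟩

theorem cone_con {A : Fm.{u} L} {q : Sec.{u} (L.prod (VZ.{u} D))} {c} {l : L.obj c} {t}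
    (h : (coneF A q).mem c (l, t)) (h' : fstV t = singV (unsV (fstV t))) :
    A c (l, unsV (fstV t)) ∧ t = pairV (singV (unsV (fstV t))) (q c (l, unsV (fstV t))) := by
  rcases h.2 c (Ar.id c) with h1 | ⟨a, h1, h2⟩
  · have := congrFun (congrFun h' c) (Ar.id c)
    dsimp only at h1
    simp only [fstV, singV] at this
    rw [h1, p1_pair] at this
    have h2 : ∀ z : ZF.{u}, (∅ : ZF.{u}) ≠ {z} := fun z hz => by
      have : z ∈ (∅ : ZF.{u}) := by rw [hz]; simp
      simp at this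
    exact absurd this (h2 _)
  · rw [L.map_id] at h1 h2
    have h3 : t = pairV (singV a) (q c (l, a)) := h2
    subst h3
    simpa using h1

def Cov (S : Fm.{u} L) (P : Sub L) : Prop := ∀ c l s s' e, P c l → S c (l, s) → S c (l, s') →
  Val.res (vtxE c e) s = Val.res (vtxE c e) s' → s = s'

theorem fib_im {A : Fm.{u} L} {q : Sec.{u} (L.prod (VZ.{u} D))} {P : Sub L} (hA : FibOn A P)
    (hq : Cov (imF A q) P) : FibOn (imF A q) P := by
  intro c l hl
  refine fibAt_of_fill fun e φ γ s hs => ?_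
  obtain ⟨b0, hb0, hb0'⟩ := hs c (Ar.id c, Iv.pt c e) (Or.inr rfl) trivial
  have e0 : ∀ c' (f : Ar c' c), L.map (γ c' (f, Iv.pt c' e)) l =
      L.map f (L.map (γ c (Ar.id c, Iv.pt c e)) l) := fun c' f =>
    ((yon l).comp γ).nat f (Ar.id c, Iv.pt c e)
  obtain ⟨b, h1, h2⟩ := fill (hA.pull ((yon l).comp γ) (P' := cyl (Sub.top _))
    fun c' p _ => P.cl _ hl) (Sub.bot _) e ((yon (L := VZ.{u} D) b0).comp Hom.fst) (by
      rintro c' ⟨f, r⟩ (h | h) _
      · exact h.elim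
      · obtain rfl : r = _ := h
        show A c' (L.map (γ c' (f, Iv.pt c' e)) l, b0.res f)
        rw [e0]; exact A.cl' f hb0)
  let t : Sec.{u} ((yo c).prod (II D)) := q.comp (((yon l).comp γ).mk2 b)
  have ht : ∀ c' p, ((imF A q).pull ((yon l).comp γ)).mem c' (p, t c' p) :=
    fun c' p => ⟨_, h2 c' p trivial, rfl⟩
  have h0 : ∀ c' f, t c' (f, Iv.pt c' e) = s c' (f, Iv.pt c' e) := fun c' f => by
    have := s.res_app f (Ar.id c, Iv.pt c e)
    rw [show s c (Ar.id c, Iv.pt c e) = _ from hb0', q.res_app] at this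
    refine Eq.trans ?_ this
    simp only [t, Hom.comp_app, Hom.mk2_app, h1 c' (f, Iv.pt c' e) (Or.inr rfl) trivial, yon_app]
    rw [e0]
    rfl
  have := cyl_reflect (eqS t s) φ e (fun c' f _ => h0 c' f) fun c' p e' h h' =>
    hq c' _ _ _ e' (P.cl _ hl) (ht c' p) (hs c' p (Or.inl h) trivial) (by
      rw [t.res_app, s.res_app]; exact h')
  refine ⟨t, ?_, fun c' p _ => ht c' p⟩
  rintro c' ⟨f, r⟩ (h | h) _
  · exact this c' _ h
  · obtain rfl : r = _ := h
    exact h0 c' f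

theorem ext_cone {A : Fm.{u} L} {q : Sec.{u} (L.prod (VZ.{u} D))} (β : Hom L' L) {K K' : Sub L'}
    (s t : Sec.{u} L') (hs : ∀ c l, K c l → K' c l → (coneF A q).mem c (β c l, s c l))
    (ht : ∀ c l, K' c l → (imF A q).mem c (β c l, t c l))
    (h : ∀ c l, K c l → K' c l → t c l = sndV (s c l)) :
    ∃ z : Sec.{u} L', (∀ c l, K c l → z c l = s c l) ∧
      ∀ c l, K' c l → (coneF A q).mem c (β c l, z c l) := by
  refine ⟨Hom.ite K s ((Hom.cst _ ∅).pairV t), fun c l h => Hom.ite_pos h, fun c l hl => ⟨?_, ?_⟩⟩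
  · have : sndV (Hom.ite K s ((Hom.cst _ ∅).pairV t) c l) = t c l := by
      apply Val.ext'
      intro c' f
      rw [sndV_res, Hom.res_app, t.res_app]
      by_cases hk : K c' (L'.map f l)
      · rw [Hom.ite_pos hk, h c' _ hk (K'.cl f hl)]
      · show p2 (Val.hd _) = _
        rw [Hom.ite_hd_neg hk]
        exact p2_pair _ _
    dsimp only
    rw [this]; exact ht c l hl
  · intro c' f
    dsimp only
    rw [Hom.res_app, Hom.apply_eq_hd, ← β.nat]
    by_cases hk : K c' (L'.map f l)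
    · rw [Hom.ite_pos hk]
      simpa [Val.hd] using (hs c' _ hk (K'.cl f hl)).2 c' (Ar.id c')
    · left
      rw [Hom.ite_hd_neg hk]
      show ZFSet.pair ∅ _ = ZFSet.pair ∅ (p2 (ZFSet.pair ∅ _))
      rw [p2_pair]

theorem extAt_cone {A : Fm.{u} L} {q : Sec.{u} (L.prod (VZ.{u} D))} {c} {l : L.obj c}
    {φ : Sub (yo c)} (h : ExtAt (imF A q) c l φ) : ExtAt (coneF A q) c l φ := by
  intro s hs
  obtain ⟨t, h1, h2⟩ := h s.sndV fun c' f h h' => (hs c' f h h').1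
  obtain ⟨z, h3, h4⟩ := ext_cone (yon l) s t hs h2 h1
  exact ⟨z, fun c' f h _ => h3 c' f h, h4⟩

theorem sm_im {P : ZF.{u} → Prop} (hP : GU P) {A : Fm.{u} L} {q : Sec.{u} (L.prod (VZ.{u} D))}
    {Q : Sub L} (hA : SmOn P A Q)
    (hq : ∀ c l a, Q c l → A c (l, a) → P (Val.hd (q c (l, a)))) : SmOn P (imF A q) Q := by
  intro c l hl
  refine (hP.SB_image enc_inj.injOn (hA c l hl) (fun a => enc (q c (l, a))) fun a ha =>
    hP.enc fun c' g => ?_).mono ?_
  · rw [q.apply_eq_hd]; exact hq _ _ _ (Q.cl g hl) (A.cl' g ha)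
  · rintro _ ⟨s, ⟨b, h1, h2⟩, rfl⟩
    exact ⟨b, h1, congrArg enc h2.symm⟩

theorem sm_cone {P : ZF.{u} → Prop} (hP : GU P) {A : Fm.{u} L} {q : Sec.{u} (L.prod (VZ.{u} D))}
    {Q : Sub L} (hA : SmOn P A Q) (hq : SmOn P (imF A q) Q) : SmOn P (coneF A q) Q := by
  intro c l hl
  have h1 := hP.SB_ciUnion (ι := Arr c) _ fun g => hP.SB_heads (hA _ _ (Q.cl g.2 hl))
  refine hP.SB_enc ((hP.SB_pairs (hP.SB_union (hP.SB_single hP.empty)
    (hP.SB_image' h1 (fun z => {z}) fun z hz => hP.sing (hP.of_SB h1 hz)))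
    (hP.SB_heads (hq c l hl))).mono ?_)
  rintro _ ⟨v, hv, c', f, rfl⟩
  rcases hv.2 c' f with h | ⟨a, h, h'⟩
  · exact ⟨_, Or.inl rfl, _, ⟨_, hv.1, c', f, rfl⟩, h⟩
  · refine ⟨_, Or.inr ⟨_, ⟨⟨c', f⟩, a, h, c', Ar.id c', rfl⟩, rfl⟩, _, ⟨_, hv.1, c', f, rfl⟩, ?_⟩
    have := congrArg Val.hd h'
    have h2 : v c' f = ZFSet.pair _ _ := this
    simp only [sndV, h2, p2_pair]
    rfl

theorem cone_path_snd {A : Fm.{u} L} {q : Sec.{u} (L.prod (VZ.{u} D))} {P : Sub L}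
    (hq : Cov (imF A q) P) {c} {l : L.obj c} (hl : P c l) {x y p}
    (h : (pathU (coneF A q)).mem c (((l, x), y), p)) (r) : sndV (atV p r) = sndV x := by
  have hx : (coneF A q).mem c (l, x) := Conn.left ⟨p, h⟩
  exact cyl_reflect (eqS (Hom.atV ((yon (L := VZ.{u} D) p).comp Hom.fst) Hom.snd).sndV
    ((yon (L := VZ.{u} D) x).comp Hom.fst).sndV) (Sub.top _) false
    (fun c' f _ => congrArg (fun z => sndV (Val.res f z)) h.2.2.1)
    (fun c' z e' _ h' => hq c' _ _ _ e' (P.cl z.1 hl) (h.2.1 c' z.1 z.2).1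
      ((coneF A q).cl' z.1 hx).1 h') c (Ar.id c, r) trivial

theorem triv_path_cone {A : Fm.{u} L} {q : Sec.{u} (L.prod (VZ.{u} D))} {P : Sub L}
    (hq : Cov (imF A q) P) (β : Hom L' L) {P' : Sub L'} (hβ : ∀ c l, P' c l → P c (β c l))
    {x y : Sec.{u} L'} (hx : ∀ c l, P' c l → (coneF A q).mem c (β c l, x c l))
    (hy : ∀ c l, P' c l → (coneF A q).mem c (β c l, y c l))
    (h : ∀ c l, P' c l → sndV (x c l) = sndV (y c l)) :
    TrivOn (pathF ((coneF A q).pull β) x y) P' := by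
  refine trivOn_of_ext fun L0 γ K hγ s hs => ?_
  rw [pathF_pull] at hs ⊢
  have hs' := fun c l h => hs c l h trivial
  obtain ⟨t, h1, h2⟩ := ext_cone ((β.comp γ).comp Hom.fst) (K := sides K) (K' := Sub.top _)
    (edge Hom.snd ((x.comp γ).comp Hom.fst) ((y.comp γ).comp Hom.fst)
      ((s.comp Hom.fst).atV Hom.snd)) ((x.comp γ).comp Hom.fst).sndV
    (fun c p h h' => edge_mem hs (fun c l _ => hx c _ (hγ c l)) (fun c l _ => hy c _ (hγ c l)) h h')
    (fun c p _ => (hx c _ (hγ c p.1)).1) (by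
      rintro c ⟨l, r⟩ (hk | hk | hk) _
      · rw [edge_path hs' hk]
        refine (cone_path_snd hq (hβ c _ (hγ c l)) (y := y c (γ c l)) ?_ r).symm
        refine (pathF_congr (fun c' f v => ?_) ?_ ?_ _).1 (hs' c l hk)
        · simp [γ.nat, β.nat]
        · rfl
        · rfl
      · rw [edge_zero hk]; rfl
      · rw [edge_one hk]; exact h c _ (hγ c l))
  refine ⟨plam t, fun c l h _ => ?_, fun c l _ => ?_⟩
  · refine plam_eq (hs' c l h).1 fun c' f r => ?_
    rw [h1 c' (L0.map f l, r) (Or.inl (K.cl f h)), edge_path hs' (K.cl f h), s.res_app]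
  · refine plam_mem (fun c' f r => h2 c' (_, r) trivial) ?_ ?_
    · rw [h1 c (l, Iv.pt c false) (Or.inr (Or.inl rfl)), edge_zero rfl]; rfl
    · rw [h1 c (l, Iv.pt c true) (Or.inr (Or.inr rfl)), edge_one rfl]; rfl

theorem conn_cone {A : Fm.{u} L} {q : Sec.{u} (L.prod (VZ.{u} D))} {P : Sub L}
    (hq : Cov (imF A q) P) {c} {l : L.obj c} (hl : P c l) {x y}
    (hx : (coneF A q).mem c (l, x)) (hy : (coneF A q).mem c (l, y)) (h : sndV x = sndV y) :
    Conn (coneF A q) c l x y := by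
  obtain ⟨p, hp⟩ := (triv_path_cone hq (yon l) (P' := Sub.top _) (fun _ f _ => P.cl f hl)
    (x := yon (L := VZ.{u} D) x) (y := yon (L := VZ.{u} D) y) (fun _ f _ => (coneF A q).cl' f hx)
    (fun _ f _ => (coneF A q).cl' f hy) fun _ f _ => congrArg (Val.res f) h).inh
    (l := Ar.id c) trivial
  exact Conn.congr ⟨p, hp⟩ fun c' f v hv => hv

theorem triv_set_cone {A : Fm.{u} L} {q : Sec.{u} (L.prod (VZ.{u} D))} {P : Sub L}
    (hq : Cov (imF A q) P) : TrivOn (pathU (pathU (coneF A q)))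
      ((((P.ext' (coneF A q)).ext' ((coneF A q).pull Hom.fst)).ext' (pathU (coneF A q))).ext'
        ((pathU (coneF A q)).pull Hom.fst)) := by
  refine triv_path ?_ (fun _ _ h => h.1.2) fun _ _ h => h.2
  rw [pathU, pathF_pull]
  refine triv_path_cone hq ((Hom.fst.comp Hom.fst).comp (Hom.fst.comp Hom.fst))
    (fun _ _ h => ?_) (fun _ _ h => ?_) (fun _ _ h => ?_) fun c l h => ?_
  · exact h.1.1.1.1
  · exact h.1.1.1.2
  · exact h.1.1.2
  have := cone_path_snd hq h.1.1.1.1 h.2 (Iv.pt c true)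
  rw [show atV _ _ = _ from h.2.2.2.2] at this
  exact this.symm

theorem triv_isSet_cone {A : Fm.{u} L} {q : Sec.{u} (L.prod (VZ.{u} D))} (hb : (coneF A q).Bd)
    {P : Sub L} (hq : Cov (imF A q) P) : TrivOn (isSetF (coneF A q)) P :=
  triv_pi hb (triv_pi (hb.pull _) (triv_isProp hb.pathU (triv_set_cone hq)))

/-! ### propositional truncation -/

def truncF (A : Fm.{u} L) : Fm.{u} L := coneF A (Hom.cst _ ∅)

theorem cov_trunc (A : Fm.{u} L) (P : Sub L) : Cov (imF A (Hom.cst _ ∅)) P :=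
  fun _ _ _ _ _ _ ⟨_, _, h⟩ ⟨_, _, h'⟩ _ => h.trans h'.symm

theorem sm_trunc {P : ZF.{u} → Prop} (hP : GU P) {A : Fm.{u} L} {Q : Sub L} (hA : SmOn P A Q) :
    SmOn P (truncF A) Q := sm_cone hP hA (sm_im hP hA fun _ _ _ _ _ => hP.empty)

theorem fib_trunc {A : Fm.{u} L} {P : Sub L} (hA : FibOn A P) : FibOn (truncF A) P :=
  fun c l hl φ hφ => extAt_cone (fib_im hA (cov_trunc A P) c l hl φ hφ)

theorem triv_trunc {A : Fm.{u} L} {P : Sub L} (h : ∀ c l, P c l → ∃ a, A c (l, a)) :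
    TrivOn (truncF A) P := by
  refine fun c l hl φ => extAt_cone fun s hs => ⟨Hom.cst _ ∅, fun c' f h h' => ?_, fun c' f _ => ?_⟩
  · obtain ⟨_, _, h⟩ := hs c' f h h'
    exact h.symm
  · obtain ⟨a, ha⟩ := h c' _ (P.cl f hl)
    exact ⟨a, ha, rfl⟩

theorem triv_isProp_trunc {A : Fm.{u} L} (hb : A.Bd) (P : Sub L) :
    TrivOn (isPropF (truncF A)) P := by
  refine triv_isProp (sm_trunc gu_top hb) (triv_path_cone (cov_trunc A P) (Hom.fst.comp Hom.fst)
    (fun _ _ h => ?_) (fun _ _ h => ?_) (fun _ _ h => ?_) fun c l h => ?_)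
  · exact h.1.1
  · exact h.1.2
  · exact h.2
  obtain ⟨_, _, h1⟩ := h.1.2.1
  obtain ⟨_, _, h2⟩ := h.2.1
  exact h1.trans h2.symm

theorem triv_trunc_ind {A : Fm.{u} L} {C : Fm.{u} (L.prod (VZ.{u} D))} {P : Sub L}
    (hC : FibOn C (P.ext' (truncF A))) (hp : PropOn C (P.ext' (truncF A)))
    (hg : ∀ c l a, P c l → A c (l, a) → ∃ x, C c ((l, pairV (singV a) (cstV c ∅)), x)) :
    TrivOn C (P.ext' (truncF A)) := by
  refine triv_of_prop hC hp ?_
  rintro c ⟨l, t⟩ ⟨hl, ht⟩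
  obtain ⟨a, ha, h⟩ := ht.1
  obtain ⟨x, hx⟩ := hg c l a hl ha
  obtain ⟨y, hy, -⟩ := transport hC hl (conn_cone (cov_trunc A P) hl (con_mem ha) ht
    (by simpa using h.symm)) hx
  exact ⟨y, hy⟩

end Pool.Agent.Lib.MP_5eb18a_lc
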