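import Pool.Agent.Lib.MP_5eb18a_lc.Model

/-!
The model over the commutative square, separating the two notions of projectivity.
-/

namespace Pool.Agent.Lib.MP_5eb18a_lc

universe u v v' v'' w

set_option linter.unusedSectionVars false

attribute [local irreducible] cset gr ap p1 p2 enc ckey compOp extOp codeF

abbrev Sq := Bool × Bool

def mid (x : Sq) : Prop := x.1 ≠ x.2

theorem mid_le : ∀ {x y : Sq}, mid x → x ≤ y → y ≠ ⊤ → mid y := by
  unfold mid; decide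

theorem mid_ne_top : ∀ {x : Sq}, mid x → x ≠ ⊤ := by unfold mid; decide

theorem mid_of_ne : ∀ {x : Sq}, x ≠ ⊥ → x ≠ ⊤ → mid x := by unfold mid; decide

theorem mid_ne_bot : ∀ {x : Sq}, mid x → x ≠ ⊥ := by unfold mid; decide

def G1 : Gen Sq := fun {c1 c0} m φ => mid c0.x ∧ c1.x = ⊤ ∧
  (∀ c' (f : Ar c' c0), c'.x = ⊤ → ∃ f' : Ar c' c1, f = f'.comp m) ∧
  ∀ c' f, c'.x = ⊤ → φ c' f

def mvT (c : Ob Sq) : Ar ⟨c.n, ⊤⟩ c := ⟨fun i => i, monotone_id, le_top⟩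

theorem mvT_fac {c c' : Ob Sq} (f : Ar c' c) (h : c'.x = ⊤) :
    ∃ f' : Ar c' ⟨c.n, ⊤⟩, f = f'.comp (mvT c) := ⟨⟨f.f, f.mono, h.ge⟩, rfl⟩

theorem mvT_inj (c c' : Ob Sq) (f g : Ar c' ⟨c.n, ⊤⟩) (e : f.comp (mvT c) = g.comp (mvT c)) :
    f = g := Ar.ext (congrArg (fun k : Ar c' c => k.f) e)

theorem g1_mvT {c : Ob Sq} (h : mid c.x) {φ : Sub (yo c)} (h' : ∀ c' f, c'.x = ⊤ → φ c' f) :
    G1 (mvT c) φ := ⟨h, rfl, fun _ f => mvT_fac f, h'⟩

theorem g1_bd {c : Ob Sq} (h : mid c.x) : G1 (mvT c) (bd c) :=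
  g1_mvT h fun _ _ e => Or.inl (e ▸ (mid_ne_top h).symm)

theorem g1_im {c : Ob Sq} (h : mid c.x) : (yon (L := yo c) (mvT c)).im ∈ G1.cls c :=
  ⟨_, _, g1_mvT h fun _ f e => let ⟨f', h⟩ := mvT_fac f e; ⟨f', h.symm⟩⟩

variable {L : Psh.{v} Sq}

theorem ext1 {A : Fm.{u} L} {K K' : Sub L} (hA : GoodOn G1.cls A K')
    (h : ∀ c l, K' c l → ¬ K c l → mid c.x) : Ext A K K' := by
  intro s hs
  refine cells A K K' s hs fun c l hl hk t ht _ => ?_
  obtain ⟨t', h1, h2⟩ := hA c l hl (bd c) ⟨_, _, g1_bd (h c l hl hk)⟩ t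
    fun c' f hf _ => ht c' f hf
  exact ⟨t', fun c' f hf => h1 c' f hf trivial, fun c' f => h2 c' f trivial⟩

theorem piStep1 : PiStep.{u} G1 := by
  intro c0 A C _ _ _ c1 m φ hφ s hs H
  refine cells C (φ.comap Hom.fst) A s hs fun c p hp hk t ht e => ?_
  have hc : mid c.x := mid_le hφ.1 p.1.le fun e => hk (hφ.2.2.2 _ _ e)
  exact H c p hp _ (mvT c) (bd c) (g1_bd hc) (hφ.2.2.1 _ _ rfl) t (e _ _ (hφ.2.2.2 _ _ rfl)) ht

theorem clo1 : Clo.{u} G1.cls := by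
  refine ⟨fun hb fA gA fB gB => piStep1.pi hb fA gA fB gB, ?_,
    fun hb fA gA fB gB => piStep1.w (fun m φ h => h.2.2.2 _ _ h.2.1) hb fA gA fB gB, ?_⟩
  · rintro L A a b P hA ha hb c l hl φ ⟨c1, m, hφ⟩
    rw [ExtAt, pathF_pull]
    refine ext_path (fun _ f _ => ha _ _ (P.cl f hl)) (fun _ f _ => hb _ _ (P.cl f hl))
      (ext1 (hA.pull ((yon l).comp Hom.fst) fun _ p _ => P.cl p.1 hl) fun c' p _ hk => ?_)
    exact mid_le hφ.1 p.1.le fun e => hk (Or.inl (hφ.2.2.2 _ _ e))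
  · rintro c φ ⟨c1, m, hφ⟩
    refine ⟨_, mvT c, hφ.2.2.2 _ _ rfl, mvT_inj c, g1_im hφ.1, fun c' f hf => ?_⟩
    by_cases e : c'.x = ⊤
    · obtain ⟨f', h⟩ := mvT_fac f e
      exact Or.inl ⟨f', h.symm⟩
    · obtain ⟨f', h⟩ := mvT_fac ((mvT c').comp f) rfl
      exact Or.inr ⟨c', f, Ar.id c', _, mvT c', rfl, hf, mvT_inj c', g1_im (mid_le hφ.1 f.le e),
        f', h.symm⟩

/-- the module that vanishes at the bottom corner -/
def S1 : Sq →o Set F2 := ⟨fun x => {z | z ≠ 0 → x ≠ ⊥}, fun x y h z hz h0 e =>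
  hz h0 (le_bot_iff.1 (e ▸ h))⟩

theorem subM_S1 : SubM S1 := by
  refine ⟨fun _ h => absurd rfl h, fun d x y hx hy h e => ?_, fun d x hx h e => ?_,
    fun d r x hx h e => ?_⟩
  · by_cases h0 : x = 0
    · exact hy (by simpa [h0] using h) e
    · exact hx h0 e
  · exact hx (by simpa using h) e
  · exact hx (fun h0 => h (by simp [h0])) e

theorem f2_cases : ∀ z : F2, z = 0 ∨ z = 1 := by decide

theorem proj_small {P : ZF.{u} → Prop} {c : Ob Sq} {a b : MV.{u} c} {e f : Vl.{u} c}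
    (ta : TyM P G1.cls (rF c) a) (tb : TyM P G1.cls (rF c) b) (he : Fn a.car b.car e)
    (hl : LinV (rF c) a b e) (hs : SurjV a.car b.car e) (tm : TyM P G1.cls (rF c) (dM S1 c))
    (hf : Fn (dV S1 c) b.car f) (hl' : LinV (rF c) (dM S1 c) b f) :
    ∃ g, Fn (dV S1 c) a.car g ∧ LinV (rF c) (dM S1 c) a g ∧ TriV (dV S1 c) b.car e g f := by
  let ψ : Sub (yo c) := ⟨fun c' _ => c'.x ≠ ⊥, fun g _ h e => h (le_bot_iff.1 (e ▸ g.le))⟩
  have h1 : ∀ c' (k : Ar c' c), c'.x ≠ ⊥ → appV (f.res k) (kv c' (1 : F2)) ∈ El (b.car.res k) :=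
    fun c' k h => (hf.res k).app (by rw [dV_res]; exact kv_mem fun _ => h)
  obtain ⟨x, hx, hx'⟩ := hs _ (mvT c) _ (h1 _ (mvT c) top_ne_bot)
  obtain ⟨s, -, hs0⟩ := attach (Sub.bot _) (yon (L := yo c) (mvT c)) (Hom.cst _ ∅)
    (yon (L := VZ.{u} Sq) x) (fun _ _ h => h.elim) fun c' f g hfg _ => mvT_inj c c' f g hfg
  obtain ⟨g1, h2, h3⟩ := ext1 (A := ElF (yon (L := VZ.{u} Sq) a.car))
    (K := (yon (L := yo c) (mvT c)).im) (K' := ψ)
    (tyOn_ElF (P := P) fun c' k _ => ta.ty.res k).good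
    (fun c' k h hk => mid_of_ne h fun e => hk (let ⟨f', h⟩ := mvT_fac k e; ⟨f', h.symm⟩)) s (by
      rintro c' _ ⟨k, rfl⟩ _
      rw [hs0]
      exact El.res hx k)
  have h4 : ∀ c' (k : Ar c' c), c'.x = ⊤ →
      Con (b.car.res k) (appV (e.res k) (g1 c' k)) (appV (f.res k) (kv c' (1 : F2))) := by
    intro c' k h
    obtain ⟨k', rfl⟩ := mvT_fac k h
    rw [h2 c' (k'.comp (mvT c)) ⟨k', rfl⟩ (fun e => top_ne_bot (h.symm.trans e)),
      show s c' (k'.comp (mvT c)) = _ from hs0 c' k']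
    exact Conn.res hx' k'
  have h5 : ∀ c' (k : Ar c' c), c'.x ≠ ⊥ →
      Con (b.car.res k) (appV (e.res k) (g1 c' k)) (appV (f.res k) (kv c' (1 : F2))) := by
    intro c' k h
    by_cases e' : c'.x = ⊤
    · exact h4 c' k e'
    · refine con_reflect clo1 (tb.ty.res k) (mvT c') (mvT_inj c') (g1_im (mid_of_ne h e'))
        ((he.res k).app (h3 c' k h)) (h1 c' k h) ?_
      rw [appV_res, g1.res_app]
      exact h4 _ ((mvT c').comp k) rfl
  let G : Sec.{u} ((yo c).prod (VZ.{u} Sq)) := Hom.ite (eqS Hom.snd (Hom.cst _ (ckey F2 1)))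
    (g1.comp Hom.fst) ((yon (L := VZ.{u} Sq) a.zero).comp Hom.fst)
  have G0 : ∀ c' (k : Ar c' c), G c' (k, kv c' (0 : F2)) = a.zero.res k := fun c' k =>
    Hom.ite_eq fun c'' g h => absurd (kv_inj (c := c'') h) (by decide)
  have G1' : ∀ c' (k : Ar c' c), G c' (k, kv c' (1 : F2)) = g1 c' k := fun c' k => Hom.ite_pos rfl
  have el : ∀ c' (k : Ar c' c) x, x ∈ El ((dV.{u} S1 c).res k) →
      x = kv c' (0 : F2) ∨ (x = kv c' (1 : F2) ∧ c'.x ≠ ⊥) := fun c' k x hx => by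
    rw [dV_res] at hx
    obtain ⟨z, hz, e⟩ := mem_dV.1 hx
    rcases f2_cases z with rfl | rfl
    · exact Or.inl e
    · exact Or.inr ⟨e, hz one_ne_zero⟩
  obtain ⟨g, hg, hg'⟩ := fn_lam (X := dV S1 c) (Y := a.car) G fun c' k x hx => by
    rcases el c' k x hx with rfl | ⟨rfl, h⟩
    · rw [G0]; exact El.res ta.zero k
    · rw [G1']; exact h3 c' k h
  have m0 : ∀ c' : Ob Sq, (0 : F2) ∈ S1 c'.x := fun c' => subM_S1.zero _
  have m1 : ∀ c' : Ob Sq, c'.x ≠ ⊥ → (1 : F2) ∈ S1 c'.x := fun c' h _ => h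
  have g0 : ∀ c' (k : Ar c' c), appV (g.res k) (kv c' (0 : F2)) = (a.res k).zero := fun c' k => by
    rw [hg' c' k _ (by rw [dV_res]; exact kv_mem (m0 _)), G0]; rfl
  have g1' : ∀ c' (k : Ar c' c), c'.x ≠ ⊥ → appV (g.res k) (kv c' (1 : F2)) = g1 c' k :=
    fun c' k h => by rw [hg' c' k _ (by rw [dV_res]; exact kv_mem (m1 _ h)), G1']
  refine ⟨g, hg, ⟨fun c' k x y hx hy => ?_, fun c' k x y hx hy => ?_⟩, fun c' k x hx => ?_⟩
  · have ta := ta.resF k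
    simp only [dM, dfun2_res]
    rcases el c' k x hx with rfl | ⟨rfl, h⟩ <;> rcases el c' k y hy with rfl | ⟨rfl, h'⟩
    · rw [app_dfun2 (m0 _) (m0 _), add_zero, g0]
      exact ta.sy (ta.zero_add ta.zero)
    · rw [app_dfun2 (m0 _) (m1 _ h'), zero_add, g0, g1' _ _ h']
      exact ta.sy (ta.zero_add (h3 c' k h'))
    · rw [app_dfun2 (m1 _ h) (m0 _), add_zero, g0, g1' _ _ h]
      exact ta.sy (ta.add_zero (h3 c' k h))
    · rw [app_dfun2 (m1 _ h) (m1 _ h), show (1 + 1 : F2) = 0 from rfl, g0, g1' _ _ h]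
      exact ta.sy (ta.add_self (h3 c' k h))
  · have ta := ta.resF k
    have hy' := (hg.res k).app hy
    simp only [dM, dfun2_res, rF, dV_res] at hx hy ⊢
    obtain ⟨r, -, rfl⟩ := mem_dV.1 hx
    obtain ⟨z, hz, rfl⟩ := mem_dV.1 hy
    rw [app_dfun2 (cU_mem _ _) hz]
    rcases f2_cases r with rfl | rfl
    · rw [zero_smul, g0]
      exact ta.sy (ta.zero_smul hy')
    · rw [one_smul]
      exact ta.sy (ta.one_smul hy')
  · rcases el c' k x hx with rfl | ⟨rfl, h⟩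
    · have tb := tb.resF k
      have hl := hl.res k
      have hl' := hl'.res k
      rw [rF_res] at hl hl'
      rw [g0]
      refine tb.tr ((ta.resF k).lin_zero tb (he.res k) hl) (tb.sy ?_)
      exact (tm.resF k).lin_zero tb (hf.res k) hl'
    · rw [g1' _ _ h]
      exact h5 c' k h

/-- the module whose sum map has no section -/
def S2 : Sq →o Set (F2 × F2) := ⟨fun x => {v | (v.1 ≠ 0 → x.1 = true) ∧ (v.2 ≠ 0 → x.2 = true)},
  fun _ _ h _ hv => ⟨fun h0 => top_le_iff.1 ((hv.1 h0).ge.trans h.1),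
    fun h0 => top_le_iff.1 ((hv.2 h0).ge.trans h.2)⟩⟩

theorem subM_S2 : SubM S2 := by
  have key : ∀ a b : F2, a + b ≠ 0 → a ≠ 0 ∨ b ≠ 0 := by decide
  refine ⟨fun _ => ⟨fun h => absurd rfl h, fun h => absurd rfl h⟩, fun d x y hx hy =>
    ⟨fun h => (key _ _ h).elim hx.1 hy.1, fun h => (key _ _ h).elim hx.2 hy.2⟩, fun d x hx =>
    ⟨fun h => hx.1 (by simpa using h), fun h => hx.2 (by simpa using h)⟩, fun d r x hx =>
    ⟨fun h => hx.1 fun h0 => h (by simp [h0]), fun h => hx.2 fun h0 => h (by simp [h0])⟩⟩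

theorem not_proj {P : ZF.{u} → Prop} (hP : GU P)
    (h : ∀ {a b e f}, TyM P (fun _ => ∅) (rF (⟨0, ⊥⟩ : Ob Sq)) a →
      TyM P (fun _ => ∅) (rF (⟨0, ⊥⟩ : Ob Sq)) b → Fn a.car b.car e → LinV (rF _) a b e →
      SurjV a.car b.car e → Fn (dM S1 _).car b.car f → LinV (rF _) (dM S1 _) b f →
      ∃ g, Fn (dM S1 _).car a.car g ∧ TriV (dM S1 _).car b.car e g f) : False := by
  have hs : ∀ d (v : F2 × F2), v ∈ S2 d → v.1 + v.2 ∈ S1 d := by
    simp only [S1, S2, OrderHom.coe_mk, Set.mem_ofPred_eq]; decide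
  obtain ⟨g, hg, ht⟩ := h (tyM_dM subM_S2 (isTy_dV hP clo_empty (fun _ _ _ h => h.elim) _))
    (tyM_dM subM_S1 (isTy_dV hP clo_empty (fun _ _ _ h => h.elim) _))
    (fn_dfun (φ := fun _ v => v.1 + v.2) (fun _ _ _ _ _ => rfl) hs _)
    (lin_dfun subM_S2 subM_S1 (fun _ _ _ _ _ => rfl) hs (fun _ x y => by simp; ring)
      (fun _ r x => by simp; ring) _)
    (fun c' k y hy => by
      simp only [dM, dV_res, dfun_res] at hy ⊢
      obtain ⟨z, hz, rfl⟩ := mem_dV.1 hy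
      have : ∀ d z, z ∈ S1 d → ∃ v ∈ S2 d, v.1 + v.2 = z := by
        simp only [S1, S2, OrderHom.coe_mk, Set.mem_ofPred_eq]; decide
      obtain ⟨v, hv, e⟩ := this _ _ hz
      refine ⟨_, kv_mem hv, ?_⟩
      rw [app_dfun (fun _ _ _ _ _ => rfl) hv]
      exact con_kv (hs _ _ hv) e)
    (fn_dfun (φ := fun _ z => z) (fun _ _ _ _ _ => rfl) (fun _ _ h => h) _)
    (lin_dfun subM_S1 subM_S1 (fun _ _ _ _ _ => rfl) (fun _ _ h => h) (fun _ _ _ => rfl)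
      (fun _ _ _ => rfl) _)
  have key : ∀ x : Sq, x ≠ ⊥ → ∃ v ∈ S2 x, v.1 + v.2 = 1 ∧
      appV (g.res (mv 0 bot_le)) (kv ⟨0, ⊤⟩ (1 : F2)) = kv ⟨0, ⊤⟩ v := by
    intro x hx
    have h1 : kv ⟨0, x⟩ (1 : F2) ∈ El ((dM.{u} S1 ⟨0, ⊥⟩).car.res (mv 0 bot_le)) := by
      simp only [dM, dV_res]; exact kv_mem fun _ => hx
    have h2 := (hg.res (mv 0 bot_le)).app h1
    have h3 := ht _ _ _ h1
    simp only [dM, dV_res, dfun_res] at h2 h3
    obtain ⟨v, hv, e⟩ := mem_dV.1 h2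
    rw [e, app_dfun (fun _ _ _ _ _ => rfl) hv,
      app_dfun (S := S1) (fun _ _ _ _ _ => rfl) fun _ => hx] at h3
    exact ⟨v, hv, kv_inj (con_disc h3), congrArg (Val.res (mv 0 le_top)) e⟩
  obtain ⟨v, hv, e, h1⟩ := key (true, false) (by decide)
  obtain ⟨v', hv', e', h2⟩ := key (false, true) (by decide)
  obtain rfl : v = v' := kv_inj (h1.symm.trans h2)
  revert hv hv' e
  simp only [S2, OrderHom.coe_mk, Set.mem_ofPred_eq]
  clear h1 h2 e'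
  revert v
  decide

theorem q1_not_der {N N' : ℕ∞} (h1 : N ≤ N') (h2 : 2 ≤ N') (hN : Inacc.{u} N') :
    ¬ ∃ t, Der N [] t t (Q1 0 0 1) := by
  refine not_der (Q := AllRing 0 fun R => AllMod 0 R fun M => Iff' (IsProj 0 R M) (IsProj 1 R M))
    ⟨0, ⊥⟩ clo1 (fun M N hM h2 e ρ h => ?_) h1 h2 hN
  have g0 := hM.gu 0 (lt_of_lt_of_le (by decide) h2)
  have g1 := hM.gu 1 (lt_of_lt_of_le (by decide) h2)
  have tm : ∀ c, TyM (M.P 0) G1.cls (rF c) (dM S1 c) := fun c => tyM_dM subM_S1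
    (isTy_dV g0 clo1 (S := S1) (fun c _ _ ⟨_, _, h⟩ _ _ _ => mid_ne_bot h.1) c)
  obtain ⟨n, ρ', R, A, dR, dA, h⟩ := h.main (hM.bd 0) (tyR_rF g0 (hM.clo 0) _) (e ▸ tm _)
    fun n ρ R A dR dA => tv_proj (hM.bd 0) dR dA fun c' k a b e' f => by
      rw [e, rF_res, dM_res]
      exact fun ta tb he hl hs hf hl' => proj_small ta tb he hl hs (tm _) hf hl'
  refine not_proj g1 fun ta tb => ?_
  rw [← hM.phi 0] at ta tb
  exact h.proj (hM.bd 1) dR dA ta tb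

end Pool.Agent.Lib.MP_5eb18a_lc
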