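import Pool.Agent.Lib.MP_5eb18a_lc.Span
import Pool.Agent.Lib.MP_5eb18a_lc.Proj

/-!
The model over the span, separating the two notions of injectivity.
-/

namespace Pool.Agent.Lib.MP_5eb18a_lc

universe u v v' v'' w

set_option linter.unusedSectionVars false

attribute [local irreducible] cset gr ap p1 p2 enc ckey compOp extOp codeF

/-- an elementary abelian 2-group presented as a setoid -/
structure PreAb (X : Type v) where
  r : Setoid X
  zero : X
  add : X → X → X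
  congr : ∀ {a a' b b'}, r a a' → r b b' → r (add a b) (add a' b')
  assoc : ∀ a b c, r (add (add a b) c) (add a (add b c))
  comm : ∀ a b, r (add a b) (add b a)
  zero_add : ∀ a, r (add zero a) a
  self : ∀ a, r (add a a) zero

def PreAb.Q {X : Type v} (G : PreAb X) : Type v := Quotient G.r

def PreAb.mk' {X : Type v} (G : PreAb X) (a : X) : G.Q := Quotient.mk G.r a

instance {X : Type v} (G : PreAb X) : Add G.Q :=
  ⟨Quotient.map₂ (sa := G.r) (sb := G.r) (sc := G.r) G.add fun _ _ h _ _ h' => G.congr h h'⟩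
instance {X : Type v} (G : PreAb X) : Zero G.Q := ⟨G.mk' G.zero⟩
instance {X : Type v} (G : PreAb X) : Neg G.Q := ⟨id⟩

instance {X : Type v} (G : PreAb X) : AddGroup G.Q :=
  AddGroup.ofLeftAxioms
    (by rintro ⟨a⟩ ⟨b⟩ ⟨c⟩; exact Quotient.sound (G.assoc a b c))
    (by rintro ⟨a⟩; exact Quotient.sound (G.zero_add a))
    (by rintro ⟨a⟩; exact Quotient.sound (G.self a))

instance {X : Type v} (G : PreAb X) : AddCommGroup G.Q :=
  { (inferInstance : AddGroup G.Q) with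
    add_comm := by rintro ⟨a⟩ ⟨b⟩; exact Quotient.sound (G.comm a b) }

theorem PreAb.two {X : Type v} (G : PreAb X) (a : G.Q) : 2 • a = 0 := by
  rw [two_nsmul]
  obtain ⟨a⟩ := a
  exact Quotient.sound (G.self a)

theorem ext_pre {X Y : Type v} (G : PreAb X) (H : PreAb Y) (m : X → Y)
    (h1 : ∀ a b, H.r (m a) (m b) ↔ G.r a b) (h2 : ∀ a b, H.r (m (G.add a b)) (H.add (m a) (m b)))
    (f : X → F2) (h3 : ∀ a b, G.r a b → f a = f b) (h4 : ∀ a b, f (G.add a b) = f a + f b) :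
    ∃ h : Y → F2, (∀ a b, H.r a b → h a = h b) ∧ (∀ a b, h (H.add a b) = h a + h b) ∧
      ∀ a, h (m a) = f a := by
  let := AddCommGroup.zmodModule G.two
  let := AddCommGroup.zmodModule H.two
  let m' : G.Q →+ H.Q := AddMonoidHom.mk' (Quotient.map (sa := G.r) (sb := H.r) m
    fun a b h => (h1 a b).2 h) (by rintro ⟨a⟩ ⟨b⟩; exact Quotient.sound (h2 a b))
  let f' : G.Q →+ F2 := AddMonoidHom.mk' (Quotient.lift (s := G.r) f h3)
    (by rintro ⟨a⟩ ⟨b⟩; exact h4 a b)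
  obtain ⟨g, hg⟩ := (m'.toZModLinearMap 2).exists_leftInverse_of_injective
    (LinearMap.ker_eq_bot.2 (by
      rintro ⟨a⟩ ⟨b⟩ h
      exact Quotient.sound ((h1 a b).1 (Quotient.exact h))))
  refine ⟨fun y => f' (g (H.mk' y)), fun a b h => ?_, fun a b => ?_, fun a => ?_⟩
  · exact congrArg (fun q => f' (g q)) (Quotient.sound h)
  · rw [← map_add, ← map_add]; rfl
  · exact congrArg f' (LinearMap.congr_fun hg (G.mk' a))

section
variable {D : Type} [PartialOrder D] [Countable D] [WellFoundedGT D]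

noncomputable def TyM.pre {P : ZF.{u} → Prop} {Φ : Cls D} {c : Ob D} {m : MV.{u} c}
    (h : TyM P Φ (rF c) m) : PreAb {x // x ∈ El m.car} where
  r := ⟨fun x y => Con m.car x.1 y.1, fun x => Conn.refl x.2, h.sy, h.tr⟩
  zero := ⟨_, h.zero⟩
  add x y := ⟨_, h.add_mem x.2 y.2⟩
  congr := h.add_congr
  assoc a b c := h.assoc a.2 b.2 c.2
  comm a b := h.comm a.2 b.2
  zero_add a := h.zero_add a.2
  self a := h.add_self a.2

/-- restriction along `k` is a bijection on components -/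
def BijA {c c' : Ob D} (X : Vl.{u} c) (k : Ar c' c) : Prop :=
  (∀ y ∈ El (X.res k), ∃ x ∈ El X, Con (X.res k) (Val.res k x) y) ∧
    ∀ x ∈ El X, ∀ x' ∈ El X, Con (X.res k) (Val.res k x) (Val.res k x') → Con X x x'

theorem BijA.comp {c c' c'' : Ob D} {X : Vl.{u} c} (hX : Fb X) {k : Ar c' c} {g : Ar c'' c'}
    (h : BijA X k) (h' : BijA (X.res k) g) : BijA X (g.comp k) := by
  refine ⟨fun y hy => ?_, fun x hx x' hx' e => h.2 x hx x' hx' (h'.2 _ (El.res hx k) _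
    (El.res hx' k) e)⟩
  obtain ⟨y', hy', e⟩ := h'.1 y hy
  obtain ⟨x, hx, e'⟩ := h.1 y' hy'
  exact ⟨x, hx, Con.trans (hX.res _) (Conn.res e' g) e⟩

theorem BijA.cancel {c c' c'' : Ob D} {X : Vl.{u} c} {k : Ar c' c} {g : Ar c'' c'}
    (h : BijA X (g.comp k)) (h' : BijA (X.res k) g) : BijA X k := by
  refine ⟨fun y hy => ?_, fun x hx x' hx' e => h.2 x hx x' hx' (Conn.res e g)⟩
  obtain ⟨x, hx, e⟩ := h.1 _ (El.res hy g)
  exact ⟨x, hx, h'.2 _ (El.res hx k) _ hy e⟩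

theorem bijA_vtxE {c : Ob D} {X : Vl.{u} c} (hX : Fb X) (e : Bool) : BijA X (vtxE c e) := by
  refine ⟨fun y hy => ?_, fun x hx x' hx' h => conn_of_vertex hX ⟨Ar.id _, rfl⟩ hx hx' e h⟩
  obtain ⟨x, hx, rfl⟩ := ext_vertex (A := elU D) (l := X) (hX _ _ ⟨Ar.id _, rfl⟩) e hy
  exact ⟨x, hx, Conn.refl hy⟩

theorem bijA_vtx {c : Ob D} {X : Vl.{u} c} (hX : Fb X) (i) : BijA X (vtx c i) := by
  let ed : Ar ⟨1, c.x⟩ c := ⟨fun j : Fin 2 => if j = 0 then 0 else i, by
    intro a b h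
    fin_cases a <;> fin_cases b <;> simp_all, le_rfl⟩
  have h1 : BijA X ed := BijA.cancel (g := vtxE ⟨1, c.x⟩ false) (bijA_vtxE hX false)
    (bijA_vtxE (hX.res ed) false)
  exact h1.comp hX (bijA_vtxE (hX.res ed) true)

end

theorem bijA_good {P : ZF.{u} → Prop} {c c' : Ob Sp} {X : Vl.{u} c} (hX : IsTy P G2.cls X)
    (k : Ar c' c) : BijA X k := by
  refine BijA.cancel (g := vtxE c' false) ?_ (bijA_vtxE (hX.res k).fb false)
  refine BijA.comp hX.fb (g := mv 0 k.le) (bijA_vtx hX.fb (k.f 0)) ?_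
  have hY := hX.res (vtx c (k.f 0))
  generalize X.res (vtx c (k.f 0)) = Y at hY
  have hk := k.le
  obtain ⟨n, x⟩ := c
  obtain ⟨n', x'⟩ := c'
  have h0 : BijA Y (Ar.id _) := ⟨fun y hy => ⟨y, hy, Conn.refl hy⟩, fun _ _ _ _ h => h⟩
  rcases hk with rfl | rfl
  · rcases x' with _ | p
    · exact h0
    · refine ⟨fun y hy => ?_, fun x hx x' hx' h =>
        con_reflect clo2 hY (mvU 0 p) (mv_inj 0 _) (g2_im 0 p) hx hx' h⟩
      obtain ⟨x, hx, rfl⟩ := el_lift hY (mvU 0 p) (mv_inj 0 _) (g2_im 0 p) hy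
      exact ⟨x, hx, Conn.refl hy⟩
  · exact h0

open Classical in
theorem inj_small {P : ZF.{u} → Prop} {c : Ob Sp} {a b : MV.{u} c} {e f : Vl.{u} c}
    (ta : TyM P G2.cls (rF c) a) (tb : TyM P G2.cls (rF c) b) (he : Fn a.car b.car e)
    (hl : LinV (rF c) a b e) (hs : InjV a.car b.car e)
    (hf : Fn a.car (dV (cU Sp F2) c) f) (hl' : LinV (rF c) a (dM (cU Sp F2) c) f) :
    ∃ g, Fn b.car (dV (cU Sp F2) c) g ∧ LinV (rF c) b (dM (cU Sp F2) c) g ∧
      TriV a.car (dV (cU Sp F2) c) g e f := by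
  have hf' : ∀ x ∈ El a.car, appV f x = kv c (dec F2 (appV f x)) := fun x hx => by
    obtain ⟨z, -, h⟩ := mem_dV.1 (hf.app hx)
    rw [h, dec_kv]
  obtain ⟨h, h1, h2, h3⟩ := ext_pre ta.pre tb.pre (fun x => ⟨_, he.app x.2⟩)
    (fun x y => ⟨hs c (Ar.id c) _ _ x.2 y.2, Con.ap he⟩)
    (fun x y => hl.1 c (Ar.id c) _ _ x.2 y.2) (fun x => dec F2 (appV f x.1))
    (fun x y h => congrArg (dec F2) (con_disc (Con.ap hf h))) (fun x y => by
      have := con_disc (S := cU Sp F2) (hl'.1 c (Ar.id c) _ _ x.2 y.2)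
      simp only [Val.res_id, dM] at this
      rw [hf' _ x.2, hf' _ y.2, app_dfun2 (cU_mem _ _) (cU_mem _ _)] at this
      exact (congrArg (dec F2) this).trans (dec_kv _))
  let H : ∀ c', Ar c' c → Vl.{u} c' → F2 := fun c' k y =>
    if hy : ∃ x : {x // x ∈ El b.car}, Con (b.car.res k) (Val.res k x.1) y then h hy.choose else 0
  have hH : ∀ c' (k : Ar c' c) y x (hx : x ∈ El b.car), Con (b.car.res k) (Val.res k x) y →
      H c' k y = h ⟨x, hx⟩ := fun c' k y x hx hc => by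
    have hy : ∃ x : {x // x ∈ El b.car}, Con (b.car.res k) (Val.res k x.1) y := ⟨⟨x, hx⟩, hc⟩
    simp only [H, dif_pos hy]
    exact h1 _ _ ((bijA_good tb.ty k).2 _ hy.choose.2 _ hx
      ((tb.resF k).tr hy.choose_spec ((tb.resF k).sy hc)))
  let G : Sec.{u} ((yo c).prod (VZ.{u} Sp)) := ofHead fun c' p => ckey F2 (H c' p.1 p.2)
  have hG : ∀ c' (k : Ar c' c) y x (hx : x ∈ El b.car), Con (b.car.res k) (Val.res k x) y →
      G c' (k, y) = kv c' (h ⟨x, hx⟩) := fun c' k y x hx hc => by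
    apply ofHead_eq
    intro c'' g
    have := hH c'' (g.comp k) (y.res g) x hx (Conn.res hc g)
    exact congrArg (ckey F2) this
  obtain ⟨g, hg, hg'⟩ := fn_lam (X := b.car) (Y := dV (cU Sp F2) c) G fun c' k y hy => by
    obtain ⟨x, hx, hc⟩ := (bijA_good tb.ty k).1 y hy
    rw [hG c' k y x hx hc, dV_res]
    exact kv_mem (cU_mem _ _)
  have key : ∀ c' (k : Ar c' c) y x (hx : x ∈ El b.car), Con (b.car.res k) (Val.res k x) y →
      appV (g.res k) y = kv c' (h ⟨x, hx⟩) := fun c' k y x hx hc => by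
    rw [hg' c' k y (Conn.right hc), hG c' k y x hx hc]
  have h0 : h ⟨_, tb.zero⟩ = 0 := by
    have := (h1 _ _ (tb.pre.zero_add tb.pre.zero)).symm.trans (h2 _ _)
    exact left_eq_add.1 this
  refine ⟨g, hg, ⟨fun c' k y y' hy hy' => ?_, fun c' k r y hr hy => ?_⟩, fun c' k y hy => ?_⟩
  · obtain ⟨x, hx, hc⟩ := (bijA_good tb.ty k).1 y hy
    obtain ⟨x', hx', hc'⟩ := (bijA_good tb.ty k).1 y' hy'
    rw [key c' k y x hx hc, key c' k y' x' hx' hc',
      key c' k (appV (appV (b.add.res k) y) y') _ (tb.add_mem hx hx')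
        ((tb.resF k).add_congr hc hc')]
    simp only [dM, dV_res, dfun2_res]
    rw [app_dfun2 (cU_mem _ _) (cU_mem _ _)]
    exact con_kv (cU_mem _ _) (h2 ⟨x, hx⟩ ⟨x', hx'⟩)
  · obtain ⟨x, hx, hc⟩ := (bijA_good tb.ty k).1 y hy
    simp only [rF, dM, dV_res, dfun2_res] at hr ⊢
    obtain ⟨r, -, rfl⟩ := mem_dV.1 hr
    rw [key c' k y x hx hc, app_dfun2 (cU_mem _ _) (cU_mem _ _)]
    have tb' := tb.resF k
    rcases f2_cases r with rfl | rfl
    · rw [key c' k (appV (appV (b.smul.res k) _) y) _ tb.zero (tb'.sy (tb'.zero_smul hy)), h0,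
        zero_smul]
      exact con_kv (cU_mem _ _) rfl
    · rw [key c' k (appV (appV (b.smul.res k) _) y) _ hx (tb'.tr hc (tb'.sy (tb'.one_smul hy))),
        one_smul]
      exact con_kv (cU_mem _ _) rfl
  · obtain ⟨x, hx, hc⟩ := (bijA_good ta.ty k).1 y hy
    rw [key c' k _ _ (he.app hx) (Con.ap (he.res k) hc), h3 ⟨x, hx⟩]
    have := Con.ap (hf.res k) hc
    rw [← appV_res, hf' x hx] at this
    exact this

/-- the module that vanishes at the bottom of the span -/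
def S3 : Sp →o Set F2 := ⟨fun x => {z | z ≠ 0 → x ≠ ⊥}, fun _ _ h _ hz h0 e =>
  hz h0 (le_bot_iff.1 (e ▸ h))⟩

theorem subM_S3 : SubM S3 := by
  refine ⟨fun _ h => absurd rfl h, fun d x y hx hy h e => ?_, fun d x hx h e => ?_,
    fun d r x hx h e => ?_⟩
  · by_cases h0 : x = 0
    · exact hy (by simpa [h0] using h) e
    · exact hx h0 e
  · exact hx (by simpa using h) e
  · exact hx (fun h0 => h (by simp [h0])) e

theorem not_inj {P : ZF.{u} → Prop} (hP : GU P)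
    (h : ∀ {a b e f}, TyM P (fun _ => ∅) (rF (⟨0, ⊥⟩ : Ob Sp)) a →
      TyM P (fun _ => ∅) (rF (⟨0, ⊥⟩ : Ob Sp)) b → Fn a.car b.car e → LinV (rF _) a b e →
      InjV a.car b.car e → Fn a.car (dM (cU Sp F2) _).car f → LinV (rF _) a (dM (cU Sp F2) _) f →
      ∃ g, Fn b.car (dM (cU Sp F2) _).car g ∧ TriV a.car (dM (cU Sp F2) _).car g e f) : False := by
  have hφ : ∀ (y y' : Sp) (z : F2), y ≤ y' → z ∈ S3 y →
      (if y' = .up true then z else 0) = if y = .up true then z else 0 := by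
    rintro y y' z (rfl | rfl) hz
    · have : z = 0 := by
        by_contra h; exact hz h rfl
      simp [this]
    · rfl
  obtain ⟨g, hg, ht⟩ := h (tyM_dM subM_S3 (isTy_dV hP clo_empty (fun _ _ _ h => h.elim) _))
    (tyM_dM (subM_univ (X := F2)) (isTy_dV hP clo_empty (fun _ _ _ h => h.elim) _))
    (fn_dfun (φ := fun _ z => z) (fun _ _ _ _ _ => rfl) (fun _ _ _ => cU_mem _ _) _)
    (lin_dfun subM_S3 subM_univ (fun _ _ _ _ _ => rfl) (fun _ _ _ => cU_mem _ _) (fun _ _ _ => rfl)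
      (fun _ _ _ => rfl) _)
    (fun c' k x y hx hy hc => by
      simp only [dM, dV_res, dfun_res] at hx hy hc ⊢
      obtain ⟨z, hz, rfl⟩ := mem_dV.1 hx
      obtain ⟨z', hz', rfl⟩ := mem_dV.1 hy
      rw [app_dfun (fun _ _ _ _ _ => rfl) hz, app_dfun (fun _ _ _ _ _ => rfl) hz'] at hc
      exact con_kv hz (kv_inj (con_disc hc)))
    (fn_dfun (φ := fun y z => if y = Sp.up true then z else 0) hφ (fun _ _ _ => cU_mem _ _) _)
    (lin_dfun subM_S3 subM_univ hφ (fun _ _ _ => cU_mem _ _)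
      (fun _ _ _ => by split_ifs <;> simp) (fun _ _ _ => by split_ifs <;> simp) _)
  obtain ⟨z, -, hz⟩ := mem_dV.1 (hg.app (kv_mem (cU_mem _ (1 : F2))))
  have key : ∀ p, z = if Sp.up p = .up true then 1 else 0 := by
    intro p
    have h1 : (1 : F2) ∈ S3 (.up p) := fun _ => Sp.up_ne_bot
    have h3 := ht _ (mvU 0 p) (kv _ (1 : F2)) (by simp only [dM, dV_res]; exact kv_mem h1)
    simp only [dM, dV_res, dfun_res] at h3
    rw [app_dfun (S := S3) (fun _ _ _ _ _ => rfl) h1, app_dfun hφ h1,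
      show appV (g.res (mvU 0 p)) (kv _ (1 : F2)) = kv _ z from congrArg (Val.res (mvU 0 p)) hz]
      at h3
    exact kv_inj (con_disc h3)
  have := (key true).symm.trans (key false)
  simp at this

theorem q2_not_der {N N' : ℕ∞} (h1 : N ≤ N') (h2 : 2 ≤ N') (hN : Inacc.{u} N') :
    ¬ ∃ t, Der N [] t t (Q2 0 0 1) := by
  refine not_der (Q := AllRing 0 fun R => AllMod 0 R fun M => Iff' (IsInj 0 R M) (IsInj 1 R M))
    ⟨0, ⊥⟩ clo2 (fun M N hM h2 e ρ h => ?_) h1 h2 hN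
  have g0 := hM.gu 0 (lt_of_lt_of_le (by decide) h2)
  have g1 := hM.gu 1 (lt_of_lt_of_le (by decide) h2)
  have tm : ∀ c, TyM (M.P 0) G2.cls (rF c) (dM (cU Sp F2) c) := fun c => tyM_dM subM_univ
    (isTy_dV g0 clo2 (S := cU Sp F2) (fun _ _ _ _ _ _ => trivial) c)
  obtain ⟨n, ρ', R, A, dR, dA, h⟩ := h.main (hM.bd 0) (tyR_rF g0 (hM.clo 0) _) (e ▸ tm _)
    fun n ρ R A dR dA => tv_inj (hM.bd 0) dR dA (tm _).ty.fb (tm _).laws.1.1
      fun c' k a b e' f => by
        rw [e, rF_res, dM_res]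
        exact inj_small
  refine not_inj g1 fun ta tb => ?_
  rw [← hM.phi 0] at ta tb
  exact h.inj (hM.bd 1) dR dA (tm _).ty.fb (tm _).laws.1.1 ta tb

end Pool.Agent.Lib.MP_5eb18a_lc
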