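import Mathlib

/-!
# Homotopy type theory as a formal system

The rules are those of Appendix A.2 and A.3 of the HoTT book: Russell-style cumulative universes
`U_0 : U_1 : ...`, dependent products (with the uniqueness rule), dependent sums, coproducts, the
empty and unit types, natural numbers and identity types, together with W-types, univalence of
every universe, propositional truncation and set quotients.

* Variables are de Bruijn indices; only `pi`, `lam`, `sigma` and `W` bind a variable (in their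
  second argument).  Motives and methods of eliminators are passed as functions.
* There is one judgment `Der N Γ a b A`, read `Γ ⊢ a ≡ b : A`; the typing judgment `Γ ⊢ a : A` is
  `Der N Γ a a A`.  Every formation, introduction and elimination rule is stated as a congruence
  rule; its diagonal is the usual typing rule.  No validity of the context is required, which
  can only make more judgments derivable.
* `N : ℕ∞` is the number of universes: `U_i` is available for `i < N`.
-/

namespace Pool.Agent.Lib.MP_5eb18a_lc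

universe u

/-- raw terms -/
inductive Tm : Type
  | var (n : ℕ)
  | univ (i : ℕ)
  | pi (A B : Tm)
  | lam (A b : Tm)
  | app (f a : Tm)
  | sigma (A B : Tm)
  | pair (a b : Tm)
  | sigRec (C g p : Tm)
  | sum (A B : Tm)
  | inl (a : Tm)
  | inr (b : Tm)
  | sumRec (C f g t : Tm)
  | empty
  | emptyRec (C t : Tm)
  | unit
  | star
  | unitRec (C c t : Tm)
  | nat
  | zero
  | succ (n : Tm)
  | natRec (C z s n : Tm)
  | id (A a b : Tm)
  | refl (a : Tm)
  | J (C d a b p : Tm)
  | W (A B : Tm)
  | sup (a f : Tm)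
  | wRec (C e w : Tm)
  | trunc (A : Tm)
  | tr (a : Tm)
  | squash (A : Tm)
  | truncRec (C h g t : Tm)
  | quot (A R : Tm)
  | cls (A R a : Tm)
  | clsEq (A R : Tm)
  | quotSet (A R : Tm)
  | quotRec (A R C h g k t : Tm)
  | ua (i : ℕ)
  deriving DecidableEq

noncomputable section

namespace Tm

/-- replace the variable `n` found under `k` binders by `v k n` (structural recursion on the term;
the recursive results are functions of the number of binders passed) -/
def trav (v : ℕ → ℕ → Tm) (k : ℕ) (t : Tm) : Tm :=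
  Tm.rec (motive := fun _ => ℕ → Tm)
    (var := fun n k => v k n)
    (univ := fun i _ => univ i)
    (pi := fun _ _ A B k => pi (A k) (B (k + 1)))
    (lam := fun _ _ A b k => lam (A k) (b (k + 1)))
    (app := fun _ _ f a k => app (f k) (a k))
    (sigma := fun _ _ A B k => sigma (A k) (B (k + 1)))
    (pair := fun _ _ a b k => pair (a k) (b k))
    (sigRec := fun _ _ _ C g p k => sigRec (C k) (g k) (p k))
    (sum := fun _ _ A B k => sum (A k) (B k))
    (inl := fun _ a k => inl (a k))
    (inr := fun _ b k => inr (b k))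
    (sumRec := fun _ _ _ _ C f g t k => sumRec (C k) (f k) (g k) (t k))
    (empty := fun _ => empty)
    (emptyRec := fun _ _ C t k => emptyRec (C k) (t k))
    (unit := fun _ => unit)
    (star := fun _ => star)
    (unitRec := fun _ _ _ C c t k => unitRec (C k) (c k) (t k))
    (nat := fun _ => nat)
    (zero := fun _ => zero)
    (succ := fun _ n k => succ (n k))
    (natRec := fun _ _ _ _ C z s n k => natRec (C k) (z k) (s k) (n k))
    (id := fun _ _ _ A a b k => id (A k) (a k) (b k))
    (refl := fun _ a k => refl (a k))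
    (J := fun _ _ _ _ _ C d a b p k => J (C k) (d k) (a k) (b k) (p k))
    (W := fun _ _ A B k => W (A k) (B (k + 1)))
    (sup := fun _ _ a f k => sup (a k) (f k))
    (wRec := fun _ _ _ C e w k => wRec (C k) (e k) (w k))
    (trunc := fun _ A k => trunc (A k))
    (tr := fun _ a k => tr (a k))
    (squash := fun _ A k => squash (A k))
    (truncRec := fun _ _ _ _ C h g t k => truncRec (C k) (h k) (g k) (t k))
    (quot := fun _ _ A R k => quot (A k) (R k))
    (cls := fun _ _ _ A R a k => cls (A k) (R k) (a k))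
    (clsEq := fun _ _ A R k => clsEq (A k) (R k))
    (quotSet := fun _ _ A R k => quotSet (A k) (R k))
    (quotRec := fun _ _ _ _ _ _ _ A R C h g q t k =>
      quotRec (A k) (R k) (C k) (h k) (g k) (q k) (t k))
    (ua := fun i _ => ua i)
    t k

/-- weakening by `d` new variables -/
def lift (d : ℕ) (t : Tm) : Tm := trav (fun k n => if n < k then var n else var (n + d)) 0 t

/-- simultaneous substitution -/
def sub (σ : ℕ → Tm) (t : Tm) : Tm :=
  trav (fun k n => if n < k then var n else lift k (σ (n - k))) 0 t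

/-- substitute `a` for the last variable -/
def inst (B a : Tm) : Tm := sub (fun n => match n with | 0 => a | n + 1 => var n) B

/-- `A → B` -/
def arr (A B : Tm) : Tm := pi A (lift 1 B)
def app2 (f a b : Tm) : Tm := app (app f a) b
def app3 (f a b c : Tm) : Tm := app (app2 f a b) c

/-- `Π x y : X, x = y` -/
def isProp (X : Tm) : Tm := pi X (pi (lift 1 X) (id (lift 2 X) (var 1) (var 0)))
/-- `Π x y : X, isProp (x = y)` -/
def isSet (X : Tm) : Tm := pi X (pi (lift 1 X) (isProp (id (lift 2 X) (var 1) (var 0))))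
/-- `Σ x : X, Π y : X, x = y` -/
def isContr (X : Tm) : Tm := sigma X (pi (lift 1 X) (id (lift 2 X) (var 1) (var 0)))
/-- `Σ x : A, f x = b` -/
def fib (A B f b : Tm) : Tm := sigma A (id (lift 1 B) (app (lift 1 f) (var 0)) (lift 1 b))
/-- all fibres of `f : A → B` are contractible -/
def isEquiv (A B f : Tm) : Tm := pi B (isContr (fib (lift 1 A) (lift 1 B) (lift 1 f) (var 0)))
/-- `A ≃ B` -/
def equiv (A B : Tm) : Tm := sigma (arr A B) (isEquiv (lift 1 A) (lift 1 B) (var 0))
/-- Univalence of `U_i`: every family of maps `φ : Π A B : U_i, (A = B) → (A ≃ B)` is a family of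
equivalences.  The instance `φ := idtoeqv` is the usual statement (and implies the others). -/
def uaTy (i : ℕ) : Tm :=
  pi (pi (univ i) (pi (univ i) (arr (id (univ i) (var 1) (var 0)) (equiv (var 1) (var 0)))))
    (pi (univ i) (pi (univ i) (isEquiv (id (univ i) (var 1) (var 0)) (equiv (var 1) (var 0))
      (app2 (var 2) (var 1) (var 0)))))

/-- `Π (x : A) (y : B x), C (x, y)` -/
def sigMeth (A B C : Tm) : Tm := pi A (pi B (app (lift 2 C) (pair (var 1) (var 0))))
/-- `Π x : A, C (inl x)` -/
def inlMeth (A C : Tm) : Tm := pi A (app (lift 1 C) (inl (var 0)))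
/-- `Π y : B, C (inr y)` -/
def inrMeth (B C : Tm) : Tm := pi B (app (lift 1 C) (inr (var 0)))
/-- `Π n : ℕ, C n → C (succ n)` -/
def natMeth (C : Tm) : Tm := pi nat (arr (app (lift 1 C) (var 0)) (app (lift 1 C) (succ (var 0))))
/-- `Π x y : A, x = y → U_i` -/
def idMot (A : Tm) (i : ℕ) : Tm := pi A (pi (lift 1 A) (arr (id (lift 2 A) (var 1) (var 0)) (univ i)))
/-- `Π x : A, C x x (refl x)` -/
def idMeth (A C : Tm) : Tm := pi A (app3 (lift 1 C) (var 0) (var 0) (refl (var 0)))
/-- `Π (a : A) (f : B a → W A B), (Π b : B a, C (f b)) → C (sup a f)` -/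
def wMeth (A B C : Tm) : Tm :=
  pi A (pi (arr B (lift 1 (W A B)))
    (arr (pi (lift 1 B) (app (lift 3 C) (app (var 1) (var 0))))
      (app (lift 2 C) (sup (var 1) (var 0)))))
/-- `Π a : A, C |a|` -/
def trMeth (A C : Tm) : Tm := pi A (app (lift 1 C) (tr (var 0)))
/-- `Π a b : A, R a b → [a] = [b]` -/
def clsEqTy (A R : Tm) : Tm :=
  pi A (pi (lift 1 A) (arr (app2 (lift 2 R) (var 1) (var 0))
    (id (lift 2 (quot A R)) (cls (lift 2 A) (lift 2 R) (var 1)) (cls (lift 2 A) (lift 2 R) (var 0)))))
/-- `Π a : A, C [a]` -/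
def clsMeth (A R C : Tm) : Tm := pi A (app (lift 1 C) (cls (lift 1 A) (lift 1 R) (var 0)))
/-- `Π a b : A, R a b → ([a], g a) = ([b], g b)` in `Σ t : A / R, C t` -/
def clsCoh (A R C g : Tm) : Tm :=
  pi A (pi (lift 1 A) (arr (app2 (lift 2 R) (var 1) (var 0))
    (id (lift 2 (sigma (quot A R) (app (lift 1 C) (var 0))))
      (pair (cls (lift 2 A) (lift 2 R) (var 1)) (app (lift 2 g) (var 1)))
      (pair (cls (lift 2 A) (lift 2 R) (var 0)) (app (lift 2 g) (var 0))))))

end Tm

open Tm in
/-- `Der N Γ a b A` is the judgment `Γ ⊢ a ≡ b : A` of HoTT with universes `U_i`, `i < N` -/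
inductive Der (N : ℕ∞) : List Tm → Tm → Tm → Tm → Prop
  -- structural rules
  | var {Γ n A} : Γ[n]? = some A → Der N Γ (var n) (var n) (lift (n + 1) A)
  | weak {Γ a b A B} : Der N Γ a b A → Der N (B :: Γ) (lift 1 a) (lift 1 b) (lift 1 A)
  | subst {Γ Δ σ τ a b A} : Der N Δ a b A →
      (∀ n B, Δ[n]? = some B → Der N Γ (σ n) (τ n) (sub σ (lift (n + 1) B))) →
      (∀ n, Δ[n]? = none → σ n = τ n) → Der N Γ (sub σ a) (sub τ b) (sub σ A)
  | symm {Γ a b A} : Der N Γ a b A → Der N Γ b a A
  | trans {Γ a b c A} : Der N Γ a b A → Der N Γ b c A → Der N Γ a c A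
  | conv {Γ a b A B i} : Der N Γ a b A → Der N Γ A B (univ i) → Der N Γ a b B
  -- universes
  | univ {Γ} {i : ℕ} : ((i + 1 : ℕ) : ℕ∞) < N → Der N Γ (univ i) (univ i) (univ (i + 1))
  | cumul {Γ A B} {i : ℕ} : ((i + 1 : ℕ) : ℕ∞) < N → Der N Γ A B (univ i) →
      Der N Γ A B (univ (i + 1))
  -- dependent products
  | pi {Γ A A' B B' i} : Der N Γ A A' (univ i) → Der N (A :: Γ) B B' (univ i) →
      Der N Γ (pi A B) (pi A' B') (univ i)
  | lam {Γ A A' b b' B i} : Der N Γ A A' (univ i) → Der N (A :: Γ) b b' B →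
      Der N Γ (lam A b) (lam A' b') (pi A B)
  | app {Γ f f' a a' A B} : Der N Γ f f' (pi A B) → Der N Γ a a' A →
      Der N Γ (app f a) (app f' a') (inst B a)
  | beta {Γ a b A B} : Der N (A :: Γ) b b B → Der N Γ a a A →
      Der N Γ (app (lam A b) a) (inst b a) (inst B a)
  | eta {Γ f A B} : Der N Γ f f (pi A B) → Der N Γ f (lam A (app (lift 1 f) (var 0))) (pi A B)
  -- dependent sums
  | sigma {Γ A A' B B' i} : Der N Γ A A' (univ i) → Der N (A :: Γ) B B' (univ i) →
      Der N Γ (sigma A B) (sigma A' B') (univ i)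
  | pair {Γ a a' b b' A B} : Der N Γ a a' A → Der N Γ b b' (inst B a) →
      Der N Γ (pair a b) (pair a' b') (sigma A B)
  | sigRec {Γ A B C C' g g' p p' i} : Der N Γ C C' (arr (sigma A B) (univ i)) →
      Der N Γ g g' (sigMeth A B C) → Der N Γ p p' (sigma A B) →
      Der N Γ (sigRec C g p) (sigRec C' g' p') (app C p)
  | sigBeta {Γ A B C g a b i} : Der N Γ C C (arr (sigma A B) (univ i)) →
      Der N Γ g g (sigMeth A B C) → Der N Γ a a A → Der N Γ b b (inst B a) →
      Der N Γ (sigRec C g (pair a b)) (app2 g a b) (app C (pair a b))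
  -- coproducts
  | sum {Γ A A' B B' i} : Der N Γ A A' (univ i) → Der N Γ B B' (univ i) →
      Der N Γ (sum A B) (sum A' B') (univ i)
  | inl {Γ a a' A B} : Der N Γ a a' A → Der N Γ (inl a) (inl a') (sum A B)
  | inr {Γ b b' A B} : Der N Γ b b' B → Der N Γ (inr b) (inr b') (sum A B)
  | sumRec {Γ A B C C' f f' g g' t t' i} : Der N Γ C C' (arr (sum A B) (univ i)) →
      Der N Γ f f' (inlMeth A C) → Der N Γ g g' (inrMeth B C) → Der N Γ t t' (sum A B) →
      Der N Γ (sumRec C f g t) (sumRec C' f' g' t') (app C t)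
  | sumBetaL {Γ A B C f g a i} : Der N Γ C C (arr (sum A B) (univ i)) →
      Der N Γ f f (inlMeth A C) → Der N Γ g g (inrMeth B C) → Der N Γ a a A →
      Der N Γ (sumRec C f g (inl a)) (app f a) (app C (inl a))
  | sumBetaR {Γ A B C f g b i} : Der N Γ C C (arr (sum A B) (univ i)) →
      Der N Γ f f (inlMeth A C) → Der N Γ g g (inrMeth B C) → Der N Γ b b B →
      Der N Γ (sumRec C f g (inr b)) (app g b) (app C (inr b))
  -- empty type
  | empty {Γ} {i : ℕ} : (i : ℕ∞) < N → Der N Γ empty empty (univ i)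
  | emptyRec {Γ C C' t t' i} : Der N Γ C C' (arr empty (univ i)) → Der N Γ t t' empty →
      Der N Γ (emptyRec C t) (emptyRec C' t') (app C t)
  -- unit type
  | unit {Γ} {i : ℕ} : (i : ℕ∞) < N → Der N Γ unit unit (univ i)
  | star {Γ} : Der N Γ star star unit
  | unitRec {Γ C C' c c' t t' i} : Der N Γ C C' (arr unit (univ i)) → Der N Γ c c' (app C star) →
      Der N Γ t t' unit → Der N Γ (unitRec C c t) (unitRec C' c' t') (app C t)
  | unitBeta {Γ C c i} : Der N Γ C C (arr unit (univ i)) → Der N Γ c c (app C star) →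
      Der N Γ (unitRec C c star) c (app C star)
  -- natural numbers
  | nat {Γ} {i : ℕ} : (i : ℕ∞) < N → Der N Γ nat nat (univ i)
  | zero {Γ} : Der N Γ zero zero nat
  | succ {Γ n n'} : Der N Γ n n' nat → Der N Γ (succ n) (succ n') nat
  | natRec {Γ C C' z z' s s' n n' i} : Der N Γ C C' (arr nat (univ i)) →
      Der N Γ z z' (app C zero) → Der N Γ s s' (natMeth C) → Der N Γ n n' nat →
      Der N Γ (natRec C z s n) (natRec C' z' s' n') (app C n)
  | natBetaZ {Γ C z s i} : Der N Γ C C (arr nat (univ i)) →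
      Der N Γ z z (app C zero) → Der N Γ s s (natMeth C) →
      Der N Γ (natRec C z s zero) z (app C zero)
  | natBetaS {Γ C z s n i} : Der N Γ C C (arr nat (univ i)) →
      Der N Γ z z (app C zero) → Der N Γ s s (natMeth C) → Der N Γ n n nat →
      Der N Γ (natRec C z s (succ n)) (app2 s n (natRec C z s n)) (app C (succ n))
  -- identity types
  | id {Γ A A' a a' b b' i} : Der N Γ A A' (univ i) → Der N Γ a a' A → Der N Γ b b' A →
      Der N Γ (id A a b) (id A' a' b') (univ i)
  | refl {Γ a a' A} : Der N Γ a a' A → Der N Γ (refl a) (refl a') (id A a a)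
  | J {Γ A C C' d d' a a' b b' p p' i} : Der N Γ C C' (idMot A i) → Der N Γ d d' (idMeth A C) →
      Der N Γ a a' A → Der N Γ b b' A → Der N Γ p p' (id A a b) →
      Der N Γ (J C d a b p) (J C' d' a' b' p') (app3 C a b p)
  | JBeta {Γ A C d a i} : Der N Γ C C (idMot A i) → Der N Γ d d (idMeth A C) → Der N Γ a a A →
      Der N Γ (J C d a a (refl a)) (app d a) (app3 C a a (refl a))
  -- W-types
  | W {Γ A A' B B' i} : Der N Γ A A' (univ i) → Der N (A :: Γ) B B' (univ i) →
      Der N Γ (W A B) (W A' B') (univ i)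
  | sup {Γ a a' f f' A B} : Der N Γ a a' A → Der N Γ f f' (arr (inst B a) (W A B)) →
      Der N Γ (sup a f) (sup a' f') (W A B)
  | wRec {Γ A B C C' e e' w w' i} : Der N Γ C C' (arr (W A B) (univ i)) →
      Der N Γ e e' (wMeth A B C) → Der N Γ w w' (W A B) →
      Der N Γ (wRec C e w) (wRec C' e' w') (app C w)
  | wBeta {Γ A B C e a f i} : Der N Γ C C (arr (W A B) (univ i)) →
      Der N Γ e e (wMeth A B C) → Der N Γ a a A → Der N Γ f f (arr (inst B a) (W A B)) →
      Der N Γ (wRec C e (sup a f))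
        (app3 e a f (lam (inst B a) (wRec (lift 1 C) (lift 1 e) (app (lift 1 f) (var 0)))))
        (app C (sup a f))
  -- propositional truncation
  | trunc {Γ A A' i} : Der N Γ A A' (univ i) → Der N Γ (trunc A) (trunc A') (univ i)
  | tr {Γ a a' A} : Der N Γ a a' A → Der N Γ (tr a) (tr a') (trunc A)
  | squash {Γ A A' i} : Der N Γ A A' (univ i) →
      Der N Γ (squash A) (squash A') (isProp (trunc A))
  | truncRec {Γ A C C' h h' g g' t t' i} : Der N Γ C C' (arr (trunc A) (univ i)) →
      Der N Γ h h' (pi (trunc A) (isProp (app (lift 1 C) (var 0)))) →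
      Der N Γ g g' (trMeth A C) → Der N Γ t t' (trunc A) →
      Der N Γ (truncRec C h g t) (truncRec C' h' g' t') (app C t)
  | truncBeta {Γ A C h g a i} : Der N Γ C C (arr (trunc A) (univ i)) →
      Der N Γ h h (pi (trunc A) (isProp (app (lift 1 C) (var 0)))) →
      Der N Γ g g (trMeth A C) → Der N Γ a a A →
      Der N Γ (truncRec C h g (tr a)) (app g a) (app C (tr a))
  -- set quotients
  | quot {Γ A A' R R' i} : Der N Γ A A' (univ i) → Der N Γ R R' (arr A (arr A (univ i))) →
      Der N Γ (quot A R) (quot A' R') (univ i)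
  | cls {Γ A A' R R' a a' i} : Der N Γ A A' (univ i) → Der N Γ R R' (arr A (arr A (univ i))) →
      Der N Γ a a' A → Der N Γ (cls A R a) (cls A' R' a') (quot A R)
  | clsEq {Γ A A' R R' i} : Der N Γ A A' (univ i) → Der N Γ R R' (arr A (arr A (univ i))) →
      Der N Γ (clsEq A R) (clsEq A' R') (clsEqTy A R)
  | quotSet {Γ A A' R R' i} : Der N Γ A A' (univ i) → Der N Γ R R' (arr A (arr A (univ i))) →
      Der N Γ (quotSet A R) (quotSet A' R') (isSet (quot A R))
  | quotRec {Γ A A' R R' C C' h h' g g' k k' t t' i j} : Der N Γ A A' (univ i) →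
      Der N Γ R R' (arr A (arr A (univ i))) → Der N Γ C C' (arr (quot A R) (univ j)) →
      Der N Γ h h' (pi (quot A R) (isSet (app (lift 1 C) (var 0)))) →
      Der N Γ g g' (clsMeth A R C) → Der N Γ k k' (clsCoh A R C g) → Der N Γ t t' (quot A R) →
      Der N Γ (quotRec A R C h g k t) (quotRec A' R' C' h' g' k' t') (app C t)
  | quotBeta {Γ A R C h g k a i j} : Der N Γ A A (univ i) →
      Der N Γ R R (arr A (arr A (univ i))) → Der N Γ C C (arr (quot A R) (univ j)) →
      Der N Γ h h (pi (quot A R) (isSet (app (lift 1 C) (var 0)))) →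
      Der N Γ g g (clsMeth A R C) → Der N Γ k k (clsCoh A R C g) → Der N Γ a a A →
      Der N Γ (quotRec A R C h g k (cls A R a)) (app g a) (app C (cls A R a))
  -- univalence
  | ua {Γ} {i : ℕ} : (i : ℕ∞) < N → Der N Γ (ua i) (ua i) (uaTy i)

/-! ### Rings, modules, projectivity and injectivity inside the theory

A `T` is a term given as a function of the number of variables in scope, so that binders can be
written with functions. -/

abbrev T := ℕ → Tm

/-- the variable bound when `k` variables were in scope -/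
def V (k : ℕ) : T := fun m => .var (m - k - 1)
def U (i : ℕ) : T := fun _ => .univ i
def Pi' (A : T) (B : T → T) : T := fun n => .pi (A n) (B (V n) (n + 1))
def Sg (A : T) (B : T → T) : T := fun n => .sigma (A n) (B (V n) (n + 1))
def Arr' (A B : T) : T := Pi' A fun _ => B
def And' (A B : T) : T := Sg A fun _ => B
def Iff' (A B : T) : T := And' (Arr' A B) (Arr' B A)
def Ap (f a : T) : T := fun n => .app (f n) (a n)
def Ap2 (f a b : T) : T := Ap (Ap f a) b
def Eq' (A a b : T) : T := fun n => .id (A n) (a n) (b n)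
def Mere (A : T) : T := fun n => .trunc (A n)
def IsSet' (A : T) : T := fun n => .isSet (A n)

/-- `(G, zero, add, neg)` is a set with the structure of an abelian group -/
def AbLaws (G zero add neg : T) : T :=
  And' (IsSet' G) <|
  And' (Pi' G fun x => Pi' G fun y => Pi' G fun z =>
    Eq' G (Ap2 add (Ap2 add x y) z) (Ap2 add x (Ap2 add y z))) <|
  And' (Pi' G fun x => Pi' G fun y => Eq' G (Ap2 add x y) (Ap2 add y x)) <|
  And' (Pi' G fun x => Eq' G (Ap2 add zero x) x) <|
  Pi' G fun x => Eq' G (Ap2 add (Ap neg x) x) zero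

structure RingT where
  (car zero one add mul neg : T)

structure ModT where
  (car zero add neg smul : T)

def RingLaws (R : RingT) : T :=
  And' (AbLaws R.car R.zero R.add R.neg) <|
  And' (Pi' R.car fun x => Pi' R.car fun y => Pi' R.car fun z =>
    Eq' R.car (Ap2 R.mul (Ap2 R.mul x y) z) (Ap2 R.mul x (Ap2 R.mul y z))) <|
  And' (Pi' R.car fun x => Eq' R.car (Ap2 R.mul R.one x) x) <|
  And' (Pi' R.car fun x => Eq' R.car (Ap2 R.mul x R.one) x) <|
  And' (Pi' R.car fun x => Pi' R.car fun y => Pi' R.car fun z =>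
    Eq' R.car (Ap2 R.mul x (Ap2 R.add y z)) (Ap2 R.add (Ap2 R.mul x y) (Ap2 R.mul x z))) <|
  Pi' R.car fun x => Pi' R.car fun y => Pi' R.car fun z =>
    Eq' R.car (Ap2 R.mul (Ap2 R.add x y) z) (Ap2 R.add (Ap2 R.mul x z) (Ap2 R.mul y z))

def ModLaws (R : RingT) (M : ModT) : T :=
  And' (AbLaws M.car M.zero M.add M.neg) <|
  And' (Pi' R.car fun r => Pi' M.car fun x => Pi' M.car fun y =>
    Eq' M.car (Ap2 M.smul r (Ap2 M.add x y)) (Ap2 M.add (Ap2 M.smul r x) (Ap2 M.smul r y))) <|
  And' (Pi' R.car fun r => Pi' R.car fun s => Pi' M.car fun x =>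
    Eq' M.car (Ap2 M.smul (Ap2 R.add r s) x) (Ap2 M.add (Ap2 M.smul r x) (Ap2 M.smul s x))) <|
  And' (Pi' R.car fun r => Pi' R.car fun s => Pi' M.car fun x =>
    Eq' M.car (Ap2 M.smul (Ap2 R.mul r s) x) (Ap2 M.smul r (Ap2 M.smul s x))) <|
  Pi' M.car fun x => Eq' M.car (Ap2 M.smul R.one x) x

/-- for every ring in `U_i` -/
def AllRing (i : ℕ) (k : RingT → T) : T :=
  Pi' (U i) fun car => Pi' car fun zero => Pi' car fun one =>
  Pi' (Arr' car (Arr' car car)) fun add => Pi' (Arr' car (Arr' car car)) fun mul =>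
  Pi' (Arr' car car) fun neg =>
  Arr' (RingLaws ⟨car, zero, one, add, mul, neg⟩) (k ⟨car, zero, one, add, mul, neg⟩)

/-- for every left `R`-module with underlying set in `U_i` -/
def AllMod (i : ℕ) (R : RingT) (k : ModT → T) : T :=
  Pi' (U i) fun car => Pi' car fun zero => Pi' (Arr' car (Arr' car car)) fun add =>
  Pi' (Arr' car car) fun neg => Pi' (Arr' R.car (Arr' car car)) fun smul =>
  Arr' (ModLaws R ⟨car, zero, add, neg, smul⟩) (k ⟨car, zero, add, neg, smul⟩)

def IsLin (R : RingT) (A B : ModT) (f : T) : T :=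
  And' (Pi' A.car fun x => Pi' A.car fun y =>
    Eq' B.car (Ap f (Ap2 A.add x y)) (Ap2 B.add (Ap f x) (Ap f y))) <|
  Pi' R.car fun r => Pi' A.car fun x => Eq' B.car (Ap f (Ap2 A.smul r x)) (Ap2 B.smul r (Ap f x))

/-- for every linear map `A → B` -/
def AllLin (R : RingT) (A B : ModT) (k : T → T) : T :=
  Pi' (Arr' A.car B.car) fun f => Arr' (IsLin R A B f) (k f)

/-- there merely exists a linear map `A → B` -/
def ExLin (R : RingT) (A B : ModT) (k : T → T) : T :=
  Mere (Sg (Arr' A.car B.car) fun g => And' (IsLin R A B g) (k g))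

def Surj (A B e : T) : T := Pi' B fun b => Mere (Sg A fun a => Eq' B (Ap e a) b)

def Inj (A B m : T) : T := Pi' A fun x => Pi' A fun y => Arr' (Eq' B (Ap m x) (Ap m y)) (Eq' A x y)

/-- `M` is `U_j`-projective -/
def IsProj (j : ℕ) (R : RingT) (M : ModT) : T :=
  AllMod j R fun A => AllMod j R fun B => AllLin R A B fun e => Arr' (Surj A.car B.car e) <|
  AllLin R M B fun f => ExLin R M A fun g => Pi' M.car fun x => Eq' B.car (Ap e (Ap g x)) (Ap f x)

/-- `M` is `U_j`-injective -/
def IsInj (j : ℕ) (R : RingT) (M : ModT) : T :=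
  AllMod j R fun A => AllMod j R fun B => AllLin R A B fun m => Arr' (Inj A.car B.car m) <|
  AllLin R A M fun f => ExLin R B M fun h => Pi' A.car fun x => Eq' M.car (Ap h (Ap m x)) (Ap f x)

/-- the closed type: for all rings `R` and modules `M` in `U_i`, `M` is `U_j`-projective if and
only if it is `U_k`-projective -/
def Q1 (i j k : ℕ) : Tm :=
  AllRing i (fun R => AllMod i R fun M => Iff' (IsProj j R M) (IsProj k R M)) 0

/-- the same for injectivity -/
def Q2 (i j k : ℕ) : Tm :=
  AllRing i (fun R => AllMod i R fun M => Iff' (IsInj j R M) (IsInj k R M)) 0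

/-- there is an increasing sequence of `N` inaccessible cardinals -/
def Inacc (N : ℕ∞) : Prop :=
  ∃ κ : ℕ → Cardinal.{u}, ∀ i : ℕ, (i : ℕ∞) < N → (κ i).IsInaccessible ∧ ∀ j < i, κ j < κ i

end

end Pool.Agent.Lib.MP_5eb18a_lc
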