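import Pool.Agent.Lib.MP_5eb18a_lc.Ops
import Pool.Agent.Lib.MP_5eb18a_lc.Theory

/-!
Interpretation of raw terms.
-/

namespace Pool.Agent.Lib.MP_5eb18a_lc

universe u v v' v'' w

set_option linter.unusedSectionVars false

open Classical

variable {D : Type} [PartialOrder D] [Countable D] [WellFoundedGT D]

attribute [local irreducible] cset gr ap p1 p2 enc ckey compOp extOp codeF

namespace Tm
theorem trav_univ (v k i) : trav v k (univ i) = univ i := rfl
theorem trav_pi (v k A B) : trav v k (pi A B) =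
    pi (trav v k A) (trav v (k + 1) B) := rfl
theorem trav_lam (v k A b) : trav v k (lam A b) =
    lam (trav v k A) (trav v (k + 1) b) := rfl
theorem trav_app (v k f a) : trav v k (app f a) =
    app (trav v k f) (trav v k a) := rfl
theorem trav_sigma (v k A B) : trav v k (sigma A B) =
    sigma (trav v k A) (trav v (k + 1) B) := rfl
theorem trav_pair (v k a b) : trav v k (pair a b) =
    pair (trav v k a) (trav v k b) := rfl
theorem trav_sigRec (v k C g p) : trav v k (sigRec C g p) =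
    sigRec (trav v k C) (trav v k g) (trav v k p) := rfl
theorem trav_sum (v k A B) : trav v k (sum A B) =
    sum (trav v k A) (trav v k B) := rfl
theorem trav_inl (v k a) : trav v k (inl a) =
    inl (trav v k a) := rfl
theorem trav_inr (v k b) : trav v k (inr b) =
    inr (trav v k b) := rfl
theorem trav_sumRec (v k C f g t) : trav v k (sumRec C f g t) =
    sumRec (trav v k C) (trav v k f) (trav v k g) (trav v k t) := rfl
theorem trav_empty (v k) : trav v k empty = empty := rfl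
theorem trav_emptyRec (v k C t) : trav v k (emptyRec C t) =
    emptyRec (trav v k C) (trav v k t) := rfl
theorem trav_unit (v k) : trav v k unit = unit := rfl
theorem trav_star (v k) : trav v k star = star := rfl
theorem trav_unitRec (v k C c t) : trav v k (unitRec C c t) =
    unitRec (trav v k C) (trav v k c) (trav v k t) := rfl
theorem trav_nat (v k) : trav v k nat = nat := rfl
theorem trav_zero (v k) : trav v k zero = zero := rfl
theorem trav_succ (v k n) : trav v k (succ n) =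
    succ (trav v k n) := rfl
theorem trav_natRec (v k C z s n) : trav v k (natRec C z s n) =
    natRec (trav v k C) (trav v k z) (trav v k s) (trav v k n) := rfl
theorem trav_id (v k A a b) : trav v k (id A a b) =
    id (trav v k A) (trav v k a) (trav v k b) := rfl
theorem trav_refl (v k a) : trav v k (refl a) =
    refl (trav v k a) := rfl
theorem trav_J (v k C d a b p) : trav v k (J C d a b p) =
    J (trav v k C) (trav v k d) (trav v k a) (trav v k b) (trav v k p) := rfl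
theorem trav_W (v k A B) : trav v k (W A B) =
    W (trav v k A) (trav v (k + 1) B) := rfl
theorem trav_sup (v k a f) : trav v k (sup a f) =
    sup (trav v k a) (trav v k f) := rfl
theorem trav_wRec (v k C e w) : trav v k (wRec C e w) =
    wRec (trav v k C) (trav v k e) (trav v k w) := rfl
theorem trav_trunc (v k A) : trav v k (trunc A) =
    trunc (trav v k A) := rfl
theorem trav_tr (v k a) : trav v k (tr a) =
    tr (trav v k a) := rfl
theorem trav_squash (v k A) : trav v k (squash A) =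
    squash (trav v k A) := rfl
theorem trav_truncRec (v k C h g t) : trav v k (truncRec C h g t) =
    truncRec (trav v k C) (trav v k h) (trav v k g) (trav v k t) := rfl
theorem trav_quot (v k A R) : trav v k (quot A R) =
    quot (trav v k A) (trav v k R) := rfl
theorem trav_cls (v k A R a) : trav v k (cls A R a) =
    cls (trav v k A) (trav v k R) (trav v k a) := rfl
theorem trav_clsEq (v k A R) : trav v k (clsEq A R) =
    clsEq (trav v k A) (trav v k R) := rfl
theorem trav_quotSet (v k A R) : trav v k (quotSet A R) =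
    quotSet (trav v k A) (trav v k R) := rfl
theorem trav_quotRec (v k A R C h g q t) : trav v k (quotRec A R C h g q t) =
    quotRec (trav v k A) (trav v k R) (trav v k C) (trav v k h) (trav v k g) (trav v k q) (trav v k t) := rfl
theorem trav_ua (v k i) : trav v k (ua i) = ua i := rfl
end Tm

def resE {c c' : Ob D} (f : Ar c' c) (ρ : ℕ → Vl.{u} c) : ℕ → Vl.{u} c' := fun n => (ρ n).res f

@[simp] theorem resE_apply {c c' : Ob D} (f : Ar c' c) (ρ : ℕ → Vl.{u} c) (n) :
    resE f ρ n = (ρ n).res f := rfl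
@[simp] theorem resE_id {c : Ob D} (ρ : ℕ → Vl.{u} c) : resE (Ar.id c) ρ = ρ := rfl
@[simp] theorem resE_resE {c c' c'' : Ob D} (g : Ar c'' c') (f : Ar c' c) (ρ : ℕ → Vl.{u} c) :
    resE g (resE f ρ) = resE (g.comp f) ρ := rfl

@[reducible] def EnvP (D : Type) [PartialOrder D] : Psh.{u + 1} D where
  obj c := ℕ → Vl.{u} c
  map f ρ := resE f ρ
  map_id _ _ := rfl
  map_comp _ _ _ := rfl

def consV {c : Ob D} (a : Vl.{u} c) (ρ : ℕ → Vl.{u} c) : ℕ → Vl.{u} c
  | 0 => a
  | n + 1 => ρ n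

@[simp] theorem consV_zero {c : Ob D} (a : Vl.{u} c) (ρ) : consV a ρ 0 = a := rfl
@[simp] theorem consV_succ {c : Ob D} (a : Vl.{u} c) (ρ) (n) : consV a ρ (n + 1) = ρ n := rfl

@[simp] theorem consV_res {c c' : Ob D} (f : Ar c' c) (a : Vl.{u} c) (ρ) :
    resE f (consV a ρ) = consV (a.res f) (resE f ρ) := by
  funext n; cases n <;> rfl

def dropE {c : Ob D} (d : ℕ) (ρ : ℕ → Vl.{u} c) : ℕ → Vl.{u} c := fun n => ρ (n + d)

@[simp] theorem dropE_zero {c : Ob D} (ρ : ℕ → Vl.{u} c) : dropE 0 ρ = ρ := rfl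
@[simp] theorem dropE_cons {c : Ob D} (d) (a : Vl.{u} c) (ρ) :
    dropE (d + 1) (consV a ρ) = dropE d ρ := rfl

def consH : Hom ((EnvP.{u} D).prod (VZ.{u} D)) (EnvP.{u} D) :=
  ⟨fun _ p => consV p.2 p.1, fun f p => (consV_res f p.2 p.1).symm⟩

@[simp] theorem consH_app {c : Ob D} (p : ((EnvP.{u} D).prod (VZ.{u} D)).obj c) :
    consH.app c p = consV p.2 p.1 := rfl

def varH (n : ℕ) : Sec.{u} (EnvP.{u} D) := ⟨fun _ ρ => ρ n, fun _ _ => rfl⟩

def singH {L : Psh.{v} D} (a : Sec.{u} L) : Sec.{u} L :=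
  ⟨fun c l => singV (a c l), fun f l => by rw [a.nat]; rfl⟩

structure Mdl (D : Type) [PartialOrder D] where
  P : ℕ → ZF.{u} → Prop
  Φ : ℕ → Cls D

noncomputable def I (M : Mdl.{u} D) : Tm → Sec.{u} (EnvP.{u} D)
  | .var n => varH n
  | .univ i => glob (codeF (uF (M.P i) (M.Φ i) _)) _
  | .pi A B => codeF (piF (ElF (I M A)) (ElF ((I M B).comp consH)))
  | .lam A b => lamH (ElF (I M A)) ((I M b).comp consH)
  | .app f a => Hom.appV (I M f) (I M a)
  | .sigma A B => codeF (sigF (ElF (I M A)) (ElF ((I M B).comp consH)))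
  | .pair a b => Hom.pairV (I M a) (I M b)
  | .sigRec _ g p => Hom.appV (Hom.appV (I M g) (Hom.fstV (I M p))) (Hom.sndV (I M p))
  | .sum A B => sumH.comp ((I M A).mk2 (I M B))
  | .inl a => Hom.pairV (Hom.cst _ (num 0)) (I M a)
  | .inr a => Hom.pairV (Hom.cst _ (num 1)) (I M a)
  | .sumRec _ f g t => sumRecH.comp (((I M f).mk2 (I M g)).mk2 (I M t))
  | .empty => glob (discH ∅) _
  | .emptyRec _ t => I M t
  | .unit => glob (discH {num 0}) _
  | .star => Hom.cst _ (num 0)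
  | .unitRec _ c _ => I M c
  | .nat => glob (discH (Set.range num)) _
  | .zero => Hom.cst _ (num 0)
  | .succ n => singH (I M n)
  | .natRec _ z s n => natRecH.comp (((I M z).mk2 (I M s)).mk2 (I M n))
  | .id A a b => idH.comp (((I M A).mk2 (I M a)).mk2 (I M b))
  | .refl a => (Hom.reflV (Hom.id _)).comp (I M a)
  | .J C d a _ p => jH.comp ((((I M C).mk2 (I M d)).mk2 (I M a)).mk2 (I M p))
  | .W A B => codeF (wF (ElF (I M A)) (ElF ((I M B).comp consH)))
  | .sup a f => Hom.pairV (I M a) (I M f)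
  | .wRec _ e w => wrecH.comp ((I M e).mk2 (I M w))
  | .trunc A => truncH.comp (I M A)
  | .tr a => Hom.pairV (singH (I M a)) (Hom.cst _ ∅)
  | .squash A => pickH.comp (isPropH.comp (truncH.comp (I M A)))
  | .truncRec C _ g t => truncRecH.comp (((I M C).mk2 (I M g)).mk2 (I M t))
  | .quot A R => quotH.comp ((I M A).mk2 (I M R))
  | .cls A R a => (conH clsU).comp (((I M A).mk2 (I M R)).mk2 (I M a))
  | .clsEq A R => pickH.comp (clsEqH.comp ((I M A).mk2 (I M R)))
  | .quotSet A R => pickH.comp (isSetH.comp (quotH.comp ((I M A).mk2 (I M R))))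
  | .quotRec A R C _ g _ t =>
      quotRecH.comp (((((I M A).mk2 (I M R)).mk2 (I M C)).mk2 (I M g)).mk2 (I M t))
  | .ua i => glob (pickH.comp (codeF (uaF (M.P i) (M.Φ i) _))) _

variable (M : Mdl.{u} D)

theorem I_trav (v : ℕ → ℕ → Tm) (H0 : ∀ k, v (k + 1) 0 = .var 0)
    (H1 : ∀ k n c ρ a, I M (v (k + 1) (n + 1)) c (consV a ρ) = I M (v k n) c ρ) (t : Tm) :
    ∀ k c ρ, I M (t.trav v k) c ρ = I M t c fun n => I M (v k n) c ρ := by
  have e1 : ∀ k c c' (f : Ar c' c) ρ, resE f (fun n => I M (v k n) c ρ) =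
      fun n => I M (v k n) c' (resE f ρ) := fun k c c' f ρ => by
    funext n; exact (I M (v k n)).res_app f ρ
  have e2 : ∀ k c ρ a, (fun n => I M (v (k + 1) n) c (consV a ρ)) =
      consV a fun n => I M (v k n) c ρ := fun k c ρ a => by
    funext n
    cases n with
    | zero => rw [H0]; rfl
    | succ n => exact H1 k n c ρ a
  induction t with
  | pi A B ihA ihB =>
    intro k c ρ
    rw [Tm.trav_pi]
    refine codeF_congr fun c' f w => ?_
    dsimp only
    rw [e1]
    refine piF_congr (fun c'' g w => ?_) (fun c'' g a b _ => ?_) _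
    · simp only [ElF_mem, ihA, e1]
    · simp only [ElF_mem, Hom.comp_app, consH_app, ihB, e1, e2]
  | lam A b ihA ihb =>
    intro k c ρ
    rw [Tm.trav_lam]
    refine lamH_congr (fun c'' g w => ?_) fun c'' g a _ => ?_
    · simp only [ElF_mem, ihA, e1]
    · simp only [Hom.comp_app, consH_app, ihb, e1, e2]
  | sigma A B ihA ihB =>
    intro k c ρ
    rw [Tm.trav_sigma]
    refine codeF_congr fun c' f w => ?_
    dsimp only
    rw [e1]
    refine sigF_congr (fun w => ?_) (fun a b _ => ?_) _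
    · simp only [ElF_mem, ihA]
    · simp only [ElF_mem, Hom.comp_app, consH_app, ihB, e2]
  | W A B ihA ihB =>
    intro k c ρ
    rw [Tm.trav_W]
    refine codeF_congr fun c' f w => ?_
    dsimp only
    rw [e1]
    refine wF_congr (fun c'' g w => ?_) (fun c'' g a b _ => ?_) _
    · simp only [ElF_mem, ihA, e1]
    · simp only [ElF_mem, Hom.comp_app, consH_app, ihB, e1, e2]
  | var n => intro k c ρ; rfl
  | _ =>
    intro k c ρ
    simp only [Tm.trav_univ, Tm.trav_app, Tm.trav_pair, Tm.trav_sigRec, Tm.trav_sum, Tm.trav_inl,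
      Tm.trav_inr, Tm.trav_sumRec, Tm.trav_empty, Tm.trav_emptyRec, Tm.trav_unit,
      Tm.trav_star, Tm.trav_unitRec, Tm.trav_nat, Tm.trav_zero, Tm.trav_succ, Tm.trav_natRec,
      Tm.trav_id, Tm.trav_refl, Tm.trav_J, Tm.trav_sup, Tm.trav_wRec, Tm.trav_trunc,
      Tm.trav_tr, Tm.trav_squash, Tm.trav_truncRec, Tm.trav_quot, Tm.trav_cls, Tm.trav_clsEq,
      Tm.trav_quotSet, Tm.trav_quotRec, Tm.trav_ua,
      I, Hom.comp_app, Hom.mk2_app, Hom.appV_app, Hom.pairV_app, Hom.fstV_app,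
      Hom.sndV_app, Hom.cst_app, glob_app, singH, *]

@[simp] theorem I_var (n c ρ) : I M (.var n) c ρ = ρ n := rfl

@[simp] theorem I_lift (d : ℕ) (t : Tm) (c ρ) : I M (t.lift d) c ρ = I M t c (dropE d ρ) := by
  rw [Tm.lift, I_trav]
  · congr 1
  · intro k; simp
  · intro k n c ρ a
    by_cases h : n < k
    · simp [h]
    · simp [h, Nat.add_right_comm n 1 d]

theorem I_sub (σ : ℕ → Tm) (t : Tm) (c ρ) :
    I M (t.sub σ) c ρ = I M t c fun n => I M (σ n) c ρ := by
  rw [Tm.sub, I_trav]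
  · simp
  · intro k; simp
  · intro k n c ρ a
    by_cases h : n < k
    · simp [h]
    · simp [h]

@[simp] theorem I_inst (B a : Tm) (c ρ) :
    I M (B.inst a) c ρ = I M B c (consV (I M a c ρ) ρ) := by
  rw [Tm.inst, I_sub]
  congr 1
  funext n; cases n <;> rfl

@[simp] theorem I_app (f a c ρ) : I M (.app f a) c ρ = appV (I M f c ρ) (I M a c ρ) := rfl
@[simp] theorem I_app2 (f a b c ρ) :
    I M (.app2 f a b) c ρ = appV (appV (I M f c ρ) (I M a c ρ)) (I M b c ρ) := rfl
@[simp] theorem I_app3 (f a b d c ρ) : I M (.app3 f a b d) c ρ =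
    appV (appV (appV (I M f c ρ) (I M a c ρ)) (I M b c ρ)) (I M d c ρ) := rfl
@[simp] theorem I_pair (a b c ρ) : I M (.pair a b) c ρ = pairV (I M a c ρ) (I M b c ρ) := rfl
@[simp] theorem I_sup (a b c ρ) : I M (.sup a b) c ρ = pairV (I M a c ρ) (I M b c ρ) := rfl
@[simp] theorem I_inl (a c ρ) : I M (.inl a) c ρ = pairV (cstV c (num 0)) (I M a c ρ) := rfl
@[simp] theorem I_inr (a c ρ) : I M (.inr a) c ρ = pairV (cstV c (num 1)) (I M a c ρ) := rfl
@[simp] theorem I_star (c ρ) : I M .star c ρ = cstV c (num 0) := rfl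
@[simp] theorem I_zero (c ρ) : I M .zero c ρ = cstV c (num 0) := rfl
@[simp] theorem I_succ (a c ρ) : I M (.succ a) c ρ = singV (I M a c ρ) := rfl
@[simp] theorem I_refl (a c ρ) : I M (.refl a) c ρ = rfV (I M a c ρ) := rfl
@[simp] theorem I_id (A a b c ρ) :
    I M (.id A a b) c ρ = idH c ((I M A c ρ, I M a c ρ), I M b c ρ) := rfl
@[simp] theorem I_tr (a c ρ) : I M (.tr a) c ρ = pairV (singV (I M a c ρ)) (cstV c ∅) := rfl
@[simp] theorem I_cls (A R a c ρ) :
    I M (.cls A R a) c ρ = conH clsU c ((I M A c ρ, I M R c ρ), I M a c ρ) := rfl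
@[simp] theorem I_trunc (A c ρ) : I M (.trunc A) c ρ = truncH c (I M A c ρ) := rfl
@[simp] theorem I_quot (A R c ρ) : I M (.quot A R) c ρ = quotH c (I M A c ρ, I M R c ρ) := rfl

theorem I_res (t : Tm) {c c' : Ob D} (f : Ar c' c) (ρ) :
    Val.res f (I M t c ρ) = I M t c' (resE f ρ) := (I M t).res_app f ρ

variable {M}

theorem mem_pi {A B c ρ v} : v ∈ El (I M (.pi A B) c ρ) ↔
    (piF (ElF (I M A)) (ElF ((I M B).comp consH))).mem c (ρ, v) :=
  mem_codeF ((ElF_bd _).pi (ElF_bd _))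

theorem mem_sigma {A B c ρ v} : v ∈ El (I M (.sigma A B) c ρ) ↔
    (sigF (ElF (I M A)) (ElF ((I M B).comp consH))).mem c (ρ, v) :=
  mem_codeF ((ElF_bd _).sig (ElF_bd _))

theorem mem_W {A B c ρ v} : v ∈ El (I M (.W A B) c ρ) ↔
    (wF (ElF (I M A)) (ElF ((I M B).comp consH))).mem c (ρ, v) :=
  mem_codeF ((ElF_bd _).w (ElF_bd _))

theorem pi_app {A B c ρ v a} (h : v ∈ El (I M (.pi A B) c ρ)) (ha : a ∈ El (I M A c ρ)) :
    appV v a ∈ El (I M B c (consV a ρ)) := piF_app (mem_pi.1 h) ha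

theorem arr_app {A B c ρ v a} (h : v ∈ El (I M (.arr A B) c ρ)) (ha : a ∈ El (I M A c ρ)) :
    appV v a ∈ El (I M B c ρ) := by simpa using pi_app h ha

theorem pair_mem {A B c ρ a b} : pairV a b ∈ El (I M (.sigma A B) c ρ) ↔
    a ∈ El (I M A c ρ) ∧ b ∈ El (I M B c (consV a ρ)) := mem_sigma.trans sigF_pair

theorem sigma_elim {A B c ρ v} (h : v ∈ El (I M (.sigma A B) c ρ)) :
    v = pairV (fstV v) (sndV v) ∧ fstV v ∈ El (I M A c ρ) ∧
      sndV v ∈ El (I M B c (consV (fstV v) ρ)) := sigF_iff.1 (mem_sigma.1 h)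

section iffs
variable {L : Psh.{v} D} {X : Fm.{u} L} {c : Ob D} {ρ : (EnvP.{u} D).obj c} {l : L.obj c}

theorem mem_pi_iff {A B : Tm} {Y : Fm.{u} (L.prod (VZ.{u} D))}
    (hA : ∀ c' (f : Ar c' c) v, v ∈ El (I M A c' (resE f ρ)) ↔ X c' (L.map f l, v))
    (hB : ∀ c' (f : Ar c' c) a v, X c' (L.map f l, a) →
      (v ∈ El (I M B c' (consV a (resE f ρ))) ↔ Y c' ((L.map f l, a), v))) (v) :
    v ∈ El (I M (.pi A B) c ρ) ↔ (piF X Y).mem c (l, v) :=
  mem_pi.trans (piF_congr hA (fun c' f a b ha => hB c' f a b ((hA c' f a).1 ha)) v)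

theorem mem_sigma_iff {A B : Tm} {Y : Fm.{u} (L.prod (VZ.{u} D))}
    (hA : ∀ v, v ∈ El (I M A c ρ) ↔ X c (l, v))
    (hB : ∀ a v, X c (l, a) → (v ∈ El (I M B c (consV a ρ)) ↔ Y c ((l, a), v))) (v) :
    v ∈ El (I M (.sigma A B) c ρ) ↔ (sigF X Y).mem c (l, v) :=
  mem_sigma.trans (sigF_congr hA (fun a b ha => hB a b ((hA a).1 ha)) v)

theorem mem_id_iff {A a b : Tm} {x y}
    (hA : ∀ c' (f : Ar c' c) v, v ∈ El (I M A c' (resE f ρ)) ↔ X c' (L.map f l, v))
    (ha : I M a c ρ = x) (hb : I M b c ρ = y) (v) :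
    v ∈ El (I M (.id A a b) c ρ) ↔ (pathU X).mem c (((l, x), y), v) := by
  rw [I_id, mem_idH, ← pathU_ElF, ha, hb]
  exact pathU_congr hA _ _ _

theorem mem_isProp {A : Tm}
    (hA : ∀ c' (f : Ar c' c) v, v ∈ El (I M A c' (resE f ρ)) ↔ X c' (L.map f l, v)) (v) :
    v ∈ El (I M A.isProp c ρ) ↔ (isPropF X).mem c (l, v) := by
  refine mem_pi_iff hA (fun c1 f a v _ => mem_pi_iff (fun c2 g v => ?_) (fun c2 g b v _ => ?_) _) _
  · simpa using hA c2 (g.comp f) v
  · refine mem_id_iff (fun c3 k v => ?_) ?_ ?_ _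
    · simpa using hA c3 (k.comp (g.comp f)) v
    · rfl
    · rfl

theorem mem_isSet {A : Tm}
    (hA : ∀ c' (f : Ar c' c) v, v ∈ El (I M A c' (resE f ρ)) ↔ X c' (L.map f l, v)) (v) :
    v ∈ El (I M A.isSet c ρ) ↔ (isSetF X).mem c (l, v) := by
  refine mem_pi_iff hA (fun c1 f a v _ => mem_pi_iff (fun c2 g v => ?_) (fun c2 g b v _ => ?_) _) _
  · simpa using hA c2 (g.comp f) v
  · refine mem_isProp (fun c3 k v => ?_) _
    refine mem_id_iff (fun c4 k' v => ?_) ?_ ?_ _
    · simpa using hA c4 (k'.comp (k.comp (g.comp f))) v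
    · rfl
    · rfl

theorem mem_isContr {A : Tm}
    (hA : ∀ c' (f : Ar c' c) v, v ∈ El (I M A c' (resE f ρ)) ↔ X c' (L.map f l, v)) (v) :
    v ∈ El (I M A.isContr c ρ) ↔ (isContrF X).mem c (l, v) := by
  refine mem_sigma_iff (fun v => by simpa using hA c (Ar.id c) v)
    (fun a v _ => mem_pi_iff (fun c2 g v => ?_) (fun c2 g b v _ => ?_) _) _
  · simpa using hA c2 g v
  · refine mem_id_iff (X := X) (fun c3 k v => ?_) ?_ ?_ _
    · simpa using hA c3 (k.comp g) v
    · rfl
    · rfl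

theorem mem_isEquiv {A B F : Tm} {Y : Fm.{u} L} {τ : Sec.{u} (L.prod (VZ.{u} D))}
    (hA : ∀ c' (f : Ar c' c) v, v ∈ El (I M A c' (resE f ρ)) ↔ X c' (L.map f l, v))
    (hB : ∀ c' (f : Ar c' c) v, v ∈ El (I M B c' (resE f ρ)) ↔ Y c' (L.map f l, v))
    (hF : ∀ c' (f : Ar c' c) v, appV (I M F c' (resE f ρ)) v = τ c' (L.map f l, v)) (v) :
    v ∈ El (I M (.isEquiv A B F) c ρ) ↔ (isEquivF X Y τ).mem c (l, v) := by
  refine mem_pi_iff hB (fun c1 f b v _ => mem_isContr (fun c2 g v => ?_) _) _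
  refine mem_sigma_iff (fun v => ?_) (fun a v _ => ?_) _
  · simpa using hA c2 (g.comp f) v
  · refine mem_id_iff (X := Y) (l := L.map (g.comp f) l) (x := τ c2 (L.map (g.comp f) l, a))
      (y := b.res g) (fun c3 k v => ?_) ?_ ?_ _ |>.trans ?_
    · simpa using hB c3 (k.comp (g.comp f)) v
    · simpa using hF c2 (g.comp f) a
    · simp
    · rw [pathU_iff]
      simp [pathF]

theorem mem_equiv {A B : Tm} {Y : Fm.{u} L}
    (hA : ∀ c' (f : Ar c' c) v, v ∈ El (I M A c' (resE f ρ)) ↔ X c' (L.map f l, v))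
    (hB : ∀ c' (f : Ar c' c) v, v ∈ El (I M B c' (resE f ρ)) ↔ Y c' (L.map f l, v)) (v) :
    v ∈ El (I M (.equiv A B) c ρ) ↔ (equivF X Y).mem c (l, v) := by
  refine mem_sigma_iff (fun v => mem_pi_iff hA (fun c1 f a v _ => ?_) _) (fun F v _ => ?_) _
  · simpa using hB c1 f v
  · refine mem_isEquiv (fun c1 f v => ?_) (fun c1 f v => ?_) (fun c1 f v => ?_) _
    · simpa using hA c1 f v
    · simpa using hB c1 f v
    · rfl

theorem mem_univ {i : ℕ} (h : SB PT {z | M.P i z}) {T} :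
    T ∈ El (I M (.univ i) c ρ) ↔ IsTy (M.P i) (M.Φ i) T :=
  mem_codeF (A := uF (M.P i) (M.Φ i) (One D)) (sm_u gu_top h _ _)

theorem mem_uaTy {i : ℕ} (h : SB PT {z | M.P i z}) (v) :
    v ∈ El (I M (.uaTy i) c ρ) ↔ (uaF (M.P i) (M.Φ i) L).mem c (l, v) := by
  refine mem_pi_iff (fun c1 f v => ?_) (fun c1 f φ v _ => ?_) _
  · refine mem_pi_iff (fun _ _ _ => mem_univ h) (fun c2 g A v _ => ?_) _
    refine mem_pi_iff (fun _ _ _ => mem_univ h) (fun c3 k B v _ => ?_) _
    refine mem_pi_iff (fun c4 k' v => ?_) (fun c4 k' p v _ => ?_) _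
    · exact mem_id_iff (fun _ _ _ => mem_univ h) rfl rfl _
    · rw [I_lift, dropE_cons, dropE_zero]
      exact (mem_equiv (fun _ _ _ => Iff.rfl) (fun _ _ _ => Iff.rfl) _)
  · refine mem_pi_iff (fun _ _ _ => mem_univ h) (fun c2 g A v _ => ?_) _
    refine mem_pi_iff (fun _ _ _ => mem_univ h) (fun c3 k B v _ => ?_) _
    refine mem_isEquiv (fun c4 k' v => ?_) (fun c4 k' v => ?_) (fun c4 k' v => ?_) _
    · exact mem_id_iff (fun _ _ _ => mem_univ h) rfl rfl _
    · exact (mem_equiv (fun _ _ _ => Iff.rfl) (fun _ _ _ => Iff.rfl) _)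
    · rfl

end iffs

end Pool.Agent.Lib.MP_5eb18a_lc
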