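import Pool.Agent.Lib.MP_5eb18a_lc.Alg3

/-!
Models from inaccessible cardinals; generated classes of sieves.
-/

namespace Pool.Agent.Lib.MP_5eb18a_lc

universe u v v' v'' w

set_option linter.unusedSectionVars false

open Classical

theorem Inacc.mono {N N' : ℕ∞} (hN : N ≤ N') (h : Inacc.{u} N') : Inacc.{u} N :=
  let ⟨κ, h⟩ := h; ⟨κ, fun i hi => h i (hi.trans_le hN)⟩

theorem inacc_zero : Inacc.{u} (0 : ℕ) := ⟨fun _ => 0, fun i hi => absurd hi (by simp)⟩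

theorem inacc_succ {n : ℕ} (h : Inacc.{u} n) : Inacc.{u + 1} (n + 1 : ℕ) := by
  obtain ⟨κ, h⟩ := h
  refine ⟨fun i => if i < n then Cardinal.lift.{u + 1} (κ i) else Cardinal.univ.{u, u + 1},
    fun i hi => ?_⟩
  have hi' : i < n + 1 := by exact_mod_cast hi
  by_cases hn : i < n
  · obtain ⟨h1, h2⟩ := h i (by exact_mod_cast hn)
    simp only [if_pos hn]
    refine ⟨?_, fun j hj => ?_⟩
    · rw [Cardinal.isInaccessible_def] at h1 ⊢
      refine ⟨Cardinal.aleph0_lt_lift.2 h1.1, Cardinal.isRegular_lift_iff.2 h1.2.1,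
        by simpa using h1.2.2.1, fun x hx => ?_⟩
      obtain ⟨y, rfl⟩ := Cardinal.mem_range_lift_of_le hx.le
      rw [← Cardinal.lift_two_power, Cardinal.lift_lt]
      exact h1.2.2.2 (Cardinal.lift_lt.1 hx)
    · rw [if_pos (hj.trans hn)]
      exact Cardinal.lift_lt.2 (h2 j hj)
  · simp only [if_neg hn]
    refine ⟨Cardinal.IsInaccessible.univ, fun j hj => ?_⟩
    rw [if_pos (by omega)]
    exact Cardinal.lift_lt_univ _

variable {D : Type} [PartialOrder D] [Countable D] [WellFoundedGT D]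

attribute [local irreducible] cset gr ap p1 p2 enc ckey compOp extOp codeF

theorem exists_model {N : ℕ∞} (h : Inacc.{u} N) {Φ : Cls D} (hΦ : Clo.{u} Φ) :
    ∃ M : Mdl.{u} D, M.Valid N ∧ M.Φ 0 = Φ := by
  obtain ⟨κ, h⟩ := h
  have gu : ∀ i : ℕ, (i : ℕ∞) < N → GU fun z : ZF.{u} => (i : ℕ∞) < N ∧ z.rank < (κ i).ord :=
    fun i hi => by simpa [hi] using gu_rank (h i hi).1
  refine ⟨⟨fun i z => (i : ℕ∞) < N ∧ z.rank < (κ i).ord, fun i => Nat.casesOn i Φ fun _ _ => ∅⟩,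
    ⟨gu, fun i z hz => gu i hz.1, fun i => ⟨ZFSet.vonNeumann (κ i).ord, trivial, fun z hz =>
      ZFSet.mem_vonNeumann.2 hz.2⟩, fun i hi => ⟨ZFSet.vonNeumann (κ i).ord, ⟨hi, ?_⟩,
      fun z hz => ZFSet.mem_vonNeumann.2 hz.2⟩, ?_, fun _ => rfl⟩, rfl⟩
  · rw [ZFSet.rank_vonNeumann]
    exact Cardinal.ord_lt_ord.2 ((h _ hi).2 i (Nat.lt_succ_self i))
  · rintro (_ | i)
    · exact hΦ
    · exact clo_empty

theorem Mdl.Valid.mono {M : Mdl.{u} D} {N N' : ℕ∞} (h : M.Valid N') (hN : N ≤ N') : M.Valid N :=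
  ⟨fun i hi => h.gu i (hi.trans_le hN), h.gu', h.bd, fun i hi => h.sb i (hi.trans_le hN), h.clo,
    h.phi⟩

/-- it suffices to refute the statement in every model with at least two universes -/
theorem not_der {Q : T} {Φ : Cls D} (c : Ob D) (hΦ : Clo.{u} Φ)
    (h : ∀ (M : Mdl.{u} D) (N : ℕ∞), M.Valid N → 2 ≤ N → M.Φ 0 = Φ → ∀ ρ, ¬ Inh M Q ⟨0, c, ρ⟩)
    {N N' : ℕ∞} (h1 : N ≤ N') (h2 : 2 ≤ N') (hN : Inacc.{u} N') : ¬ ∃ t, Der N [] t t (Q 0) := by
  rintro ⟨t, ht⟩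
  obtain ⟨M, hM, e⟩ := exists_model hN hΦ
  exact h M N' hM h2 e (fun _ => cstV c ∅)
    ⟨_, (sound (hM.mono h1) ht c _ fun n A hA => by simp at hA).2⟩

def mv (n : ℕ) {x y : D} (h : x ≤ y) : Ar (⟨n, y⟩ : Ob D) ⟨n, x⟩ := ⟨fun i => i, monotone_id, h⟩

theorem mv_inj (n : ℕ) {x y : D} (h : x ≤ y) (c' : Ob D) (f g : Ar c' ⟨n, y⟩)
    (e : f.comp (mv n h) = g.comp (mv n h)) : f = g :=
  Ar.ext (congrArg (fun k : Ar c' ⟨n, x⟩ => k.f) e)

/-! ### classes of sieves with generators -/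

abbrev Gen (D : Type) [PartialOrder D] := ∀ {c1 c0 : Ob D}, Ar c1 c0 → Sub (yo c0) → Prop

def Gen.cls (G : Gen D) : Cls D := fun c0 => {φ | ∃ (c1 : Ob D) (m : Ar c1 c0), G m φ}

def PiStep (G : Gen D) : Prop :=
  ∀ {c0 : Ob D} {A : Fm.{u} (yo c0)} {C : Fm.{u} ((yo c0).prod (VZ.{u} D))},
    FibOn A (Sub.top _) → GoodOn G.cls A (Sub.top _) → FibOn C ((Sub.top _).ext' A) →
    ∀ {c1 : Ob D} (m : Ar c1 c0) (φ : Sub (yo c0)), G m φ →
    ∀ s : Sec.{u} ((yo c0).prod (VZ.{u} D)), (∀ c p, φ c p.1 → A c p → C c (p, s c p)) →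
    (∀ c' p, A c' p → ∀ c1' (m' : Ar c1' c') φ', G m' φ' →
      (∃ f' : Ar c1' c1, m'.comp p.1 = f'.comp m) →
      ∀ t : Sec.{u} (yo c'), t c1' m' = s c1' (m'.comp p.1, p.2.res m') →
      (∀ c'' g, φ' c'' g → C c'' ((g.comp p.1, p.2.res g), t c'' g)) →
      ∃ t' : Sec.{u} (yo c'), (∀ c'' g, φ' c'' g → t' c'' g = t c'' g) ∧
        ∀ c'' g, C c'' ((g.comp p.1, p.2.res g), t' c'' g)) →
    ∃ t : Sec.{u} ((yo c0).prod (VZ.{u} D)), (∀ c p, φ c p.1 → A c p → t c p = s c p) ∧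
      ∀ c p, A c p → C c (p, t c p)

variable {L : Psh.{v} D} {G : Gen D}

theorem PiStep.ext (hG : PiStep.{u} G) {A : Fm.{u} L} {B : Fm.{u} (L.prod (VZ.{u} D))}
    {P : Sub L} (hb : A.Bd) (fA : FibOn A P) (gA : GoodOn G.cls A P) (fB : FibOn B (P.ext' A))
    {c0 c1 : Ob D} {l : L.obj c0} (hl : P c0 l) (m : Ar c1 c0) (φ : Sub (yo c0)) (hφ : G m φ)
    (s : Sec.{u} (yo c0)) (hs : ∀ c f, φ c f → (piF A B).mem c (L.map f l, s c f))
    (H : ∀ c' (f : Ar c' c0) a, A c' (L.map f l, a) → ∀ c1' (m' : Ar c1' c') φ', G m' φ' →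
      (∃ f' : Ar c1' c1, m'.comp f = f'.comp m) → ∀ t : Sec.{u} (yo c'),
      t c1' m' = appV (s c1' (m'.comp f)) (a.res m') →
      (∀ c'' g, φ' c'' g → B c'' ((L.map (g.comp f) l, a.res g), t c'' g)) →
      ∃ t' : Sec.{u} (yo c'), (∀ c'' g, φ' c'' g → t' c'' g = t c'' g) ∧
        ∀ c'' g, B c'' ((L.map (g.comp f) l, a.res g), t' c'' g)) :
    ∃ t : Sec.{u} (yo c0), (∀ c f, φ c f → t c f = s c f) ∧
      ∀ c f, (piF A B).mem c (L.map f l, t c f) := by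
  have hs' : ∀ c f, φ c f → (Sub.top _).mem c f → (piF (A.pull (yon l))
      (B.pull (((yon l).comp Hom.fst).mk2 Hom.snd))).mem c (f, s c f) := fun c f h _ => by
    rw [← piF_pull]; exact hs c f h
  obtain ⟨t, h1, h2⟩ := hG (A := A.pull (yon l)) (C := B.pull (((yon l).comp Hom.fst).mk2 Hom.snd))
    (fA.pull _ fun _ f _ => P.cl f hl) (gA.pull _ fun _ f _ => P.cl f hl)
    (fB.pull _ fun _ p h => ⟨P.cl p.1 hl, h.2⟩) m φ hφ ((s.comp Hom.fst).appV Hom.snd)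
    (fun c p h h' => piF_app (hs' c p.1 h trivial) h') fun c' p h => H c' p.1 p.2 h
  obtain ⟨t', h3, h4⟩ := ext_pi (hb.pull (yon l)) s hs'
    ⟨t, fun c p h h' => h1 c p h h'.2, fun c p h => h2 c p h.2⟩
  refine ⟨t', fun c f h => h3 c f h trivial, fun c f => ?_⟩
  have := h4 c f trivial
  rw [← piF_pull] at this
  exact this

theorem PiStep.pi (hG : PiStep.{u} G) {A : Fm.{u} L} {B : Fm.{u} (L.prod (VZ.{u} D))}
    {P : Sub L} (hb : A.Bd) (fA : FibOn A P) (gA : GoodOn G.cls A P) (fB : FibOn B (P.ext' A))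
    (gB : GoodOn G.cls B (P.ext' A)) : GoodOn G.cls (piF A B) P := by
  rintro c0 l hl φ ⟨c1, m, hφ⟩ s hs
  obtain ⟨t, h1, h2⟩ := hG.ext hb fA gA fB hl m φ hφ s (fun c f h => hs c f h trivial)
    fun c' f a ha c1' m' φ' h' _ t _ ht => by
      obtain ⟨t', h1, h2⟩ := gB c' (L.map f l, a) ⟨P.cl f hl, ha⟩ φ' ⟨_, m', h'⟩ t
        fun c'' g h _ => by simpa using ht c'' g h
      exact ⟨t', fun c'' g h => h1 c'' g h trivial, fun c'' g => by simpa using h2 c'' g trivial⟩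
  exact ⟨t, fun c f h _ => h1 c f h, fun c f _ => h2 c f⟩

theorem PiStep.w (hG : PiStep.{u} G) (hm : ∀ {c1 c0} (m : Ar c1 c0) φ, G m φ → φ c1 m)
    {A : Fm.{u} L} {B : Fm.{u} (L.prod (VZ.{u} D))}
    {P : Sub L} (hb : B.Bd) (fA : FibOn A P) (gA : GoodOn G.cls A P) (fB : FibOn B (P.ext' A))
    (gB : GoodOn G.cls B (P.ext' A)) : GoodOn G.cls (wF A B) P := by
  have key : ∀ c1 l1 w, WMem A B c1 l1 w → ∀ c0 (l : L.obj c0) (m : Ar c1 c0) φ, P c0 l → G m φ →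
      l1 = L.map m l → ∀ s : Sec.{u} (yo c0), s c1 m = w →
      (∀ c f, φ c f → (wF A B).mem c (L.map f l, s c f)) →
      ∃ t : Sec.{u} (yo c0), (∀ c f, φ c f → t c f = s c f) ∧
        ∀ c f, (wF A B).mem c (L.map f l, t c f) := by
    intro c1 l1 w h
    induction h with
    | mk c1 l1 a1 F1 h1 h2 h3 ih =>
      rintro c0 l m φ hl hφ rfl s e hs
      have hs' := fun c f h => sigF_iff.1 (wF_iff.1 (hs c f h))
      obtain ⟨a, ha, ha'⟩ := gA c0 l hl φ ⟨_, m, hφ⟩ s.fstV fun c f h _ => (hs' c f h).2.1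
      have e1 : ∀ c' (f : Ar c' c0), (a c0 (Ar.id c0)).res f = a c' f := fun c' f => a.res_app f _
      have ha0 : A c0 (l, a c0 (Ar.id c0)) := by simpa using ha' c0 (Ar.id c0) trivial
      obtain ⟨F, hF, hF'⟩ := hG.ext (L := L.prod (VZ.{u} D)) (A := B)
        (B := (wF A B).pull (Hom.fst.comp Hom.fst)) (P := P.ext' A) hb fB gB
        ((fib_w hb fA fB).pull _ fun _ _ h => h.1.1) (l := (l, a c0 (Ar.id c0))) ⟨hl, ha0⟩ m φ hφ
        s.sndV (fun c f h => by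
          have := (hs' c f h).2.2
          rw [← show a c f = fstV (s c f) from ha c f h trivial, ← e1] at this
          exact this) (by
          rintro c' f b hb' c1' m' φ' h' ⟨f', e'⟩ t et ht
          have e2 : s c1' (m'.comp f) = pairV (a1.res f') (F1.res f') := by
            rw [e', ← show _ = s c1' (f'.comp m) from s.res_app f' m, e]; rfl
          have e3 : a c1' (m'.comp f) = a1.res f' := by
            rw [ha c1' _ (e' ▸ φ.cl f' (hm m φ hφ)) trivial, Hom.fstV_app, e2, fstV_pairV]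
          have hb2 : B c1' ((L.map m' (L.map f l), (a c0 (Ar.id c0)).res (m'.comp f)), b.res m') :=
            B.cl' m' hb'
          rw [L.map_comp, e1, e3] at hb2
          obtain ⟨t', h4, h5⟩ := ih c1' f' (b.res m') (by rw [L.map_comp, ← e']; exact hb2) c'
            (L.map f l) m' φ' (P.cl f hl) h' (by rw [L.map_comp, L.map_comp, e']) t
            (by rw [et, Hom.sndV_app, e2, sndV_pairV]) fun c g h => by simpa using ht c g h
          exact ⟨t', h4, fun c g => by simpa using h5 c g⟩)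
      refine ⟨a.pairV F, fun c f h => ?_, fun c f => ?_⟩
      · rw [Hom.pairV_app, ha c f h trivial, hF c f h]
        exact (hs' c f h).1.symm
      · refine wF_iff.2 (sigF_pair.2 ⟨ha' c f trivial, ?_⟩)
        have := hF' c f
        rw [← e1]
        exact this
  rintro c0 l hl φ ⟨c1, m, hφ⟩ s hs
  obtain ⟨t, h1, h2⟩ := key c1 _ _ (hs c1 m (hm m φ hφ) trivial) c0 l m φ hl hφ rfl s rfl
    fun c f h => hs c f h trivial
  exact ⟨t, fun c f h _ => h1 c f h, fun c f _ => h2 c f⟩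

end Pool.Agent.Lib.MP_5eb18a_lc
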