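import Pool.Agent.Lib.MP_5eb18a_lc.Quot

/-!
Uniform operations on values used to interpret the theory.
-/

namespace Pool.Agent.Lib.MP_5eb18a_lc

universe u v v' v'' w

set_option linter.unusedSectionVars false

open Classical

variable {D : Type} [PartialOrder D] [Countable D] [WellFoundedGT D]
variable {L : Psh.{v} D} {L' : Psh.{v'} D} {L'' : Psh.{v''} D}

attribute [local irreducible] cset gr ap p1 p2 enc ckey compOp extOp codeF

@[reducible] def One (D : Type) [PartialOrder D] : Psh.{u + 1} D where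
  obj _ := PUnit
  map _ p := p
  map_id _ _ := rfl
  map_comp _ _ _ := rfl

def glob (s : Sec.{u} (One.{u} D)) (L : Psh.{v} D) : Sec.{u} L :=
  ⟨fun c _ => s c PUnit.unit, fun f _ => s.nat f PUnit.unit⟩

@[simp] theorem glob_app (s : Sec.{u} (One.{u} D)) (c) (l : L.obj c) :
    (glob s L).app c l = s c PUnit.unit := rfl

/-- closure properties of a class of sieves -/
structure Clo (Φ : Cls D) : Prop where
  pi : ∀ {L : Psh.{u + 1} D} {A : Fm.{u} L} {B : Fm.{u} (L.prod (VZ.{u} D))} {P : Sub L}, A.Bd →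
    FibOn A P → GoodOn Φ A P → FibOn B (P.ext' A) → GoodOn Φ B (P.ext' A) → GoodOn Φ (piF A B) P
  path : ∀ {L : Psh.{u + 1} D} {A : Fm.{u} L} {a b : Sec.{u} L} {P : Sub L}, GoodOn Φ A P →
    (∀ c l, P c l → A c (l, a c l)) → (∀ c l, P c l → A c (l, b c l)) → GoodOn Φ (pathF A a b) P
  w : ∀ {L : Psh.{u + 1} D} {A : Fm.{u} L} {B : Fm.{u} (L.prod (VZ.{u} D))} {P : Sub L}, B.Bd →
    FibOn A P → GoodOn Φ A P → FibOn B (P.ext' A) → GoodOn Φ B (P.ext' A) → GoodOn Φ (wF A B) P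
  base : ∀ c, ∀ φ ∈ Φ c, ∃ (c0 : Ob D) (m : Ar c0 c), φ c0 m ∧
    (∀ c' (f g : Ar c' c0), f.comp m = g.comp m → f = g) ∧ (yon (L := yo c) m).im ∈ Φ c ∧
    ∀ c' f, φ c' f → (yon (L := yo c) m).im.mem c' f ∨
      ∃ (c1 : Ob D) (f1 : Ar c1 c) (g : Ar c' c1) (c2 : Ob D) (m1 : Ar c2 c1), f = g.comp f1 ∧
        φ c1 f1 ∧ (∀ c' (f g : Ar c' c2), f.comp m1 = g.comp m1 → f = g) ∧
        (yon (L := yo c1) m1).im ∈ Φ c1 ∧ (yon (L := yo c) m).im.mem c2 (m1.comp f1)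

theorem clo_empty : Clo.{u} (fun _ => ∅ : Cls D) :=
  ⟨fun _ _ _ _ _ _ _ _ _ h => h.elim, fun _ _ _ _ _ _ _ h => h.elim,
    fun _ _ _ _ _ _ _ _ _ h => h.elim, fun _ _ h => h.elim⟩

theorem good_cov {Φ : Cls D} (hΦ : Clo.{u} Φ) {S : Fm.{u} L} {P : Sub L}
    (h1 : ∀ c l c0 (m : Ar c0 c) s0, P c l → (∀ c' (f g : Ar c' c0), f.comp m = g.comp m → f = g) →
      (yon (L := yo c) m).im ∈ Φ c → S c0 (L.map m l, s0) → ∃ s, S c (l, s) ∧ s.res m = s0)
    (h2 : ∀ c l c0 (m : Ar c0 c) s s', P c l →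
      (∀ c' (f g : Ar c' c0), f.comp m = g.comp m → f = g) → (yon (L := yo c) m).im ∈ Φ c →
      S c (l, s) → S c (l, s') → Val.res m s = Val.res m s' → s = s') : GoodOn Φ S P := by
  intro c l hl φ hφ s hs
  obtain ⟨c0, m, hm, inj, hm', H⟩ := hΦ.base c φ hφ
  obtain ⟨t, ht, e⟩ := h1 c l c0 m _ hl inj hm' (hs c0 m hm trivial)
  have key : ∀ c' f, (yon (L := yo c) m).im.mem c' f → t.res f = s c' f := by
    rintro c' _ ⟨g, rfl⟩
    have := s.res_app g m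
    rw [← show t.res m = s c0 m from e] at this
    exact this
  refine ⟨yon (L := VZ.{u} D) t, fun c' f hf _ => ?_, fun c' f _ => S.cl' f ht⟩
  rcases H c' f hf with h | ⟨c1, f1, g, c2, m1, rfl, h3, h4, h5, h6⟩
  · exact key c' f h
  · have := h2 c1 _ c2 m1 _ _ (P.cl f1 hl) h4 h5 (S.cl' f1 ht) (hs c1 f1 h3 trivial)
      ((key _ _ h6).trans (s.res_app m1 f1).symm)
    exact (congrArg (Val.res g) this).trans (s.res_app g f1)

theorem good_disc {Φ : Cls D} (hΦ : Clo.{u} Φ) (S : Set ZF.{u}) (P : Sub L) :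
    GoodOn Φ (discF L (fun _ => S) monotone_const) P := by
  refine good_cov hΦ ?_ ?_
  · rintro c l c0 m s0 - - - ⟨z, hz, h⟩
    exact ⟨cstV c z, ⟨z, hz, rfl⟩, h.symm⟩
  · rintro c l c0 m s s' - - - ⟨z, -, h⟩ ⟨z', -, h'⟩ e
    dsimp only at h h'
    subst h h'
    simpa using e

theorem good_sum {Φ : Cls D} (hΦ : Clo.{u} Φ) {A B : Fm.{u} L} {P : Sub L} (hA : GoodOn Φ A P)
    (hB : GoodOn Φ B P) : GoodOn Φ (sumF A B) P := by
  intro c l hl φ hφ s hs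
  obtain ⟨t, h1, h2⟩ := good_disc hΦ {num 0, num 1} P c l hl φ hφ s.fstV fun c' f h h' => by
    rcases sumF_tag (hs c' f h h') with h | h
    · exact ⟨_, Or.inl rfl, h⟩
    · exact ⟨_, Or.inr rfl, h⟩
  obtain ⟨z, hz, e⟩ := h2 c (Ar.id c) trivial
  have e' : ∀ c' f, φ c' f → fstV (s c' f) = cstV c' z := fun c' f h => by
    have := t.res_app f (Ar.id c)
    rw [show t c (Ar.id c) = _ from e] at this
    exact (h1 c' f h trivial).symm.trans this.symm
  rcases hz with rfl | rfl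
  · obtain ⟨a, ha, ha'⟩ := hA c l hl φ hφ s.sndV fun c' f h h' =>
      (sumF_inl (hs c' f h h') (e' c' f h)).2
    refine ⟨(Hom.cst _ (num 0)).pairV a, fun c' f h h' => ?_, fun c' f _ =>
      Or.inl ⟨_, rfl, ha' c' f trivial⟩⟩
    refine Eq.trans ?_ (sumF_inl (hs c' f h h') (e' c' f h)).1.symm
    simp [ha c' f h h']
  · obtain ⟨a, ha, ha'⟩ := hB c l hl φ hφ s.sndV fun c' f h h' =>
      (sumF_inr (hs c' f h h') (e' c' f h)).2
    refine ⟨(Hom.cst _ (num 1)).pairV a, fun c' f h h' => ?_, fun c' f _ =>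
      Or.inr ⟨_, rfl, ha' c' f trivial⟩⟩
    refine Eq.trans ?_ (sumF_inr (hs c' f h h') (e' c' f h)).1.symm
    simp [ha c' f h h']

theorem good_trunc {Φ : Cls D} (hΦ : Clo.{u} Φ) {A : Fm.{u} L} {P : Sub L} (hA : GoodOn Φ A P) :
    GoodOn Φ (truncF A) P := by
  refine fun c l hl φ hφ => extAt_cone (good_cov hΦ ?_ ?_ c l hl φ hφ)
  · rintro c l c0 m s0 hl inj hm ⟨a, ha, h⟩
    obtain ⟨b, hb, -⟩ := ext_arrow m inj (hA c l hl _ hm) ha
    exact ⟨cstV c ∅, ⟨b, hb, rfl⟩, h.symm⟩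
  · rintro c l c0 m s s' - - - ⟨z, -, h⟩ ⟨z', -, h'⟩ -
    exact h.trans h'.symm

theorem good_quot {Φ : Cls D} (hΦ : Clo.{u} Φ) {L : Psh.{u + 1} D} {A : Fm.{u} L} (hb : A.Bd)
    {R : Fm.{u} ((L.prod (VZ.{u} D)).prod (VZ.{u} D))} {P : Sub L} (hA : GoodOn Φ A P)
    (hR : GoodOn Φ R ((P.ext' A).ext' (A.pull Hom.fst))) : GoodOn Φ (quotF A R) P := by
  have hp : GoodOn Φ (pathU A) ((P.ext' A).ext' (A.pull Hom.fst)) :=
    hΦ.path (hA.pull _ fun _ _ h => h.1.1) (fun _ _ h => h.1.2) fun _ _ h => h.2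
  refine fun c l hl φ hφ => extAt_cone (good_cov hΦ ?_ ?_ c l hl φ hφ)
  · rintro c l c0 m s0 hl inj hm ⟨a, ha, h⟩
    obtain ⟨b, hb, rfl⟩ := ext_arrow m inj (hA c l hl _ hm) ha
    exact ⟨_, ⟨b, hb, rfl⟩, ((clsQ A R).res_app m (l, b)).trans h.symm⟩
  · rintro c l c0 m s s' hl inj hm ⟨a, ha, h⟩ ⟨a', ha', h'⟩ he
    dsimp only at h h' ha ha'
    subst h h'
    rw [Hom.res_app, Hom.res_app] at he
    refine clsQ_eq (Eqv.reflect m (fun a0 h0 => ext_arrow m inj (hA c l hl _ hm) h0)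
      (fun b b' hb hb' h => ⟨hb, hb', h.2.2.imp (fun ⟨p, h⟩ => ?_) fun ⟨r, h⟩ => ?_⟩)
      (eqv_of_clsQ hb (A.cl' _ ha') he) a a' ha ha' rfl rfl)
    · obtain ⟨q, hq, -⟩ := ext_arrow m inj (hp c ((l, b), b') ⟨⟨hl, hb⟩, hb'⟩ _ hm) h
      exact ⟨q, hq⟩
    · obtain ⟨q, hq, -⟩ := ext_arrow m inj (hR c ((l, b), b') ⟨⟨hl, hb⟩, hb'⟩ _ hm) h
      exact ⟨q, hq⟩

section ty
variable {P : ZF.{u} → Prop} (hP : GU P) {Φ : Cls D} (hΦ : Clo.{u} Φ) {L : Psh.{u + 1} D}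
  {A : Fm.{u} L} {Q : Sub L}
include hP hΦ

theorem ty_pi {B : Fm.{u} (L.prod (VZ.{u} D))} (hb : A.Bd) (hA : TyOn P Φ A Q)
    (hB : TyOn P Φ B (Q.ext' A)) : TyOn P Φ (piF A B) Q :=
  ⟨sm_pi hP hA.sm hB.sm, fib_pi hb hA.fib hB.fib, hΦ.pi hb hA.fib hA.good hB.fib hB.good⟩

theorem ty_sig {B : Fm.{u} (L.prod (VZ.{u} D))} (hA : TyOn P Φ A Q)
    (hB : TyOn P Φ B (Q.ext' A)) : TyOn P Φ (sigF A B) Q :=
  ⟨sm_sig hP hA.sm hB.sm, fib_sig hA.fib hB.fib, fun c l hl φ hφ =>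
    extAt_sig (hA.good c l hl φ hφ) fun _ ha => hB.good c _ ⟨hl, ha⟩ φ hφ⟩

theorem ty_w {B : Fm.{u} (L.prod (VZ.{u} D))} (hb : B.Bd) (hA : TyOn P Φ A Q)
    (hB : TyOn P Φ B (Q.ext' A)) : TyOn P Φ (wF A B) Q :=
  ⟨sm_w hP hA.sm hB.sm, fib_w hb hA.fib hB.fib, hΦ.w hb hA.fib hA.good hB.fib hB.good⟩

theorem ty_path {a b : Sec.{u} L} (hA : TyOn P Φ A Q) (ha : ∀ c l, Q c l → A c (l, a c l))
    (hb : ∀ c l, Q c l → A c (l, b c l)) : TyOn P Φ (pathF A a b) Q :=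
  ⟨sm_path hP hA.sm, fib_path hA.fib ha hb, hΦ.path hA.good ha hb⟩

theorem ty_sum {B : Fm.{u} L} (hA : TyOn P Φ A Q) (hB : TyOn P Φ B Q) : TyOn P Φ (sumF A B) Q :=
  ⟨sm_sum hP hA.sm hB.sm, fib_sum hA.fib hB.fib, good_sum hΦ hA.good hB.good⟩

theorem ty_disc {S : Set ZF.{u}} (hS : SB P S) :
    TyOn P Φ (discF L (fun _ => S) monotone_const) Q :=
  ⟨sm_disc hP (fun _ => hS) _, fib_disc _ _ _, good_disc hΦ _ _⟩

theorem ty_trunc (hA : TyOn P Φ A Q) : TyOn P Φ (truncF A) Q :=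
  ⟨sm_trunc hP hA.sm, fib_trunc hA.fib, good_trunc hΦ hA.good⟩

theorem ty_quot {R : Fm.{u} ((L.prod (VZ.{u} D)).prod (VZ.{u} D))} (hb : A.Bd) (hA : TyOn P Φ A Q)
    (hR : TyOn P Φ R ((Q.ext' A).ext' (A.pull Hom.fst))) : TyOn P Φ (quotF A R) Q :=
  ⟨sm_quot hP hA.sm, fib_quot hb hA.fib hR.fib, good_quot hΦ hb hA.good hR.good⟩

end ty

theorem elU_bd : (elU.{u} D).Bd := ElF_bd _

@[simp] theorem elU_mem {c : Ob D} (p : ((VZ.{u} D).prod (VZ.{u} D)).obj c) :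
    (elU D).mem c p ↔ p.2 ∈ El p.1 := Iff.rfl

/-! ### value-level formers -/

noncomputable def idH : Sec.{u} (V3.{u} D) := codeF (pathU (elU D))

def PathV {c : Ob D} (A a b p : Vl.{u} c) : Prop := (pathU (elU D)).mem c (((A, a), b), p)

theorem mem_idH {c : Ob D} {A a b p : Vl.{u} c} : p ∈ El (idH c ((A, a), b)) ↔ PathV A a b p :=
  mem_codeF elU_bd.pathU

theorem pathU_ElF {T : Sec.{u} L} {c} {l : L.obj c} {a b p} :
    (pathU (ElF T)).mem c (((l, a), b), p) ↔ PathV (T c l) a b p := by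
  rw [PathV, pathU_iff, pathU_iff]
  simp only [ElF_mem, elU_mem, T.res_app]

noncomputable def sumH : Sec.{u} (V2.{u} D) := codeF (sumF (ElF Hom.fst) (ElF Hom.snd))

theorem mem_sumH {c : Ob D} {A B v : Vl.{u} c} :
    v ∈ El (sumH c (A, B)) ↔ (sumF (ElF Hom.fst) (ElF Hom.snd)).mem c ((A, B), v) :=
  mem_codeF ((ElF_bd _).sum (ElF_bd _))

noncomputable def sumRecH : Sec.{u} (V3.{u} D) :=
  Hom.ite (eqS (Hom.fstV Hom.snd) (Hom.cst _ (num 0)))
    (Hom.appV (Hom.fst.comp Hom.fst) (Hom.sndV Hom.snd))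
    (Hom.appV (Hom.snd.comp Hom.fst) (Hom.sndV Hom.snd))

theorem sumRecH_inl {c : Ob D} (f g a : Vl.{u} c) :
    sumRecH c ((f, g), pairV (cstV c (num 0)) a) = appV f a := by
  rw [sumRecH, Hom.ite_pos]
  · simp
  · exact fstV_pairV _ _

theorem sumRecH_inr {c : Ob D} (f g a : Vl.{u} c) :
    sumRecH c ((f, g), pairV (cstV c (num 1)) a) = appV g a := by
  rw [sumRecH, Hom.ite_eq]
  · simp
  · intro c' k h
    have h' : _ = _ := h
    simp at h'

noncomputable def discH (S : Set ZF.{u}) : Sec.{u} (One.{u} D) :=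
  codeF (discF _ (fun _ => S) monotone_const)

theorem mem_discH {S : Set ZF.{u}} (hS : SB PT S) {c : Ob D} {v : Vl.{u} c} :
    v ∈ El (discH S c PUnit.unit) ↔ ∃ z ∈ S, v = cstV c z :=
  mem_codeF (sm_disc gu_top (fun _ => hS) _)

theorem isTy_discH {P : ZF.{u} → Prop} (hP : GU P) {Φ : Cls D} (hΦ : Clo.{u} Φ) {S : Set ZF.{u}}
    (hS : SB P S) (c : Ob D) : IsTy P Φ (discH S c PUnit.unit) :=
  isTy_codeF hP (sm_disc gu_top (fun _ => hS.top) _) (ty_disc hP hΦ hS (Q := Sub.top _)) trivial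

noncomputable def natIt {c : Ob D} (z s : Vl.{u} c) : ℕ → Vl.{u} c
  | 0 => z
  | k + 1 => appV (appV s (cstV c (num k))) (natIt z s k)

theorem natIt_res {c c' : Ob D} (f : Ar c' c) (z s : Vl.{u} c) (k) :
    (natIt z s k).res f = natIt (z.res f) (s.res f) k := by
  induction k with
  | zero => rfl
  | succ k ih => simp [natIt, ih]

noncomputable def natRecH : Sec.{u} (V3.{u} D) :=
  ofHead fun _ p => Val.hd (natIt p.1.1 p.1.2 (Function.invFun num (Val.hd p.2)))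

theorem natRecH_eq {c : Ob D} (z s : Vl.{u} c) (k) :
    natRecH c ((z, s), cstV c (num k)) = natIt z s k := by
  apply ofHead_eq
  intro c' g
  simp [natIt_res, Function.leftInverse_invFun num_inj k]

noncomputable def truncH : Sec.{u} (VZ.{u} D) := codeF (truncF (elU D))

theorem coneF_congr {A : Fm.{u} L} {q : Sec.{u} (L.prod (VZ.{u} D))} {A' : Fm.{u} L'}
    {q' : Sec.{u} (L'.prod (VZ.{u} D))} {c} {l : L.obj c} {l' : L'.obj c}
    (hA : ∀ c' (f : Ar c' c) v, A c' (L.map f l, v) ↔ A' c' (L'.map f l', v))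
    (hq : ∀ c' (f : Ar c' c) v, q c' (L.map f l, v) = q' c' (L'.map f l', v)) (w) :
    (coneF A q).mem c (l, w) ↔ (coneF A' q').mem c (l', w) := by
  have h1 := hA c (Ar.id c)
  have h2 := hq c (Ar.id c)
  simp only [Psh.map_id] at h1 h2
  simp only [coneF, imF, hA, hq, h1, h2]

theorem mem_truncH {T : Sec.{u} L} {c} {l : L.obj c} {v} :
    v ∈ El (truncH c (T c l)) ↔ (truncF (ElF T)).mem c (l, v) :=
  by
  refine (mem_codeF elU_bd.trunc).trans (coneF_congr (fun c' f v => ?_) (fun _ _ _ => ?_) _)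
  · simp [T.res_app]
  · rfl

noncomputable def isPropH : Sec.{u} (VZ.{u} D) := codeF (isPropF (elU D))
noncomputable def isSetH : Sec.{u} (VZ.{u} D) := codeF (isSetF (elU D))

theorem Fam.Bd.isProp {X : Fm.{u} L} (h : X.Bd) : (isPropF X).Bd := h.pi ((h.pull _).pi h.pathU)
theorem Fam.Bd.isSet {X : Fm.{u} L} (h : X.Bd) : (isSetF X).Bd :=
  h.pi ((h.pull _).pi h.pathU.isProp)

theorem pathU_congr {X : Fm.{u} L} {X' : Fm.{u} L'} {c} {l : L.obj c} {l' : L'.obj c}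
    (h : ∀ c' (f : Ar c' c) v, X c' (L.map f l, v) ↔ X' c' (L'.map f l', v)) (a b w) :
    (pathU X).mem c (((l, a), b), w) ↔ (pathU X').mem c (((l', a), b), w) := by
  rw [pathU_iff, pathU_iff]
  simp only [h]

theorem isPropF_congr {X : Fm.{u} L} {X' : Fm.{u} L'} {c} {l : L.obj c} {l' : L'.obj c}
    (h : ∀ c' (f : Ar c' c) v, X c' (L.map f l, v) ↔ X' c' (L'.map f l', v)) (w) :
    (isPropF X).mem c (l, w) ↔ (isPropF X').mem c (l', w) := by
  refine piF_congr h (fun c1 f a b _ => piF_congr (fun c2 g v => ?_) (fun c2 g x y _ => ?_) _) _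
  · simpa using h c2 (g.comp f) v
  · exact pathU_congr (fun c3 k v => by simpa using h c3 (k.comp (g.comp f)) v) _ _ _

theorem isSetF_congr {X : Fm.{u} L} {X' : Fm.{u} L'} {c} {l : L.obj c} {l' : L'.obj c}
    (h : ∀ c' (f : Ar c' c) v, X c' (L.map f l, v) ↔ X' c' (L'.map f l', v)) (w) :
    (isSetF X).mem c (l, w) ↔ (isSetF X').mem c (l', w) := by
  refine piF_congr h (fun c1 f a b _ => piF_congr (fun c2 g v => ?_) (fun c2 g x y _ => ?_) _) _
  · simpa using h c2 (g.comp f) v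
  · refine isPropF_congr (fun c3 k v => ?_) _
    refine pathU_congr (fun c4 k' v => ?_) _ _ _
    simpa using h c4 (k'.comp (k.comp (g.comp f))) v

theorem ElF_isPropH (T : Sec.{u} L) : ElF (isPropH.comp T) = isPropF (ElF T) := by
  ext c ⟨l, v⟩
  exact (mem_codeF elU_bd.isProp).trans (isPropF_congr (fun c' f v => by simp [T.res_app]) _)

theorem ElF_isSetH (T : Sec.{u} L) : ElF (isSetH.comp T) = isSetF (ElF T) := by
  ext c ⟨l, v⟩
  exact (mem_codeF elU_bd.isSet).trans (isSetF_congr (fun c' f v => by simp [T.res_app]) _)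

noncomputable def sngK (t : Sec.{u} L) : Sub L :=
  ⟨fun c l => fstV (t c l) = singV (unsV (fstV (t c l))), fun f l h => by
    rw [← t.res_app]; exact congrArg (Val.res f) h⟩

noncomputable def argH (t : Sec.{u} L) : Sec.{u} L :=
  ⟨fun c l => unsV (fstV (t c l)), fun f l => by rw [t.nat]; rfl⟩

noncomputable def truncRecH : Sec.{u} (V3.{u} D) :=
  extOp (ElF (Hom.appV (Hom.fst.comp Hom.fst) Hom.snd)) (sngK Hom.snd)
    (Hom.appV (Hom.snd.comp Hom.fst) (argH Hom.snd))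

theorem truncRecH_spec {A : Fm.{u} L} {C g t : Sec.{u} L} {Q : Sub L}
    (hC : FibOn (ElF (Hom.appV (C.comp Hom.fst) Hom.snd)) (Q.ext' (truncF A)))
    (hp : PropOn (ElF (Hom.appV (C.comp Hom.fst) Hom.snd)) (Q.ext' (truncF A)))
    (hg : ∀ c l a, Q c l → A c (l, a) →
      appV (g c l) a ∈ El (appV (C c l) (pairV (singV a) (cstV c ∅))))
    (ht : ∀ c l, Q c l → (truncF A).mem c (l, t c l)) {c} {l : L.obj c} (hl : Q c l) :
    (∀ a, t c l = pairV (singV a) (cstV c ∅) → truncRecH c ((C c l, g c l), t c l) = appV (g c l) a) ∧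
      truncRecH c ((C c l, g c l), t c l) ∈ El (appV (C c l) (t c l)) := by
  have := extOp_spec (A := ElF (Hom.appV (Hom.fst.comp Hom.fst) Hom.snd)) (K := sngK Hom.snd)
    (s := Hom.appV (Hom.snd.comp Hom.fst) (argH Hom.snd)) ((C.mk2 g).mk2 t) (Q := Q)
    ((triv_trunc_ind hC hp fun c l a hl ha => ⟨_, hg c l a hl ha⟩).pull ((Hom.id L).mk2 t)
      fun c l hl => ⟨hl, ht c l hl⟩) (fun c l h hl => by
      obtain ⟨h1, h2⟩ := cone_con (ht c l hl) h
      have := hg c l _ hl h1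
      rw [← show t c l = pairV (singV (unsV (fstV (t c l)))) (cstV c ∅) from h2] at this
      exact this) hl
  refine ⟨fun a h => ?_, this.2⟩
  refine (this.1 ?_).trans ?_
  · show fstV (t c l) = singV (unsV (fstV (t c l)))
    simp [h]
  · simp [argH, h]

/-! ### quotients -/

noncomputable def relF (R : Sec.{u} L) : Fm.{u} ((L.prod (VZ.{u} D)).prod (VZ.{u} D)) :=
  ElF (Hom.appV (Hom.appV (R.comp (Hom.fst.comp Hom.fst)) (Hom.snd.comp Hom.fst)) Hom.snd)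

theorem relF_bd (R : Sec.{u} L) : (relF R).Bd := ElF_bd _

theorem clsQ_congr {A : Fm.{u} L} {R : Fm.{u} ((L.prod (VZ.{u} D)).prod (VZ.{u} D))}
    {A' : Fm.{u} L'} {R' : Fm.{u} ((L'.prod (VZ.{u} D)).prod (VZ.{u} D))} {c} {l : L.obj c}
    {l' : L'.obj c} (hA : ∀ c' (f : Ar c' c) v, A c' (L.map f l, v) ↔ A' c' (L'.map f l', v))
    (hR : ∀ c' (f : Ar c' c) a b v, R c' (((L.map f l, a), b), v) ↔ R' c' (((L'.map f l', a), b), v))
    (v) : clsQ A R c (l, v) = clsQ A' R' c (l', v) := by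
  funext c' f
  have : Rel A R c' (L.map f l) = Rel A' R' c' (L'.map f l') := by
    ext a b
    simp only [Rel, Conn, hA, hR, pathU_congr (X := A) (X' := A') (l := L.map f l)
      (l' := L'.map f l') fun c'' g v => by simpa using hA c'' (g.comp f) v]
  simp only [clsQ, ofHead_apply, Eqv, this, hA]

noncomputable def clsU : Sec.{u} (V3.{u} D) := clsQ (ElF Hom.fst) (relF Hom.snd)

theorem clsU_eq (A R : Sec.{u} L) {c} (l : L.obj c) (v) :
    clsU c ((A c l, R c l), v) = clsQ (ElF A) (relF R) c (l, v) :=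
  clsQ_congr (fun c' f v => by simp [A.res_app]) (fun c' f a b v => by simp [relF, R.res_app]) _

noncomputable def quotH : Sec.{u} (V2.{u} D) := codeF (quotF (ElF Hom.fst) (relF Hom.snd))

theorem quotF_U (A R : Sec.{u} L) {c} (l : L.obj c) (v) :
    (quotF (ElF Hom.fst) (relF Hom.snd)).mem c ((A c l, R c l), v) ↔
      (quotF (ElF A) (relF R)).mem c (l, v) :=
  coneF_congr (fun c' f v => by simp [A.res_app]) (fun c' f v => by
    have := clsU_eq A R (L.map f l) v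
    rw [← A.res_app, ← R.res_app] at this
    exact this) _

theorem ElF_quotH (A R : Sec.{u} L) : ElF (quotH.comp (A.mk2 R)) = quotF (ElF A) (relF R) := by
  ext c ⟨l, v⟩
  exact (mem_codeF ((ElF_bd _).quot _)).trans (quotF_U A R l v)

noncomputable def clsEqF (A : Fm.{u} L) (R : Fm.{u} ((L.prod (VZ.{u} D)).prod (VZ.{u} D))) :
    Fm.{u} L :=
  piF A (piF (A.pull Hom.fst) (piF R (pathF ((quotF A R).pull ((Hom.fst.comp Hom.fst).comp Hom.fst))
    ((conH (clsQ A R)).comp (Hom.fst.comp Hom.fst))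
    ((conH (clsQ A R)).comp ((((Hom.fst.comp Hom.fst).comp Hom.fst)).mk2 (Hom.snd.comp Hom.fst))))))

theorem triv_clsEq {A : Fm.{u} L} {R : Fm.{u} ((L.prod (VZ.{u} D)).prod (VZ.{u} D))} (hb : A.Bd)
    (hr : R.Bd) {P : Sub L} (hA : FibOn A P) (hR : FibOn R ((P.ext' A).ext' (A.pull Hom.fst))) :
    TrivOn (clsEqF A R) P := by
  refine triv_pi hb (triv_pi (hb.pull _) (triv_pi hr (triv_path_cone (cov_quot hb hA hR) _
    (fun _ _ h => ?_) (fun _ _ h => ?_) (fun _ _ h => ?_) fun c l h => ?_)))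
  · exact h.1.1.1
  · exact con_mem h.1.1.2
  · exact con_mem h.1.2
  · simp only [conH, Hom.comp_app, sndV_pairV]
    exact clsQ_eq (.rel _ _ ⟨h.1.1.2, h.1.2, Or.inr ⟨_, h.2⟩⟩)

noncomputable def clsEqH : Sec.{u} (V2.{u} D) := codeF (clsEqF (ElF Hom.fst) (relF Hom.snd))

theorem Fam.Bd.clsEq {A : Fm.{u} L} {R : Fm.{u} ((L.prod (VZ.{u} D)).prod (VZ.{u} D))} (hb : A.Bd)
    (hr : R.Bd) : (clsEqF A R).Bd := hb.pi ((hb.pull _).pi (hr.pi (((hb.quot R).pull _).path _ _)))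

theorem clsEqF_congr {A : Fm.{u} L} {R : Fm.{u} ((L.prod (VZ.{u} D)).prod (VZ.{u} D))}
    {A' : Fm.{u} L'} {R' : Fm.{u} ((L'.prod (VZ.{u} D)).prod (VZ.{u} D))} {c} {l : L.obj c}
    {l' : L'.obj c} (hA : ∀ c' (f : Ar c' c) v, A c' (L.map f l, v) ↔ A' c' (L'.map f l', v))
    (hR : ∀ c' (f : Ar c' c) a b v, R c' (((L.map f l, a), b), v) ↔ R' c' (((L'.map f l', a), b), v))
    (v) : (clsEqF A R).mem c (l, v) ↔ (clsEqF A' R').mem c (l', v) := by
  have hq : ∀ c' (f : Ar c' c) v, clsQ A R c' (L.map f l, v) = clsQ A' R' c' (L'.map f l', v) :=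
    fun c' f v => clsQ_congr (fun c'' g v => by simpa using hA c'' (g.comp f) v)
      (fun c'' g a b v => by simpa using hR c'' (g.comp f) a b v) v
  refine piF_congr hA (fun c1 f a b _ => ?_) _
  refine piF_congr (fun c2 g v => ?_) (fun c2 g x y _ => ?_) _
  · simpa using hA c2 (g.comp f) v
  refine piF_congr (fun c3 k v => ?_) (fun c3 k r p _ => ?_) _
  · simpa using hR c3 (k.comp (g.comp f)) _ _ v
  refine pathF_congr (fun c4 k' v => ?_) ?_ ?_ _
  · refine coneF_congr (fun c5 k'' v => ?_) (fun c5 k'' v => ?_) _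
    · simpa using hA c5 (k''.comp (k'.comp (k.comp (g.comp f)))) v
    · simpa using hq c5 (k''.comp (k'.comp (k.comp (g.comp f)))) v
  · simp [conH, hq]
  · simp [conH, hq]

theorem ElF_clsEqH (A R : Sec.{u} L) : ElF (clsEqH.comp (A.mk2 R)) = clsEqF (ElF A) (relF R) := by
  ext c ⟨l, v⟩
  refine (mem_codeF ((ElF_bd Hom.fst).clsEq (relF_bd Hom.snd))).trans ?_
  refine clsEqF_congr (fun c' f v => ?_) (fun c' f a b v => ?_) _
  · simp [A.res_app]
  · simp [relF, R.res_app]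

noncomputable def qFam (A R C g : Sec.{u} L) : Fm.{u} (L.prod (VZ.{u} D)) :=
  (ElF (Hom.appV (C.comp Hom.fst) Hom.snd)).and (qSub (ElF A) (relF R)
    (ElF (Hom.appV (C.comp Hom.fst) Hom.snd)) (Hom.appV (g.comp Hom.fst) Hom.snd))

noncomputable def quotRecH : Sec.{u} (V5.{u} D) :=
  extOp (qFam ((Hom.fst.comp Hom.fst).comp Hom.fst) ((Hom.snd.comp Hom.fst).comp Hom.fst)
    (Hom.snd.comp Hom.fst) Hom.snd) (sngK Hom.snd) (Hom.appV (Hom.snd.comp Hom.fst) (argH Hom.snd))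

theorem qFam_pull (A R C g : Sec.{u} L) (β : Hom L' L) {c} (l : L'.obj c) (t v) :
    (qFam A R C g).mem c ((β c l, t), v) ↔
      (qFam (A.comp β) (R.comp β) (C.comp β) (g.comp β)).mem c ((l, t), v) := by
  have h1 : ∀ {c} (l : L'.obj c) v, (quotF (ElF A) (relF R)).mem c (β c l, v) ↔
      (quotF (ElF (A.comp β)) (relF (R.comp β))).mem c (l, v) := fun l v =>
    (quotF_U A R _ v).symm.trans (quotF_U (A.comp β) (R.comp β) l v)
  have h2 : ∀ v, clsQ (ElF A) (relF R) c (β c l, v) =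
      clsQ (ElF (A.comp β)) (relF (R.comp β)) c (l, v) := fun v =>
    (clsU_eq A R _ v).symm.trans (clsU_eq (A.comp β) (R.comp β) l v)
  refine and_congr Iff.rfl (exists_congr fun a => and_congr Iff.rfl (exists_congr fun p => ?_))
  simp only [conH, h2]
  refine pathU_congr (fun c' f v => ?_) _ _ _
  rw [← β.nat]
  exact sigF_congr (h1 _) (fun _ _ _ => Iff.rfl) _

theorem quotRecH_spec {A R C g t : Sec.{u} L} {Q : Sub L} (hA : FibOn (ElF A) Q)
    (hR : FibOn (relF R) ((Q.ext' (ElF A)).ext' ((ElF A).pull Hom.fst)))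
    (hC : FibOn (ElF (Hom.appV (C.comp Hom.fst) Hom.snd)) (Q.ext' (quotF (ElF A) (relF R))))
    (hs : SetOn (ElF (Hom.appV (C.comp Hom.fst) Hom.snd)) (Q.ext' (quotF (ElF A) (relF R))))
    (hg : ∀ c l a, Q c l → a ∈ El (A c l) →
      appV (g c l) a ∈ El (appV (C c l) (conH clsU c ((A c l, R c l), a))))
    (hk : ∀ c l a a' r, Q c l → a ∈ El (A c l) → a' ∈ El (A c l) →
      r ∈ El (appV (appV (R c l) a) a') →
      Conn (sigF (quotF (ElF A) (relF R)) (ElF (Hom.appV (C.comp Hom.fst) Hom.snd))) c l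
        (pairV (conH clsU c ((A c l, R c l), a)) (appV (g c l) a))
        (pairV (conH clsU c ((A c l, R c l), a')) (appV (g c l) a')))
    (ht : ∀ c l, Q c l → (quotF (ElF A) (relF R)).mem c (l, t c l)) {c} {l : L.obj c}
    (hl : Q c l) :
    (∀ a, t c l = conH clsU c ((A c l, R c l), a) →
      quotRecH c ((((A c l, R c l), C c l), g c l), t c l) = appV (g c l) a) ∧
      quotRecH c ((((A c l, R c l), C c l), g c l), t c l) ∈ El (appV (C c l) (t c l)) := by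
  have e : ∀ c l a, conH clsU c ((A c l, R c l), a) = conH (clsQ (ElF A) (relF R)) c (l, a) :=
    fun c l a => congrArg (pairV _) (clsU_eq A R l a)
  simp only [e] at hg hk
  have h0 := triv_quot_ind (ElF_bd A) hA hR hC hs (g := Hom.appV (g.comp Hom.fst) Hom.snd) hg hk
  have hq : ∀ {c} (l : L.obj c) t v, (qFam ((Hom.fst.comp Hom.fst).comp Hom.fst)
      ((Hom.snd.comp Hom.fst).comp Hom.fst) (Hom.snd.comp Hom.fst) Hom.snd).mem c
        (((((A.mk2 R).mk2 C).mk2 g) c l, t), v) ↔ (qFam A R C g).mem c ((l, t), v) :=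
    fun l t v => qFam_pull _ _ _ _ (((A.mk2 R).mk2 C).mk2 g) l t v
  have := extOp_spec (A := qFam ((Hom.fst.comp Hom.fst).comp Hom.fst)
    ((Hom.snd.comp Hom.fst).comp Hom.fst) (Hom.snd.comp Hom.fst) Hom.snd) (K := sngK Hom.snd)
    (s := Hom.appV (Hom.snd.comp Hom.fst) (argH Hom.snd)) ((((A.mk2 R).mk2 C).mk2 g).mk2 t) (Q := Q)
    ((h0.pull ((Hom.id L).mk2 t) fun c l hl => ⟨hl, ht c l hl⟩).congr fun c l v _ =>
      (hq l (t c l) v).symm) (fun c l h hl => by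
      refine (hq l (t c l) _).2 ?_
      obtain ⟨h1, h2⟩ := cone_con (ht c l hl) h
      have h3 := hg c l _ hl h1
      have h4 : t c l = conH (clsQ (ElF A) (relF R)) c (l, unsV (fstV (t c l))) := h2
      refine ⟨?_, _, h1, ?_⟩
      · rw [← h4] at h3; exact h3
      · have := Conn.refl (X := sigF (quotF (ElF A) (relF R))
          (ElF (Hom.appV (C.comp Hom.fst) Hom.snd))) (l := l) (sigF_pair.2 ⟨con_mem h1, h3⟩)
        conv at this => rhs; rw [← h2]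
        exact this) hl
  refine ⟨fun a h => ?_, this.2.1⟩
  refine (this.1 ?_).trans ?_
  · show fstV (t c l) = singV (unsV (fstV (t c l)))
    simp [h, conH]
  · simp [argH, h, conH]

/-! ### univalence -/

noncomputable def eqvU (L : Psh.{v} D) : Fm.{u} ((L.prod (VZ.{u} D)).prod (VZ.{u} D)) :=
  equivF (ElF (Hom.snd.comp Hom.fst)) (ElF Hom.snd)

noncomputable def uaDom (P : ZF.{u} → Prop) (Φ : Cls D) (L : Psh.{v} D) : Fm.{u} L :=
  piF (uF P Φ _) (piF (uF P Φ _) (piF (pathU (uF P Φ _)) ((eqvU L).pull Hom.fst)))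

noncomputable def uaF (P : ZF.{u} → Prop) (Φ : Cls D) (L : Psh.{v} D) : Fm.{u} L :=
  piF (uaDom P Φ L) (piF (uF P Φ _) (piF (uF P Φ _) (isEquivF (pathU (uF P Φ _)) (eqvU _)
    (Hom.appV (Hom.appV (Hom.appV (Hom.snd.comp ((Hom.fst.comp Hom.fst).comp Hom.fst))
      (Hom.snd.comp (Hom.fst.comp Hom.fst))) (Hom.snd.comp Hom.fst)) Hom.snd))))

theorem equivF_congr {T B : Fm.{u} L} {T' B' : Fm.{u} L'} {c} {l : L.obj c} {l' : L'.obj c}
    (hT : ∀ c' (f : Ar c' c) v, T c' (L.map f l, v) ↔ T' c' (L'.map f l', v))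
    (hB : ∀ c' (f : Ar c' c) v, B c' (L.map f l, v) ↔ B' c' (L'.map f l', v)) (w) :
    (equivF T B).mem c (l, w) ↔ (equivF T' B').mem c (l', w) := by
  refine sigF_congr (fun v => piF_congr hT (fun c' f a b _ => hB c' f b) v) (fun F h _ => ?_) _
  refine isEquivF_congr (fun c' f v => ?_) (fun c' f v => ?_) (fun c' f x _ => ?_) _
  · exact hT c' f v
  · exact hB c' f v
  · rfl

theorem triv_ua {P : ZF.{u} → Prop} (hP : GU P) (hb : SB PT {z | P z}) (Φ : Cls D) :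
    TrivOn (uaF P Φ L) (Sub.top _) ∧ (uaF P Φ L).Bd := by
  have bU : ∀ L : Psh.{max v (u + 1)} D, (uF P Φ L).Bd := fun L => sm_u gu_top hb Φ _
  have bU' : (uF P Φ L).Bd := sm_u gu_top hb Φ _
  have bE : ∀ L : Psh.{max v (u + 1)} D, (eqvU.{u} L).Bd := fun L => (ElF_bd _).equiv (ElF_bd _)
  have bD : (uaDom P Φ L).Bd :=
    bU'.pi ((bU _).pi (bU'.pathU.pi (((ElF_bd _).equiv (ElF_bd _)).pull _)))
  refine ⟨triv_pi bD (triv_pi (bU _) (triv_pi (bU _) (triv_isEquiv (bU _).pathU (bE _) ?_))),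
    bD.pi ((bU _).pi ((bU _).pi ((bU _).pathU.isEquiv (bE _) _)))⟩
  let L1 := (L.prod (VZ.{u} D)).prod (VZ.{u} D)
  let P1 : Sub L1 := ((Sub.top L).ext' (uaDom P Φ L)).ext' (uF P Φ _)
  let X : Fm.{u} (L1.prod (VZ.{u} D)) := pathF (uF P Φ _) Hom.snd (Hom.snd.comp Hom.fst)
  let Y : Fm.{u} (L1.prod (VZ.{u} D)) := equivF (ElF Hom.snd) (ElF (Hom.snd.comp Hom.fst))
  have h := triv_fib_of_total (U := uF P Φ L1) (X := X) (Y := Y) (P := P1)
    (fib_path (fib_u hP Φ _) (fun _ _ h => h.2) fun _ _ h => h.1.2)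
    (fib_equiv (ElF_bd _) (ElF_bd _)
      (tyOn_ElF (P := P) (Φ := Φ) (T := Hom.snd) (Q := P1.ext' (uF P Φ L1)) fun _ _ h => h.2).fib
      (tyOn_ElF (P := P) (Φ := Φ) (T := Hom.snd.comp Hom.fst) (Q := P1.ext' (uF P Φ L1))
        fun _ _ h => h.1.2).fib)
    ((triv_singl (fib_u hP Φ ((Sub.top L).ext' (uaDom P Φ L)))).congr fun c l v _ => Iff.rfl)
    (triv_sig_equiv hP fun _ _ h => h.2)
    (φ := Hom.appV (Hom.appV (Hom.appV (Hom.snd.comp ((Hom.fst.comp Hom.fst).comp Hom.fst))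
      (Hom.snd.comp Hom.fst)) (Hom.snd.comp (Hom.fst.comp Hom.fst))) Hom.snd)
    (by
      rintro c ⟨⟨⟨l, φ⟩, B⟩, A⟩ p ⟨⟨⟨-, h1⟩, h2⟩, h3⟩ h4
      have := piF_app (piF_app (piF_app h1 h3) h2) (a := p) h4
      exact (equivF_congr (fun _ _ _ => Iff.rfl) (fun _ _ _ => Iff.rfl) _).1 this)
  refine (h.pull (((((Hom.fst.comp Hom.fst).comp Hom.fst).mk2 (Hom.snd.comp Hom.fst)).mk2
    (Hom.snd.comp (Hom.fst.comp Hom.fst))).mk2 Hom.snd) fun c l h => ?_).congr fun c l v _ => ?_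
  · exact ⟨⟨⟨h.1.1.1, h.1.2⟩, h.1.1.2⟩,
      (equivF_congr (fun _ _ _ => Iff.rfl) (fun _ _ _ => Iff.rfl) _).1 h.2⟩
  exact fibF_congr (fun _ => Iff.rfl)
    (fun c' f v => equivF_congr (fun _ _ _ => Iff.rfl) (fun _ _ _ => Iff.rfl) _)
    (fun _ _ => rfl) _ _

end Pool.Agent.Lib.MP_5eb18a_lc
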