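import Pool.Agent.Lib.MP_5eb18a_lc.HIT

/-!
Set quotients.
-/

namespace Pool.Agent.Lib.MP_5eb18a_lc

universe u v v' v'' w

set_option linter.unusedSectionVars false

open Classical

variable {D : Type} [PartialOrder D] [Countable D] [WellFoundedGT D]
variable {L : Psh.{v} D} {L' : Psh.{v'} D} {L'' : Psh.{v''} D}

def Rel (A : Fm.{u} L) (R : Fm.{u} ((L.prod (VZ.{u} D)).prod (VZ.{u} D))) (c : Ob D) (l : L.obj c)
    (a a' : Vl.{u} c) : Prop :=
  A c (l, a) ∧ A c (l, a') ∧ (Conn A c l a a' ∨ ∃ r, R c (((l, a), a'), r))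

def Eqv (A : Fm.{u} L) (R : Fm.{u} ((L.prod (VZ.{u} D)).prod (VZ.{u} D))) (c : Ob D) (l : L.obj c) :
    Vl.{u} c → Vl.{u} c → Prop := Relation.EqvGen (Rel A R c l)

variable {A : Fm.{u} L} {R : Fm.{u} ((L.prod (VZ.{u} D)).prod (VZ.{u} D))}

theorem Eqv.res {c c'} {l : L.obj c} {a a'} (h : Eqv A R c l a a') (f : Ar c' c) :
    Eqv A R c' (L.map f l) (a.res f) (a'.res f) := by
  induction h with
  | rel x y h => exact .rel _ _ ⟨A.cl' f h.1, A.cl' f h.2.1, h.2.2.imp (fun h => h.res f)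
      fun ⟨r, h⟩ => ⟨r.res f, R.cl' f h⟩⟩
  | refl x => exact .refl _
  | symm x y _ ih => exact .symm _ _ ih
  | trans x y z _ _ ih ih' => exact .trans _ _ _ ih ih'

theorem Eqv.mem_iff {c} {l : L.obj c} {a a'} (h : Eqv A R c l a a') :
    A c (l, a) ↔ A c (l, a') := by
  induction h with
  | rel x y h => exact ⟨fun _ => h.2.1, fun _ => h.1⟩
  | refl x => rfl
  | symm x y _ ih => exact ih.symm
  | trans x y z _ _ ih ih' => exact ih.trans ih'

theorem Eqv.reflect {c c0} {l : L.obj c} (m : Ar c0 c)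
    (h1 : ∀ a0, A c0 (L.map m l, a0) → ∃ a, A c (l, a) ∧ a.res m = a0)
    (h2 : ∀ a a', A c (l, a) → A c (l, a') → Rel A R c0 (L.map m l) (a.res m) (a'.res m) →
      Rel A R c l a a') {x y} (h : Eqv A R c0 (L.map m l) x y) :
    ∀ a a', A c (l, a) → A c (l, a') → a.res m = x → a'.res m = y → Eqv A R c l a a' := by
  induction h with
  | rel x y h => rintro a a' ha ha' rfl rfl; exact .rel _ _ (h2 a a' ha ha' h)
  | refl x =>
    rintro a a' ha ha' rfl e
    refine .rel _ _ (h2 a a' ha ha' ⟨A.cl' m ha, A.cl' m ha', Or.inl ?_⟩)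
    rw [e]; exact Conn.refl (A.cl' m ha)
  | symm x y _ ih => exact fun a a' ha ha' e e' => .symm _ _ (ih a' a ha' ha e' e)
  | trans x y z h _ ih ih' =>
    intro a a' ha ha' e e'
    obtain ⟨b, hb, e2⟩ := h1 y ((Eqv.mem_iff h).1 (e ▸ A.cl' m ha))
    exact .trans _ _ _ (ih a b ha hb e e2) (ih' b a' hb ha' e2 e')

noncomputable def clsQ (A : Fm.{u} L) (R : Fm.{u} ((L.prod (VZ.{u} D)).prod (VZ.{u} D))) :
    Sec.{u} (L.prod (VZ.{u} D)) :=
  ofHead fun c p => cset (enc '' {a' | A c (p.1, a') ∧ Eqv A R c p.1 p.2 a'})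

theorem clsQ_eq {c} {l : L.obj c} {a a'} (h : Eqv A R c l a a') :
    clsQ A R c (l, a) = clsQ A R c (l, a') := by
  funext c' f
  simp only [clsQ, ofHead_apply]
  congr 2
  ext b
  exact and_congr_right fun _ => ⟨fun h' => .trans _ _ _ (.symm _ _ (h.res f)) h',
    fun h' => .trans _ _ _ (h.res f) h'⟩

theorem eqv_of_clsQ (hb : A.Bd) {c} {l : L.obj c} {a a'} (ha : A c (l, a'))
    (h : clsQ A R c (l, a) = clsQ A R c (l, a')) : Eqv A R c l a a' := by
  have := congrArg Val.hd h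
  simp only [clsQ, ofHead_hd] at this
  have h1 : enc a' ∈ cset (enc '' {b | A c (l, b) ∧ Eqv A R c l a' b}) :=
    (mem_cset ((hb c l trivial).mono (Set.image_mono fun b hb => hb.1))).2
      ⟨a', ⟨ha, .refl _⟩, rfl⟩
  rw [← this] at h1
  obtain ⟨b, h2, h3⟩ := mem_of_mem_cset h1
  rw [← enc_inj h3]; exact h2.2

noncomputable def quotF (A : Fm.{u} L) (R : Fm.{u} ((L.prod (VZ.{u} D)).prod (VZ.{u} D))) :
    Fm.{u} L := coneF A (clsQ A R)

theorem eqv_vertex {P : Sub L} (hA : FibOn A P)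
    (hR : FibOn R ((P.ext' A).ext' (A.pull Hom.fst))) {c} {l : L.obj c} (hl : P c l) {a a'}
    (ha : A c (l, a)) (ha' : A c (l, a')) (e : Bool)
    (h : Eqv A R _ (L.map (vtxE c e) l) (a.res (vtxE c e)) (a'.res (vtxE c e))) :
    Eqv A R c l a a' := by
  refine Eqv.reflect _ (fun a0 h0 => ext_vertex (hA c l hl) e h0) (fun b b' hb hb' h => ?_) h a a'
    ha ha' rfl rfl
  refine ⟨hb, hb', h.2.2.imp (conn_of_vertex hA hl hb hb' e) fun ⟨r, hr⟩ => ?_⟩
  obtain ⟨r', h', -⟩ := ext_vertex (hR c ((l, b), b') ⟨⟨hl, hb⟩, hb'⟩) e hr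
  exact ⟨r', h'⟩

theorem cov_quot (hb : A.Bd) {P : Sub L} (hA : FibOn A P)
    (hR : FibOn R ((P.ext' A).ext' (A.pull Hom.fst))) : Cov (imF A (clsQ A R)) P := by
  rintro c l s s' e hl ⟨a, ha, h⟩ ⟨a', ha', h'⟩ he
  dsimp only at h h' ha ha'
  subst h h'
  rw [Hom.res_app, Hom.res_app] at he
  exact clsQ_eq (eqv_vertex hA hR hl ha ha' e (eqv_of_clsQ hb (A.cl' _ ha') he))

theorem sm_quot {P : ZF.{u} → Prop} (hP : GU P) {Q : Sub L} (hA : SmOn P A Q) :
    SmOn P (quotF A R) Q :=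
  sm_cone hP hA (sm_im hP hA fun c l a hl _ => by
    rw [clsQ, ofHead_hd]
    exact hP.cset ((hA c l hl).mono (Set.image_mono fun b hb => hb.1)))

theorem Fam.Bd.quot (hA : A.Bd) (R : Fm.{u} ((L.prod (VZ.{u} D)).prod (VZ.{u} D))) :
    (quotF A R).Bd := sm_quot gu_top hA

theorem Fam.Bd.trunc (hA : A.Bd) : (truncF A).Bd := sm_trunc gu_top hA

theorem fib_quot (hb : A.Bd) {P : Sub L} (hA : FibOn A P)
    (hR : FibOn R ((P.ext' A).ext' (A.pull Hom.fst))) : FibOn (quotF A R) P :=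
  fun c l hl φ hφ => extAt_cone (fib_im hA (cov_quot hb hA hR) c l hl φ hφ)

noncomputable def conH (q : Sec.{u} (L.prod (VZ.{u} D))) : Sec.{u} (L.prod (VZ.{u} D)) :=
  ⟨fun c p => pairV (singV p.2) (q c p), fun f p => by rw [q.nat]; rfl⟩

/-- elements over `t` connected to a value of `g` -/
def qSub (A : Fm.{u} L) (R : Fm.{u} ((L.prod (VZ.{u} D)).prod (VZ.{u} D)))
    (C : Fm.{u} (L.prod (VZ.{u} D))) (g : Sec.{u} (L.prod (VZ.{u} D))) :
    Fm.{u} (L.prod (VZ.{u} D)) :=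
  ⟨fun c p => ∃ a, A c (p.1.1, a) ∧ Conn (sigF (quotF A R) C) c p.1.1
      (pairV (conH (clsQ A R) c (p.1.1, a)) (g c (p.1.1, a))) (pairV p.1.2 p.2),
    fun f p ⟨a, h1, h2⟩ => ⟨a.res f, A.cl' f h1, by
      have := h2.res f
      rw [pairV_res, Hom.res_app, Hom.res_app] at this
      exact this⟩⟩

theorem triv_quot_ind (hb : A.Bd) {P : Sub L} (hA : FibOn A P)
    (hR : FibOn R ((P.ext' A).ext' (A.pull Hom.fst))) {C : Fm.{u} (L.prod (VZ.{u} D))}
    (hC : FibOn C (P.ext' (quotF A R))) (hs : SetOn C (P.ext' (quotF A R)))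
    {g : Sec.{u} (L.prod (VZ.{u} D))}
    (hg : ∀ c l a, P c l → A c (l, a) → C c ((l, conH (clsQ A R) c (l, a)), g c (l, a)))
    (hk : ∀ c l a a' r, P c l → A c (l, a) → A c (l, a') → R c (((l, a), a'), r) →
      Conn (sigF (quotF A R) C) c l (pairV (conH (clsQ A R) c (l, a)) (g c (l, a)))
        (pairV (conH (clsQ A R) c (l, a')) (g c (l, a')))) :
    TrivOn (C.and (qSub A R C g)) (P.ext' (quotF A R)) := by
  have hq := cov_quot hb hA hR
  have hS := fib_sig (fib_quot hb hA hR) hC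
  have hm : ∀ c l a, P c l → A c (l, a) → (sigF (quotF A R) C).mem c
      (l, pairV (conH (clsQ A R) c (l, a)) (g c (l, a))) := fun c l a hl ha =>
    sigF_pair.2 ⟨con_mem ha, hg c l a hl ha⟩
  have key : ∀ c l a a', P c l → Eqv A R c l a a' → A c (l, a) →
      Conn (sigF (quotF A R) C) c l (pairV (conH (clsQ A R) c (l, a)) (g c (l, a)))
        (pairV (conH (clsQ A R) c (l, a')) (g c (l, a'))) := by
    intro c l a a' hl h
    induction h with
    | rel x y h =>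
      intro _
      rcases h.2.2 with h' | ⟨r, h'⟩
      · exact h'.map ((conH (clsQ A R)).pairV g) fun c' f v hv => hm c' _ v (P.cl f hl) hv
      · exact hk c l x y r hl h.1 h.2.1 h'
    | refl x => exact fun ha => Conn.refl (hm c l x hl ha)
    | symm x y h ih => exact fun ha => (ih ((Eqv.mem_iff h).2 ha)).symm hS hl
    | trans x y z h _ ih ih' => exact fun ha => (ih ha).trans hS hl (ih' ((Eqv.mem_iff h).1 ha))
  refine triv_sub hC hs ?_ ?_ ?_
  · rintro c ⟨l, t⟩ x e ⟨hl, ht⟩ hx ⟨a0, h1, h2⟩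
    obtain ⟨a, ha, rfl⟩ := ext_vertex (hA c l hl) e h1
    refine ⟨a, ha, conn_of_vertex hS hl (hm c l a hl ha) (sigF_pair.2 ⟨ht, hx⟩) e ?_⟩
    rw [pairV_res, Hom.res_app, Hom.res_app]
    exact h2
  · rintro c ⟨l, t⟩ ⟨hl, ht⟩
    obtain ⟨a, ha, h⟩ := ht.1
    obtain ⟨y, hy, hy'⟩ := transport hC hl (conn_cone hq hl (con_mem ha) ht
      (by simpa using h.symm)) (hg c l a hl ha)
    exact ⟨y, hy, a, ha, hy'⟩
  · rintro c ⟨l, t⟩ x y ⟨hl, ht⟩ hx hy ⟨a, ha, h1⟩ ⟨a', ha', h2⟩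
    have e : ∀ {b z}, Conn (sigF (quotF A R) C) c l (pairV (conH (clsQ A R) c (l, b)) (g c (l, b)))
        (pairV t z) → clsQ A R c (l, b) = sndV t := by
      intro b z h
      obtain ⟨p, hp⟩ := h.map (Y := quotF A R) (l' := l) (Hom.fstV Hom.snd)
        fun c' f v hv => (sigF_iff.1 hv).2.1
      have := cone_path_snd hq hl hp (Iv.pt c true)
      rw [show atV _ _ = _ from hp.2.2.2] at this
      simpa [conH] using this.symm
    have h3 := key c l a a' hl (eqv_of_clsQ hb ha' ((e h1).trans (e h2).symm)) ha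
    refine conn_fibre hC hl (fun p q hp hq' => ?_) (h1.eucl hS hl (h3.trans hS hl h2))
    exact (triv_set_cone hq).inh (l := ((((l, t), t), p), q)) ⟨⟨⟨⟨hl, ht⟩, ht⟩, hp⟩, hq'⟩

end Pool.Agent.Lib.MP_5eb18a_lc
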