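import Mathlib

/-!
Presheaves on the product of the simplex category with a poset `D`, closed predicates,
extension problems, and the cell-by-cell extension principle.
-/

namespace Pool.Agent.Lib.MP_5eb18a_lc

universe u v v' v'' w

set_option linter.unusedSectionVars false

open Classical

variable {D : Type} [PartialOrder D]

/-- objects: a dimension and a stage -/
structure Ob (D : Type) where
  n : ℕ
  x : D

/-- arrows: a monotone map and a move to a later stage -/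
@[ext] structure Ar (c' c : Ob D) where
  f : Fin (c'.n + 1) → Fin (c.n + 1)
  mono : Monotone f
  le : c.x ≤ c'.x

def Ar.id (c : Ob D) : Ar c c := ⟨fun i => i, monotone_id, le_rfl⟩

def Ar.comp {c'' c' c : Ob D} (g : Ar c'' c') (f : Ar c' c) : Ar c'' c :=
  ⟨fun i => f.f (g.f i), f.mono.comp g.mono, f.le.trans g.le⟩

@[simp] theorem Ar.id_comp {c' c : Ob D} (f : Ar c' c) : (Ar.id c').comp f = f := rfl
@[simp] theorem Ar.comp_id {c' c : Ob D} (f : Ar c' c) : f.comp (Ar.id c) = f := rfl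
@[simp] theorem Ar.comp_assoc {c3 c2 c1 c : Ob D} (h : Ar c3 c2) (g : Ar c2 c1) (f : Ar c1 c) :
    (h.comp g).comp f = h.comp (g.comp f) := rfl

structure Psh (D : Type) [PartialOrder D] where
  obj : Ob D → Type v
  map : ∀ {c' c : Ob D}, Ar c' c → obj c → obj c'
  map_id : ∀ (c : Ob D) (l : obj c), map (Ar.id c) l = l
  map_comp : ∀ {c'' c' c : Ob D} (g : Ar c'' c') (f : Ar c' c) (l : obj c),
    map g (map f l) = map (g.comp f) l

attribute [simp] Psh.map_id Psh.map_comp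

@[reducible] def Psh.prod (L : Psh.{v} D) (L' : Psh.{v'} D) : Psh.{max v v'} D where
  obj c := L.obj c × L'.obj c
  map f p := (L.map f p.1, L'.map f p.2)
  map_id c p := by simp
  map_comp g f p := by simp

@[reducible] def yo (c : Ob D) : Psh.{0} D where
  obj c' := Ar c' c
  map g f := g.comp f
  map_id _ _ := rfl
  map_comp _ _ _ := rfl

/-- elements of the interval -/
@[ext] structure Iv (c : Ob D) where
  r : Fin (c.n + 1) → Bool
  mono : Monotone r

def Iv.res {c' c : Ob D} (f : Ar c' c) (r : Iv c) : Iv c' := ⟨fun i => r.r (f.f i), r.mono.comp f.mono⟩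

@[reducible] def II (D : Type) [PartialOrder D] : Psh.{0} D where
  obj c := Iv c
  map f r := r.res f
  map_id _ _ := rfl
  map_comp _ _ _ := rfl

def Iv.pt (c : Ob D) (e : Bool) : Iv c := ⟨fun _ => e, monotone_const⟩

/-- connection: `conn e r (pt e) = pt e`, `conn e r (pt !e) = r` -/
def Iv.conn {c : Ob D} (e : Bool) (r s : Iv c) : Iv c :=
  ⟨fun i => if e then (r.r i || s.r i) else (r.r i && s.r i), by
    intro i j h
    have h1 := r.mono h
    have h2 := s.mono h
    show (if e then (r.r i || s.r i) else (r.r i && s.r i)) ≤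
      (if e then (r.r j || s.r j) else (r.r j && s.r j))
    cases e <;> revert h1 h2 <;> cases r.r i <;> cases r.r j <;> cases s.r i <;> cases s.r j <;>
      simp⟩

@[simp] theorem Iv.res_id {c : Ob D} (r : Iv c) : r.res (Ar.id c) = r := rfl
@[simp] theorem Iv.res_res {c'' c' c : Ob D} (g : Ar c'' c') (f : Ar c' c) (r : Iv c) :
    (r.res f).res g = r.res (g.comp f) := rfl
@[simp] theorem Iv.res_pt {c' c : Ob D} (f : Ar c' c) (e : Bool) :
    (Iv.pt c e).res f = Iv.pt c' e := rfl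
@[simp] theorem Iv.res_conn {c' c : Ob D} (f : Ar c' c) (e : Bool) (r s : Iv c) :
    (Iv.conn e r s).res f = Iv.conn e (r.res f) (s.res f) := rfl
@[simp] theorem Iv.conn_pt_right {c : Ob D} (e : Bool) (r : Iv c) :
    Iv.conn e r (Iv.pt c e) = Iv.pt c e := by
  ext i; cases e <;> simp [Iv.conn, Iv.pt]
@[simp] theorem Iv.conn_pt_left {c : Ob D} (e : Bool) (r : Iv c) :
    Iv.conn e (Iv.pt c e) r = Iv.pt c e := by
  ext i; cases e <;> simp [Iv.conn, Iv.pt]
@[simp] theorem Iv.conn_pt_not_right {c : Ob D} (e : Bool) (r : Iv c) :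
    Iv.conn e r (Iv.pt c (!e)) = r := by
  ext i; cases e <;> simp [Iv.conn, Iv.pt]
@[simp] theorem Iv.conn_pt_not_left {c : Ob D} (e : Bool) (r : Iv c) :
    Iv.conn e (Iv.pt c (!e)) r = r := by
  ext i; cases e <;> simp [Iv.conn, Iv.pt]
@[simp] theorem Iv.conn_false_true_right {c : Ob D} (r : Iv c) :
    Iv.conn false r (Iv.pt c true) = r := Iv.conn_pt_not_right false r
@[simp] theorem Iv.conn_false_true_left {c : Ob D} (r : Iv c) :
    Iv.conn false (Iv.pt c true) r = r := Iv.conn_pt_not_left false r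
@[simp] theorem Iv.conn_true_false_right {c : Ob D} (r : Iv c) :
    Iv.conn true r (Iv.pt c false) = r := Iv.conn_pt_not_right true r
@[simp] theorem Iv.conn_true_false_left {c : Ob D} (r : Iv c) :
    Iv.conn true (Iv.pt c false) r = r := Iv.conn_pt_not_left true r
theorem Iv.pt_inj {c : Ob D} {e e' : Bool} (h : Iv.pt c e = Iv.pt c e') : e = e' :=
  congrFun (congrArg Iv.r h) 0
@[simp] theorem Iv.pt_eq_pt {c : Ob D} {e e' : Bool} : Iv.pt c e = Iv.pt c e' ↔ e = e' :=
  ⟨Iv.pt_inj, fun h => h ▸ rfl⟩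

/-- values: a family of heads indexed by all arrows into `c` -/
def Val (W : Type w) (c : Ob D) : Type w := ∀ c' : Ob D, Ar c' c → W

def Val.res {W : Type w} {c' c : Ob D} (f : Ar c' c) (v : Val W c) : Val W c' :=
  fun c'' g => v c'' (g.comp f)

@[simp] theorem Val.res_id {W : Type w} {c : Ob D} (v : Val W c) : v.res (Ar.id c) = v := rfl
@[simp] theorem Val.res_res {W : Type w} {c'' c' c : Ob D} (g : Ar c'' c') (f : Ar c' c)
    (v : Val W c) : (v.res f).res g = v.res (g.comp f) := rfl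
theorem Val.res_apply {W : Type w} {c'' c' c : Ob D} (g : Ar c'' c') (f : Ar c' c)
    (v : Val W c) : (v.res f) c'' g = v c'' (g.comp f) := rfl

/-- head of a value -/
def Val.hd {W : Type w} {c : Ob D} (v : Val W c) : W := v c (Ar.id c)

theorem Val.hd_res {W : Type w} {c' c : Ob D} (f : Ar c' c) (v : Val W c) :
    (v.res f).hd = v c' f := rfl

theorem Val.ext' {W : Type w} {c : Ob D} {v v' : Val W c}
    (h : ∀ c' (f : Ar c' c), (v.res f).hd = (v'.res f).hd) : v = v' := by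
  funext c' f; exact h c' f

@[reducible] def VV (D : Type) [PartialOrder D] (W : Type w) : Psh.{w} D where
  obj c := Val W c
  map f v := v.res f
  map_id _ _ := rfl
  map_comp _ _ _ := rfl

@[ext] structure Sub (L : Psh.{v} D) where
  mem : ∀ c, L.obj c → Prop
  cl : ∀ {c' c : Ob D} (f : Ar c' c) {l : L.obj c}, mem c l → mem c' (L.map f l)

instance (L : Psh.{v} D) : CoeFun (Sub L) (fun _ => ∀ c, L.obj c → Prop) := ⟨Sub.mem⟩

@[ext] structure Hom (L : Psh.{v} D) (L' : Psh.{v'} D) where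
  app : ∀ c, L.obj c → L'.obj c
  nat : ∀ {c' c : Ob D} (f : Ar c' c) (l : L.obj c), app c' (L.map f l) = L'.map f (app c l)

instance (L : Psh.{v} D) (L' : Psh.{v'} D) :
    CoeFun (Hom L L') (fun _ => ∀ c, L.obj c → L'.obj c) := ⟨Hom.app⟩

variable {L : Psh.{v} D} {L' : Psh.{v'} D} {L'' : Psh.{v''} D} {W : Type w}

def Sub.top (L : Psh.{v} D) : Sub L := ⟨fun _ _ => True, fun _ _ _ => trivial⟩
def Sub.bot (L : Psh.{v} D) : Sub L := ⟨fun _ _ => False, fun _ _ h => h⟩
def Sub.or (K K' : Sub L) : Sub L :=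
  ⟨fun c l => K c l ∨ K' c l, fun f _ h => h.imp (K.cl f) (K'.cl f)⟩
def Sub.and (K K' : Sub L) : Sub L :=
  ⟨fun c l => K c l ∧ K' c l, fun f _ h => ⟨K.cl f h.1, K'.cl f h.2⟩⟩
def Sub.comap (β : Hom L' L) (K : Sub L) : Sub L' :=
  ⟨fun c l => K c (β c l), fun f l h => by rw [β.nat]; exact K.cl f h⟩

@[simp] theorem Sub.top_mem (c) (l : L.obj c) : (Sub.top L).mem c l := trivial
@[simp] theorem Sub.bot_mem (c) (l : L.obj c) : ¬ (Sub.bot L).mem c l := fun h => h
@[simp] theorem Sub.or_mem (K K' : Sub L) (c) (l : L.obj c) :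
    (K.or K').mem c l ↔ K c l ∨ K' c l := Iff.rfl
@[simp] theorem Sub.and_mem (K K' : Sub L) (c) (l : L.obj c) :
    (K.and K').mem c l ↔ K c l ∧ K' c l := Iff.rfl
@[simp] theorem Sub.comap_mem (β : Hom L' L) (K : Sub L) (c) (l : L'.obj c) :
    (K.comap β).mem c l ↔ K c (β c l) := Iff.rfl

def Hom.id (L : Psh.{v} D) : Hom L L := ⟨fun _ l => l, fun _ _ => rfl⟩
def Hom.comp (β : Hom L' L'') (α : Hom L L') : Hom L L'' :=
  ⟨fun c l => β c (α c l), fun f l => by rw [α.nat, β.nat]⟩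
def Hom.fst : Hom (L.prod L') L := ⟨fun _ p => p.1, fun _ _ => rfl⟩
def Hom.snd : Hom (L.prod L') L' := ⟨fun _ p => p.2, fun _ _ => rfl⟩
def Hom.mk2 (α : Hom L L') (β : Hom L L'') : Hom L (L'.prod L'') :=
  ⟨fun c l => (α c l, β c l), fun f l => by rw [α.nat, β.nat]⟩
def yon {c : Ob D} (l : L.obj c) : Hom (yo c) L :=
  ⟨fun _ f => L.map f l, fun g f => (L.map_comp g f l).symm⟩
def Hom.ptI (L : Psh.{v} D) (e : Bool) : Hom L (II D) := ⟨fun c _ => Iv.pt c e, fun _ _ => rfl⟩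
def Hom.conn (e : Bool) (r s : Hom L (II D)) : Hom L (II D) :=
  ⟨fun c l => Iv.conn e (r c l) (s c l), fun f l => by rw [r.nat, s.nat]; rfl⟩

@[simp] theorem Hom.id_app (c) (l : L.obj c) : (Hom.id L).app c l = l := rfl
@[simp] theorem Hom.comp_app (β : Hom L' L'') (α : Hom L L') (c) (l : L.obj c) :
    (β.comp α).app c l = β c (α c l) := rfl
@[simp] theorem Hom.fst_app (c) (p : (L.prod L').obj c) :
    (Hom.fst : Hom (L.prod L') L).app c p = p.1 := rfl
@[simp] theorem Hom.snd_app (c) (p : (L.prod L').obj c) :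
    (Hom.snd : Hom (L.prod L') L').app c p = p.2 := rfl
@[simp] theorem Hom.mk2_app (α : Hom L L') (β : Hom L L'') (c) (l : L.obj c) :
    (α.mk2 β).app c l = (α c l, β c l) := rfl
@[simp] theorem yon_app {c : Ob D} (l : L.obj c) (c') (f : Ar c' c) :
    (yon l).app c' f = L.map f l := rfl
@[simp] theorem Hom.ptI_app (e : Bool) (c) (l : L.obj c) : (Hom.ptI L e).app c l = Iv.pt c e := rfl
@[simp] theorem Hom.conn_app (e : Bool) (r s : Hom L (II D)) (c) (l : L.obj c) :
    (Hom.conn e r s).app c l = Iv.conn e (r c l) (s c l) := rfl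

/-- the natural map to values with prescribed heads -/
def ofHead (h : ∀ c, L.obj c → W) : Hom L (VV D W) :=
  ⟨fun _ l c' g => h c' (L.map g l), fun f l => by
    funext c'' g; simp [Val.res]⟩

theorem ofHead_apply (h : ∀ c, L.obj c → W) (c) (l : L.obj c) (c') (g : Ar c' c) :
    (ofHead h).app c l c' g = h c' (L.map g l) := rfl

theorem ofHead_hd (h : ∀ c, L.obj c → W) (c) (l : L.obj c) :
    Val.hd ((ofHead h).app c l) = h c l := by
  simp [Val.hd, ofHead_apply]

theorem Hom.res_app (s : Hom L (VV D W)) {c' c} (f : Ar c' c) (l : L.obj c) :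
    Val.res f (s c l) = s c' (L.map f l) := (s.nat f l).symm

theorem Hom.apply_eq_hd (s : Hom L (VV D W)) {c' c} (f : Ar c' c) (l : L.obj c) :
    s c l c' f = Val.hd (s c' (L.map f l)) := by
  rw [← s.res_app]; rfl

/-- a value is determined by the heads of its restrictions -/
theorem ofHead_eq (h : ∀ c, L.obj c → W) {c} (l : L.obj c) (v : Val W c)
    (hv : ∀ c' (g : Ar c' c), h c' (L.map g l) = Val.hd (v.res g)) : (ofHead h).app c l = v := by
  funext c' g; exact hv c' g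

/-- case distinction along a closed predicate -/
noncomputable def Hom.ite (K : Sub L) (s t : Hom L (VV D W)) : Hom L (VV D W) :=
  ofHead fun c l => if K c l then Val.hd (s c l) else Val.hd (t c l)

theorem Hom.ite_pos {K : Sub L} {s t : Hom L (VV D W)} {c} {l : L.obj c} (h : K c l) :
    (Hom.ite K s t).app c l = s c l := by
  apply ofHead_eq; intro c' g
  rw [if_pos (K.cl g h), s.res_app]

theorem Hom.ite_eq {K : Sub L} {s t : Hom L (VV D W)} {c} {l : L.obj c}
    (h : ∀ c' (g : Ar c' c), K c' (L.map g l) → s c' (L.map g l) = t c' (L.map g l)) :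
    (Hom.ite K s t).app c l = t c l := by
  apply ofHead_eq; intro c' g
  rw [t.res_app]
  split_ifs with hk
  · rw [h c' g hk]
  · rfl

theorem Hom.ite_hd_neg {K : Sub L} {s t : Hom L (VV D W)} {c} {l : L.obj c} (h : ¬ K c l) :
    Val.hd ((Hom.ite K s t).app c l) = Val.hd (t c l) := by
  rw [Hom.ite, ofHead_hd, if_neg h]

/-- families of values over a presheaf -/
abbrev Fam (W : Type w) (L : Psh.{v} D) := Sub (L.prod (VV D W))

def Fam.pull (β : Hom L' L) (A : Fam W L) : Fam W L' :=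
  ⟨fun c p => A c (β c p.1, p.2), fun f p h => by
    have := A.cl f h
    simpa [β.nat] using this⟩

@[simp] theorem Fam.pull_mem (β : Hom L' L) (A : Fam W L) (c) (p : (L'.prod (VV D W)).obj c) :
    (A.pull β).mem c p ↔ A c (β c p.1, p.2) := Iff.rfl

theorem Fam.cl' (A : Fam W L) {c' c} (f : Ar c' c) {l : L.obj c} {v : Val W c}
    (h : A c (l, v)) : A c' (L.map f l, v.res f) := A.cl f h

/-- every section over `K ∩ K'` extends over `K'` -/
def Ext (A : Fam W L) (K K' : Sub L) : Prop :=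
  ∀ s : Hom L (VV D W), (∀ c l, K c l → K' c l → A c (l, s c l)) →
    ∃ t : Hom L (VV D W), (∀ c l, K c l → K' c l → t c l = s c l) ∧
      ∀ c l, K' c l → A c (l, t c l)

theorem attach {Y : Psh.{v'} D} (Q : Sub L) (m : Hom Y L)
    (t : Hom L (VV D W)) (t' : Hom Y (VV D W))
    (h1 : ∀ c y, Q c (m c y) → t' c y = t c (m c y))
    (inj : ∀ c y y', m c y = m c y' → ¬ Q c (m c y) → y = y') :
    ∃ t'' : Hom L (VV D W), (∀ c l, Q c l → t'' c l = t c l) ∧ ∀ c y, t'' c (m c y) = t' c y := by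
  refine ⟨ofHead fun c l => if Q c l then Val.hd (t c l) else
    if h : ∃ y, m c y = l then Val.hd (t' c h.choose) else Val.hd (t c l), ?_, ?_⟩
  · intro c l hl
    apply ofHead_eq; intro c' g
    rw [if_pos (Q.cl g hl), t.res_app]
  · intro c y
    apply ofHead_eq; intro c' g
    rw [← m.nat, t'.res_app]
    split_ifs with hq he
    · rw [h1 _ _ hq]
    · have := he.choose_spec
      have h2 : he.choose = Y.map g y := (inj _ _ _ this.symm hq).symm
      rw [h2]
    · exact absurd ⟨_, rfl⟩ he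

def Sub.sUnion (S : Set (Sub L)) : Sub L :=
  ⟨fun c l => ∃ Q ∈ S, Q.mem c l, fun f _ ⟨Q, hQ, h⟩ => ⟨Q, hQ, Q.cl f h⟩⟩

theorem zorn0 (A : Fam W L) (Q0 K' : Sub L) (s : Hom L (VV D W)) (R : Sub L → Prop)
    (hs : ∀ c l, Q0 c l → A c (l, s c l)) (h0 : R Q0)
    (hU : ∀ S : Set (Sub L), S.Nonempty → (∀ Q ∈ S, R Q) → R (Sub.sUnion S))
    (step : ∀ (Q : Sub L) (t : Hom L (VV D W)), R Q → (∀ c l, Q0 c l → Q c l) →
      (∀ c l, Q0 c l → t c l = s c l) → (∀ c l, Q c l → A c (l, t c l)) →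
      (∃ c l, K' c l ∧ ¬ Q c l) →
      ∃ (Q' : Sub L) (t' : Hom L (VV D W)), R Q' ∧ (∀ c l, Q c l → Q' c l) ∧
        (∀ c l, Q c l → t' c l = t c l) ∧ (∀ c l, Q' c l → A c (l, t' c l)) ∧
        ∃ c l, Q' c l ∧ ¬ Q c l) :
    ∃ t : Hom L (VV D W), (∀ c l, Q0 c l → t c l = s c l) ∧ ∀ c l, K' c l → A c (l, t c l) := by
  let St := {p : Sub L × Hom L (VV D W) // R p.1 ∧ (∀ c l, Q0 c l → p.1 c l) ∧
    (∀ c l, Q0 c l → p.2 c l = s c l) ∧ (∀ c l, p.1 c l → A c (l, p.2 c l))}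
  let r : St → St → Prop := fun p q => (∀ c l, p.1.1 c l → q.1.1 c l) ∧
    ∀ c l, p.1.1 c l → q.1.2 c l = p.1.2 c l
  have hmax : ∃ m : St, ∀ a, r m a → r a m := by
    apply exists_maximal_of_chains_bounded
    · intro C hC
      rcases C.eq_empty_or_nonempty with rfl | hne
      · exact ⟨⟨(Q0, s), h0, fun _ _ h => h, fun _ _ _ => rfl, hs⟩, fun _ h => h.elim⟩
      · let S : Set (Sub L) := (fun p : St => p.1.1) '' C
        let t : Hom L (VV D W) := ofHead fun c l =>
          if h : ∃ p ∈ C, p.1.1 c l then Val.hd (h.choose.1.2 c l) else Val.hd (s c l)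
        have ht : ∀ p ∈ C, ∀ c l, p.1.1 c l → t c l = p.1.2 c l := by
          intro p hp c l hl
          apply ofHead_eq; intro c' g
          have hl' := p.1.1.cl g hl
          have he : ∃ p ∈ C, p.1.1 c' (L.map g l) := ⟨p, hp, hl'⟩
          rw [dif_pos he, p.1.2.res_app]
          obtain ⟨hq, hq'⟩ := he.choose_spec
          rcases eq_or_ne he.choose p with h | h
          · rw [h]
          · rcases hC hq hp h with h | h
            · rw [h.2 _ _ hq']
            · rw [h.2 _ _ hl']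
        obtain ⟨p0, hp0⟩ := hne
        refine ⟨⟨(Sub.sUnion S, t), hU S ⟨_, p0, hp0, rfl⟩ ?_, ?_, ?_, ?_⟩, ?_⟩
        · rintro _ ⟨p, _, rfl⟩; exact p.2.1
        · intro c l h; exact ⟨_, ⟨p0, hp0, rfl⟩, p0.2.2.1 c l h⟩
        · intro c l h
          show t c l = s c l
          rw [ht p0 hp0 c l (p0.2.2.1 c l h), p0.2.2.2.1 c l h]
        · rintro c l ⟨_, ⟨p, hp, rfl⟩, h⟩
          show A c (l, t c l)
          rw [ht p hp c l h]; exact p.2.2.2.2 c l h
        · intro p hp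
          exact ⟨fun c l h => ⟨_, ⟨p, hp, rfl⟩, h⟩, fun c l h => ht p hp c l h⟩
    · intro a b c h1 h2
      exact ⟨fun _ _ h => h2.1 _ _ (h1.1 _ _ h),
        fun _ _ h => (h2.2 _ _ (h1.1 _ _ h)).trans (h1.2 _ _ h)⟩
  obtain ⟨⟨⟨Q, t⟩, hR, hQ, ht, hA⟩, hm⟩ := hmax
  refine ⟨t, ht, fun c l hl => hA c l ?_⟩
  by_contra hn
  obtain ⟨Q', t', hR', h1, h2, h3, c2, l2, h4, h5⟩ := step Q t hR hQ ht hA ⟨c, l, hl, hn⟩
  have := hm ⟨(Q', t'), hR', fun c l h => h1 c l (hQ c l h),
    fun c l h => (h2 c l (hQ c l h)).trans (ht c l h), h3⟩ ⟨h1, h2⟩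
  exact h5 (this.1 c2 l2 h4)

/-- the boundary sieve -/
def bd (c : Ob D) : Sub (yo c) :=
  ⟨fun c' f => c'.x ≠ c.x ∨ ¬ Function.Surjective f.f, fun {c'' c'} g {f} h => by
    rcases h with h | h
    · left; intro he
      exact h (le_antisymm (he ▸ g.le) f.le)
    · right; intro hs
      exact h (Function.Surjective.of_comp (f := f.f) (g := g.f) hs)⟩

theorem exists_section {c' c : Ob D} (f : Ar c' c) (hf : ¬ (bd c).mem c' f) (i : Fin (c'.n + 1)) :
    ∃ s : Ar c c', s.comp f = Ar.id c ∧ s.f (f.f i) = i := by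
  simp only [bd, not_or, not_not] at hf
  obtain ⟨hx, hs⟩ := hf
  let s0 : Fin (c.n + 1) → Fin (c'.n + 1) := Function.update (Function.surjInv hs) (f.f i) i
  have h0 : ∀ j, f.f (s0 j) = j := by
    intro j
    by_cases hj : j = f.f i
    · subst hj; simp [s0]
    · simp [s0, Function.update_of_ne hj, Function.surjInv_eq]
  refine ⟨⟨s0, ?_, hx.le⟩, ?_, by simp [s0]⟩
  · intro j j' hj
    rcases hj.eq_or_lt with rfl | hj
    · exact le_rfl
    · by_contra hn
      have := f.mono (not_le.1 hn).le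
      rw [h0, h0] at this
      exact absurd hj (not_lt.2 this)
  · ext j; simp [Ar.comp, Ar.id, h0]

theorem mem_of_not_bd (Q : Sub L) {c' c : Ob D} (f : Ar c' c) (hf : ¬ (bd c).mem c' f)
    {l : L.obj c} (h : Q c' (L.map f l)) : Q c l := by
  obtain ⟨s, hs, -⟩ := exists_section f hf 0
  have := Q.cl s h
  rwa [L.map_comp, hs, L.map_id] at this

theorem eq_id_of_not_bd {c : Ob D} (f : Ar c c) (hf : ¬ (bd c).mem c f) : f = Ar.id c := by
  simp only [bd, not_or, not_not] at hf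
  have hi : Function.Injective f.f := Finite.injective_iff_surjective.2 hf.2
  have hs : StrictMono f.f := f.mono.strictMono_of_injective hi
  ext i
  have := StrictMono.range_inj hs strictMono_id |>.1 (by simp [hf.2.range_eq])
  simp [this, Ar.id]

theorem ez_inj (Q : Sub L) {c : Ob D} {l : L.obj c} (hl : ¬ Q c l)
    (hb : ∀ c' f, (bd c).mem c' f → Q c' (L.map f l)) {c' : Ob D} (f g : Ar c' c)
    (hf : ¬ (bd c).mem c' f) (h : L.map f l = L.map g l) : f = g := by
  ext i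
  obtain ⟨s, hs, hi⟩ := exists_section f hf i
  have h1 : L.map (s.comp g) l = l := by
    rw [← L.map_comp, ← h, L.map_comp, hs, L.map_id]
  have h2 : ¬ (bd c).mem c (s.comp g) := fun hh => hl (h1 ▸ hb _ _ hh)
  have h3 := congrFun (congrArg Ar.f (eq_id_of_not_bd _ h2)) (f.f i)
  simp only [Ar.comp, Ar.id, hi] at h3
  rw [h3]

theorem exists_min_cell [WellFoundedGT D] (Q K' : Sub L) (h : ∃ c l, K' c l ∧ ¬ Q c l) :
    ∃ c l, K' c l ∧ ¬ Q c l ∧ ∀ c' f, (bd c).mem c' f → Q c' (L.map f l) := by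
  obtain ⟨x, ⟨n0, l0, h0⟩, hx⟩ := (wellFounded_gt (α := D)).has_min
    {x | ∃ n l, K' ⟨n, x⟩ l ∧ ¬ Q ⟨n, x⟩ l} (by
      obtain ⟨c, l, h⟩ := h; exact ⟨c.x, c.n, l, h⟩)
  have hex : ∃ n, ∃ l, K' ⟨n, x⟩ l ∧ ¬ Q ⟨n, x⟩ l := ⟨n0, l0, h0⟩
  obtain ⟨l, hK, hQ⟩ := Nat.find_spec hex
  refine ⟨_, l, hK, hQ, ?_⟩
  rintro ⟨m, y⟩ f hf
  by_contra hn
  have hyx : y = x := by
    by_contra hne
    exact hx y ⟨m, _, K'.cl f hK, hn⟩ (lt_of_le_of_ne f.le (Ne.symm hne))
  subst hyx
  rcases hf with hf | hf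
  · exact hf rfl
  generalize hN : Nat.find hex = N at *
  simp only [Function.Surjective, not_forall, not_exists] at hf
  obtain ⟨j, hj⟩ := hf
  rcases N with _ | N
  · exact hj 0 (Subsingleton.elim (α := Fin 1) _ _)
  · let d : Ar (⟨N, y⟩ : Ob D) ⟨N + 1, y⟩ :=
      ⟨fun i => Fin.succAbove j i, (Fin.strictMono_succAbove j).monotone, le_rfl⟩
    have hg : ∀ i, ∃ k, Fin.succAbove j k = f.f i := fun i => Fin.exists_succAbove_eq (hj i)
    choose g hg using hg
    let g' : Ar (⟨m, y⟩ : Ob D) ⟨N, y⟩ := ⟨g, fun i i' hi => by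
      have := f.mono hi
      rw [← hg, ← hg] at this
      exact (Fin.strictMono_succAbove j).le_iff_le.1 this, le_rfl⟩
    have hfg : g'.comp d = f := by ext i; simp [Ar.comp, g', d, hg]
    have hmin := Nat.find_min hex (m := N) (by omega)
    apply hmin
    refine ⟨L.map d l, K'.cl d hK, fun hq => hn ?_⟩
    have := Q.cl g' hq
    rwa [L.map_comp, hfg] at this

def Hom.im (m : Hom L' L) : Sub L :=
  ⟨fun c l => ∃ y, m c y = l, fun f _ ⟨y, h⟩ => ⟨L'.map f y, by rw [m.nat, h]⟩⟩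

/-- cell-by-cell extension -/
theorem cells [WellFoundedGT D] (A : Fam W L) (K K' : Sub L) (s : Hom L (VV D W))
    (hs : ∀ c l, K c l → K' c l → A c (l, s c l))
    (H : ∀ c l, K' c l → ¬ K c l → ∀ t : Hom (yo c) (VV D W),
      (∀ c' f, (bd c).mem c' f → A c' (L.map f l, t c' f)) →
      (∀ c' f, K c' (L.map f l) → t c' f = s c' (L.map f l)) →
      ∃ t' : Hom (yo c) (VV D W), (∀ c' f, (bd c).mem c' f → t' c' f = t c' f) ∧
        ∀ c' f, A c' (L.map f l, t' c' f)) :
    ∃ t : Hom L (VV D W), (∀ c l, K c l → K' c l → t c l = s c l) ∧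
      ∀ c l, K' c l → A c (l, t c l) := by
  have := zorn0 A (K.and K') K' s (fun _ => True) (fun c l h => hs c l h.1 h.2) trivial
    (fun _ _ _ => trivial) ?_
  · obtain ⟨t, h1, h2⟩ := this
    exact ⟨t, fun c l h h' => h1 c l ⟨h, h'⟩, h2⟩
  intro Q t _ hQ ht hA hex
  obtain ⟨c, l, hK', hn, hb⟩ := exists_min_cell Q K' hex
  obtain ⟨t', h1, h2⟩ := H c l hK' (fun h => hn (hQ c l ⟨h, hK'⟩)) (t.comp (yon l))
    (fun c' f hf => hA _ _ (hb c' f hf)) (fun c' f hf => ht _ _ ⟨hf, K'.cl f hK'⟩)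
  obtain ⟨t'', h3, h4⟩ := attach Q (yon l) t t'
    (fun c' f hf => h1 c' f (by by_contra hh; exact hn (mem_of_not_bd Q f hh hf)))
    (fun c' f g hfg hf => ez_inj Q hn hb f g (fun hh => hf (hb _ _ hh)) hfg)
  refine ⟨Q.or (yon l).im, t'', trivial, fun _ _ h => Or.inl h, h3, ?_, c, l,
    Or.inr ⟨Ar.id c, by simp⟩, hn⟩
  rintro c' l' (h | ⟨f, rfl⟩)
  · rw [h3 _ _ h]; exact hA _ _ h
  · rw [h4]; exact h2 _ _

end Pool.Agent.Lib.MP_5eb18a_lc
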