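import Pool.Agent.Lib.MP_5eb18a_lc.Interp

/-!
Soundness of the interpretation.
-/

namespace Pool.Agent.Lib.MP_5eb18a_lc

universe u v v' v'' w

set_option linter.unusedSectionVars false

open Classical

variable {D : Type} [PartialOrder D] [Countable D] [WellFoundedGT D]

attribute [local irreducible] cset gr ap p1 p2 enc ckey compOp extOp codeF

structure Mdl.Valid (M : Mdl.{u} D) (N : ℕ∞) : Prop where
  gu : ∀ i : ℕ, (i : ℕ∞) < N → GU (M.P i)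
  gu' : ∀ i z, M.P i z → GU (M.P i)
  bd : ∀ i, SB PT {z | M.P i z}
  sb : ∀ i : ℕ, ((i + 1 : ℕ) : ℕ∞) < N → SB (M.P (i + 1)) {z | M.P i z}
  clo : ∀ i, Clo.{u} (M.Φ i)
  phi : ∀ i, M.Φ (i + 1) = fun _ => ∅

def Ok (M : Mdl.{u} D) (Γ : List Tm) : Sub (EnvP.{u} D) :=
  ⟨fun c ρ => ∀ n A, Γ[n]? = some A → ρ n ∈ El (I M A c (dropE (n + 1) ρ)),
    fun f ρ h n A hA => by
      have := El.res (h n A hA) f
      rw [I_res] at this
      exact this⟩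

variable {M : Mdl.{u} D} {N : ℕ∞}

theorem ok_cons {Γ A c ρ a} (h : (Ok M Γ).mem c ρ) (ha : a ∈ El (I M A c ρ)) :
    (Ok M (A :: Γ)).mem c (consV a ρ) := by
  rintro (_ | n) B hB
  · obtain rfl : A = B := by simpa using hB
    exact ha
  · exact h n B (by simpa using hB)

theorem ok_drop {Γ A c ρ} (h : (Ok M (A :: Γ)).mem c ρ) : (Ok M Γ).mem c (dropE 1 ρ) := by
  intro n B hB
  have := h (n + 1) B (by simpa using hB)
  exact this

def Sem (M : Mdl.{u} D) (Γ : List Tm) (a b A : Tm) : Prop :=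
  ∀ c ρ, (Ok M Γ).mem c ρ → I M a c ρ = I M b c ρ ∧ I M a c ρ ∈ El (I M A c ρ)

theorem Sem.ty (hM : M.Valid N) {Γ A A' i} (h : Sem M Γ A A' (.univ i)) {c ρ}
    (hρ : (Ok M Γ).mem c ρ) : IsTy (M.P i) (M.Φ i) (I M A c ρ) :=
  (mem_univ (hM.bd i)).1 (h c ρ hρ).2

theorem Sem.tyOn (hM : M.Valid N) {Γ A A' i} (h : Sem M Γ A A' (.univ i)) :
    TyOn (M.P i) (M.Φ i) (ElF (I M A)) (Ok M Γ) := tyOn_ElF fun _ _ hρ => h.ty hM hρ

theorem Sem.tyOn' (hM : M.Valid N) {Γ A B B' i} (h : Sem M (A :: Γ) B B' (.univ i)) :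
    TyOn (M.P i) (M.Φ i) (ElF ((I M B).comp consH)) ((Ok M Γ).ext' (ElF (I M A))) :=
  tyOn_ElF fun _ _ hρ => h.ty hM (ok_cons hρ.1 hρ.2)

theorem Sem.gu (hM : M.Valid N) {Γ A A' i} (h : Sem M Γ A A' (.univ i)) {c ρ}
    (hρ : (Ok M Γ).mem c ρ) : GU (M.P i) := hM.gu' i _ (h.ty hM hρ c (Ar.id c)).1

theorem Sem.mot (hM : M.Valid N) {Γ C C' T i} (h : Sem M Γ C C' (.arr T (.univ i)))
    {X : Fm.{u} (EnvP.{u} D)} (hX : ∀ c ρ v, X c (ρ, v) → v ∈ El (I M T c ρ)) :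
    TyOn (M.P i) (M.Φ i) (ElF (Hom.appV ((I M C).comp Hom.fst) Hom.snd)) ((Ok M Γ).ext' X) :=
  tyOn_ElF fun c p hρ => (mem_univ (hM.bd i)).1 (arr_app (h c p.1 hρ.1).2 (hX c _ _ hρ.2))

theorem Sem.rel (hM : M.Valid N) {Γ R R' A i} (h : Sem M Γ R R' (.arr A (.arr A (.univ i)))) :
    TyOn (M.P i) (M.Φ i) (relF (I M R))
      (((Ok M Γ).ext' (ElF (I M A))).ext' ((ElF (I M A)).pull Hom.fst)) :=
  tyOn_ElF fun c p hρ => (mem_univ (hM.bd i)).1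
    (arr_app (arr_app (h c p.1.1 hρ.1.1).2 hρ.1.2) hρ.2)

theorem mem_empty {c ρ v} : ¬ v ∈ El (I M .empty c ρ) := fun h => by
  obtain ⟨z, hz, -⟩ := (mem_discH ⟨∅, trivial, fun _ h => h.elim⟩).1 h
  exact hz

theorem mem_unit {c ρ v} : v ∈ El (I M .unit c ρ) ↔ v = cstV c (num 0) :=
  (mem_discH (gu_top.SB_single trivial)).trans (by simp)

theorem mem_nat {c ρ v} : v ∈ El (I M .nat c ρ) ↔ ∃ k, v = cstV c (num k) :=
  (mem_discH gu_top.SB_nat).trans (by simp)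

theorem mem_sum {A B c ρ v} : v ∈ El (I M (.sum A B) c ρ) ↔
    (∃ a, v = pairV (cstV c (num 0)) a ∧ a ∈ El (I M A c ρ)) ∨
      ∃ a, v = pairV (cstV c (num 1)) a ∧ a ∈ El (I M B c ρ) := mem_sumH

theorem mem_trunc {A c ρ v} :
    v ∈ El (I M (.trunc A) c ρ) ↔ (truncF (ElF (I M A))).mem c (ρ, v) := mem_truncH

theorem mem_quot {A R c ρ v} :
    v ∈ El (I M (.quot A R) c ρ) ↔ (quotF (ElF (I M A)) (relF (I M R))).mem c (ρ, v) := by
  rw [← ElF_quotH]; rfl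

theorem I_sumRec (C f g t c ρ) :
    I M (.sumRec C f g t) c ρ = sumRecH c ((I M f c ρ, I M g c ρ), I M t c ρ) := rfl

theorem I_natRec (C f g t c ρ) :
    I M (.natRec C f g t) c ρ = natRecH c ((I M f c ρ, I M g c ρ), I M t c ρ) := rfl

theorem natIt_mem {C z s : Tm} {c ρ} (hz : I M z c ρ ∈ El (I M (.app C .zero) c ρ))
    (hs : I M s c ρ ∈ El (I M C.natMeth c ρ)) (k) :
    natIt (I M z c ρ) (I M s c ρ) k ∈ El (appV (I M C c ρ) (cstV c (num k))) := by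
  induction k with
  | zero => exact hz
  | succ k ih =>
    have := arr_app (pi_app hs (mem_nat.2 ⟨k, rfl⟩)) (by simpa using ih)
    simp only [I_app, I_lift, dropE_cons, dropE_zero, I_succ, I_var, consV_zero] at this
    exact this

theorem wrec_mem {A B C e : Tm} {Γ} (he : Sem M Γ e e (.wMeth A B C)) {c ρ w}
    (h : WMem (ElF (I M A)) (ElF ((I M B).comp consH)) c ρ w) :
    (Ok M Γ).mem c ρ → wrecH c (I M e c ρ, w) ∈ El (appV (I M C c ρ) w) := by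
  induction h with
  | mk c ρ a F h1 h2 h3 ih =>
    intro hρ
    let B1 : Fm.{u} (yo c) := (ElF ((I M B).comp consH)).pull
      ((yon (L := EnvP D) ρ).mk2 (yon (L := VZ.{u} D) a))
    let b : Sec.{u} ((yo c).prod (VZ.{u} D)) := wrecH.comp
      ((((I M e).comp (yon (L := EnvP D) ρ)).comp Hom.fst).mk2
        (Hom.appV ((yon (L := VZ.{u} D) F).comp Hom.fst) Hom.snd))
    rw [wrecH_eq (ElF_bd _) (WMem.mk c ρ a F h1 h2 h3) _ (lamH B1 b c (Ar.id c))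
      fun c' f => by rw [I_res]; rfl]
    have hF : F ∈ El (I M (.arr B (.lift 1 (.W A B))) c (consV a ρ)) := by
      refine (mem_pi_iff (X := B1) (l := Ar.id c) (Y := (wF (ElF (I M A))
        (ElF ((I M B).comp consH))).pull ((yon (L := EnvP D) ρ).comp Hom.fst))
        (fun c' f v => by simp [B1]) (fun c' f x v _ => by simpa using mem_W) _).2 ?_
      exact fun c' f => ⟨h2 c' f, h3 c' f⟩
    have := arr_app (pi_app (pi_app (he c ρ hρ).2 h1) hF) (a := lamH B1 b c (Ar.id c)) (by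
      refine (mem_pi_iff (X := B1) (l := Ar.id c) (Y := ElF (Hom.appV
        (((I M C).comp (yon (L := EnvP D) ρ)).comp Hom.fst)
        (Hom.appV ((yon (L := VZ.{u} D) F).comp Hom.fst) Hom.snd)))
        (fun c' f v => by simp [B1]) (fun c' f x v _ => by simp) _).2 ?_
      exact lamH_mem ((ElF_bd _).pull _) fun c' f x hx => ih c' f x hx ((Ok M Γ).cl f hρ))
    simpa using this

theorem J_sem (hM : M.Valid N) {Γ A C C' d d' a a' b b' p p' i}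
    (hC : Sem M Γ C C' (.idMot A i)) (hd : Sem M Γ d d' (.idMeth A C)) (ha : Sem M Γ a a' A)
    (hp : Sem M Γ p p' (.id A a b)) {c ρ} (hρ : (Ok M Γ).mem c ρ) :
    (I M p c ρ = rfV (I M a c ρ) → I M (.J C d a b' p) c ρ = appV (I M d c ρ) (I M a c ρ)) ∧
      I M (.J C d a b' p) c ρ ∈ El (I M (.app3 C a b p) c ρ) := by
  refine jH_spec (A := ElF (I M A)) (b := I M b) (Q := Ok M Γ)
    (fun c ρ hρ => pathU_ElF.2 (mem_idH.1 (hp c ρ hρ).2)) (fun c ρ x y q hρ hq => ?_)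
    (fun c ρ hρ => ?_) hρ
  · have := arr_app (pi_app (pi_app (hC c ρ hρ).2 (Conn.left ⟨q, hq⟩)) (a := y)
      (by simpa using Conn.right ⟨q, hq⟩)) (a := q) (by simpa using mem_idH.2 (pathU_ElF.1 hq))
    exact ((mem_univ (hM.bd i)).1 this c (Ar.id c)).2.1
  · simpa using pi_app (hd c ρ hρ).2 (ha c ρ hρ).2

theorem trunc_sem (hM : M.Valid N) {Γ A C C' h h' g g' t t' i}
    (hC : Sem M Γ C C' (.arr (.trunc A) (.univ i)))
    (hh : Sem M Γ h h' (.pi (.trunc A) (.isProp (.app (.lift 1 C) (.var 0)))))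
    (hg : Sem M Γ g g' (.trMeth A C)) (ht : Sem M Γ t t' (.trunc A)) {c ρ}
    (hρ : (Ok M Γ).mem c ρ) :
    (∀ a, I M t c ρ = pairV (singV a) (cstV c ∅) →
      I M (.truncRec C h g t) c ρ = appV (I M g c ρ) a) ∧
      I M (.truncRec C h g t) c ρ ∈ El (I M (.app C t) c ρ) := by
  refine truncRecH_spec (A := ElF (I M A)) (Q := Ok M Γ)
    (hC.mot hM fun c ρ v h => mem_trunc.2 h).fib (propOn_of_isProp ?_) (fun c ρ a hρ ha => ?_)
    (fun c ρ hρ => mem_trunc.1 (ht c ρ hρ).2) hρ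
  · rintro c ⟨ρ, x⟩ ⟨hρ, hx⟩
    refine ⟨_, (mem_isProp (fun c' f v => ?_) _).1 (pi_app (hh c ρ hρ).2 (mem_trunc.2 hx))⟩
    simp
  · simpa using pi_app (hg c ρ hρ).2 ha

theorem quot_sem (hM : M.Valid N) {Γ A A' R R' C C' h h' g g' k k' t t' i j}
    (hA : Sem M Γ A A' (.univ i)) (hR : Sem M Γ R R' (.arr A (.arr A (.univ i))))
    (hC : Sem M Γ C C' (.arr (.quot A R) (.univ j)))
    (hh : Sem M Γ h h' (.pi (.quot A R) (.isSet (.app (.lift 1 C) (.var 0)))))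
    (hg : Sem M Γ g g' (.clsMeth A R C)) (hk : Sem M Γ k k' (.clsCoh A R C g))
    (ht : Sem M Γ t t' (.quot A R)) {c ρ} (hρ : (Ok M Γ).mem c ρ) :
    (∀ a, I M t c ρ = conH clsU c ((I M A c ρ, I M R c ρ), a) →
      I M (.quotRec A R C h g k t) c ρ = appV (I M g c ρ) a) ∧
      I M (.quotRec A R C h g k t) c ρ ∈ El (I M (.app C t) c ρ) := by
  refine quotRecH_spec (Q := Ok M Γ) (hA.tyOn hM).fib (hR.rel hM).fib
    (hC.mot hM fun c ρ v h => mem_quot.2 h).fib (setOn_of_isSet ?_) (fun c ρ a hρ ha => ?_)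
    (fun c ρ a a' r hρ ha ha' hr => ?_) (fun c ρ hρ => mem_quot.1 (ht c ρ hρ).2) hρ
  · rintro c ⟨ρ, x⟩ ⟨hρ, hx⟩
    refine ⟨_, (mem_isSet (fun c' f v => ?_) _).1 (pi_app (hh c ρ hρ).2 (mem_quot.2 hx))⟩
    simp
  · simpa using pi_app (hg c ρ hρ).2 ha
  · have := arr_app (pi_app (pi_app (hk c ρ hρ).2 ha) (a := a') (by simpa using ha')) (a := r)
      (by simpa using hr)
    refine ⟨_, (mem_id_iff (fun c' f v => ?_) ?_ ?_ _).1 this⟩
    · simp only [consV_res, I_lift, dropE_cons, dropE_zero]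
      exact mem_sigma_iff (fun v => mem_quot) (fun a v _ => by simp) _
    · simp
    · simp

theorem sound (hM : M.Valid N) {Γ a b A} (h : Der N Γ a b A) : Sem M Γ a b A := by
  induction h with
  | var h => exact fun c ρ hρ => ⟨rfl, by simpa using hρ _ _ h⟩
  | weak _ ih => exact fun c ρ hρ => by simpa using ih c _ (ok_drop hρ)
  | @subst Γ Δ σ τ a b A _ _ h3 ih ih' =>
    intro c ρ hρ
    have e : (fun n => I M (σ n) c ρ) = fun n => I M (τ n) c ρ := by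
      funext n
      cases h : Δ[n]? with
      | none => rw [h3 n h]
      | some B => exact (ih' n B h c ρ hρ).1
    simp only [I_sub, ← e]
    refine ih c _ fun n B hB => ?_
    simpa [I_sub] using (ih' n B hB c ρ hρ).2
  | symm _ ih => exact fun c ρ hρ => ⟨(ih c ρ hρ).1.symm, (ih c ρ hρ).1 ▸ (ih c ρ hρ).2⟩
  | trans _ _ ih ih' =>
    exact fun c ρ hρ => ⟨(ih c ρ hρ).1.trans (ih' c ρ hρ).1, (ih c ρ hρ).2⟩
  | conv _ _ ih ih' => exact fun c ρ hρ => ⟨(ih c ρ hρ).1, (ih' c ρ hρ).1 ▸ (ih c ρ hρ).2⟩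
  | @univ Γ i h =>
    refine fun c ρ _ => ⟨rfl, (mem_univ (hM.bd _)).2 ?_⟩
    refine isTy_codeF (hM.gu _ h) (sm_u gu_top (hM.bd i) _ _) (Q := Sub.top _)
      ⟨sm_u (hM.gu _ h) (hM.sb i h) _ _, fib_u (hM.gu i (lt_trans (by exact_mod_cast by omega) h))
        _ _, ?_⟩ trivial
    rw [hM.phi]
    exact fun _ _ _ _ h => h.elim
  | @cumul Γ A B i h _ ih =>
    refine fun c ρ hρ => ⟨(ih c ρ hρ).1, (mem_univ (hM.bd _)).2 fun c' f => ?_⟩
    have := ih.ty hM hρ c' f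
    refine ⟨(hM.gu _ h).of_SB (hM.sb i h) this.1, this.2.1, ?_⟩
    rw [hM.phi]
    exact fun _ h => h.elim
  | pi _ _ ihA ihB =>
    refine fun c ρ hρ => ⟨codeF_congr fun c' f v => piF_congr (fun c'' g v => ?_)
      (fun c'' g a b ha => ?_) _, (mem_univ (hM.bd _)).2 (isTy_codeF (ihA.gu hM hρ)
        ((ElF_bd _).pi (ElF_bd _)) (ty_pi (ihA.gu hM hρ) (hM.clo _) (ElF_bd _) (ihA.tyOn hM)
          (ihB.tyOn' hM)) hρ)⟩
    · rw [ElF_mem, ElF_mem, (ihA _ _ (Sub.cl _ g (Sub.cl _ f hρ))).1]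
    · exact iff_of_eq (congrArg (b ∈ El ·) (ihB _ _ (ok_cons (Sub.cl _ g (Sub.cl _ f hρ)) ha)).1)
  | lam _ _ ihA ihb =>
    refine fun c ρ hρ => ⟨lamH_congr (fun c' f v => ?_) fun c' f a ha =>
      (ihb _ _ (ok_cons (Sub.cl _ f hρ) ha)).1, mem_pi.2 (lamH_mem (ElF_bd _) fun c' f a ha =>
      (ihb _ _ (ok_cons (Sub.cl _ f hρ) ha)).2)⟩
    rw [ElF_mem, ElF_mem, (ihA _ _ (Sub.cl _ f hρ)).1]
  | app _ _ ihf iha =>
    exact fun c ρ hρ => ⟨by simp [(ihf c ρ hρ).1, (iha c ρ hρ).1],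
      by simpa using pi_app (ihf c ρ hρ).2 (iha c ρ hρ).2⟩
  | @beta Γ a b A B _ _ ihb iha =>
    intro c ρ hρ
    have : I M (.app (.lam A b) a) c ρ = I M b c (consV (I M a c ρ) ρ) :=
      app_lamH (ElF_bd _) (iha c ρ hρ).2
    rw [this]
    exact ⟨by simp, by simpa using (ihb _ _ (ok_cons hρ (iha c ρ hρ).2)).2⟩
  | eta _ ih =>
    refine fun c ρ hρ => ⟨(lamH_eq (ElF_bd _) (fun c' f => (mem_pi.1 (ih c ρ hρ).2 c' f).1)
      fun c' f a _ => ?_).symm, (ih c ρ hρ).2⟩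
    simp [I_res]
  | sigma _ _ ihA ihB =>
    refine fun c ρ hρ => ⟨codeF_congr fun c' f v => sigF_congr (fun v => ?_)
      (fun a b ha => ?_) _, (mem_univ (hM.bd _)).2 (isTy_codeF (ihA.gu hM hρ)
        ((ElF_bd _).sig (ElF_bd _)) (ty_sig (ihA.gu hM hρ) (hM.clo _) (ihA.tyOn hM)
          (ihB.tyOn' hM)) hρ)⟩
    · rw [ElF_mem, ElF_mem, (ihA _ _ (Sub.cl _ f hρ)).1]
    · exact iff_of_eq (congrArg (b ∈ El ·) (ihB _ _ (ok_cons (Sub.cl _ f hρ) ha)).1)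
  | pair _ _ iha ihb =>
    exact fun c ρ hρ => ⟨by simp [(iha c ρ hρ).1, (ihb c ρ hρ).1],
      pair_mem.2 ⟨(iha c ρ hρ).2, by simpa using (ihb c ρ hρ).2⟩⟩
  | sigRec _ _ _ _ ihg ihp =>
    refine fun c ρ hρ => ⟨by simp [I, (ihg c ρ hρ).1, (ihp c ρ hρ).1], ?_⟩
    obtain ⟨h1, h2, h3⟩ := sigma_elim (ihp c ρ hρ).2
    have := pi_app (pi_app (ihg c ρ hρ).2 h2) h3
    simp only [I_app, I_lift, dropE_cons, dropE_zero, I_pair, I_var, consV_succ, consV_zero,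
      ← h1] at this
    exact this
  | sigBeta _ _ _ _ _ ihg iha ihb =>
    refine fun c ρ hρ => ⟨by simp [I, Tm.app2], ?_⟩
    have := (ihb c ρ hρ).2
    rw [I_inst] at this
    have := pi_app (pi_app (ihg c ρ hρ).2 (iha c ρ hρ).2) this
    simp only [I_app, I_lift, dropE_cons, dropE_zero, I_pair, I_var, consV_succ, consV_zero] at this
    simpa [I] using this
  | @sum Γ A A' B B' i _ _ ihA ihB =>
    refine fun c ρ hρ => ⟨by simp [I, (ihA c ρ hρ).1, (ihB c ρ hρ).1], (mem_univ (hM.bd _)).2 ?_⟩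
    exact isTy_codeF (ihA.gu hM hρ) ((ElF_bd _).sum (ElF_bd _))
      (Q := (Ok M Γ).image ((I M A).mk2 (I M B))) (ty_sum (ihA.gu hM hρ) (hM.clo _)
        (tyOn_ElF (by rintro c _ ⟨ρ, hρ, rfl⟩; exact ihA.ty hM hρ))
        (tyOn_ElF (by rintro c _ ⟨ρ, hρ, rfl⟩; exact ihB.ty hM hρ))) ⟨ρ, hρ, rfl⟩
  | inl _ ih =>
    exact fun c ρ hρ => ⟨by simp [(ih c ρ hρ).1], mem_sum.2 (Or.inl ⟨_, rfl, (ih c ρ hρ).2⟩)⟩
  | inr _ ih =>
    exact fun c ρ hρ => ⟨by simp [(ih c ρ hρ).1], mem_sum.2 (Or.inr ⟨_, rfl, (ih c ρ hρ).2⟩)⟩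
  | sumRec _ _ _ _ _ ihf ihg iht =>
    refine fun c ρ hρ => ⟨by simp [I, (ihf c ρ hρ).1, (ihg c ρ hρ).1, (iht c ρ hρ).1], ?_⟩
    rcases mem_sum.1 (iht c ρ hρ).2 with ⟨a, h1, h2⟩ | ⟨a, h1, h2⟩
    · rw [I_sumRec, I_app, h1, sumRecH_inl]
      simpa using pi_app (ihf c ρ hρ).2 h2
    · rw [I_sumRec, I_app, h1, sumRecH_inr]
      simpa using pi_app (ihg c ρ hρ).2 h2
  | sumBetaL _ _ _ _ _ ihf _ iha =>
    refine fun c ρ hρ => ⟨sumRecH_inl _ _ _, ?_⟩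
    rw [I_sumRec, I_inl, sumRecH_inl]
    simpa using pi_app (ihf c ρ hρ).2 (iha c ρ hρ).2
  | sumBetaR _ _ _ _ _ _ ihg iha =>
    refine fun c ρ hρ => ⟨sumRecH_inr _ _ _, ?_⟩
    rw [I_sumRec, I_inr, sumRecH_inr]
    simpa using pi_app (ihg c ρ hρ).2 (iha c ρ hρ).2
  | empty h =>
    exact fun c ρ _ => ⟨rfl, (mem_univ (hM.bd _)).2 (isTy_discH (hM.gu _ h) (hM.clo _)
      ⟨∅, (hM.gu _ h).empty, fun _ h => h.elim⟩ c)⟩
  | emptyRec _ _ _ iht => exact fun c ρ hρ => (mem_empty (iht c ρ hρ).2).elim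
  | unit h =>
    exact fun c ρ _ => ⟨rfl, (mem_univ (hM.bd _)).2 (isTy_discH (hM.gu _ h) (hM.clo _)
      ((hM.gu _ h).SB_single ((hM.gu _ h).num 0)) c)⟩
  | star => exact fun c ρ _ => ⟨rfl, mem_unit.2 rfl⟩
  | unitRec _ _ _ _ ihc iht =>
    refine fun c ρ hρ => ⟨(ihc c ρ hρ).1, ?_⟩
    rw [I_app, mem_unit.1 (iht c ρ hρ).2]
    exact (ihc c ρ hρ).2
  | unitBeta _ _ _ ihc => exact fun c ρ hρ => ⟨rfl, (ihc c ρ hρ).2⟩
  | nat h =>
    exact fun c ρ _ => ⟨rfl, (mem_univ (hM.bd _)).2 (isTy_discH (hM.gu _ h) (hM.clo _)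
      (hM.gu _ h).SB_nat c)⟩
  | zero => exact fun c ρ _ => ⟨rfl, mem_nat.2 ⟨0, rfl⟩⟩
  | succ _ ih =>
    refine fun c ρ hρ => ⟨by simp [(ih c ρ hρ).1], ?_⟩
    obtain ⟨k, hk⟩ := mem_nat.1 (ih c ρ hρ).2
    exact mem_nat.2 ⟨k + 1, by rw [I_succ, hk]; rfl⟩
  | natRec _ _ _ _ _ ihz ihs ihn =>
    refine fun c ρ hρ => ⟨by simp [I, (ihz c ρ hρ).1, (ihs c ρ hρ).1, (ihn c ρ hρ).1], ?_⟩
    obtain ⟨k, hk⟩ := mem_nat.1 (ihn c ρ hρ).2
    rw [I_natRec, I_app, hk, natRecH_eq]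
    exact natIt_mem (ihz c ρ hρ).2 (ihs c ρ hρ).2 k
  | natBetaZ _ _ _ _ ihz ihs =>
    refine fun c ρ hρ => ⟨natRecH_eq _ _ 0, ?_⟩
    rw [I_natRec, I_zero, natRecH_eq]
    exact natIt_mem (ihz c ρ hρ).2 (ihs c ρ hρ).2 0
  | @natBetaS Γ C z s n i _ _ _ _ _ ihz ihs ihn =>
    intro c ρ hρ
    obtain ⟨k, hk⟩ := mem_nat.1 (ihn c ρ hρ).2
    have e : I M (.succ n) c ρ = cstV c (num (k + 1)) := by rw [I_succ, hk]; rfl
    have e1 : I M (.natRec C z s (.succ n)) c ρ = natIt (I M z c ρ) (I M s c ρ) (k + 1) := by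
      rw [← natRecH_eq, ← e]; rfl
    have e2 : I M (.natRec C z s n) c ρ = natIt (I M z c ρ) (I M s c ρ) k := by
      rw [← natRecH_eq, ← hk]; rfl
    rw [e1, I_app2, e2, hk, I_app, e]
    exact ⟨rfl, natIt_mem (ihz c ρ hρ).2 (ihs c ρ hρ).2 (k + 1)⟩
  | @id Γ A A' a a' b b' i _ _ _ ihA iha ihb =>
    refine fun c ρ hρ => ⟨by simp [(ihA c ρ hρ).1, (iha c ρ hρ).1, (ihb c ρ hρ).1],
      (mem_univ (hM.bd _)).2 ?_⟩
    exact isTy_codeF (ihA.gu hM hρ) elU_bd.pathU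
      (Q := (Ok M Γ).image (((I M A).mk2 (I M a)).mk2 (I M b))) (ty_path (ihA.gu hM hρ) (hM.clo _)
        (tyOn_ElF (T := Hom.fst.comp Hom.fst) (by rintro c _ ⟨ρ, hρ, rfl⟩; exact ihA.ty hM hρ))
        (by rintro c _ ⟨ρ, hρ, rfl⟩; exact (iha c ρ hρ).2)
        (by rintro c _ ⟨ρ, hρ, rfl⟩; exact (ihb c ρ hρ).2)) ⟨ρ, hρ, rfl⟩
  | refl _ ih =>
    exact fun c ρ hρ => ⟨by simp [(ih c ρ hρ).1], mem_idH.2 (rfV_mem (ih c ρ hρ).2)⟩
  | J _ _ _ _ _ ihC ihd iha _ ihp =>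
    exact fun c ρ hρ => ⟨by simp [I, (ihC c ρ hρ).1, (ihd c ρ hρ).1, (iha c ρ hρ).1, (ihp c ρ hρ).1],
      (J_sem hM ihC ihd iha ihp hρ).2⟩
  | @JBeta Γ A C d a i _ _ _ ihC ihd iha =>
    intro c ρ hρ
    have := J_sem hM (b' := a) ihC ihd iha (p := .refl a) (p' := .refl a)
      (fun c ρ hρ => ⟨rfl, mem_idH.2 (rfV_mem (iha c ρ hρ).2)⟩) hρ
    exact ⟨this.1 rfl, this.2⟩
  | W _ _ ihA ihB =>
    refine fun c ρ hρ => ⟨codeF_congr fun c' f v => wF_congr (fun c'' g v => ?_)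
      (fun c'' g a b ha => ?_) _, (mem_univ (hM.bd _)).2 (isTy_codeF (ihA.gu hM hρ)
        ((ElF_bd _).w (ElF_bd _)) (ty_w (ihA.gu hM hρ) (hM.clo _) (ElF_bd _) (ihA.tyOn hM)
          (ihB.tyOn' hM)) hρ)⟩
    · rw [ElF_mem, ElF_mem, (ihA _ _ (Sub.cl _ g (Sub.cl _ f hρ))).1]
    · exact iff_of_eq (congrArg (b ∈ El ·) (ihB _ _ (ok_cons (Sub.cl _ g (Sub.cl _ f hρ)) ha)).1)
  | sup _ _ iha ihf =>
    refine fun c ρ hρ => ⟨by simp [(iha c ρ hρ).1, (ihf c ρ hρ).1],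
      mem_W.2 (wF_iff.2 (sigF_pair.2 ⟨(iha c ρ hρ).2, ?_⟩))⟩
    refine (mem_pi_iff (fun c' f v => ?_) (fun c' f x v _ => ?_) _).1 (ihf c ρ hρ).2
    · simp [I_res]
    · simpa using mem_W
  | wRec _ _ _ _ ihe ihw =>
    exact fun c ρ hρ => ⟨by simp [I, (ihe c ρ hρ).1, (ihw c ρ hρ).1],
      wrec_mem (fun c ρ hρ => ⟨rfl, (ihe c ρ hρ).2⟩) (mem_W.1 (ihw c ρ hρ).2) hρ⟩
  | @wBeta Γ A B C e a f i _ _ _ _ _ ihe iha ihf =>
    intro c ρ hρ
    have hw : (wF (ElF (I M A)) (ElF ((I M B).comp consH))).mem c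
        (ρ, pairV (I M a c ρ) (I M f c ρ)) := by
      refine wF_iff.2 (sigF_pair.2 ⟨(iha c ρ hρ).2, ?_⟩)
      refine (mem_pi_iff (fun c' f v => ?_) (fun c' f x v _ => ?_) _).1 (ihf c ρ hρ).2
      · simp [I_res]
      · simpa using mem_W
    refine ⟨wrecH_eq (ElF_bd _) hw _ _ fun c' g => ?_, wrec_mem ihe hw hρ⟩
    simp only [I, lamH, ofHead_apply]
    refine gr_congr ?_ fun b _ => ?_
    · ext v; simp [I_res]
    · simp [I_res, varH]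
  | @trunc Γ A A' i _ ihA =>
    refine fun c ρ hρ => ⟨by simp [(ihA c ρ hρ).1], (mem_univ (hM.bd _)).2 ?_⟩
    exact isTy_codeF (ihA.gu hM hρ) elU_bd.trunc (Q := (Ok M Γ).image (I M A))
      (ty_trunc (ihA.gu hM hρ) (hM.clo _)
        (tyOn_ElF (T := Hom.id _) (by rintro c _ ⟨ρ, hρ, rfl⟩; exact ihA.ty hM hρ))) ⟨ρ, hρ, rfl⟩
  | tr _ ih => exact fun c ρ hρ => ⟨by simp [(ih c ρ hρ).1], mem_trunc.2 (con_mem (ih c ρ hρ).2)⟩
  | @squash Γ A A' i _ ihA =>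
    refine fun c ρ hρ => ⟨by simp [I, (ihA c ρ hρ).1], ?_⟩
    have e : ElF (truncH.comp (I M A)) = truncF (ElF (I M A)) := by ext c ⟨ρ, v⟩; exact mem_truncH
    have := pick_mem (T := isPropH.comp (truncH.comp (I M A))) (Q := Sub.top _) (by
      rw [ElF_isPropH, e]; exact triv_isProp_trunc (ElF_bd _) _) (l := ρ) trivial
    refine (mem_isProp (X := ElF (truncH.comp (I M A))) (fun _ _ _ => Iff.rfl) _).2 ?_
    rw [← ElF_isPropH]
    exact this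
  | truncRec _ _ _ _ ihC ihh ihg iht =>
    exact fun c ρ hρ => ⟨by simp [I, (ihC c ρ hρ).1, (ihg c ρ hρ).1, (iht c ρ hρ).1],
      (trunc_sem hM ihC ihh ihg iht hρ).2⟩
  | @truncBeta Γ A C h g a i _ _ _ _ ihC ihh ihg iha =>
    intro c ρ hρ
    have := trunc_sem hM ihC ihh ihg (t := .tr a) (t' := .tr a)
      (fun c ρ hρ => ⟨rfl, mem_trunc.2 (con_mem (iha c ρ hρ).2)⟩) hρ
    exact ⟨this.1 _ rfl, this.2⟩
  | @quot Γ A A' R R' i _ _ ihA ihR =>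
    refine fun c ρ hρ => ⟨by simp [(ihA c ρ hρ).1, (ihR c ρ hρ).1], (mem_univ (hM.bd _)).2 ?_⟩
    have := ty_quot (ihA.gu hM hρ) (hM.clo _) (ElF_bd _) (ihA.tyOn hM) (ihR.rel hM)
    refine isTy_of (Q := Ok M Γ) (T := quotH.comp ((I M A).mk2 (I M R))) (fun c ρ hρ => ?_)
      (by rw [ElF_quotH]; exact this.fib) (by rw [ElF_quotH]; exact this.good) hρ
    have e : quotH c (I M A c ρ, I M R c ρ) = codeF (quotF (ElF (I M A)) (relF (I M R))) c ρ :=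
      codeF_congr fun c' f v => by
        simpa [I_res] using quotF_U (I M A) (I M R) (resE f ρ) v
    rw [Hom.comp_app, Hom.mk2_app, e]
    exact codeF_small (ihA.gu hM hρ) this.sm hρ c (Ar.id c)
  | cls _ _ _ ihA ihR iha =>
    refine fun c ρ hρ => ⟨by simp [(ihA c ρ hρ).1, (ihR c ρ hρ).1, (iha c ρ hρ).1], ?_⟩
    exact mem_quot.2 ((quotF_U _ _ _ _).1 (con_mem (iha c ρ hρ).2))
  | @clsEq Γ A A' R R' i _ _ ihA ihR =>
    refine fun c ρ hρ => ⟨by simp [I, (ihA c ρ hρ).1, (ihR c ρ hρ).1], ?_⟩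
    have := pick_mem (T := clsEqH.comp ((I M A).mk2 (I M R))) (Q := Ok M Γ) (by
      rw [ElF_clsEqH]
      exact triv_clsEq (ElF_bd _) (relF_bd _) (ihA.tyOn hM).fib (ihR.rel hM).fib) hρ
    have h2 : (clsEqF (ElF (I M A)) (relF (I M R))).mem c (ρ, I M (.clsEq A R) c ρ) := by
      rw [← ElF_clsEqH]; exact this
    refine (mem_pi_iff (fun _ _ _ => Iff.rfl) (fun c1 f a v _ => ?_) _).2 h2
    refine mem_pi_iff (fun c2 g v => by simp) (fun c2 g b v _ => ?_) _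
    refine mem_pi_iff (fun c3 k v => by simp [relF]) (fun c3 k r v _ => ?_) _
    rw [I_lift, dropE_cons, dropE_zero]
    refine mem_id_iff (X := quotF (ElF (I M A)) (relF (I M R)))
      (l := resE (k.comp (g.comp f)) ρ) (fun c4 k' v => ?_) ?_ ?_ _
    · simp only [consV_res, I_lift, dropE_cons, dropE_zero, resE_resE]
      exact mem_quot
    · simp only [consV_res, I_lift, dropE_cons, dropE_zero, resE_resE, I_cls, I_var, consV_succ,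
        consV_zero]
      exact congrArg (pairV _) (clsU_eq _ _ _ _)
    · simp only [consV_res, I_lift, dropE_cons, dropE_zero, resE_resE, I_cls, I_var, consV_succ,
        consV_zero]
      exact congrArg (pairV _) (clsU_eq _ _ _ _)
  | @quotSet Γ A A' R R' i _ _ ihA ihR =>
    refine fun c ρ hρ => ⟨by simp [I, (ihA c ρ hρ).1, (ihR c ρ hρ).1], ?_⟩
    have := pick_mem (T := isSetH.comp (quotH.comp ((I M A).mk2 (I M R)))) (Q := Ok M Γ) (by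
      rw [ElF_isSetH, ElF_quotH]
      exact triv_isSet_cone ((ElF_bd _).quot _)
        (cov_quot (ElF_bd _) (ihA.tyOn hM).fib (ihR.rel hM).fib)) hρ
    refine (mem_isSet (X := ElF (quotH.comp ((I M A).mk2 (I M R)))) (fun _ _ _ => Iff.rfl) _).2 ?_
    rw [← ElF_isSetH]
    exact this
  | quotRec _ _ _ _ _ _ _ ihA ihR ihC ihh ihg ihk iht =>
    exact fun c ρ hρ => ⟨by simp [I, (ihA c ρ hρ).1, (ihR c ρ hρ).1, (ihC c ρ hρ).1,
      (ihg c ρ hρ).1, (iht c ρ hρ).1], (quot_sem hM ihA ihR ihC ihh ihg ihk iht hρ).2⟩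
  | @quotBeta Γ A R C h g k a i j _ _ _ _ _ _ _ ihA ihR ihC ihh ihg ihk iha =>
    intro c ρ hρ
    have := quot_sem hM ihA ihR ihC ihh ihg ihk (t := .cls A R a) (t' := .cls A R a)
      (fun c ρ hρ => ⟨rfl, mem_quot.2 ((quotF_U _ _ _ _).1 (con_mem (iha c ρ hρ).2))⟩) hρ
    exact ⟨this.1 _ rfl, this.2⟩
  | @ua Γ i h =>
    refine fun c ρ _ => ⟨rfl, (mem_uaTy (L := One D) (l := PUnit.unit) (hM.bd i) _).2 ?_⟩
    obtain ⟨h1, h2⟩ := triv_ua (L := One.{u} D) (hM.gu i h) (hM.bd i) (M.Φ i)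
    exact (mem_codeF h2).1 (pick_mem (T := codeF (uaF (M.P i) (M.Φ i) (One D))) (Q := Sub.top _)
      (by rw [ElF_codeF h2]; exact h1) trivial)

end Pool.Agent.Lib.MP_5eb18a_lc
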