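import Pool.Agent.Lib.MP_5eb18a_lc.Model

/-!
Homotopically constant diagrams over a span: closure under the type formers.
-/

namespace Pool.Agent.Lib.MP_5eb18a_lc

universe u v v' v'' w

set_option linter.unusedSectionVars false

attribute [local irreducible] cset gr ap p1 p2 enc ckey compOp extOp codeF

inductive Sp : Type
  | bot
  | up (p : Bool)
  deriving DecidableEq

instance : PartialOrder Sp where
  le x y := x = .bot ∨ x = y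
  le_refl _ := Or.inr rfl
  le_trans _ _ _ h h' := h.elim Or.inl fun e => e ▸ h'
  le_antisymm _ _ h h' := h.elim (fun e => h'.elim (fun e' => e.trans e'.symm) Eq.symm) id

instance : OrderBot Sp where
  bot := .bot
  bot_le _ := Or.inl rfl

instance : Finite Sp := Finite.of_surjective (fun o : Option Bool => o.elim Sp.bot Sp.up) (by
  rintro (_ | p)
  · exact ⟨none, rfl⟩
  · exact ⟨some p, rfl⟩)

theorem Sp.up_le {p : Bool} {x : Sp} (h : Sp.up p ≤ x) : x = Sp.up p := by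
  rcases h with h | h
  · cases h
  · exact h.symm

theorem Sp.up_ne_bot {p : Bool} : Sp.up p ≠ ⊥ := fun h => by cases h

theorem Sp.cases (p : Bool) (x : Sp) : x = ⊥ ∨ x = .up p ∨ x = .up (!p) := by
  rcases x with _ | q
  · exact Or.inl rfl
  · cases p <;> cases q <;> simp

abbrev mvU (n : ℕ) (p : Bool) : Ar (⟨n, .up p⟩ : Ob Sp) ⟨n, ⊥⟩ := mv n bot_le

def G2 : Gen Sp := fun {c1 c0} m φ => c0.x = ⊥ ∧ ∃ p, c1.x = .up p ∧
  (∀ c' (f : Ar c' c0), c'.x = .up p → ∃ f' : Ar c' c1, f = f'.comp m) ∧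
  (∀ c' f, c'.x = .up p → φ c' f) ∧
  ∀ n (f : Ar ⟨n, ⊥⟩ c0), φ _ ((mvU n (!p)).comp f) → φ _ f

theorem mvU_fac {n : ℕ} {p : Bool} {c' : Ob Sp} (f : Ar c' ⟨n, ⊥⟩) (h : c'.x = .up p) :
    ∃ f' : Ar c' ⟨n, .up p⟩, f = f'.comp (mvU n p) := ⟨⟨f.f, f.mono, h.ge⟩, rfl⟩

theorem g2_mvU {n : ℕ} {p : Bool} {φ : Sub (yo (⟨n, ⊥⟩ : Ob Sp))}
    (h1 : ∀ c' f, c'.x = .up p → φ c' f)
    (h2 : ∀ k (f : Ar ⟨k, ⊥⟩ ⟨n, ⊥⟩), φ _ ((mvU k (!p)).comp f) → φ _ f) : G2 (mvU n p) φ :=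
  ⟨rfl, p, rfl, fun _ f => mvU_fac f, h1, h2⟩

theorem g2_im (n : ℕ) (p : Bool) : (yon (L := yo ⟨n, ⊥⟩) (mvU n p)).im ∈ G2.cls ⟨n, ⊥⟩ :=
  ⟨_, _, g2_mvU (fun _ f e => let ⟨f', h⟩ := mvU_fac f e; ⟨f', h.symm⟩) fun k f ⟨g, _⟩ => by
    have := Sp.up_le g.le
    cases p <;> cases this⟩

variable {L : Psh.{v} Sp} {L' : Psh.{v'} Sp}

/-- the stage maps are bijective -/
def StB (L : Psh.{v} Sp) : Prop := ∀ n p, Function.Bijective (L.map (mvU n p))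

theorem StB.prod (h : StB L) (h' : StB L') : StB (L.prod L') := fun n p => (h n p).prodMap (h' n p)

theorem stB_II : StB (II Sp) := fun n p =>
  ⟨fun _ _ h => Iv.ext (congrArg (fun r : Iv ⟨n, Sp.up p⟩ => r.r) h), fun r => ⟨⟨r.r, r.mono⟩, rfl⟩⟩

theorem iv_mv {n p e} {r : Iv (⟨n, ⊥⟩ : Ob Sp)} (h : r.res (mvU n p) = Iv.pt _ e) :
    r = Iv.pt _ e := (stB_II n p).1 h

theorem stB_yo {c : Ob Sp} (h : c.x = ⊥) : StB (yo c) := fun n p =>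
  ⟨fun _ _ e => mv_inj' e, fun f => ⟨⟨f.f, f.mono, h.le⟩, rfl⟩⟩
where mv_inj' {n p} {f g : Ar ⟨n, ⊥⟩ c} (e : (mvU n p).comp f = (mvU n p).comp g) : f = g :=
  Ar.ext (congrArg (fun k : Ar ⟨n, .up p⟩ c => k.f) e)

@[reducible] def Ev (L : Psh.{v} Sp) (x : Sp) : Psh.{v} Sp where
  obj c := L.obj ⟨c.n, x⟩
  map {c' c} f l := L.map (c' := ⟨c'.n, x⟩) (c := ⟨c.n, x⟩) ⟨f.f, f.mono, le_rfl⟩ l
  map_id c l := L.map_id ⟨c.n, x⟩ l
  map_comp _ _ _ := L.map_comp _ _ _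

theorem ev_mv (x : Sp) (n p) (l : L.obj ⟨n, x⟩) : (Ev L x).map (mvU n p) l = l := L.map_id _ l

theorem stB_ev (x : Sp) : StB (Ev L x) := fun n p => by
  rw [show (Ev L x).map (mvU n p) = id from funext (ev_mv x n p)]
  exact Function.bijective_id

def Sub.ev (K : Sub L) (x : Sp) : Sub (Ev L x) := ⟨fun c l => K ⟨c.n, x⟩ l, fun _ _ h => K.cl _ h⟩

def evH (L : Psh.{v} Sp) : Hom (Ev L ⊥) L :=
  ⟨fun c l => L.map (mv c.n bot_le) l, fun {_ c} f l =>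
    (L.map_comp _ _ _).trans (L.map_comp f (mv c.n bot_le) l).symm⟩

def atS (L : Psh.{v} Sp) (q : Bool) : Sub L :=
  ⟨fun c _ => c.x = .up q, fun f _ h => Sp.up_le (h ▸ f.le)⟩

theorem cells2 (hL : StB L) (A : Fm.{u} L) (K K' : Sub L) (p : Bool) (s : Sec.{u} L)
    (hs : ∀ c l, K c l → K' c l → A c (l, s c l))
    (h1 : ∀ c l, c.x = .up p → K' c l → K c l)
    (h2 : ∀ n l, K' _ (L.map (mvU n (!p)) l) → K' _ l)
    (h3 : ∀ n l, K _ (L.map (mvU n (!p)) l) → K _ l)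
    (H : ∀ n (l : L.obj ⟨n, ⊥⟩), K' _ l → ∀ φ, G2 (mvU n p) φ → ∀ t : Sec.{u} (yo ⟨n, ⊥⟩),
      t _ (mvU n p) = s _ (L.map (mvU n p) l) → (∀ c' f, φ c' f → A c' (L.map f l, t c' f)) →
      ∃ t' : Sec.{u} (yo ⟨n, ⊥⟩), (∀ c' f, φ c' f → t' c' f = t c' f) ∧
        ∀ c' f, A c' (L.map f l, t' c' f)) :
    ∃ t : Sec.{u} L, (∀ c l, K c l → K' c l → t c l = s c l) ∧ ∀ c l, K' c l → A c (l, t c l) := by
  have := zorn0 A (K.and K') K' s (fun Q => ∀ n l, Q _ (L.map (mvU n (!p)) l) → Q _ l)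
    (fun c l h => hs c l h.1 h.2) (fun n l h => ⟨h3 n l h.1, h2 n l h.2⟩)
    (fun S _ hS n l ⟨Q, hQ, h⟩ => ⟨Q, hQ, hS Q hQ n l h⟩) ?_
  · obtain ⟨t, h1, h2⟩ := this
    exact ⟨t, fun c l h h' => h1 c l ⟨h, h'⟩, h2⟩
  intro Q t hR hQ ht hA hex
  let Q' : Sub L := Q.or ⟨fun c _ => c.x ≠ ⊥, fun g _ h e => h (le_bot_iff.1 (e ▸ g.le))⟩
  obtain ⟨⟨n, x⟩, l, hK', hn, hb⟩ := exists_min_cell Q' K' (by
    obtain ⟨⟨n, x⟩, l, h4, h5⟩ := hex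
    rcases Sp.cases p x with rfl | rfl | rfl
    · exact ⟨_, l, h4, fun h => h.elim h5 fun h => h rfl⟩
    · exact absurd (hQ _ _ ⟨h1 _ _ rfl h4, h4⟩) h5
    · obtain ⟨l', rfl⟩ := (hL n (!p)).2 l
      exact ⟨_, l', h2 n l' h4, fun h => h.elim (fun h => h5 (Q.cl _ h)) fun h => h rfl⟩)
  obtain rfl : x = ⊥ := by
    by_contra h; exact hn (Or.inr h)
  have hup : ∀ c' (f : Ar c' ⟨n, ⊥⟩), c'.x = .up p → Q c' (L.map f l) := fun c' f e =>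
    hQ _ _ ⟨h1 _ _ e (K'.cl f hK'), K'.cl f hK'⟩
  obtain ⟨t', h4, h5⟩ := H n l hK' (Q.comap (yon l)) (g2_mvU hup fun k f h => hR k _ (by
      rw [yon_app, L.map_comp]; exact h)) (t.comp (yon l))
    (ht _ _ ⟨h1 _ _ rfl (K'.cl _ hK'), K'.cl _ hK'⟩) fun c' f hf => hA _ _ hf
  have inj0 : ∀ k (f g : Ar ⟨k, ⊥⟩ ⟨n, ⊥⟩), L.map f l = L.map g l → ¬ Q _ (L.map f l) → f = g :=
    fun k f g e hf => ez_inj Q' hn hb f g (fun hh => (hb _ _ hh).elim hf fun h => h rfl) e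
  obtain ⟨t'', h6, h7⟩ := attach Q (yon l) t t' h4 (by
    rintro ⟨k, y⟩ f g e hf
    rcases Sp.cases p y with rfl | rfl | rfl
    · exact inj0 k f g e hf
    · exact absurd (hup _ f rfl) hf
    · obtain ⟨f', rfl⟩ := (stB_yo rfl k (!p)).2 f
      obtain ⟨g', rfl⟩ := (stB_yo rfl k (!p)).2 g
      simp only [yon_app, ← L.map_comp] at e hf
      rw [inj0 k f' g' ((hL k (!p)).1 e) fun h => hf (Q.cl _ h)])
  refine ⟨Q.or (yon l).im, t'', ?_, fun _ _ h => Or.inl h, h6, ?_, _, l,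
    Or.inr ⟨Ar.id _, by simp⟩, fun h => hn (Or.inl h)⟩
  · rintro k l' (h | ⟨f, h⟩)
    · exact Or.inl (hR k l' h)
    · obtain ⟨f', rfl⟩ := (stB_yo rfl k (!p)).2 f
      simp only [yon_app, ← L.map_comp] at h
      exact Or.inr ⟨f', (hL k (!p)).1 h⟩
  · rintro c' l' (h | ⟨f, rfl⟩)
    · rw [h6 _ _ h]; exact hA _ _ h
    · rw [h7]; exact h5 _ _

theorem ext2 (hL : StB L) {A : Fm.{u} L} {K K' : Sub L} (hA : GoodOn G2.cls A K') (p : Bool)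
    (h1 : ∀ c l, c.x = .up p → K' c l → K c l)
    (h2 : ∀ n l, K' _ (L.map (mvU n (!p)) l) → K' _ l)
    (h3 : ∀ n l, K _ (L.map (mvU n (!p)) l) → K _ l) : Ext A K K' := by
  intro s hs
  refine cells2 hL A K K' p s hs h1 h2 h3 fun n l hl φ hφ t _ ht => ?_
  obtain ⟨t', h1, h2⟩ := hA _ l hl φ ⟨_, _, hφ⟩ t fun c' f hf _ => ht c' f hf
  exact ⟨t', fun c' f hf => h1 c' f hf trivial, fun c' f => h2 c' f trivial⟩

theorem piStep2 : PiStep.{u} G2 := by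
  rintro c0 A C - gA fC c1 m φ ⟨h0, p, -, hfac, hup, hrf⟩ s hs H
  let E := (yo c0).prod (VZ.{u} Sp)
  let ε := evH E
  let E2 : Sub (Ev E ⊥) := Sub.ev A ⊥
  let K2 : Sub (Ev E ⊥) := (φ.comap Hom.fst).comap ε
  have hε : ∀ c y, E2 c y → A c (ε c y) := fun c y h => A.cl (mv c.n bot_le) h
  -- step 1
  obtain ⟨t2, a1, a2⟩ := cells2 (stB_ev ⊥) (C.pull ε) K2 E2 p (s.comp ε)
    (fun c y h h' => hs c _ h (hε c y h')) (fun c y e _ => hup _ _ e)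
    (fun n y h => by rwa [ev_mv] at h) (fun n y h => hrf n y.1 h)
    fun n y hy φ' h' t e ht => H _ y hy _ _ φ' h' (hfac _ _ rfl) t e ht
  -- step 2
  let β : Hom (Ev E (.up (!p))) (yo c0) :=
    ⟨fun c y => ⟨y.1.f, y.1.mono, h0.le.trans bot_le⟩, fun _ _ => rfl⟩
  let s3 : Sec.{u} (Ev E (.up (!p))) := ofHead fun _ y => Val.hd y.2
  have e3 : ∀ n y, s3 ⟨n, .up (!p)⟩ y = y.2 := fun n y => by
    funext ⟨k, x⟩ g
    obtain rfl : x = _ := Sp.up_le g.le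
    rfl
  obtain ⟨σ, b1, b2⟩ := ext2 (stB_ev _) (A := A.pull β) (K := atS _ (!p))
    (K' := Sub.ev A (.up (!p))) (gA.pull β fun _ _ _ => trivial) (!p) (fun _ _ e _ => e)
    (fun n y h => by rwa [ev_mv] at h) (fun n y h => by cases p <;> cases h) s3 (by
      rintro ⟨n, x⟩ y h hy
      obtain rfl : x = _ := h
      rw [e3]; exact hy)
  have b1' : ∀ n y, A _ y → σ ⟨n, .up (!p)⟩ y = y.2 := fun n y h => (b1 _ y rfl h).trans (e3 n y)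
  -- step 3
  let μ : Hom (Ev E ⊥) (Ev E (.up (!p))) :=
    ⟨fun c y => E.map (mvU c.n (!p)) y, fun _ _ => rfl⟩
  have hμ : ∀ c y, E2 c y → (Sub.ev A (.up (!p))).mem c (μ c y) := fun c y h =>
    A.cl (mvU c.n (!p)) h
  let z3 : Sec.{u} ((Ev E ⊥).prod (II Sp)) := edge Hom.snd ((Hom.snd.comp ε).comp Hom.fst)
    ((σ.comp μ).comp Hom.fst) ((Hom.snd.comp ε).comp Hom.fst)
  have z3q : ∀ c y, c.x = .up (!p) → E2 c y.1 → z3 c y = (ε c y.1).2 := fun c y e h =>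
    edge_eq (fun _ _ _ => rfl) (by
      rintro ⟨k, x⟩ g -
      obtain rfl : x = _ := Sp.up_le (e ▸ g.le)
      exact b1' k _ (hμ _ _ (E2.cl g h)))
  obtain ⟨Hs, c1', c2⟩ := ext2 ((stB_ev ⊥).prod stB_II)
    (A := A.pull ((Hom.fst.comp ε).comp Hom.fst)) (K := sides (atS _ (!p))) (K' := cyl E2)
    (gA.pull _ fun _ _ _ => trivial) (!p) (fun _ _ e _ => Or.inl e)
    (fun n y h => by
      have h' : E2 _ ((Ev E ⊥).map (mvU n (!!p)) y.1) := h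
      rwa [ev_mv] at h')
    (by
      rintro n y (h | h | h)
      · cases p <;> cases h
      · exact Or.inr (Or.inl (iv_mv h))
      · exact Or.inr (Or.inr (iv_mv h))) z3 (by
      rintro c y (h | h | h) hy
      · rw [z3q c y h hy]; exact hε c _ hy
      · rw [show z3 c y = _ from edge_zero h]; exact hε c _ hy
      · rw [show z3 c y = _ from edge_one h]; exact b2 c _ (hμ c _ hy))
  -- step 4
  let ν : Hom ((Ev E ⊥).prod (II Sp)) (Ev E ⊥) :=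
    ⟨fun c y => (y.1.1, Hs ⟨c.n, ⊥⟩ (y.1, ⟨y.2.r, y.2.mono⟩)), fun {c' c} f y =>
      Prod.ext rfl (Hs.nat (c := ⟨c.n, ⊥⟩) (c' := ⟨c'.n, ⊥⟩) ⟨f.f, f.mono, le_rfl⟩
        (y.1, ⟨y.2.r, y.2.mono⟩))⟩
  have hν : ∀ c y, E2 c y.1 → E2 c (ν c y) := fun c y h =>
    c2 ⟨c.n, ⊥⟩ (y.1, ⟨y.2.r, y.2.mono⟩) h
  have εν : ∀ c y, c.x = .up (!p) → E2 c y.1 → ε c (ν c y) = ε c y.1 := fun c y e h => by
    refine Prod.ext rfl ?_
    have := Hs.res_app (c := ⟨c.n, ⊥⟩) (c' := c) (mv c.n bot_le) (y.1, ⟨y.2.r, y.2.mono⟩)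
    exact this.trans ((c1' c y (Or.inl e) h).trans (z3q c y e h))
  have ν0 : ∀ c y, E2 c y → ν c (y, Iv.pt c false) = y := fun c y h =>
    Prod.ext rfl ((c1' ⟨c.n, ⊥⟩ (y, Iv.pt _ false) (Or.inr (Or.inl rfl)) h).trans (edge_zero rfl))
  let z4 : Sec.{u} ((Ev E ⊥).prod (II Sp)) := Hom.ite (atS _ (!p)) (t2.comp ν) (t2.comp Hom.fst)
  have z4K : ∀ c y, K2 c y.1 → E2 c y.1 → z4 c y = t2 c y.1 := fun c y h h' =>
    Hom.ite_eq fun c' g e => by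
      have h1 := K2.cl g h
      have h2 := E2.cl g h'
      simp only [Hom.comp_app, Hom.fst_app]
      rw [a1 c' _ h1 h2, a1 c' (ν c' _) h1 (hν c' _ h2), Hom.comp_app, εν c' _ e h2]
      rfl
  obtain ⟨t4, d1, d2⟩ := comp (fC.pull (ε.comp Hom.fst) (P' := cyl E2)
    fun c y h => ⟨trivial, hε c _ h⟩) (K2.or (atS _ (!p))) false z4 (by
      rintro c ⟨y, r⟩ ((h | h) | h) hy
      · rw [z4K c (y, r) h hy]; exact a2 c y hy
      · rw [show z4 c (y, r) = _ from Hom.ite_pos h]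
        have := a2 c _ (hν c (y, r) hy)
        rw [Fam.pull_mem, εν c (y, r) h hy] at this
        exact this
      · obtain rfl : r = _ := h
        rw [show z4 c (y, Iv.pt c false) = _ from Hom.ite_eq fun c' g _ =>
          congrArg (t2 c') (ν0 c' _ (E2.cl g hy))]
        exact a2 c y hy)
  let κ : Hom (Ev E (.up (!p))) (Ev E ⊥) :=
    ⟨fun c y => (β ⟨c.n, ⊥⟩ y, σ ⟨c.n, ⊥⟩ y), fun {c' c} f y =>
      Prod.ext rfl (σ.nat (c := ⟨c.n, ⊥⟩) (c' := ⟨c'.n, ⊥⟩) ⟨f.f, f.mono, le_rfl⟩ y)⟩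
  have hκ : ∀ n y, A _ y → E2 ⟨n, .up (!p)⟩ (κ _ y) := fun n y h => b2 ⟨n, ⊥⟩ y h
  have εκ : ∀ n y, A _ y → ε ⟨n, .up (!p)⟩ (κ _ y) = y := fun n y h =>
    Prod.ext rfl ((σ.res_app (c := ⟨n, ⊥⟩) (mvU n (!p)) y).trans (b1' n y h))
  have d3 : ∀ c y, c.x = .up (!p) → E2 c y → t4 c y = t2 c (κ c (μ c y)) := fun c y e h => by
    rw [d1 c y (Or.inr e) h, show z4 c (y, _) = _ from Hom.ite_pos e]
    refine congrArg (t2 c) (Prod.ext rfl ?_)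
    exact (c1' ⟨c.n, ⊥⟩ (y, Iv.pt _ true) (Or.inr (Or.inr rfl)) h).trans (edge_one rfl)
  have d4 : ∀ c y, K2 c y → E2 c y → t4 c y = s c (ε c y) := fun c y h h' => by
    rw [d1 c y (Or.inl h) h', z4K c (y, _) h h']; exact a1 c y h h'
  let t : Sec.{u} E := ofHead fun c y =>
    if h : c.x = ⊥ then Val.hd (t4 ⟨c.n, ⊥⟩ (E.map (c := c) ⟨fun i => i, monotone_id, h.le⟩ y))
    else if h : c.x = .up (!p) then
      Val.hd (t2 ⟨c.n, .up (!p)⟩ (κ ⟨c.n, .up (!p)⟩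
        (E.map (c := c) ⟨fun i => i, monotone_id, h.le⟩ y)))
    else Val.hd (s c y)
  have np : Sp.up p ≠ .up (!p) := by cases p <;> simp
  have t0 : ∀ n y, A _ y → t ⟨n, ⊥⟩ y = t4 ⟨n, ⊥⟩ y := fun n y h => by
    apply ofHead_eq
    rintro ⟨k, x⟩ g
    rw [t4.res_app]
    rcases Sp.cases p x with rfl | rfl | rfl
    · exact dif_pos rfl
    · rw [dif_neg Sp.up_ne_bot, dif_neg np, d4 _ _ (hup _ _ rfl) (E2.cl g h)]; rfl
    · rw [dif_neg Sp.up_ne_bot, dif_pos rfl, d3 _ _ rfl (E2.cl g h)]; rfl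
  have tq : ∀ n y, t ⟨n, .up (!p)⟩ y = t2 ⟨n, .up (!p)⟩ (κ _ y) := fun n y => by
    apply ofHead_eq
    rintro ⟨k, x⟩ g
    obtain rfl : x = _ := Sp.up_le g.le
    rw [dif_neg Sp.up_ne_bot, dif_pos rfl]
    exact congrArg Val.hd ((t2.comp κ).res_app g y).symm
  have tp : ∀ n y, t ⟨n, .up p⟩ y = s _ y := fun n y => by
    apply ofHead_eq
    rintro ⟨k, x⟩ g
    obtain rfl : x = _ := Sp.up_le g.le
    rw [dif_neg Sp.up_ne_bot, dif_neg np, s.res_app]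
  refine ⟨t, ?_, ?_⟩
  · rintro ⟨n, x⟩ y h h'
    rcases Sp.cases p x with rfl | rfl | rfl
    · rw [t0 n y h']; exact d4 ⟨n, ⊥⟩ y h h'
    · exact tp n y
    · rw [tq, a1 ⟨n, .up (!p)⟩ (κ ⟨n, .up (!p)⟩ y) h (hκ n y h'), Hom.comp_app, εκ n y h']
  · rintro ⟨n, x⟩ y h
    rcases Sp.cases p x with rfl | rfl | rfl
    · rw [t0 n y h]; exact d2 ⟨n, ⊥⟩ y h
    · rw [tp]; exact hs _ y (hup _ _ rfl) h
    · rw [tq]
      have := a2 _ _ (hκ n y h)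
      rwa [Fam.pull_mem, εκ n y h] at this

theorem clo2 : Clo.{u} G2.cls := by
  refine ⟨fun hb fA gA fB gB => piStep2.pi hb fA gA fB gB, ?_, fun hb fA gA fB gB =>
    piStep2.w (fun m φ ⟨_, _, h1, _, h2, _⟩ => h2 _ _ h1) hb fA gA fB gB, ?_⟩
  · rintro L A a b P hA ha hb c l hl φ ⟨c1, m, h0, p, -, -, hup, hrf⟩
    rw [ExtAt, pathF_pull]
    refine ext_path (fun _ f _ => ha _ _ (P.cl f hl)) (fun _ f _ => hb _ _ (P.cl f hl))
      (ext2 ((stB_yo h0).prod stB_II) (hA.pull ((yon l).comp Hom.fst) fun _ p _ => P.cl p.1 hl) p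
        (fun _ _ e _ => Or.inl (hup _ _ e)) (fun _ _ _ => trivial) ?_)
    rintro n y (h | h | h)
    · exact Or.inl (hrf n y.1 h)
    · exact Or.inr (Or.inl (iv_mv h))
    · exact Or.inr (Or.inr (iv_mv h))
  · rintro ⟨n, x⟩ φ ⟨c1, m, h0, p, -, -, hup, hrf⟩
    obtain rfl : x = ⊥ := h0
    refine ⟨_, mvU n p, hup _ _ rfl, mv_inj n _, g2_im n p, ?_⟩
    have key : ∀ k (f : Ar ⟨k, ⊥⟩ ⟨n, ⊥⟩),
        (yon (L := yo ⟨n, ⊥⟩) (mvU n p)).im.mem _ ((mvU k p).comp f) := fun k f =>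
      let ⟨f', h⟩ := mvU_fac ((mvU k p).comp f) rfl; ⟨f', h.symm⟩
    rintro ⟨k, y⟩ f hf
    rcases Sp.cases p y with rfl | rfl | rfl
    · exact Or.inr ⟨_, f, Ar.id _, _, mvU k p, rfl, hf, mv_inj k _, g2_im k p, key k f⟩
    · obtain ⟨f', h⟩ := mvU_fac f rfl
      exact Or.inl ⟨f', h.symm⟩
    · obtain ⟨f', rfl⟩ := (stB_yo rfl k (!p)).2 f
      exact Or.inr ⟨_, f', mvU k (!p), _, mvU k p, rfl, hrf k f' hf, mv_inj k _, g2_im k p,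
        key k f'⟩

end Pool.Agent.Lib.MP_5eb18a_lc
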