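import Pool.Agent.Lib.MP_5eb18a_lc.Glue

/-!
Universes and univalence.
-/

namespace Pool.Agent.Lib.MP_5eb18a_lc

universe u v v' v'' w

set_option linter.unusedSectionVars false

open Classical

variable {D : Type} [PartialOrder D] [Countable D] [WellFoundedGT D]
variable {L : Psh.{v} D} {L' : Psh.{v'} D} {L'' : Psh.{v''} D}

def elU (D : Type) [PartialOrder D] [Countable D] : Fm.{u} (VZ.{u} D) := ElF (Hom.id _)

abbrev Cls (D : Type) [PartialOrder D] := ∀ c : Ob D, Set (Sub (yo c))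

def GoodOn (Φ : Cls D) (A : Fm.{u} L) (P : Sub L) : Prop :=
  ∀ c l, P c l → ∀ φ ∈ Φ c, ExtAt A c l φ

theorem GoodOn.pull {Φ : Cls D} {A : Fm.{u} L} {P : Sub L} (h : GoodOn Φ A P) (β : Hom L' L)
    {P' : Sub L'} (hP : ∀ c l, P' c l → P c (β c l)) : GoodOn Φ (A.pull β) P' :=
  fun c l hl φ hφ => (h c _ (hP c l hl) φ hφ).pull β

theorem GoodOn.congr {Φ : Cls D} {A A' : Fm.{u} L} {P : Sub L} (h : GoodOn Φ A P)
    (he : ∀ c l v, P c l → (A c (l, v) ↔ A' c (l, v))) : GoodOn Φ A' P :=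
  fun c l hl φ hφ => (h c l hl φ hφ).congr fun c' f v => he c' _ v (P.cl f hl)

theorem TrivOn.good {Φ : Cls D} {A : Fm.{u} L} {P : Sub L} (h : TrivOn A P) : GoodOn Φ A P :=
  fun c l hl φ _ => h c l hl φ

structure TyOn (P : ZF.{u} → Prop) (Φ : Cls D) (A : Fm.{u} L) (Q : Sub L) : Prop where
  sm : SmOn P A Q
  fib : FibOn A Q
  good : GoodOn Φ A Q

theorem TyOn.pull {P : ZF.{u} → Prop} {Φ : Cls D} {A : Fm.{u} L} {Q : Sub L} (h : TyOn P Φ A Q)
    (β : Hom L' L) {Q' : Sub L'} (hQ : ∀ c l, Q' c l → Q c (β c l)) : TyOn P Φ (A.pull β) Q' :=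
  ⟨h.sm.pull β hQ, h.fib.pull β hQ, h.good.pull β hQ⟩

def IsTy (P : ZF.{u} → Prop) (Φ : Cls D) {c : Ob D} (T : Vl.{u} c) : Prop :=
  ∀ c' (f : Ar c' c), P (T c' f) ∧ FibAt (elU D) c' (T.res f) ∧
    ∀ φ ∈ Φ c', ExtAt (elU D) c' (T.res f) φ

theorem IsTy.res {P : ZF.{u} → Prop} {Φ : Cls D} {c c' : Ob D} {T : Vl.{u} c} (h : IsTy P Φ T)
    (f : Ar c' c) : IsTy P Φ (T.res f) := fun _ g => h _ (g.comp f)

def uF (P : ZF.{u} → Prop) (Φ : Cls D) (L : Psh.{v} D) : Fm.{u} L :=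
  ⟨fun _ p => IsTy P Φ p.2, fun f _ h => h.res f⟩

@[simp] theorem uF_mem (P : ZF.{u} → Prop) (Φ : Cls D) (c) (p : (L.prod (VZ.{u} D)).obj c) :
    (uF P Φ L).mem c p ↔ IsTy P Φ p.2 := Iff.rfl

theorem tyOn_ElF {P : ZF.{u} → Prop} {Φ : Cls D} {T : Sec.{u} L} {Q : Sub L}
    (h : ∀ c l, Q c l → IsTy P Φ (T c l)) : TyOn P Φ (ElF T) Q :=
  ⟨fun c l hl => SB_El (T := T c l) (h c l hl c (Ar.id c)).1,
    fun c l hl => FibAt.pull (A := elU D) T (h c l hl c (Ar.id c)).2.1,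
    fun c l hl φ hφ => ExtAt.pull (A := elU D) T ((h c l hl c (Ar.id c)).2.2 φ hφ)⟩

theorem isTy_of {P : ZF.{u} → Prop} {Φ : Cls D} {T : Sec.{u} L} {Q : Sub L}
    (h1 : ∀ c l, Q c l → P (Val.hd (T c l))) (h2 : FibOn (ElF T) Q) (h3 : GoodOn Φ (ElF T) Q)
    {c} {l : L.obj c} (hl : Q c l) : IsTy P Φ (T c l) := by
  intro c' f
  rw [T.res_app, T.apply_eq_hd]
  exact ⟨h1 _ _ (Q.cl f hl), fun φ hφ => ExtAt.of_pull (A := elU D) T (h2 _ _ (Q.cl f hl) φ hφ),
    fun φ hφ => ExtAt.of_pull (A := elU D) T (h3 _ _ (Q.cl f hl) φ hφ)⟩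

theorem isTy_codeF {P : ZF.{u} → Prop} (hP : GU P) {Φ : Cls D} {A : Fm.{u} L} (hb : A.Bd)
    {Q : Sub L} (h : TyOn P Φ A Q) {c} {l : L.obj c} (hl : Q c l) : IsTy P Φ (codeF A c l) :=
  isTy_of (Q := Q) (fun c _ hl => codeF_small hP h.sm hl c (Ar.id c))
    (by rw [ElF_codeF hb]; exact h.fib) (by rw [ElF_codeF hb]; exact h.good) hl

theorem sm_u {P P' : ZF.{u} → Prop} (hP' : GU P') (h : SB P' {z | P z}) (Φ : Cls D) (Q : Sub L) :
    SmOn P' (uF P Φ L) Q := by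
  intro c l _
  refine hP'.SB_enc (h.mono ?_)
  rintro _ ⟨v, hv, c', f, rfl⟩
  exact (hv c' f).1

theorem glue_ty {P : ZF.{u} → Prop} (hP : GU P) {Φ : Cls D} {K : Sub L} {T B : Sec.{u} L}
    (hT : ∀ c l, K c l → IsTy P Φ (T c l)) (hB : ∀ c l, IsTy P Φ (B c l))
    {τ : Sec.{u} (L.prod (VZ.{u} D))}
    (hτ : ∀ c l x, K c l → (ElF T).mem c (l, x) → (ElF B).mem c (l, τ c (l, x)))
    (hF : TrivOn (fibF (ElF T) (ElF B) τ) (K.ext' (ElF B))) :
    ∃ G : Sec.{u} L, (∀ c l, K c l → G c l = T c l) ∧ (∀ c l, IsTy P Φ (G c l)) ∧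
      ElF G = glueF K (ElF T) (ElF B) τ := by
  have hB' : TyOn P Φ (ElF B) (Sub.top _) := tyOn_ElF fun c l _ => hB c l
  have hs := sm_glue (τ := τ) hP (tyOn_ElF hT).sm hB'.sm
  have hb : (glueF K (ElF T) (ElF B) τ).Bd := fun c l h => (hs c l h).top
  have he := ElF_realign (K := K) (T := T) hb fun c l v h => glueF_pos hτ h v
  refine ⟨_, fun c l h => Hom.ite_pos h, fun c l => isTy_of (Q := Sub.top _) (fun c l _ => ?_) ?_ ?_
    trivial, he⟩
  · by_cases h : K c l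
    · rw [Hom.ite_pos h]; exact (hT c l h c (Ar.id c)).1
    · rw [Hom.ite_hd_neg h]; exact codeF_small hP hs trivial c (Ar.id c)
  · rw [he]; exact fun c l _ φ hφ => extAt_glue hB'.fib hτ hF (hB'.fib c l trivial φ hφ)
  · rw [he]; exact fun c l _ φ hφ => extAt_glue hB'.fib hτ hF (hB'.good c l trivial φ hφ)

theorem fib_u {P : ZF.{u} → Prop} (hP : GU P) (Φ : Cls D) (Q : Sub L) : FibOn (uF P Φ L) Q := by
  refine fibOn_of_comp fun L0 β K e _ s hs => ?_
  obtain ⟨τ, h1, h2⟩ := line_equiv (tyOn_ElF (T := s) (Q := cyl K)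
    fun c p h => hs c p (Or.inl h) trivial).fib e
  obtain ⟨G, h3, h4, -⟩ := glue_ty hP (K := K) (T := s.comp (atPt _ (!e))) (B := s.comp (atPt _ e))
    (fun c l h => hs c (l, Iv.pt c (!e)) (Or.inl h) trivial)
    (fun c l => hs c (l, Iv.pt c e) (Or.inr rfl) trivial) h1 h2
  exact ⟨G, fun c l h _ => h3 c l h, fun c l _ => h4 c l⟩

/-! ### equivalences -/

def isEquivF (T B : Fm.{u} L) (τ : Sec.{u} (L.prod (VZ.{u} D))) : Fm.{u} L :=
  piF B (isContrF (fibF T B τ))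

noncomputable def equivF (T B : Fm.{u} L) : Fm.{u} L :=
  sigF (piF T (B.pull Hom.fst))
    (isEquivF (T.pull Hom.fst) (B.pull Hom.fst) (Hom.appV (Hom.snd.comp Hom.fst) Hom.snd))

theorem equivF_iff {T B : Fm.{u} L} {c} {l : L.obj c} {v} : (equivF T B).mem c (l, v) ↔
    v = pairV (fstV v) (sndV v) ∧ (piF T (B.pull Hom.fst)).mem c (l, fstV v) ∧
      (isEquivF (T.pull Hom.fst) (B.pull Hom.fst) (Hom.appV (Hom.snd.comp Hom.fst) Hom.snd)).mem c
        ((l, fstV v), sndV v) := sigF_iff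

theorem fib_isEquiv {T B : Fm.{u} L} (bT : T.Bd) (bB : B.Bd) {τ : Sec.{u} (L.prod (VZ.{u} D))}
    {P : Sub L} (hT : FibOn T P) (hB : FibOn B P)
    (hτ : ∀ c l x, P c l → T c (l, x) → B c (l, τ c (l, x))) : FibOn (isEquivF T B τ) P :=
  fib_pi bB hB (fib_isContr (bT.fibF bB _) (fib_fibF hT hB hτ))

theorem fib_equiv {T B : Fm.{u} L} (bT : T.Bd) (bB : B.Bd) {P : Sub L} (hT : FibOn T P)
    (hB : FibOn B P) : FibOn (equivF T B) P := by
  refine fib_sig (fib_pi bT hT (hB.pull _ fun _ _ h => h.1)) (fib_isEquiv (bT.pull _) (bB.pull _)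
    (hT.pull _ fun _ _ h => h.1) (hB.pull _ fun _ _ h => h.1) ?_)
  rintro c ⟨l, F⟩ x h h'
  exact piF_app (A := T) (B := B.pull Hom.fst) h.2 h'

theorem Fam.Bd.isEquiv {T B : Fm.{u} L} (bT : T.Bd) (bB : B.Bd) (τ : Sec.{u} (L.prod (VZ.{u} D))) :
    (isEquivF T B τ).Bd := bB.pi (bT.fibF bB _).isContr

theorem Fam.Bd.equiv {T B : Fm.{u} L} (bT : T.Bd) (bB : B.Bd) : (equivF T B).Bd :=
  (bT.pi (bB.pull _)).sig ((bT.pull _).isEquiv (bB.pull _) _)

theorem triv_isEquiv {T B : Fm.{u} L} (bT : T.Bd) (bB : B.Bd) {τ : Sec.{u} (L.prod (VZ.{u} D))}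
    {P : Sub L} (h : TrivOn (fibF T B τ) (P.ext' B)) : TrivOn (isEquivF T B τ) P :=
  triv_pi bB (triv_isContr (bT.fibF bB _) h)

theorem isContrF_congr {X : Fm.{u} L} {X' : Fm.{u} L'} {c} {l : L.obj c} {l' : L'.obj c}
    (h : ∀ c' (f : Ar c' c) v, X c' (L.map f l, v) ↔ X' c' (L'.map f l', v)) (w) :
    (isContrF X).mem c (l, w) ↔ (isContrF X').mem c (l', w) := by
  refine sigF_congr (fun v => by simpa using h c (Ar.id c) v) (fun a b _ => ?_) _
  refine piF_congr (fun c' f v => ?_) (fun c' f x y _ => ?_) _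
  · exact h c' f v
  · refine pathF_congr (fun c'' g v => ?_) ?_ ?_ _
    · simpa using h c'' (g.comp f) v
    · rfl
    · rfl

theorem isEquivF_congr {T B : Fm.{u} L} {τ : Sec.{u} (L.prod (VZ.{u} D))} {T' B' : Fm.{u} L'}
    {τ' : Sec.{u} (L'.prod (VZ.{u} D))} {c} {l : L.obj c} {l' : L'.obj c}
    (hT : ∀ c' (f : Ar c' c) v, T c' (L.map f l, v) ↔ T' c' (L'.map f l', v))
    (hB : ∀ c' (f : Ar c' c) v, B c' (L.map f l, v) ↔ B' c' (L'.map f l', v))
    (hτ : ∀ c' (f : Ar c' c) x, T c' (L.map f l, x) →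
      τ c' (L.map f l, x) = τ' c' (L'.map f l', x)) (w) :
    (isEquivF T B τ).mem c (l, w) ↔ (isEquivF T' B' τ').mem c (l', w) := by
  refine piF_congr hB (fun c' f a b _ => isContrF_congr (fun c'' g v => ?_) _) _
  refine fibF_congr (fun v => ?_) (fun c3 k v => ?_) (fun x hx => ?_) _ _
  · simpa using hT c'' (g.comp f) v
  · simpa using hB c3 (k.comp (g.comp f)) v
  · simpa using hτ c'' (g.comp f) x (by simpa using hx)

/-- the total space of equivalences into a fixed type is trivial -/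
theorem triv_sig_equiv {P : ZF.{u} → Prop} (hP : GU P) {Φ : Cls D} {B : Sec.{u} L} {Q : Sub L}
    (hB : ∀ c l, Q c l → IsTy P Φ (B c l)) :
    TrivOn (sigF (uF P Φ L) (equivF (ElF Hom.snd) (ElF (B.comp Hom.fst)))) Q := by
  refine trivOn_of_ext fun L0 β K hβ s hs => ?_
  have hs' := fun c l h => (sigF_iff (l := β c l) (v := s c l)).1 (hs c l h trivial)
  have hs2 := fun c l h => equivF_iff.1 (hs' c l h).2.2
  let τ : Sec.{u} (L0.prod (VZ.{u} D)) := Hom.appV (s.sndV.fstV.comp Hom.fst) Hom.snd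
  have hT : ∀ c l, K c l → IsTy P Φ (s.fstV c l) := fun c l h => (hs' c l h).2.1
  have hB' : ∀ c l, IsTy P Φ ((B.comp β) c l) := fun c l => hB c _ (hβ c l)
  have hτ : ∀ c l x, K c l → (ElF s.fstV).mem c (l, x) → (ElF (B.comp β)).mem c (l, τ c (l, x)) :=
    fun c l x h hx => piF_app (hs2 c l h).2.1 hx
  have hE : ∀ c l, K c l → (isEquivF (ElF s.fstV) (ElF (B.comp β)) τ).mem c
      (l, sndV (sndV (s c l))) := fun c l h => by
    refine (isEquivF_congr (fun c' f v => ?_) (fun c' f v => ?_) (fun c' f x _ => ?_) _).1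
      (hs2 c l h).2.2
    · simp [← s.res_app]
    · simp [β.nat]
    · simp [τ, ← s.res_app]
  have hF : TrivOn (fibF (ElF s.fstV) (ElF (B.comp β)) τ) (K.ext' (ElF (B.comp β))) :=
    triv_of_contr (fib_fibF (tyOn_ElF hT).fib (tyOn_ElF fun c l _ => hB' c l).fib hτ)
      fun c p h => ⟨_, piF_app (hE c p.1 h.1) h.2⟩
  obtain ⟨G, h3, h4, h5⟩ := glue_ty hP hT hB' hτ hF
  have hU := triv_unglue (tyOn_ElF (Q := Sub.top _) fun c l _ => hB' c l).fib hτ hF
  rw [← h5] at hU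
  obtain ⟨h, hh, hh'⟩ := (triv_isEquiv (ElF_bd _) (ElF_bd _) hU).ext K s.sndV.sndV
    fun c l h _ => by
      refine (isEquivF_congr (fun c' f v => ?_) (fun c' f v => Iff.rfl) (fun c' f x _ => ?_) _).1
        (hE c l h)
      · simp only [ElF_mem, h3 c' _ (K.cl f h)]
      · exact (unglue_pos (K.cl f h) x).symm
  have hm : ∀ c l x, (ElF G).mem c (l, x) → (ElF (B.comp β)).mem c (l, unglue K τ c (l, x)) := by
    rw [h5]; exact fun c l x hx => hx.1
  refine ⟨G.pairV ((lamH (ElF G) (unglue K τ)).pairV h), fun c l hl _ => ?_, fun c l _ => ?_⟩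
  · rw [(hs' c l hl).1, (hs2 c l hl).1]
    simp only [Hom.pairV_app, h3 c l hl, hh c l hl trivial, Hom.fstV_app, Hom.sndV_app]
    congr 2
    refine lamH_eq (ElF_bd _) (fun c' f => ?_) fun c' f a _ => ?_
    · have := ((hs2 c l hl).2.1 c' f).1
      have e : (ElF G).fib c' (L0.map f l) = El ((fstV (s c l)).res f) := by
        ext v; simp [h3 c' _ (K.cl f hl), ← s.res_app]
      rw [e]; exact this
    · rw [unglue_pos (K.cl f hl)]; simp [τ, ← s.res_app]
  · refine sigF_pair.2 ⟨h4 c l, sigF_pair.2 ⟨?_, ?_⟩⟩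
    · have := lamH_mem (ElF_bd G) (B := (ElF (B.comp β)).pull Hom.fst) (b := unglue K τ) (c := c)
        (l := l) fun c' f a ha => hm c' _ a ha
      refine (piF_congr (fun c' f v => ?_) (fun c' f a b _ => ?_) _).1 this
      · simp [← G.res_app]
      · simp [β.nat]
    · refine (isEquivF_congr (fun c' f v => ?_) (fun c' f v => ?_) (fun c' f x hx => ?_) _).1
        (hh' c l trivial)
      · simp [← G.res_app]
      · simp [β.nat]
      · simp only [Hom.appV_app, Hom.comp_app, Hom.fst_app, Hom.snd_app]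
        rw [(lamH (ElF G) (unglue K τ)).res_app, app_lamH (ElF_bd _) hx]

/-- a fibrewise map between families with trivial total spaces has trivial fibres -/
theorem triv_fib_of_total {U : Fm.{u} L} {X Y : Fm.{u} (L.prod (VZ.{u} D))} {P : Sub L}
    (fX : FibOn X (P.ext' U)) (fY : FibOn Y (P.ext' U))
    (hX : TrivOn (sigF U X) P) (hY : TrivOn (sigF U Y) P)
    {φ : Sec.{u} ((L.prod (VZ.{u} D)).prod (VZ.{u} D))}
    (hφ : ∀ c l x, (P.ext' U).mem c l → X c (l, x) → Y c (l, φ c (l, x))) :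
    TrivOn (fibF X Y φ) ((P.ext' U).ext' Y) := by
  refine trivOn_of_ext fun L0 β K hβ s hs => ?_
  have hs' := fun c l h => (fibF_iff (l := (β c l).1) (b := (β c l).2) (w := s c l)).1
    (hs c l h trivial)
  let β0 : Hom L0 L := (Hom.fst.comp Hom.fst).comp β
  let A : Sec.{u} L0 := (Hom.snd.comp Hom.fst).comp β
  let w : Sec.{u} L0 := Hom.snd.comp β
  obtain ⟨x, hx, hx'⟩ := (hX.pull β0 (P' := Sub.top _) fun c l _ => (hβ c l).1.1).ext K
    (A.pairV s.fstV) fun c l h _ => sigF_pair.2 ⟨(hβ c l).1.2, (hs' c l h).2.1⟩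
  have hx2 := fun c l => (sigF_iff (l := β0 c l) (v := x c l)).1 (hx' c l trivial)
  let y0 : Sec.{u} L0 := φ.comp ((β0.mk2 x.fstV).mk2 x.sndV)
  have hy0 : ∀ c l, Y c ((β0 c l, fstV (x c l)), y0 c l) := fun c l =>
    hφ c _ _ ⟨(hβ c l).1.1, (hx2 c l).2.1⟩ (hx2 c l).2.2
  have hA : ∀ c l, K c l → fstV (x c l) = A c l := fun c l h => by simp [hx c l h trivial]
  have hp : ∀ c l, K c l → sndV (x c l) = fstV (s c l) := fun c l h => by simp [hx c l h trivial]
  let E : Sec.{u} (L0.prod (II D)) := edge Hom.snd ((x.fstV.pairV y0).comp Hom.fst)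
    ((A.pairV w).comp Hom.fst) ((A.comp Hom.fst).pairV ((s.sndV.comp Hom.fst).atV Hom.snd))
  have hE : ∀ c l r, K c l → E c (l, r) = pairV (A c l) (atV (sndV (s c l)) r) := by
    intro c l r h
    refine edge_eq (fun c' g hg => ?_) fun c' g hg => ?_
    · have h' := K.cl g h
      simp only [Hom.snd_app] at hg
      simp only [Hom.comp_app, Hom.pairV_app, Hom.fst_app, Hom.fstV_app, Hom.atV_app,
        Hom.sndV_app, Hom.snd_app, hg, (hs' c' _ h').2.2.2.2.1, y0, Hom.mk2_app, hA c' _ h',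
        hp c' _ h']
      rfl
    · have h' := K.cl g h
      simp only [Hom.snd_app] at hg
      simp only [Hom.comp_app, Hom.pairV_app, Hom.fst_app, Hom.fstV_app, Hom.atV_app,
        Hom.sndV_app, Hom.snd_app, hg, (hs' c' _ h').2.2.2.2.2]
      rfl
  obtain ⟨z, hz, hz'⟩ := (hY.pull (β0.comp Hom.fst) (P' := Sub.top (L0.prod (II D)))
    fun c l _ => (hβ c l.1).1.1).ext (sides K) E (by
      rintro c ⟨l, r⟩ (h | h | h) _
      · rw [Fam.pull_mem, hE c l r h]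
        have := (hs' c l h).2.2.2.1 c (Ar.id c) r
        rw [(L.prod (VZ.{u} D)).map_id] at this
        exact sigF_pair.2 ⟨(hβ c l).1.2, this⟩
      · rw [Fam.pull_mem, show E c (l, r) = _ from edge_zero h]
        exact sigF_pair.2 ⟨(hx2 c l).2.1, hy0 c l⟩
      · rw [Fam.pull_mem, show E c (l, r) = _ from edge_one h]
        exact sigF_pair.2 ⟨(hβ c l).1.2, (hβ c l).2⟩)
  have hz2 := fun c (p : (L0.prod (II D)).obj c) =>
    (sigF_iff (l := β0 c p.1) (v := z c p)).1 (hz' c p trivial)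
  have z0 : ∀ c l, z c (l, Iv.pt c false) = pairV (fstV (x c l)) (y0 c l) := fun c l => by
    rw [hz c (l, Iv.pt c false) (Or.inr (Or.inl rfl)) trivial]; exact edge_zero rfl
  have z1 : ∀ c l, z c (l, Iv.pt c true) = pairV (A c l) (w c l) := fun c l => by
    rw [hz c (l, Iv.pt c true) (Or.inr (Or.inr rfl)) trivial]; exact edge_one rfl
  have zK : ∀ c l r, K c l → z c (l, r) = pairV (A c l) (atV (sndV (s c l)) r) := fun c l r h => by
    rw [hz c (l, r) (Or.inl h) trivial, hE c l r h]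
  let γ : Hom (L0.prod (II D)) ((L.prod (VZ.{u} D)).prod (VZ.{u} D)) :=
    ((β0.comp Hom.fst).mk2 z.fstV).mk2 z.sndV
  let q : Sec.{u} (L0.prod (II D)) := plam ((s.sndV.comp (Hom.fst.comp Hom.fst)).atV
    (Hom.conn false (Hom.snd.comp Hom.fst) Hom.snd))
  obtain ⟨b, b1, -, b3⟩ := box_ite (A := (fibF X Y φ).pull γ) (K := K) (K' := Sub.top _)
    (e := false) (s := (s.fstV.comp Hom.fst).pairV q) (t := x.sndV.pairV y0.reflV)
    (by
      rintro c ⟨l, r⟩ h _
      have e : γ c (l, r) = ((β c l).1, atV (sndV (s c l)) r) := by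
        simp [γ, zK c l r h, β0, A]
      rw [Fam.pull_mem, e]
      refine fibF_pair.2 ⟨(hs' c l h).2.1, plam_isPath _ _, fun c' f r' => ?_, ?_, ?_⟩
      · rw [q.res_app, at_plam]
        have := (hs' c l h).2.2.2.1 c' f (Iv.conn false (r.res f) r')
        simpa [← s.res_app] using this
      · simpa [q] using (hs' c l h).2.2.2.2.1
      · simp [q])
    (by
      intro c l _
      have e : γ c (l, Iv.pt c false) = ((β0 c l, fstV (x c l)), y0 c l) := by simp [γ, z0]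
      rw [Fam.pull_mem, e]
      refine fibF_pair.2 ⟨(hx2 c l).2.2, plam_isPath _ _, fun c' f r' => ?_, ?_, ?_⟩
      · rw [y0.reflV.res_app, at_reflV]
        have := hy0 c' (L0.map f l)
        simpa [β0.nat, ← x.res_app] using this
      · rw [at_reflV]; rfl
      · rw [at_reflV])
    (by
      intro c l h _
      simp only [Hom.pairV_app, Hom.comp_app, Hom.fst_app, Hom.fstV_app, Hom.sndV_app, hp c l h]
      congr 1
      refine plam_eq (plam_isPath _ _) fun c' f r => ?_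
      have h' := K.cl f h
      rw [y0.reflV.res_app, at_reflV]
      simp [(hs' c' _ h').2.2.2.2.1, y0, hA c' _ h', hp c' _ h', β0, A])
  obtain ⟨t, ht, ht'⟩ := comp ((fib_fibF fX fY hφ).pull γ (P' := cyl (Sub.top _))
    fun c p _ => ⟨⟨(hβ c p.1).1.1, (hz2 c p).2.1⟩, (hz2 c p).2.2⟩) K false b b3
  refine ⟨t, fun c l h _ => ?_, fun c l _ => ?_⟩
  · rw [ht c l h trivial, b1 c _ h, (hs' c l h).1]
    simp only [Hom.pairV_app, Hom.comp_app, Hom.fst_app, Hom.fstV_app]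
    congr 1
    refine plam_eq (hs' c l h).2.2.1 fun c' f r => ?_
    simp [← s.res_app]
  · have := ht' c l trivial
    have e : γ c (l, Iv.pt c (!false)) = β c l := by simp [γ, z1, β0, A, w]
    rw [Fam.pull_mem, e] at this
    exact this

end Pool.Agent.Lib.MP_5eb18a_lc
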