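import Pool.Agent.Lib.MP_5eb18a_lc.Formers

/-!
Well-founded trees.
-/

namespace Pool.Agent.Lib.MP_5eb18a_lc

universe u v v' v'' w

set_option linter.unusedSectionVars false

open Classical

variable {D : Type} [PartialOrder D] [Countable D]
variable {L : Psh.{v} D} {L' : Psh.{v'} D} {L'' : Psh.{v''} D}

inductive WMem (A : Fm.{u} L) (B : Fm.{u} (L.prod (VZ.{u} D))) :
    ∀ c, L.obj c → Vl.{u} c → Prop
  | mk (c) (l : L.obj c) (a F : Vl.{u} c) : A c (l, a) →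
      (∀ c' (f : Ar c' c), IsGr (B.fib c' (L.map f l, a.res f)) enc (F c' f)) →
      (∀ c' (f : Ar c' c) b, B c' ((L.map f l, a.res f), b) →
        WMem A B c' (L.map f l) (appV (F.res f) b)) → WMem A B c l (pairV a F)

def wF (A : Fm.{u} L) (B : Fm.{u} (L.prod (VZ.{u} D))) : Fm.{u} L :=
  ⟨fun c p => WMem A B c p.1 p.2, fun {c' c} f p h => by
    obtain ⟨l, w⟩ := p
    cases h with
    | mk _ _ a F h1 h2 h3 =>
      refine WMem.mk c' (L.map f l) (a.res f) (F.res f) (A.cl' f h1) (fun c'' g => ?_)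
        fun c'' g b hb => ?_
      · rw [L.map_comp]; exact h2 c'' (g.comp f)
      · rw [L.map_comp] at hb ⊢; exact h3 c'' (g.comp f) b hb⟩

theorem wF_iff {A : Fm.{u} L} {B : Fm.{u} (L.prod (VZ.{u} D))} {c} {l : L.obj c} {w} :
    (wF A B).mem c (l, w) ↔
      (sigF A (piF B ((wF A B).pull (Hom.fst.comp Hom.fst)))).mem c (l, w) := by
  constructor
  · intro h
    cases h with
    | mk _ _ a F h1 h2 h3 => exact ⟨a, F, rfl, h1, fun c' f => ⟨h2 c' f, h3 c' f⟩⟩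
  · rintro ⟨a, F, h0, h1, h2⟩
    dsimp only at h0
    subst h0
    exact WMem.mk c l a F h1 (fun c' f => (h2 c' f).1) fun c' f => (h2 c' f).2

theorem WMem.congr {A : Fm.{u} L} {B : Fm.{u} (L.prod (VZ.{u} D))} {A' : Fm.{u} L'}
    {B' : Fm.{u} (L'.prod (VZ.{u} D))} {c} {l : L.obj c} {w} (h : WMem A B c l w) :
    ∀ l' : L'.obj c, (∀ c' (f : Ar c' c) v, A c' (L.map f l, v) ↔ A' c' (L'.map f l', v)) →
      (∀ c' (f : Ar c' c) a b, A c' (L.map f l, a) →
        (B c' ((L.map f l, a), b) ↔ B' c' ((L'.map f l', a), b))) → WMem A' B' c l' w := by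
  induction h with
  | mk c l a F h1 h2 _ ih =>
    intro l' hA hB
    refine WMem.mk c l' a F (by simpa using (hA c (Ar.id c) a).1 (by simpa using h1))
      (fun c' f => ?_) fun c' f b hb => ?_
    · have : B'.fib c' (L'.map f l', a.res f) = B.fib c' (L.map f l, a.res f) := by
        ext b; exact (hB c' f _ b (A.cl' f h1)).symm
      rw [this]; exact h2 c' f
    · refine ih c' f b ((hB c' f _ b (A.cl' f h1)).2 hb) _ (fun c'' g v => ?_) fun c'' g a b => ?_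
      · rw [L.map_comp, L'.map_comp]; exact hA _ _ _
      · rw [L.map_comp, L'.map_comp]; exact hB _ _ _ _

theorem wF_congr {A : Fm.{u} L} {B : Fm.{u} (L.prod (VZ.{u} D))} {A' : Fm.{u} L'}
    {B' : Fm.{u} (L'.prod (VZ.{u} D))} {c} {l : L.obj c} {l' : L'.obj c}
    (hA : ∀ c' (f : Ar c' c) v, A c' (L.map f l, v) ↔ A' c' (L'.map f l', v))
    (hB : ∀ c' (f : Ar c' c) a b, A c' (L.map f l, a) →
        (B c' ((L.map f l, a), b) ↔ B' c' ((L'.map f l', a), b))) (w) :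
    (wF A B).mem c (l, w) ↔ (wF A' B').mem c (l', w) :=
  ⟨fun h => WMem.congr h l' hA hB, fun h => WMem.congr h l (fun c' f v => (hA c' f v).symm)
    fun c' f a b ha => (hB c' f a b ((hA c' f a).2 ha)).symm⟩

theorem piF_congr {A : Fm.{u} L} {B : Fm.{u} (L.prod (VZ.{u} D))} {A' : Fm.{u} L'}
    {B' : Fm.{u} (L'.prod (VZ.{u} D))} {c} {l : L.obj c} {l' : L'.obj c}
    (hA : ∀ c' (f : Ar c' c) v, A c' (L.map f l, v) ↔ A' c' (L'.map f l', v))
    (hB : ∀ c' (f : Ar c' c) a b, A c' (L.map f l, a) →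
        (B c' ((L.map f l, a), b) ↔ B' c' ((L'.map f l', a), b))) (w) :
    (piF A B).mem c (l, w) ↔ (piF A' B').mem c (l', w) := by
  refine forall₂_congr fun c' f => ?_
  have : A.fib c' (L.map f l) = A'.fib c' (L'.map f l') := by ext v; exact hA c' f v
  dsimp only
  rw [this]
  refine and_congr_right fun _ => forall_congr' fun a => ?_
  exact ⟨fun h ha => (hB c' f a _ ((hA c' f a).2 ha)).1 (h ((hA c' f a).2 ha)),
    fun h ha => (hB c' f a _ ha).2 (h ((hA c' f a).1 ha))⟩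

theorem sigF_congr {A : Fm.{u} L} {B : Fm.{u} (L.prod (VZ.{u} D))} {A' : Fm.{u} L'}
    {B' : Fm.{u} (L'.prod (VZ.{u} D))} {c} {l : L.obj c} {l' : L'.obj c}
    (hA : ∀ v, A c (l, v) ↔ A' c (l', v))
    (hB : ∀ a b, A c (l, a) → (B c ((l, a), b) ↔ B' c ((l', a), b))) (w) :
    (sigF A B).mem c (l, w) ↔ (sigF A' B').mem c (l', w) := by
  rw [sigF_iff, sigF_iff]
  refine and_congr_right fun _ => ?_
  exact ⟨fun h => ⟨(hA _).1 h.1, (hB _ _ h.1).1 h.2⟩,
    fun h => ⟨(hA _).2 h.1, (hB _ _ ((hA _).2 h.1)).2 h.2⟩⟩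

/-! ### smallness -/

def lenc : List ZF.{u} → ZF.{u}
  | [] => ∅
  | k :: ks => ZFSet.pair k (lenc ks)

theorem pair_ne_empty (a b : ZF.{u}) : ZFSet.pair a b ≠ ∅ := by
  intro h
  have : ({a} : ZF.{u}) ∈ ZFSet.pair a b := by simp [ZFSet.pair]
  rw [h] at this
  simp at this

theorem lenc_inj : Function.Injective lenc.{u} := by
  intro a
  induction a with
  | nil =>
    rintro (_ | ⟨k, ks⟩) h
    · rfl
    · exact absurd h.symm (pair_ne_empty _ _)
  | cons k ks ih =>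
    rintro (_ | ⟨k', ks'⟩) h
    · exact absurd h (pair_ne_empty _ _)
    · obtain ⟨h1, h2⟩ := ZFSet.pair_inj.1 h
      rw [h1, ih h2]

theorem GU.SB_lists {P : ZF.{u} → Prop} (hP : GU P) {Z : Set ZF.{u}} (h : SB P Z) :
    SB P (lenc '' {ks | ∀ k ∈ ks, k ∈ Z}) := by
  have key : ∀ n, SB P (lenc '' {ks | ks.length = n ∧ ∀ k ∈ ks, k ∈ Z}) := by
    intro n
    induction n with
    | zero =>
      refine (hP.SB_single hP.empty).mono ?_
      rintro _ ⟨ks, ⟨h1, -⟩, rfl⟩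
      rw [List.length_eq_zero_iff.1 h1]; rfl
    | succ n ih =>
      refine (hP.SB_pairs h ih).mono ?_
      rintro _ ⟨_ | ⟨k, ks⟩, ⟨h1, h2⟩, rfl⟩
      · simp at h1
      · exact ⟨k, h2 k (by simp), _, ⟨ks, ⟨by simpa using h1, fun k' hk => h2 k' (by simp [hk])⟩,
          rfl⟩, rfl⟩
  refine (hP.SB_ciUnion _ key).mono ?_
  rintro _ ⟨ks, h1, rfl⟩
  exact ⟨ks.length, ks, ⟨rfl, h1⟩, rfl⟩

noncomputable def skey {c : Ob D} (x : Σ g : Arr c, Vl.{u} g.1) : ZF.{u} :=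
  ZFSet.pair (ckey (Arr c) x.1) (enc x.2)

theorem skey_inj {c : Ob D} : Function.Injective (skey.{u} (c := c)) := by
  rintro ⟨g, b⟩ ⟨g', b'⟩ h
  obtain ⟨h1, h2⟩ := ZFSet.pair_inj.1 h
  obtain rfl := ckey_inj _ h1
  obtain rfl := enc_inj h2
  rfl

noncomputable def lab : List ZF.{u} → ∀ c : Ob D, Vl.{u} c → ZF.{u}
  | [], _, w => enc (fstV w)
  | k :: ks, c, w => if h : ∃ x : Σ g : Arr c, Vl.{u} g.1, skey x = k then
      lab ks h.choose.1.1 (appV ((sndV w).res h.choose.1.2) h.choose.2) else ∅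

theorem lab_cons (ks : List ZF.{u}) {c : Ob D} (w : Vl.{u} c) (x : Σ g : Arr c, Vl.{u} g.1) :
    lab (skey x :: ks) c w = lab ks x.1.1 (appV ((sndV w).res x.1.2) x.2) := by
  have h : ∃ y : Σ g : Arr c, Vl.{u} g.1, skey y = skey x := ⟨x, rfl⟩
  rw [lab, dif_pos h]
  have := skey_inj h.choose_spec
  generalize h.choose = y at this
  subst this
  rfl

theorem WMem.small {P : ZF.{u} → Prop} (hP : GU P) {A : Fm.{u} L}
    {B : Fm.{u} (L.prod (VZ.{u} D))} {Q : Sub L} (hA : SmOn P A Q) (hB : SmOn P B (Q.ext' A))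
    {c} {l : L.obj c} {w} (h : WMem A B c l w) (hl : Q c l) : ∀ c' g, P (w c' g) := by
  induction h with
  | mk c l a F h1 h2 _ ih =>
    intro c' g
    refine hP.pair (hP.of_SB (hP.SB_heads (hA c l hl)) ⟨a, h1, c', g, rfl⟩) ?_
    have hb := hB c' (L.map g l, a.res g) ⟨Q.cl g hl, A.cl' g h1⟩
    rw [(h2 c' g).eq enc_inj.injOn hb.top]
    exact hP.gr enc_inj.injOn hb fun b hb => ih c' g b hb (Q.cl g hl) c' (Ar.id c')

theorem WMem.lab_inj {A : Fm.{u} L} {B : Fm.{u} (L.prod (VZ.{u} D))} {Q : Sub L}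
    (hB : SmOn PT B (Q.ext' A)) {Z Y : Set ZF.{u}}
    {c} {l : L.obj c} {w} (h : WMem A B c l w) : Q c l →
    (∀ c1 (f : Ar c1 c) c2 (g : Ar c2 c1) a b, A c2 (L.map (g.comp f) l, a) →
      B c2 ((L.map (g.comp f) l, a), b) → skey ⟨⟨c2, g⟩, b⟩ ∈ Z) →
    (∀ c1 (f : Ar c1 c) a, A c1 (L.map f l, a) → enc a ∈ Y) →
    ∀ w', WMem A B c l w' → (∀ ks, (∀ k ∈ ks, k ∈ Z) → lab ks c w ∈ Y → lab ks c w' ∈ Y →
      lab ks c w = lab ks c w') → w = w' := by
  induction h with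
  | mk c l a F h1 h2 _ ih =>
    intro hl hZ hY w' h' he
    cases h' with
    | mk _ _ a' F' h1' h2' h3' =>
      have ha : a = a' := enc_inj (by
        simpa [lab] using he [] (by simp) (by simpa [lab] using hY c (Ar.id c) a (by simpa using h1))
          (by simpa [lab] using hY c (Ar.id c) a' (by simpa using h1')))
      subst ha
      congr 1
      funext c' f
      have hb := hB c' (L.map f l, a.res f) ⟨Q.cl f hl, A.cl' f h1⟩
      rw [(h2 c' f).eq enc_inj.injOn hb, (h2' c' f).eq enc_inj.injOn hb]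
      refine gr_congr rfl fun b hb => congrArg Val.hd (ih c' f b hb (Q.cl f hl) ?_ ?_ _
        (h3' c' f b hb) fun ks hks => ?_)
      · intro c1 f1 c2 g a b ha hb
        rw [L.map_comp] at ha hb
        exact hZ c1 (f1.comp f) c2 g a b ha hb
      · intro c1 f1 a ha
        rw [L.map_comp] at ha
        exact hY c1 (f1.comp f) a ha
      · have := he (skey ⟨⟨c', f⟩, b⟩ :: ks) (by
          intro k hk
          rcases List.mem_cons.1 hk with rfl | hk
          · exact hZ c (Ar.id c) c' f _ b (A.cl' f h1) hb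
          · exact hks k hk)
        simpa [lab_cons] using this

theorem sm_w {P : ZF.{u} → Prop} (hP : GU P) {A : Fm.{u} L} {B : Fm.{u} (L.prod (VZ.{u} D))}
    {Q : Sub L} (hA : SmOn P A Q) (hB : SmOn P B (Q.ext' A)) : SmOn P (wF A B) Q := by
  intro c l hl
  have hY := hP.SB_ciUnion (ι := Arr c) _ fun g => hA _ _ (Q.cl g.2 hl)
  have hBB := hP.SB_ciUnion (ι := Arr c) _ fun g => hP.SB_iUnion enc_inj.injOn
    (hA _ _ (Q.cl g.2 hl)) (fun a => enc '' B.fib g.1 (L.map g.2 l, a))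
    fun a ha => hB _ _ ⟨Q.cl g.2 hl, ha⟩
  have hZ := hP.SB_pairs hP.SB_nat hBB
  have hLs := hP.SB_lists hZ
  have hY' := hP.SB_union (hP.SB_single hP.empty) hY
  generalize hYd : {z | ∃ i : Arr c, z ∈ enc '' A.fib i.1 (L.map i.2 l)} = Y at hY hY'
  generalize hZd : {z | ∃ a ∈ Set.range num, ∃ b ∈ {z | ∃ i : Arr c, z ∈ {z | ∃ x ∈ A.fib i.1
    (L.map i.2 l), z ∈ enc '' B.fib i.1 (L.map i.2 l, x)}}, z = ZFSet.pair a b} = Z at hZ hLs
  refine hP.SB_image (key := fun w => gr {ks | ∀ k ∈ ks, k ∈ Z} lenc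
    fun ks => if lab ks c w ∈ Y then lab ks c w else ∅) ?_ ((hP.SB_grs hLs hY').mono ?_) enc
    fun w hw => hP.enc (WMem.small hP hA hB hw hl)
  · intro w hw w' hw' he
    refine WMem.lab_inj (Z := Z) (Y := Y) (fun c l h => (hB c l h).top) hw hl ?_ ?_ w' hw' ?_
    · intro c1 f c2 g a b ha hb
      rw [← hZd]
      exact ⟨_, ⟨_, rfl⟩, _, ⟨⟨c2, g.comp f⟩, a, ha, b, hb, rfl⟩, rfl⟩
    · intro c1 f a ha
      rw [← hYd]
      exact ⟨⟨c1, f⟩, a, ha, rfl⟩
    · intro ks hks h1 h2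
      have := congrArg (fun G => ap G (lenc ks)) he
      simp only [ap_gr lenc_inj.injOn hLs.top hks, if_pos h1, if_pos h2] at this
      exact this
  · rintro _ ⟨w, -, rfl⟩
    refine ⟨_, fun ks _ => ?_, rfl⟩
    split_ifs with h
    · exact Or.inr h
    · exact Or.inl rfl

theorem Fam.Bd.w {A : Fm.{u} L} {B : Fm.{u} (L.prod (VZ.{u} D))} (hA : A.Bd) (hB : B.Bd) :
    (wF A B).Bd := sm_w gu_top hA fun c l _ => hB c l trivial

/-! ### fibrancy -/

/-- filling problems over a representable whose base is `w0` are solvable -/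
def WFill (A : Fm.{u} L) (B : Fm.{u} (L.prod (VZ.{u} D))) (P : Sub L) (e : Bool) (c : Ob D)
    (l0 : L.obj c) (w0 : Vl.{u} c) : Prop :=
  ∀ (γ : Hom ((yo c).prod (II D)) L) (φ : Sub (yo c)) (s : Sec.{u} ((yo c).prod (II D))),
    (∀ c' p, P c' (γ c' p)) → (∀ c' p, (box φ e).mem c' p → (wF A B).mem c' (γ c' p, s c' p)) →
    γ c (Ar.id c, Iv.pt c e) = l0 → s c (Ar.id c, Iv.pt c e) = w0 →
    ∃ t : Sec.{u} ((yo c).prod (II D)), (∀ c' p, (box φ e).mem c' p → t c' p = s c' p) ∧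
      ∀ c' p, (wF A B).mem c' (γ c' p, t c' p)

theorem comp_w_step [WellFoundedGT D] {A : Fm.{u} L} {B : Fm.{u} (L.prod (VZ.{u} D))}
    (hb : B.Bd) {P : Sub L} (hA : FibOn A P) (hB : FibOn B (P.ext' A)) {L0 : Psh.{v'} D}
    (β : Hom (L0.prod (II D)) L) (K : Sub L0) (e : Bool) (hβ : ∀ c p, P c (β c p))
    (s : Sec.{u} (L0.prod (II D)))
    (hs : ∀ c p, (box K e).mem c p → (wF A B).mem c (β c p, s c p))
    (H : ∀ c l b, B c ((β c (l, Iv.pt c e), fstV (s c (l, Iv.pt c e))), b) →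
      WFill A B P e c (β c (l, Iv.pt c e)) (appV (sndV (s c (l, Iv.pt c e))) b)) :
    ∃ t : Sec.{u} L0, (∀ c l, K c l → t c l = s c (l, Iv.pt c (!e))) ∧
      ∀ c l, (wF A B).mem c (β c (l, Iv.pt c (!e)), t c l) := by
  have hs' := fun c p h => sigF_iff.1 (wF_iff.1 (hs c p h))
  obtain ⟨a, ha, ha'⟩ := fill (hA.pull β (P' := cyl (Sub.top _)) fun c l _ => hβ c l) K e s.fstV
    fun c p h _ => (hs' c p h).2.1
  let B1 : Fm.{u} L0 := B.pull ((β.mk2 a).comp (atPt _ (!e)))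
  let γ : Hom ((L0.prod (VZ.{u} D)).prod (II D)) (L0.prod (II D)) :=
    (Hom.fst.comp Hom.fst).mk2 Hom.snd
  obtain ⟨b, hb0, hb'⟩ := fill (hB.pull ((β.mk2 a).comp γ) (P' := cyl B1)
    fun c l _ => ⟨hβ c _, ha' c _ trivial⟩) (Sub.bot _) (!e) (Hom.snd.comp Hom.fst) (by
      rintro c ⟨⟨l, a⟩, r⟩ (h | h) h'
      · exact h.elim
      · dsimp only at h; subst h; exact h')
  have hb2 : ∀ c p, (box K e).mem c (γ c p) → B1 c p.1 →
      B c ((β c (γ c p), fstV (s c (γ c p))), b c p) := fun c p h h' => by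
    have := hb' c p h'
    simp only [Fam.pull_mem, Hom.comp_app, Hom.mk2_app] at this
    rwa [ha c _ h trivial] at this
  obtain ⟨t, ht, ht'⟩ := cellsBox ((wF A B).pull (β.comp γ)) (K.comap Hom.fst) B1 e
    ((s.sndV.comp γ).appV b) (fun c p h h' => piF_app (hs' c (γ c p) h).2.2 (hb2 c p h h'))
    (fun c l hl _ t h1 h2 => H c l.1 (b c (l, Iv.pt c e))
      (hb2 c (l, Iv.pt c e) (Or.inr rfl) hl)
      ((β.comp γ).comp (((yon l).comp Hom.fst).mk2 Hom.snd)) (bd c) t (fun c' p => hβ c' _) h1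
      (by simp [γ]) (by rw [h2, (L0.prod (VZ.{u} D)).map_id]; rfl))
  refine ⟨(a.comp (atPt _ (!e))).pairV (lamH B1 (t.comp (atPt _ (!e)))), fun c l h => ?_,
    fun c l => ?_⟩
  · have h1 := hs' c (l, Iv.pt c (!e)) (Or.inl h)
    rw [h1.1]
    have e1 := ha c (l, Iv.pt c (!e)) (Or.inl h) trivial
    simp only [Hom.pairV_app, Hom.comp_app, atPt_app, e1, Hom.fstV_app]
    congr 1
    refine lamH_eq (hb.pull _) (fun c' f => ?_) fun c' f v hv => ?_
    · have := (h1.2.2 c' f).1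
      have e2 := congrArg (Val.res f) e1
      rw [a.res_app] at e2
      show IsGr (B.fib c' (β c' (L0.map f l, Iv.pt c' (!e)), a c' (L0.map f l, Iv.pt c' (!e)))) _ _
      rw [show a c' (L0.map f l, Iv.pt c' (!e)) = _ from e2,
        show β c' (L0.map f l, Iv.pt c' (!e)) = _ from β.nat f (l, Iv.pt c (!e))]
      exact this
    · simp only [Hom.comp_app, atPt_app]
      rw [ht c' ((L0.map f l, v), Iv.pt c' (!e)) (Or.inl (K.cl f h)) hv]
      simp only [Hom.appV_app]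
      rw [hb0 c' ((L0.map f l, v), Iv.pt c' (!e)) (Or.inr rfl) hv, sndV_res, s.res_app]
      rfl
  · refine wF_iff.2 (sigF_pair.2 ⟨ha' c _ trivial, ?_⟩)
    have := lamH_mem (hb.pull ((β.mk2 a).comp (atPt _ (!e))))
      (B := (wF A B).pull ((β.comp (atPt _ (!e))).comp Hom.fst)) (b := t.comp (atPt _ (!e)))
      (c := c) (l := l) fun c' f v hv => ht' c' ((L0.map f l, v), Iv.pt c' (!e)) hv
    refine (piF_congr (fun c' f v => ?_) (fun c' f a b _ => ?_) _).1 this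
    · rw [Fam.pull_mem, ((β.mk2 a).comp (atPt L0 (!e))).nat]; rfl
    · simp only [Fam.pull_mem, Hom.comp_app, Hom.fst_app]
      rw [← β.nat]; rfl

theorem WMem.fill [WellFoundedGT D] {A : Fm.{u} L} {B : Fm.{u} (L.prod (VZ.{u} D))}
    (hb : B.Bd) {P : Sub L} (hA : FibOn A P) (hB : FibOn B (P.ext' A)) (e : Bool)
    {c} {l : L.obj c} {w} (h : WMem A B c l w) : WFill A B P e c l w := by
  induction h with
  | mk c l a F h1 h2 h3 ih =>
    intro γ φ s hγ hs e1 e2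
    let δ : Hom (((yo c).prod (II D)).prod (II D)) ((yo c).prod (II D)) :=
      (Hom.fst.comp Hom.fst).mk2 (Hom.conn e (Hom.snd.comp Hom.fst) Hom.snd)
    have hs' : ∀ c' p, (box (box φ e) e).mem c' p → (box φ e).mem c' (δ c' p) := by
      rintro c ⟨⟨l, r⟩, r'⟩ h
      rcases h with (h | h) | h
      · exact Or.inl h
      · right; dsimp only at h; simp [h, δ]
      · right; dsimp only at h; simp [h, δ]
    obtain ⟨t, ht, ht'⟩ := comp_w_step hb hA hB (γ.comp δ) (box φ e) e (fun c' p => hγ c' _)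
      (s.comp δ) (fun c' p h => hs c' _ (hs' c' p h)) (by
        rintro c' ⟨f, r⟩ b hb
        have e3 : δ c' ((f, r), Iv.pt c' e) = ((yo c).prod (II D)).map f (Ar.id c, Iv.pt c e) := by
          simp [δ]
        have e4 : (γ.comp δ) c' ((f, r), Iv.pt c' e) = L.map f l := by
          rw [Hom.comp_app, e3, γ.nat, e1]
        have e5 : (s.comp δ) c' ((f, r), Iv.pt c' e) = pairV (a.res f) (F.res f) := by
          rw [Hom.comp_app, e3, s.nat, e2]; rfl
        rw [e4, e5] at hb ⊢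
        simp only [fstV_pairV, sndV_pairV] at hb ⊢
        exact ih c' f b hb)
    refine ⟨t, fun c' p h => ?_, fun c' p => ?_⟩
    · rw [ht c' p h]; simp [δ]
    · simpa [δ] using ht' c' p

theorem fib_w [WellFoundedGT D] {A : Fm.{u} L} {B : Fm.{u} (L.prod (VZ.{u} D))}
    (hb : B.Bd) {P : Sub L} (hA : FibOn A P) (hB : FibOn B (P.ext' A)) : FibOn (wF A B) P := by
  intro c l hl
  refine fibAt_of_fill fun e φ γ s hs => ?_
  obtain ⟨t, h1, h2⟩ := WMem.fill hb hA hB e (hs c (Ar.id c, Iv.pt c e) (Or.inr rfl) trivial)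
    ((yon l).comp γ) φ s (fun c' p => P.cl _ hl) (fun c' p h => hs c' p h trivial) rfl rfl
  exact ⟨t, fun c' p h _ => h1 c' p h, fun c' p _ => h2 c' p⟩

/-! ### recursion -/

abbrev WSt (D : Type) [PartialOrder D] := Σ c : Ob D, Vl.{u} c × Vl.{u} c

def dom {c : Ob D} (G : ZF.{u}) : Set (Vl.{u} c) := {b | ∃ v, ZFSet.pair (enc b) v ∈ G}

theorem IsGr.dom {c : Ob D} {S : Set (Vl.{u} c)} {G} (h : IsGr S enc G) (hS : SB PT (enc '' S)) :
    dom G = S := by
  obtain ⟨k, rfl⟩ := h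
  have hb := gu_top.SB_gr (h := k) enc_inj.injOn hS fun _ _ => trivial
  ext b
  constructor
  · rintro ⟨v, hv⟩
    obtain ⟨x, hx, h2⟩ := (mem_cset hb).1 hv
    rwa [enc_inj (ZFSet.pair_inj.1 h2).1]
  · exact fun h => ⟨_, (mem_cset hb).2 ⟨b, h, rfl⟩⟩

def WSub (x y : WSt.{u} D) : Prop :=
  ∃ (f : Ar x.1 y.1) (b : Vl.{u} x.1), b ∈ dom (sndV y.2.2 x.1 f) ∧
    x.2 = (y.2.1.res f, appV ((sndV y.2.2).res f) b)

theorem wsub_wf : WellFounded fun x y : WSt.{u} D => WSub x y ∧ Acc WSub y := by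
  constructor
  intro y
  by_cases h : Acc WSub y
  · induction h with
    | intro y _ ih => exact Acc.intro y fun x hx => ih x hx.1
  · exact Acc.intro y fun x hx => absurd hx.2 h

noncomputable def wrecHd : WSt.{u} D → ZF.{u} :=
  wsub_wf.fix fun y R => Val.hd (appV (appV (appV y.2.1 (fstV y.2.2)) (sndV y.2.2))
    fun c' f => gr (dom (sndV y.2.2 c' f)) enc fun b =>
      if h : WSub ⟨c', y.2.1.res f, appV ((sndV y.2.2).res f) b⟩ y ∧ Acc WSub y then R _ h else ∅)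

noncomputable def wrecH : Sec.{u} ((VZ.{u} D).prod (VZ.{u} D)) := ofHead fun c p => wrecHd ⟨c, p⟩

theorem WMem.acc {A : Fm.{u} L} {B : Fm.{u} (L.prod (VZ.{u} D))} (hb : B.Bd)
    {c} {l : L.obj c} {w} (h : WMem A B c l w) : ∀ e, Acc WSub ⟨c, e, w⟩ := by
  induction h with
  | mk c l a F h1 h2 h3 ih =>
    intro e
    refine Acc.intro _ ?_
    rintro ⟨c', e', w'⟩ ⟨f, b, hb', he⟩
    simp only [sndV_pairV, Prod.mk.injEq] at hb' he
    rw [(h2 c' f).dom (hb _ _ trivial)] at hb'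
    rw [he.2]
    exact ih c' f b hb' _

theorem wrecH_eq {A : Fm.{u} L} {B : Fm.{u} (L.prod (VZ.{u} D))} (hb : B.Bd)
    {c} {l : L.obj c} {a F : Vl.{u} c} (h : WMem A B c l (pairV a F)) (e G : Vl.{u} c)
    (hG : ∀ c' (f : Ar c' c), G c' f = gr (B.fib c' (L.map f l, a.res f)) enc fun b =>
      Val.hd (wrecH c' (e.res f, appV (F.res f) b))) :
    wrecH c (e, pairV a F) = appV (appV (appV e a) F) G := by
  apply ofHead_eq
  intro c' g
  have h' : WMem A B c' (L.map g l) ((pairV a F).res g) := (wF A B).cl' g h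
  have h2 := (sigF_pair.1 (wF_iff.1 h)).2
  rw [wrecHd, WellFounded.fix_eq]
  simp only [pairV_res, fstV_pairV, sndV_pairV, appV_res]
  congr 2
  funext c'' f
  have e1 : dom (F.res g c'' f) = B.fib c'' (L.map (f.comp g) l, a.res (f.comp g)) :=
    (h2 c'' (f.comp g)).1.dom (hb _ _ trivial)
  rw [Val.res_apply f g G, hG, ← e1]
  refine gr_congr rfl fun b hb' => ?_
  rw [dif_pos ⟨⟨f, b, by simpa using hb', by simp⟩, h'.acc hb _⟩, wrecH, ofHead_hd]
  show wrecHd ⟨c'', _, appV ((sndV (pairV (a.res g) (F.res g))).res f) b⟩ = _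
  rw [sndV_pairV]
  rfl

end Pool.Agent.Lib.MP_5eb18a_lc
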