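import Pool.Agent.Lib.MP_5eb18a_lc.Fill

/-!
Set-theoretic coding: comprehension, graphs, Grothendieck universes as predicates.
-/

namespace Pool.Agent.Lib.MP_5eb18a_lc

universe u v v' v'' w

set_option linter.unusedSectionVars false

open Classical

abbrev ZF := ZFSet.{u}

def num : ℕ → ZF.{u}
  | 0 => ∅
  | n + 1 => {num n}

theorem num_inj : Function.Injective num.{u} := by
  intro a
  induction a with
  | zero =>
    rintro (_ | b) h
    · rfl
    · have : num b ∈ (∅ : ZF.{u}) := by rw [show (∅ : ZF.{u}) = num 0 from rfl, h]; simp [num]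
      simp at this
  | succ a ih =>
    rintro (_ | b) h
    · have : num a ∈ (∅ : ZF.{u}) := by rw [show (∅ : ZF.{u}) = num 0 from rfl, ← h]; simp [num]
      simp at this
    · simp only [num] at h
      rw [ih (ZFSet.singleton_injective h)]

@[simp] theorem num_eq_iff {a b : ℕ} : num.{u} a = num b ↔ a = b := num_inj.eq_iff

structure GU (P : ZF.{u} → Prop) : Prop where
  mem : ∀ {x y}, P x → y ∈ x → P y
  sub : ∀ {x y}, P x → y ⊆ x → P y
  pow : ∀ {x}, P x → P (ZFSet.powerset x)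
  sUnion : ∀ {x}, P x → P (ZFSet.sUnion x)
  ins : ∀ {x y}, P x → P y → P (insert x y)
  repl : ∀ {Z} (f : ZF.{u} → ZF.{u}), P Z → (∀ z ∈ Z, P (f z)) → ∃ Y, P Y ∧ ∀ z ∈ Z, f z ∈ Y
  nat : ∃ Y, P Y ∧ ∀ n, num n ∈ Y

/-- the trivial smallness predicate -/
def PT : ZF.{u} → Prop := fun _ => True

theorem gu_top : GU PT.{u} where
  mem _ _ := trivial
  sub _ _ := trivial
  pow _ := trivial
  sUnion _ := trivial
  ins _ _ := trivial
  repl {Z} f _ _ := ⟨ZFSet.range (fun z : Z => f z), trivial, fun z hz =>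
    ZFSet.mem_range.2 ⟨⟨z, hz⟩, rfl⟩⟩
  nat := ⟨ZFSet.range num, trivial, fun n => ZFSet.mem_range.2 ⟨n, rfl⟩⟩

theorem gu_rank {κ : Cardinal.{u}} (hκ : κ.IsInaccessible) :
    GU (fun z : ZF.{u} => z.rank < κ.ord) := by
  have hl : Order.IsSuccLimit κ.ord := Cardinal.isSuccLimit_ord hκ.aleph0_lt.le
  have key : ∀ {ι : Type u} (f : ι → ZF.{u}), Cardinal.mk ι < κ → (∀ i, (f i).rank < κ.ord) →
      (ZFSet.range f).rank < κ.ord := by
    intro ι f h1 h2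
    rw [ZFSet.rank_range]
    exact Ordinal.iSup_lt_of_lt_cof (by rwa [hκ.isRegular.cof_ord]) fun i => hl.succ_lt (h2 i)
  refine ⟨fun h h' => (ZFSet.rank_lt_of_mem h').trans h, fun h h' => (ZFSet.rank_mono h').trans_lt h,
    fun h => ?_, fun h => (ZFSet.rank_sUnion_le _).trans_lt h, fun h h' => ?_, ?_, ?_⟩
  · rw [ZFSet.rank_powerset]; exact hl.succ_lt h
  · rw [ZFSet.rank_insert]; exact max_lt (hl.succ_lt h) h'
  · intro Z f hZ hf
    refine ⟨ZFSet.range (fun z : Shrink.{u} Z => f ((equivShrink Z).symm z)), key _ ?_ ?_, ?_⟩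
    · show Z.card < κ
      refine (ZFSet.card_mono (ZFSet.subset_vonNeumann_self Z)).trans_lt ?_
      rw [ZFSet.card_vonNeumann, ← hκ.preBeth_ord]
      exact Cardinal.preBeth_strictMono hZ
    · intro i; exact hf _ ((equivShrink Z).symm i).2
    · intro z hz
      exact ZFSet.mem_range.2 ⟨equivShrink Z ⟨z, hz⟩, by simp⟩
  · refine ⟨ZFSet.range (fun n : ULift.{u} ℕ => num n.down), key _ (by simpa using hκ.aleph0_lt) ?_,
      fun n => ZFSet.mem_range.2 ⟨⟨n⟩, rfl⟩⟩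
    rintro ⟨n⟩
    induction n with
    | zero => simpa [num] using hl.pos
    | succ n ih => simp only [num, ZFSet.rank_singleton]; exact hl.succ_lt ih

/-- bounded by a small set -/
def SB (P : ZF.{u} → Prop) (S : Set ZF.{u}) : Prop := ∃ Z, P Z ∧ ∀ z ∈ S, z ∈ Z

noncomputable def cset (S : Set ZF.{u}) : ZF.{u} :=
  if h : SB PT S then ZFSet.sep (· ∈ S) h.choose else ∅

theorem mem_cset {S : Set ZF.{u}} (h : SB PT S) {z} : z ∈ cset S ↔ z ∈ S := by
  rw [cset, dif_pos h, ZFSet.mem_sep]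
  exact ⟨fun h => h.2, fun h' => ⟨h.choose_spec.2 z h', h'⟩⟩

theorem mem_of_mem_cset {S : Set ZF.{u}} {z} (h : z ∈ cset S) : z ∈ S := by
  by_cases hS : SB PT S
  · exact (mem_cset hS).1 h
  · rw [cset, dif_neg hS] at h; simp at h

section
variable {P : ZF.{u} → Prop}

theorem SB.top {S} (h : SB P S) : SB PT S := let ⟨Z, _, h⟩ := h; ⟨Z, trivial, h⟩

theorem SB.mono {S T} (h : SB P T) (hs : S ⊆ T) : SB P S :=
  let ⟨Z, h1, h⟩ := h; ⟨Z, h1, fun z hz => h z (hs hz)⟩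

variable (hP : GU P)
include hP

theorem GU.cset {S} (h : SB P S) : P (cset S) :=
  let ⟨_, h1, h⟩ := h; hP.sub h1 fun z hz => h z (mem_of_mem_cset hz)

theorem GU.of_SB {S z} (h : SB P S) (hz : z ∈ S) : P z :=
  let ⟨_, h1, h⟩ := h; hP.mem h1 (h z hz)

theorem GU.num (n : ℕ) : P (num n) := let ⟨_, h1, h⟩ := hP.nat; hP.mem h1 (h n)

theorem GU.empty : P ∅ := hP.num 0

theorem GU.sing {x} (h : P x) : P {x} := by
  have := hP.ins h hP.empty
  exact hP.sub this fun z hz => by simpa using hz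

theorem GU.pair {x y} (hx : P x) (hy : P y) : P (ZFSet.pair x y) :=
  hP.ins (hP.sing hx) (hP.sing (hP.ins hx (hP.sing hy)))

theorem GU.SB_mem {x} (h : P x) : SB P {y | y ∈ x} := ⟨x, h, fun _ h => h⟩

theorem GU.SB_single {x} (h : P x) : SB P {x} :=
  ⟨{x}, hP.sing h, fun z hz => by simpa using hz⟩

theorem GU.SB_union {S T} (h : SB P S) (h' : SB P T) : SB P (S ∪ T) := by
  obtain ⟨Z, h1, h2⟩ := h
  obtain ⟨Z', h1', h2'⟩ := h'
  refine ⟨ZFSet.sUnion {Z, Z'}, hP.sUnion (hP.ins h1 (hP.sing h1')), ?_⟩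
  rintro z (hz | hz)
  · exact ZFSet.mem_sUnion.2 ⟨Z, by simp, h2 z hz⟩
  · exact ZFSet.mem_sUnion.2 ⟨Z', by simp, h2' z hz⟩

theorem GU.SB_sUnion {S} (h : SB P S) : SB P {y | ∃ z ∈ S, y ∈ z} := by
  obtain ⟨Z, h1, h2⟩ := h
  exact ⟨ZFSet.sUnion Z, hP.sUnion h1, fun y ⟨z, hz, hy⟩ => ZFSet.mem_sUnion.2 ⟨z, h2 z hz, hy⟩⟩

theorem GU.SB_subsets {S} (h : SB P S) : SB P {z | ∀ y ∈ z, y ∈ S} := by
  obtain ⟨Z, h1, h2⟩ := h
  exact ⟨ZFSet.powerset Z, hP.pow h1, fun z hz => ZFSet.mem_powerset.2 fun y hy => h2 y (hz y hy)⟩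

theorem GU.SB_image {X : Type w} {S : Set X} {key : X → ZF.{u}} (hk : Set.InjOn key S)
    (h : SB P (key '' S)) (g : X → ZF.{u}) (hg : ∀ x ∈ S, P (g x)) : SB P (g '' S) := by
  obtain ⟨Z, h1, h2⟩ := h
  obtain ⟨Y, h3, h4⟩ := hP.repl (fun z => if h : ∃ x ∈ S, key x = z then g h.choose else ∅) h1 (by
    intro z _
    split_ifs with h
    · exact hg _ h.choose_spec.1
    · exact hP.empty)
  refine ⟨Y, h3, ?_⟩
  rintro _ ⟨x, hx, rfl⟩
  have := h4 _ (h2 _ ⟨x, hx, rfl⟩)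
  have he : ∃ x' ∈ S, key x' = key x := ⟨x, hx, rfl⟩
  rw [dif_pos he, hk he.choose_spec.1 hx he.choose_spec.2] at this
  exact this

theorem GU.SB_image' {S : Set ZF.{u}} (h : SB P S) (g : ZF.{u} → ZF.{u}) (hg : ∀ x ∈ S, P (g x)) :
    SB P (g '' S) :=
  hP.SB_image (key := id) (Set.injOn_id S) (by simpa using h) g hg

theorem GU.SB_iUnion {X : Type w} {S : Set X} {key : X → ZF.{u}} (hk : Set.InjOn key S)
    (h : SB P (key '' S)) (T : X → Set ZF.{u}) (hT : ∀ x ∈ S, SB P (T x)) :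
    SB P {z | ∃ x ∈ S, z ∈ T x} := by
  refine (hP.SB_sUnion (hP.SB_image hk h (fun x => Pool.Agent.Lib.MP_5eb18a_lc.cset (T x))
    fun x hx => hP.cset (hT x hx))).mono ?_
  rintro z ⟨x, hx, hz⟩
  exact ⟨_, ⟨x, hx, rfl⟩, (mem_cset (hT x hx).top).2 hz⟩

theorem GU.SB_nat : SB P (Set.range Pool.Agent.Lib.MP_5eb18a_lc.num) := by
  obtain ⟨Y, h1, h2⟩ := hP.nat
  exact ⟨Y, h1, by rintro _ ⟨n, rfl⟩; exact h2 n⟩

theorem GU.SB_ciUnion {ι : Type w} [Countable ι] (T : ι → Set ZF.{u}) (hT : ∀ i, SB P (T i)) :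
    SB P {z | ∃ i, z ∈ T i} := by
  obtain ⟨k, hk⟩ := exists_injective_nat ι
  have := hP.SB_iUnion (S := Set.univ) (key := fun i => Pool.Agent.Lib.MP_5eb18a_lc.num (k i))
    (fun a _ b _ h => hk (num_inj h)) (hP.SB_nat.mono (by rintro _ ⟨i, -, rfl⟩; exact ⟨_, rfl⟩))
    T fun i _ => hT i
  simpa using this

theorem GU.SB_pairs {S T} (h : SB P S) (h' : SB P T) :
    SB P {z | ∃ a ∈ S, ∃ b ∈ T, z = ZFSet.pair a b} := by
  refine (hP.SB_iUnion (key := id) (Set.injOn_id S) (by simpa using h)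
    (fun a => (fun b => ZFSet.pair a b) '' T) fun a ha => hP.SB_image' h' _ fun b hb =>
      hP.pair (hP.of_SB h ha) (hP.of_SB h' hb)).mono ?_
  rintro z ⟨a, ha, b, hb, rfl⟩
  exact ⟨a, ha, b, hb, rfl⟩

end

noncomputable def gr {X : Type w} (S : Set X) (key h : X → ZF.{u}) : ZF.{u} :=
  cset {z | ∃ x ∈ S, z = ZFSet.pair (key x) (h x)}

noncomputable def ap (G k : ZF.{u}) : ZF.{u} :=
  if h : ∃ v, ZFSet.pair k v ∈ G then h.choose else ∅

noncomputable def p1 (z : ZF.{u}) : ZF.{u} :=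
  if h : ∃ a b, z = ZFSet.pair a b then h.choose else ∅

noncomputable def p2 (z : ZF.{u}) : ZF.{u} :=
  if h : ∃ b a, z = ZFSet.pair a b then h.choose else ∅

@[simp] theorem p1_pair (a b : ZF.{u}) : p1 (ZFSet.pair a b) = a := by
  have h : ∃ a' b', ZFSet.pair a b = ZFSet.pair a' b' := ⟨a, b, rfl⟩
  rw [p1, dif_pos h]
  obtain ⟨_, h2⟩ := h.choose_spec
  exact (ZFSet.pair_inj.1 h2).1.symm

@[simp] theorem p2_pair (a b : ZF.{u}) : p2 (ZFSet.pair a b) = b := by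
  have h : ∃ b' a', ZFSet.pair a b = ZFSet.pair a' b' := ⟨b, a, rfl⟩
  rw [p2, dif_pos h]
  obtain ⟨_, h2⟩ := h.choose_spec
  exact (ZFSet.pair_inj.1 h2).2.symm

theorem gr_congr {X : Type w} {S S' : Set X} {key h h' : X → ZF.{u}} (hS : S = S')
    (hh : ∀ x ∈ S, h x = h' x) : gr S key h = gr S' key h' := by
  subst hS
  unfold gr
  congr 1
  ext z
  constructor
  · rintro ⟨x, hx, rfl⟩; exact ⟨x, hx, by rw [hh x hx]⟩
  · rintro ⟨x, hx, rfl⟩; exact ⟨x, hx, by rw [hh x hx]⟩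

section
variable {P : ZF.{u} → Prop} (hP : GU P)
include hP

theorem GU.SB_gr {X : Type w} {S : Set X} {key h : X → ZF.{u}} (hk : Set.InjOn key S)
    (hS : SB P (key '' S)) (hh : ∀ x ∈ S, P (h x)) :
    SB P {z | ∃ x ∈ S, z = ZFSet.pair (key x) (h x)} :=
  (hP.SB_image hk hS (fun x => ZFSet.pair (key x) (h x)) fun x hx =>
    hP.pair (hP.of_SB hS ⟨x, hx, rfl⟩) (hh x hx)).mono fun _ ⟨x, hx, h⟩ => ⟨x, hx, h.symm⟩

theorem GU.gr {X : Type w} {S : Set X} {key h : X → ZF.{u}} (hk : Set.InjOn key S)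
    (hS : SB P (key '' S)) (hh : ∀ x ∈ S, P (h x)) : P (gr S key h) :=
  hP.cset (hP.SB_gr hk hS hh)

theorem GU.SB_snd {S} (h : SB P S) : SB P ({∅} ∪ {b | ∃ a, ZFSet.pair a b ∈ S}) := by
  refine hP.SB_union (hP.SB_single hP.empty) ((hP.SB_sUnion (hP.SB_sUnion h)).mono ?_)
  rintro b ⟨a, hab⟩
  exact ⟨{a, b}, ⟨_, hab, by simp [ZFSet.pair]⟩, by simp⟩

theorem GU.SB_fst {S} (h : SB P S) : SB P ({∅} ∪ {a | ∃ b, ZFSet.pair a b ∈ S}) := by
  refine hP.SB_union (hP.SB_single hP.empty) ((hP.SB_sUnion (hP.SB_sUnion h)).mono ?_)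
  rintro a ⟨b, hab⟩
  exact ⟨{a, b}, ⟨_, hab, by simp [ZFSet.pair]⟩, by simp⟩

theorem GU.SB_ap {S} (h : SB P S) : SB P {z | ∃ G ∈ S, ∃ k, z = ap G k} := by
  refine (hP.SB_snd (hP.SB_sUnion h)).mono ?_
  rintro _ ⟨G, hG, k, rfl⟩
  unfold ap
  split_ifs with h
  · exact Or.inr ⟨k, G, hG, h.choose_spec⟩
  · exact Or.inl rfl

theorem GU.ap {G} (h : P G) (k) : P (ap G k) :=
  hP.of_SB (hP.SB_ap (hP.SB_single h)) ⟨G, rfl, k, rfl⟩

theorem GU.p1 {z} (h : P z) : P (p1 z) := by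
  refine hP.of_SB (hP.SB_fst (hP.SB_single h)) ?_
  unfold Pool.Agent.Lib.MP_5eb18a_lc.p1
  split_ifs with h
  · obtain ⟨b, hb⟩ := h.choose_spec
    exact Or.inr ⟨b, hb.symm⟩
  · exact Or.inl rfl

theorem GU.p2 {z} (h : P z) : P (p2 z) := by
  refine hP.of_SB (hP.SB_snd (hP.SB_single h)) ?_
  unfold Pool.Agent.Lib.MP_5eb18a_lc.p2
  split_ifs with h
  · obtain ⟨b, hb⟩ := h.choose_spec
    exact Or.inr ⟨b, hb.symm⟩
  · exact Or.inl rfl

/-- graphs with bounded keys and bounded values -/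
theorem GU.SB_grs {X : Type w} {S : Set X} {key : X → ZF.{u}} {T : Set ZF.{u}}
    (hS : SB P (key '' S)) (hT : SB P T) :
    SB P {G | ∃ h : X → ZF.{u}, (∀ x ∈ S, h x ∈ T) ∧ G = Pool.Agent.Lib.MP_5eb18a_lc.gr S key h} := by
  refine (hP.SB_subsets (hP.SB_pairs hS hT)).mono ?_
  rintro _ ⟨h, hh, rfl⟩ y hy
  obtain ⟨x, hx, rfl⟩ := mem_of_mem_cset hy
  exact ⟨_, ⟨x, hx, rfl⟩, _, hh x hx, rfl⟩

end

theorem ap_gr {X : Type w} {S : Set X} {key h : X → ZF.{u}} (hk : Set.InjOn key S)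
    (hS : SB PT (key '' S)) {x} (hx : x ∈ S) : ap (gr S key h) (key x) = h x := by
  have hb := gu_top.SB_gr (h := h) hk hS fun _ _ => trivial
  have he : ∃ v, ZFSet.pair (key x) v ∈ gr S key h := ⟨h x, (mem_cset hb).2 ⟨x, hx, rfl⟩⟩
  rw [ap, dif_pos he]
  obtain ⟨x', hx', h2⟩ := (mem_cset hb).1 he.choose_spec
  obtain ⟨h3, h4⟩ := ZFSet.pair_inj.1 h2
  rw [h4, hk hx hx' h3]

def IsGr {X : Type w} (S : Set X) (key : X → ZF.{u}) (G : ZF.{u}) : Prop := ∃ h, G = gr S key h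

theorem IsGr.eq {X : Type w} {S : Set X} {key : X → ZF.{u}} {G : ZF.{u}} (h : IsGr S key G)
    (hk : Set.InjOn key S) (hS : SB PT (key '' S)) : G = gr S key fun x => ap G (key x) := by
  obtain ⟨h, rfl⟩ := h
  exact gr_congr rfl fun x hx => (ap_gr hk hS hx).symm

section
variable {D : Type} [PartialOrder D] [Countable D]

instance : Countable (Ob D) :=
  (show Function.Injective fun c : Ob D => (c.n, c.x) from by
    rintro ⟨a, b⟩ ⟨c, d⟩ h; cases h; rfl).countable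

instance (c' c : Ob D) : Countable (Ar c' c) :=
  (show Function.Injective fun f : Ar c' c => f.f from fun _ _ h => Ar.ext h).countable

instance (c : Ob D) : Countable (Iv c) :=
  (show Function.Injective fun f : Iv c => f.r from fun _ _ h => Iv.ext h).countable

/-- keys for countable types -/
noncomputable def ckey (X : Type) [Countable X] (x : X) : ZF.{u} :=
  num ((exists_injective_nat X).choose x)

theorem ckey_inj (X : Type) [Countable X] : Function.Injective (ckey.{u} X) :=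
  fun _ _ h => (exists_injective_nat X).choose_spec (num_inj h)

theorem GU.SB_ckey {P : ZF.{u} → Prop} (hP : GU P) (X : Type) [Countable X] (S : Set X) :
    SB P (ckey X '' S) := hP.SB_nat.mono (by rintro _ ⟨i, -, rfl⟩; exact ⟨_, rfl⟩)

abbrev Arr (c : Ob D) := Σ c', Ar c' c

noncomputable def enc {c : Ob D} (v : Val ZF.{u} c) : ZF.{u} :=
  gr Set.univ (ckey (Arr c)) fun a => v a.1 a.2

theorem ap_enc {c : Ob D} (v : Val ZF.{u} c) (c') (g : Ar c' c) :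
    ap (enc v) (ckey (Arr c) ⟨c', g⟩) = v c' g :=
  ap_gr (ckey_inj _).injOn (gu_top.SB_ckey _ _) (Set.mem_univ _)

theorem enc_inj {c : Ob D} : Function.Injective (enc : Val ZF.{u} c → ZF.{u}) := by
  intro v v' h
  funext c' g
  rw [← ap_enc v, ← ap_enc v', h]

/-- all heads of a set of values -/
def heads {c : Ob D} (S : Set (Val ZF.{u} c)) : Set ZF.{u} := {z | ∃ v ∈ S, ∃ c' g, z = v c' g}

variable {P : ZF.{u} → Prop}

theorem GU.SB_enc (hP : GU P) {c : Ob D} {S : Set (Val ZF.{u} c)} (h : SB P (heads S)) :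
    SB P (enc '' S) := by
  refine (hP.SB_grs (hP.SB_ckey (Arr c) Set.univ) h).mono ?_
  rintro _ ⟨v, hv, rfl⟩
  exact ⟨_, fun a _ => ⟨v, hv, a.1, a.2, rfl⟩, rfl⟩

theorem GU.SB_heads (hP : GU P) {c : Ob D} {S : Set (Val ZF.{u} c)} (h : SB P (enc '' S)) :
    SB P (heads S) := by
  refine (hP.SB_ap h).mono ?_
  rintro _ ⟨v, hv, c', g, rfl⟩
  exact ⟨_, ⟨v, hv, rfl⟩, _, (ap_enc v c' g).symm⟩

theorem GU.enc (hP : GU P) {c : Ob D} {v : Val ZF.{u} c} (h : ∀ c' g, P (v c' g)) : P (enc v) :=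
  hP.gr (ckey_inj _).injOn (hP.SB_ckey _ _) fun _ _ => h _ _

theorem GU.of_enc (hP : GU P) {c : Ob D} {v : Val ZF.{u} c} (h : P (Pool.Agent.Lib.MP_5eb18a_lc.enc v))
    (c' g) : P (v c' g) := by
  rw [← ap_enc v c' g]; exact hP.ap h _

end

end Pool.Agent.Lib.MP_5eb18a_lc
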